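import Mathlib

/-! # Elementary geometry: seven complex numbers with few norms of subset sums

If `|1 + ∑_A c_m|` is in the finite set `R` for all sets `A` of the seven indices, then one of
the numbers `1 + ∑_A c_m`, `A` not empty, is not zero and in a set `F(R)` whose size is bounded in
terms of the size of `R`. -/

set_option autoImplicit false

namespace Pool.Agent.DI

namespace Geo41

open Finset

/-- scalar product -/
def dt (a b : ℂ) : ℝ := a.re * b.re + a.im * b.im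

/-- cross product -/
def cr (a b : ℂ) : ℝ := a.re * b.im - a.im * b.re

theorem dt_sub (a b c d : ℂ) : dt a c * dt b d - dt a d * dt b c = cr a b * cr c d := by
  unfold dt cr
  ring

theorem dt_cr (a b c : ℂ) : dt a b * dt c c = dt a c * dt b c + cr a c * cr b c := by
  unfold dt cr
  ring

theorem dt_comm (a b : ℂ) : dt a b = dt b a := by
  unfold dt
  ring

theorem dt_self_pos {a : ℂ} (h : a ≠ 0) : 0 < dt a a := by
  have h1 := Complex.normSq_pos.2 h
  rwa [Complex.normSq_apply] at h1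

theorem dt_ne_zero {a b : ℂ} (ha : a ≠ 0) (hb : b ≠ 0) (h : cr a b = 0) : dt a b ≠ 0 := by
  intro h0
  have h1 := dt_cr a a b
  rw [h0, h] at h1
  have h2 := mul_pos (dt_self_pos ha) (dt_self_pos hb)
  rw [h1] at h2
  simp at h2

variable (ν : Finset (Fin 7) → ℝ)

/-- the scalar product of `c_m` and `c_n` in terms of the lengths -/
noncomputable def kk (m n : Fin 7) : ℝ := (ν {m, n} ^ 2 - ν {m} ^ 2 - ν {n} ^ 2 + 1) / 2

/-- candidates for `|c_t| ^ 2` -/
noncomputable def sv (t m l n k : Fin 7) (j : Fin 3) : ℝ :=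
  if j = 0 then kk ν m n * kk ν l n / kk ν m l
  else if j = 1 then
    (kk ν m n * kk ν k t * kk ν l t + kk ν k l * kk ν m t * kk ν n t -
      kk ν m k * kk ν n t * kk ν l t - kk ν n l * kk ν m t * kk ν k t) /
      (kk ν m n * kk ν k l - kk ν m k * kk ν n l)
  else ν {m, t} ^ 2

/-- the two numbers `c` with `|c| ^ 2 = s` and `|1 + c| = ν {t}` -/
noncomputable def cand (t : Fin 7) (s : ℝ) (b : Bool) : ℂ :=
  ⟨(ν {t} ^ 2 - 1 - s) / 2,
    (if b then 1 else -1) * Real.sqrt (s - ((ν {t} ^ 2 - 1 - s) / 2) ^ 2)⟩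

/-- the choices -/
abbrev Ch : Type := Fin 7 × Fin 7 × Fin 7 × Fin 7 × Fin 7 × Fin 3 × Bool × Bool

/-- the candidates -/
noncomputable def val (p : Ch) : ℂ :=
  (if p.2.2.2.2.2.2.1 then 1 else 0) +
    cand ν p.1 (sv ν p.1 p.2.1 p.2.2.1 p.2.2.2.1 p.2.2.2.2.1 p.2.2.2.2.2.1) p.2.2.2.2.2.2.2

variable {ν} {c : Fin 7 → ℂ}

theorem nu_sq (h : ∀ A, ν A = ‖1 + ∑ m ∈ A, c m‖) (A : Finset (Fin 7)) :
    ν A ^ 2 = (1 + (∑ m ∈ A, c m).re) ^ 2 + (∑ m ∈ A, c m).im ^ 2 := by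
  rw [h A, ← Complex.normSq_eq_norm_sq, Complex.normSq_apply]
  simp only [Complex.add_re, Complex.one_re, Complex.add_im, Complex.one_im, zero_add]
  ring

theorem nu_one (h : ∀ A, ν A = ‖1 + ∑ m ∈ A, c m‖) (t : Fin 7) :
    ν {t} ^ 2 = 1 + 2 * (c t).re + dt (c t) (c t) := by
  rw [nu_sq h, sum_singleton]
  unfold dt
  ring

theorem kk_eq (h : ∀ A, ν A = ‖1 + ∑ m ∈ A, c m‖) {m n : Fin 7} (hmn : m ≠ n) :
    kk ν m n = dt (c m) (c n) := by
  have h1 := nu_one h m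
  have h2 := nu_one h n
  have h3 := nu_sq h {m, n}
  rw [sum_pair hmn] at h3
  unfold kk
  rw [h1, h2, h3]
  simp only [Complex.add_re, Complex.add_im]
  unfold dt
  ring

theorem cand_eq (h : ∀ A, ν A = ‖1 + ∑ m ∈ A, c m‖) {t : Fin 7} {s : ℝ}
    (hs : dt (c t) (c t) = s) : ∃ b, cand ν t s b = c t := by
  have h1 := nu_one h t
  have h2 : (ν {t} ^ 2 - 1 - s) / 2 = (c t).re := by
    rw [h1, hs]
    ring
  have h3 : s - ((ν {t} ^ 2 - 1 - s) / 2) ^ 2 = (c t).im ^ 2 := by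
    rw [h2, ← hs]
    unfold dt
    ring
  rcases le_total 0 (c t).im with h4 | h4
  · refine ⟨true, ?_⟩
    unfold cand
    rw [h3, h2, Real.sqrt_sq_eq_abs, abs_of_nonneg h4]
    apply Complex.ext <;> simp
  · refine ⟨false, ?_⟩
    unfold cand
    rw [h3, h2, Real.sqrt_sq_eq_abs, abs_of_nonpos h4]
    apply Complex.ext <;> simp

/-- if the length of some `c_t` is a candidate we are done -/
theorem done_of_len (h : ∀ A, ν A = ‖1 + ∑ m ∈ A, c m‖) (h0 : ∀ t, c t ≠ 0)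
    {t m l n k : Fin 7} {j : Fin 3} (hs : dt (c t) (c t) = sv ν t m l n k j) :
    ∃ A : Finset (Fin 7), A.Nonempty ∧ 1 + ∑ m ∈ A, c m ≠ 0 ∧
      ∃ p : Ch, val ν p = 1 + ∑ m ∈ A, c m := by
  by_cases hc : c t = -1
  · obtain ⟨u, hu⟩ : ∃ u : Fin 7, u ≠ t := exists_ne t
    have h1 : ν {t, u} ^ 2 = dt (c u) (c u) := by
      rw [nu_sq h, sum_pair hu.symm, hc]
      unfold dt
      simp only [Complex.add_re, Complex.add_im, Complex.neg_re, Complex.neg_im, Complex.one_re,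
        Complex.one_im]
      ring
    have h2 : dt (c u) (c u) = sv ν u t l n k 2 := by
      rw [← h1]
      unfold sv
      simp
    obtain ⟨b, hb⟩ := cand_eq h h2
    have h3 : 1 + ∑ m ∈ ({t, u} : Finset (Fin 7)), c m = c u := by
      rw [sum_pair hu.symm, hc]
      ring
    refine ⟨{t, u}, insert_nonempty _ _, by rw [h3]; exact h0 u, ⟨u, t, l, n, k, 2, false, b⟩, ?_⟩
    rw [h3, ← hb]
    unfold val
    simp
  · obtain ⟨b, hb⟩ := cand_eq h hs
    refine ⟨{t}, singleton_nonempty t, ?_, ⟨t, m, l, n, k, j, true, b⟩, ?_⟩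
    · rw [sum_singleton]
      intro h4
      apply hc
      linear_combination h4
    · rw [sum_singleton, ← hb]
      unfold val
      simp

/-- three pairwise parallel vectors -/
theorem len_par (h : ∀ A, ν A = ‖1 + ∑ m ∈ A, c m‖) (h0 : ∀ t, c t ≠ 0) {t m l : Fin 7}
    (htm : t ≠ m) (htl : t ≠ l) (hml : m ≠ l) (h1 : cr (c m) (c t) = 0)
    (h2 : cr (c m) (c l) = 0) (k : Fin 7) :
    dt (c t) (c t) = sv ν t m l t k 0 := by
  have h3 := dt_cr (c m) (c l) (c t)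
  rw [h1, zero_mul, add_zero] at h3
  have h4 := dt_ne_zero (h0 m) (h0 l) h2
  unfold sv
  rw [if_pos rfl, kk_eq h htm.symm, kk_eq h htl.symm, kk_eq h hml, eq_div_iff h4]
  linarith

/-- two pairs which are not parallel -/
theorem len_ind (h : ∀ A, ν A = ‖1 + ∑ m ∈ A, c m‖) (h0 : ∀ t, c t ≠ 0) {t m l n k : Fin 7}
    (hmn : m ≠ n) (hkl : k ≠ l) (hmk : m ≠ k) (hnl : n ≠ l) (hmt : m ≠ t) (hlt : l ≠ t)
    (hnt : n ≠ t) (hkt : k ≠ t) (h1 : cr (c m) (c l) ≠ 0) (h2 : cr (c n) (c k) ≠ 0) :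
    dt (c t) (c t) = sv ν t m l n k 1 := by
  have hN := dt_self_pos (h0 t)
  have e1 := dt_cr (c m) (c n) (c t)
  have e2 := dt_cr (c k) (c l) (c t)
  have e3 := dt_cr (c m) (c k) (c t)
  have e4 := dt_cr (c n) (c l) (c t)
  have e5 := dt_sub (c m) (c l) (c n) (c k)
  have e6 : dt (c m) (c n) * dt (c k) (c l) - dt (c m) (c k) * dt (c n) (c l) ≠ 0 := by
    rw [dt_comm (c k) (c l), dt_comm (c n) (c l), e5]
    exact mul_ne_zero h1 h2
  unfold sv
  rw [if_neg (by decide), if_pos rfl, kk_eq h hmn, kk_eq h hkl, kk_eq h hmk, kk_eq h hnl,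
    kk_eq h hmt, kk_eq h hlt, kk_eq h hnt, kk_eq h hkt, eq_div_iff e6]
  apply mul_left_cancel₀ hN.ne'
  have e7 : (dt (c m) (c n) * dt (c t) (c t) - dt (c m) (c t) * dt (c n) (c t)) *
      (dt (c k) (c l) * dt (c t) (c t) - dt (c k) (c t) * dt (c l) (c t)) =
      (dt (c m) (c k) * dt (c t) (c t) - dt (c m) (c t) * dt (c k) (c t)) *
      (dt (c n) (c l) * dt (c t) (c t) - dt (c n) (c t) * dt (c l) (c t)) := by
    rw [e1, e2, e3, e4]
    ring
  linear_combination e7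

theorem main_aux (h : ∀ A, ν A = ‖1 + ∑ m ∈ A, c m‖) (h0 : ∀ t, c t ≠ 0) :
    ∃ (t m l n k : Fin 7) (j : Fin 3), dt (c t) (c t) = sv ν t m l n k j := by
  by_cases ha : cr (c 1) (c 0) = 0 ∧ cr (c 1) (c 2) = 0
  · exact ⟨0, 1, 2, 0, 0, 0, len_par h h0 (by decide) (by decide) (by decide) ha.1 ha.2 0⟩
  by_cases hb : cr (c 4) (c 3) = 0 ∧ cr (c 4) (c 5) = 0
  · exact ⟨3, 4, 5, 3, 0, 0, len_par h h0 (by decide) (by decide) (by decide) hb.1 hb.2 0⟩
  rw [not_and_or] at ha hb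
  rcases ha with ha | ha <;> rcases hb with hb | hb
  · exact ⟨6, 1, 0, 4, 3, 1, len_ind h h0 (by decide) (by decide) (by decide) (by decide)
      (by decide) (by decide) (by decide) (by decide) ha hb⟩
  · exact ⟨6, 1, 0, 4, 5, 1, len_ind h h0 (by decide) (by decide) (by decide) (by decide)
      (by decide) (by decide) (by decide) (by decide) ha hb⟩
  · exact ⟨6, 1, 2, 4, 3, 1, len_ind h h0 (by decide) (by decide) (by decide) (by decide)
      (by decide) (by decide) (by decide) (by decide) ha hb⟩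
  · exact ⟨6, 1, 2, 4, 5, 1, len_ind h h0 (by decide) (by decide) (by decide) (by decide)
      (by decide) (by decide) (by decide) (by decide) ha hb⟩

/-- **(5)** -/
theorem exists_val : ∃ f : ℕ → ℕ, ∀ R : Finset ℝ, ∃ S : Finset ℂ, S.card ≤ f R.card ∧
    ∀ c : Fin 7 → ℂ, (∀ A : Finset (Fin 7), ‖1 + ∑ m ∈ A, c m‖ ∈ R) →
      ∃ A : Finset (Fin 7), A.Nonempty ∧ 1 + ∑ m ∈ A, c m ≠ 0 ∧ 1 + ∑ m ∈ A, c m ∈ S := by
  classical
  refine ⟨fun r => r ^ Fintype.card (Finset (Fin 7)) * Fintype.card Ch + 1, fun R => ?_⟩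
  refine ⟨insert 1 (((Fintype.piFinset fun _ : Finset (Fin 7) => R) ×ˢ (univ : Finset Ch)).image
    fun p => val p.1 p.2), ?_, ?_⟩
  · refine (card_insert_le _ _).trans (Nat.succ_le_succ ?_)
    refine card_image_le.trans ?_
    rw [card_product, Fintype.card_piFinset, prod_const, card_univ, card_univ]
  · intro c hc
    by_cases h0 : ∃ t, c t = 0
    · obtain ⟨t, ht⟩ := h0
      refine ⟨{t}, singleton_nonempty t, ?_, ?_⟩
      · rw [sum_singleton, ht, add_zero]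
        exact one_ne_zero
      · rw [sum_singleton, ht, add_zero]
        exact mem_insert_self _ _
    · have h0' : ∀ t, c t ≠ 0 := fun t ht => h0 ⟨t, ht⟩
      obtain ⟨t, m, l, n, k, j, hs⟩ :=
        main_aux (ν := fun A => ‖1 + ∑ m ∈ A, c m‖) (fun _ => rfl) h0'
      obtain ⟨A, hA, h1, p, hp⟩ :=
        done_of_len (ν := fun A => ‖1 + ∑ m ∈ A, c m‖) (fun _ => rfl) h0' hs
      refine ⟨A, hA, h1, mem_insert_of_mem (mem_image.2 ⟨(_, p), ?_, hp⟩)⟩
      rw [mem_product]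
      exact ⟨Fintype.mem_piFinset.2 hc, mem_univ _⟩

end Geo41

theorem geo : ∃ f : ℕ → ℕ, ∀ R : Finset ℝ, ∃ F : Finset ℂ, F.card ≤ f R.card ∧ (0 : ℂ) ∉ F ∧
    ∀ c : Fin 7 → ℂ, (∀ A : Finset (Fin 7), ‖1 + ∑ m ∈ A, c m‖ ∈ R) →
      ∃ A : Finset (Fin 7), A.Nonempty ∧ 1 + ∑ m ∈ A, c m ∈ F := by
  classical
  obtain ⟨f, hf⟩ := Geo41.exists_val
  refine ⟨f, fun R => ?_⟩
  obtain ⟨S, hS, h⟩ := hf R
  refine ⟨S.erase 0, (Finset.card_le_card (Finset.erase_subset _ _)).trans hS,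
    Finset.notMem_erase _ _, fun c hc => ?_⟩
  obtain ⟨A, hA, h0, h1⟩ := h c hc
  exact ⟨A, hA, Finset.mem_erase.2 ⟨h0, h1⟩⟩

end Pool.Agent.DI
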