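import Pool.Agent.DI.OrbL
import Pool.Agent.DI.Geo

/-! # Two near vertices in a cube of dimension seven -/

namespace Pool.Agent.DI

open Pool.Agent.QN Pool.Agent.QS

/-- change of the base vertex of a cube -/
theorem cube_rebase {M : Type} [AddCommGroup M] (y : M) (w : Fin 7 → M) (A A0 : Finset (Fin 7)) :
    y + ∑ m ∈ symmDiff A A0, w m =
      (y + ∑ m ∈ A0, w m) + ∑ m ∈ A, if m ∈ A0 then - w m else w m := by
  classical
  rw [add_assoc]
  congr 1
  rw [← Finset.sum_filter_add_sum_filter_not A (fun m => m ∈ A0)]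
  have h1 : ∑ m ∈ A with m ∈ A0, (if m ∈ A0 then - w m else w m) = - ∑ m ∈ A ∩ A0, w m := by
    rw [← Finset.sum_neg_distrib, Finset.filter_mem_eq_inter]
    refine Finset.sum_congr rfl fun m hm => ?_
    rw [if_pos (Finset.mem_inter.1 hm).2]
  have h2 : ∑ m ∈ A with m ∉ A0, (if m ∈ A0 then - w m else w m) = ∑ m ∈ A \ A0, w m := by
    rw [Finset.filter_notMem_eq_sdiff]
    refine Finset.sum_congr rfl fun m hm => ?_
    rw [if_neg (Finset.mem_sdiff.1 hm).2]
  have h3 : ∑ m ∈ A0, w m = ∑ m ∈ A0 \ A, w m + ∑ m ∈ A ∩ A0, w m := by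
    rw [Finset.inter_comm, ← Finset.sum_union (Finset.disjoint_sdiff_inter A0 A),
      Finset.sdiff_union_inter]
  have h4 : symmDiff A A0 = (A \ A0) ∪ (A0 \ A) := rfl
  rw [h1, h2, h3, h4, Finset.sum_union]
  · abel
  · exact disjoint_sdiff_sdiff

theorem cube (e : ℕ) : ∃ B : ℕ, 0 < B ∧ ∀ (K Q M Γ : Type) [Field K] [CharZero K] [Field Q] [Field M]
    [Algebra K Q] [Algebra K M] [Algebra Q M] [IsScalarTower K Q M]
    [LinearOrderedCommGroupWithZero Γ] [FiniteDimensional Q M] [IsGalois Q M]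
    (v : Valuation M Γ) (π : Γ), Plc K Q v π → ∀ (i : K →+* ℂ) (y : M) (w : Fin 7 → M),
    (∀ A : Finset (Fin 7), PB Q v π e (y + ∑ m ∈ A, w m)) →
    (∃ (A : Finset (Fin 7)) (g : M ≃ₐ[Q] M), 1 < v (g (y + ∑ m ∈ A, w m))) →
    ∃ A A' : Finset (Fin 7), A ≠ A' ∧
      Near (M ≃ₐ[Q] M) B (y + ∑ m ∈ A, w m) (y + ∑ m ∈ A', w m) := by
  classical
  obtain ⟨f, hf⟩ := geo
  set B0 : ℕ := (Finset.range (2 ^ 7 * (e + 1) + 1)).sup f with hB0
  refine ⟨2 ^ 7 * B0 * e ^ 2 + 1, Nat.succ_pos _, ?_⟩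
  intro K Q M Γ _ _ _ _ _ _ _ _ _ _ _ v π h i y w hPB ⟨A1, g1, hpole⟩
  have hinf : Infinite K := inferInstance
  set Y : Finset (Fin 7) → M := fun A => y + ∑ m ∈ A, w m with hY
  have hPB' : ∀ A, PB Q v π e (Y A) := hPB
  -- a vertex and a conjugate with the biggest value
  obtain ⟨⟨s0, A0⟩, hmax⟩ := Finite.exists_max
    (fun p : (M ≃ₐ[Q] M) × Finset (Fin 7) => v (p.1 (Y p.2)))
  have hmax' : ∀ (s : M ≃ₐ[Q] M) (A : Finset (Fin 7)), v (s (Y A)) ≤ v (s0 (Y A0)) :=
    fun s A => hmax (s, A)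
  set z0 : M := s0 (Y A0) with hz0
  have hρ : 1 < v z0 := lt_of_lt_of_le hpole (hmax' g1 A1)
  have hz0n : z0 ≠ 0 := by
    intro h0
    rw [h0, map_zero] at hρ
    exact absurd hρ (not_lt.2 zero_le_one)
  -- the other vertices
  set w' : Fin 7 → M := fun m => if m ∈ A0 then - w m else w m with hw'
  have hYA : ∀ A, Y (symmDiff A A0) = Y A0 + ∑ m ∈ A, w' m := fun A => cube_rebase y w A A0
  have hvw : ∀ (s : M ≃ₐ[Q] M) (m : Fin 7), v (s (w' m)) ≤ v z0 := by
    intro s m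
    have h1 : w' m = Y (symmDiff {m} A0) - Y A0 := by
      rw [hYA, Finset.sum_singleton, add_sub_cancel_left]
    rw [h1, map_sub]
    exact (v.map_sub _ _).trans (max_le (hmax' s _) (hmax' s _))
  -- the leading coefficients
  have hlam : ∀ g : M ≃ₐ[Q] M, g (Y A0) = Y A0 → ∀ A : Finset (Fin 7),
      lam K v z0 (s0 (g (Y (symmDiff A A0)))) = 1 + ∑ m ∈ A, lam K v z0 (s0 (g (w' m))) := by
    intro g hg A
    rw [hYA, map_add, hg, map_add, map_sum, map_sum, lam_add h hz0n le_rfl, lam_self h hz0n,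
      lam_sum h hz0n]
    · exact fun m _ => hvw (s0 * g) m
    · exact v.map_sum_le fun m _ => hvw (s0 * g) m
  -- the set of the absolute values
  set R : Finset ℝ := (Finset.univ : Finset (Finset (Fin 7))).biUnion fun A =>
    (conjs Q (Y A)).image fun η => ‖i (lam K v z0 η)‖ with hR
  have hRc : R.card ≤ 2 ^ 7 * (e + 1) := by
    refine Finset.card_biUnion_le.trans ?_
    have h1 : ∀ A ∈ (Finset.univ : Finset (Finset (Fin 7))),
        ((conjs Q (Y A)).image fun η => ‖i (lam K v z0 η)‖).card ≤ e + 1 := by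
      intro A _
      have h2 := abs_le h i (hPB' A) hρ
      rw [← Set.ncard_coe_finset, Finset.coe_image]
      exact h2
    refine (Finset.sum_le_card_nsmul _ _ _ h1).trans ?_
    rw [Finset.card_univ, Fintype.card_finset, Fintype.card_fin, smul_eq_mul]
  obtain ⟨F, hFc, hF0, hF⟩ := hf R
  have hFB : F.card ≤ B0 :=
    hFc.trans (Finset.le_sup (f := f) (Finset.mem_range.2 (Nat.lt_succ_of_le hRc)))
  have hcov : ∀ g : M ≃ₐ[Q] M, g (Y A0) = Y A0 → ∃ A : Finset (Fin 7), A.Nonempty ∧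
      i (lam K v z0 (s0 (g (Y (symmDiff A A0))))) ∈ F := by
    intro g hg
    obtain ⟨A, hA, hAF⟩ := hF (fun m => i (lam K v z0 (s0 (g (w' m))))) (by
      intro A
      rw [hR, Finset.mem_biUnion]
      refine ⟨symmDiff A A0, Finset.mem_univ _, Finset.mem_image.2
        ⟨s0 (g (Y (symmDiff A A0))), mem_conjs.2 ⟨s0 * g, rfl⟩, ?_⟩⟩
      rw [hlam g hg, map_add, map_one, map_sum])
    refine ⟨A, hA, ?_⟩
    rw [hlam g hg, map_add, map_one, map_sum]
    exact hAF
  -- counting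
  have hfinG : Fintype (M ≃ₐ[Q] M) := Fintype.ofFinite (M ≃ₐ[Q] M)
  set N : Finset (Fin 7) → ℕ := fun A => Nat.card ((MulAction.stabilizer (M ≃ₐ[Q] M) (Y A0) ⊓
    MulAction.stabilizer (M ≃ₐ[Q] M) (Y (symmDiff A A0)) : Subgroup (M ≃ₐ[Q] M))) with hN
  set T : Finset (Fin 7) → ℂ → Finset (M ≃ₐ[Q] M) := fun A a => Finset.univ.filter fun g : M ≃ₐ[Q] M =>
    g (Y A0) = Y A0 ∧ i (lam K v z0 (s0 (g (Y (symmDiff A A0))))) = a with hT
  have hTc : ∀ A, ∀ a ∈ F, (T A a).card ≤ N A * e ^ 2 := by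
    intro A a ha
    have h1 : (T A a).card ≤ N A * ((T A a).image fun g : M ≃ₐ[Q] M =>
        s0 (g (Y (symmDiff A A0)))).card := by
      refine Finset.card_le_mul_card_image _ _ fun η hη => ?_
      obtain ⟨g0, hg0, hg0η⟩ := Finset.mem_image.1 hη
      have hg0' := (Finset.mem_filter.1 hg0).2
      rw [hN]
      beta_reduce
      rw [Nat.card_eq_fintype_card, ← Finset.card_univ]
      refine Finset.card_le_card_of_injOn (fun g => if hg : g0⁻¹ * g ∈
        (MulAction.stabilizer (M ≃ₐ[Q] M) (Y A0) ⊓ MulAction.stabilizer (M ≃ₐ[Q] M) (Y (symmDiff A A0)) :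
          Subgroup (M ≃ₐ[Q] M)) then ⟨g0⁻¹ * g, hg⟩ else 1) (fun _ _ => Finset.mem_univ _) ?_
      have key : ∀ g ∈ ((T A a).filter fun g => s0 (g (Y (symmDiff A A0))) = η),
          g0⁻¹ * g ∈ (MulAction.stabilizer (M ≃ₐ[Q] M) (Y A0) ⊓
            MulAction.stabilizer (M ≃ₐ[Q] M) (Y (symmDiff A A0)) : Subgroup (M ≃ₐ[Q] M)) := by
        intro g hg
        rw [Finset.mem_filter] at hg
        have hg' := (Finset.mem_filter.1 hg.1).2
        refine Subgroup.mem_inf.2 ⟨?_, ?_⟩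
        · rw [MulAction.mem_stabilizer_iff, mul_smul, inv_smul_eq_iff]
          exact hg'.1.trans hg0'.1.symm
        · rw [MulAction.mem_stabilizer_iff, mul_smul, inv_smul_eq_iff]
          exact s0.injective (hg.2.trans hg0η.symm)
      intro g hg g' hg' hgg
      have h2 := key g (by simpa using hg)
      have h3 := key g' (by simpa using hg')
      beta_reduce at hgg
      rw [dif_pos h2, dif_pos h3] at hgg
      exact mul_left_cancel (congrArg Subtype.val hgg)
    refine h1.trans (Nat.mul_le_mul_left _ ?_)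
    by_cases hT0 : (T A a) = ∅
    · rw [hT0, Finset.image_empty, Finset.card_empty]
      exact Nat.zero_le _
    obtain ⟨g0, hg0⟩ := Finset.nonempty_iff_ne_empty.2 hT0
    have hg0' := (Finset.mem_filter.1 hg0).2
    set b : K := lam K v z0 (s0 (g0 (Y (symmDiff A A0)))) with hb
    have hb0 : b ≠ 0 := by
      intro h0
      rw [h0, map_zero] at hg0'
      exact hF0 (hg0'.2 ▸ ha)
    refine le_trans ?_ (level_le h (hPB' (symmDiff A A0)) hρ b hb0)
    rw [← Set.ncard_coe_finset]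
    refine Set.ncard_le_ncard ?_ ((Finset.finite_toSet (conjs Q (Y (symmDiff A A0)))).subset
      fun η hη => hη.1)
    intro η hη
    rw [Finset.mem_coe] at hη
    obtain ⟨g, hg, rfl⟩ := Finset.mem_image.1 hη
    have hg' := (Finset.mem_filter.1 hg).2
    refine ⟨mem_conjs.2 ⟨s0 * g, rfl⟩, i.injective ?_⟩
    rw [hg'.2, hg0'.2]
  -- the best vertex
  obtain ⟨As, hAs, hAm⟩ := Finset.exists_max_image
    (Finset.univ.filter fun A : Finset (Fin 7) => A.Nonempty) N
    ⟨{0}, Finset.mem_filter.2 ⟨Finset.mem_univ _, Finset.singleton_nonempty 0⟩⟩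
  have hAs' := (Finset.mem_filter.1 hAs).2
  refine ⟨A0, symmDiff As A0, ?_, ?_⟩
  · intro h0
    have h1 : symmDiff As A0 = symmDiff ∅ A0 := by
      rw [← h0]
      exact (bot_symmDiff A0).symm
    exact hAs'.ne_empty (symmDiff_left_injective A0 h1)
  · change Nat.card (MulAction.stabilizer (M ≃ₐ[Q] M) (Y A0)) ≤ (2 ^ 7 * B0 * e ^ 2 + 1) * N As
    have h1 : Nat.card (MulAction.stabilizer (M ≃ₐ[Q] M) (Y A0)) =
        (Finset.univ.filter fun g : M ≃ₐ[Q] M => g (Y A0) = Y A0).card := by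
      rw [Nat.card_eq_fintype_card, ← Finset.card_univ]
      refine Finset.card_bij (fun g _ => (g : M ≃ₐ[Q] M)) ?_ ?_ ?_
      · intro g _
        exact Finset.mem_filter.2 ⟨Finset.mem_univ _, g.2⟩
      · intro g _ g' _ h2
        exact Subtype.ext h2
      · intro g hg
        exact ⟨⟨g, (Finset.mem_filter.1 hg).2⟩, Finset.mem_univ _, rfl⟩
    have h2 : (Finset.univ.filter fun g : M ≃ₐ[Q] M => g (Y A0) = Y A0) ⊆
        ((Finset.univ.filter fun A : Finset (Fin 7) => A.Nonempty) ×ˢ F).biUnion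
          fun p => T p.1 p.2 := by
      intro g hg
      have hg' := (Finset.mem_filter.1 hg).2
      obtain ⟨A, hA, hAF⟩ := hcov g hg'
      refine Finset.mem_biUnion.2 ⟨(A, _), Finset.mem_product.2
        ⟨Finset.mem_filter.2 ⟨Finset.mem_univ _, hA⟩, hAF⟩, ?_⟩
      exact Finset.mem_filter.2 ⟨Finset.mem_univ _, hg', rfl⟩
    rw [h1]
    refine (Finset.card_le_card h2).trans (Finset.card_biUnion_le.trans ?_)
    have h3 : ∀ p ∈ ((Finset.univ.filter fun A : Finset (Fin 7) => A.Nonempty) ×ˢ F),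
        (T p.1 p.2).card ≤ N As * e ^ 2 := by
      intro p hp
      rw [Finset.mem_product] at hp
      exact (hTc p.1 p.2 hp.2).trans (Nat.mul_le_mul_right _ (hAm p.1 hp.1))
    refine (Finset.sum_le_card_nsmul _ _ _ h3).trans ?_
    rw [Finset.card_product, smul_eq_mul]
    have h4 : (Finset.univ.filter fun A : Finset (Fin 7) => A.Nonempty).card ≤ 2 ^ 7 := by
      refine (Finset.card_filter_le _ _).trans ?_
      rw [Finset.card_univ, Fintype.card_finset, Fintype.card_fin]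
    calc _ ≤ 2 ^ 7 * B0 * (N As * e ^ 2) :=
          Nat.mul_le_mul_right _ (Nat.mul_le_mul h4 hFB)
      _ = (2 ^ 7 * B0 * e ^ 2) * N As := by ring
      _ ≤ (2 ^ 7 * B0 * e ^ 2 + 1) * N As := Nat.mul_le_mul_right _ (Nat.le_succ _)

end Pool.Agent.DI
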