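import Pool.Agent.QN.PFunA
import Pool.Agent.QN.NDefs

/-!
# Definitions for theorem D-infinity
-/

namespace Pool.Agent.DI

open Pool.Agent.QN Pool.Agent.QS

/-- `y'` has at most `B` conjugates over the field of `y` -/
def Near (G : Type) {V : Type} [Group G] [MulAction G V] (B : ℕ) (y y' : V) : Prop :=
  Nat.card (MulAction.stabilizer G y) ≤
    B * Nat.card ((MulAction.stabilizer G y ⊓ MulAction.stabilizer G y' : Subgroup G))

section

variable {M Γ : Type} [Field M] [LinearOrderedCommGroupWithZero Γ]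

/-- the conjugates of `y` -/
noncomputable def conjs (Q : Type) [Field Q] [Algebra Q M] [FiniteDimensional Q M] (y : M) :
    Finset M :=
  (Set.finite_range fun g : M ≃ₐ[Q] M => g y).toFinset

theorem mem_conjs {Q : Type} [Field Q] [Algebra Q M] [FiniteDimensional Q M] {y η : M} :
    η ∈ conjs Q y ↔ ∃ g : M ≃ₐ[Q] M, g y = η := by
  simp [conjs]

/-- a place of `M`: discrete on `Q`, trivial on `K`, with residue field `K` -/
structure Plc (K Q : Type) [Field K] [Field Q] [Algebra K M] [Algebra Q M] (v : Valuation M Γ)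
    (π : Γ) : Prop where
  disc : Disc Q v π
  const : ∀ c : K, c ≠ 0 → v (algebraMap K M c) = 1
  res : ∀ z : M, v z ≤ 1 → ∃ κ : K, v (z - algebraMap K M κ) < 1

/-- the conjugates of `y` have together at most `e` poles at `v` -/
def PB (Q : Type) [Field Q] [Algebra Q M] [FiniteDimensional Q M] (v : Valuation M Γ) (π : Γ)
    (e : ℕ) (y : M) : Prop :=
  (∏ η ∈ conjs Q y, max 1 (v η)) * π ^ e ≤ 1

/-- the value of `z / z0` at the place `v` -/
noncomputable def lam (K : Type) [Field K] [Algebra K M] (v : Valuation M Γ) (z0 z : M) : K := by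
  classical
  exact if h : ∃ κ : K, v (z - algebraMap K M κ * z0) < v z0 then h.choose else 0

end

/-- `X` has degree at most `e` over `K(y)` -/
def SX (K : Type) [Field K] {M : Type} [Field M] [Algebra (A K 1) M] (e : ℕ) (y : M) : Prop :=
  ∃ R : Polynomial (A K 1), R ≠ 0 ∧ (∀ j, (R.coeff j).totalDegree ≤ e) ∧
    Polynomial.aeval y R = 0

/-- the same with `X` replaced by `x` -/
def SXL (K : Type) [Field K] {L : Type} [Field L] [Algebra K L] (e : ℕ) (x y : L) : Prop :=
  ∃ R : Polynomial (A K 1), R ≠ 0 ∧ (∀ j, (R.coeff j).totalDegree ≤ e) ∧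
    Polynomial.eval₂ (MvPolynomial.aeval (R := K) (fun _ : Fin 1 => x)).toRingHom y R = 0

/-- a relation of total degree `≤ d` over `K` -/
def TR (K : Type) [Field K] {L : Type} [Field L] [Algebra K L] (d : ℕ) (y y' : L) : Prop :=
  ∃ P : MvPolynomial (Fin 2) K, P ≠ 0 ∧ P.totalDegree ≤ d ∧ MvPolynomial.aeval ![y, y'] P = 0

end Pool.Agent.DI
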