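import Pool.Agent.DI.Defs

/-! # Degrees -/

set_option autoImplicit false

namespace Pool.Agent.DI

open Pool.Agent.QN Pool.Agent.QS

section

variable {K : Type} [Field K] {M : Type} [Field M] [Algebra K M]

theorem deg_inj {y : M} (hy : ¬ IsAlgebraic K y) : Function.Injective
    (MvPolynomial.aeval (R := K) (fun _ : Fin 1 => y)).toRingHom := by
  have h1 : AlgebraicIndependent K (fun _ : Fin 1 => y) :=
    algebraicIndependent_unique_type_iff.2 hy
  exact h1

/-- evaluation of rational functions at a transcendental element -/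
noncomputable def psi {y : M} (hy : ¬ IsAlgebraic K y) : Q K 1 →+* M :=
  IsFractionRing.lift (A := A K 1) (K := Q K 1) (deg_inj hy)

theorem psi_alg {y : M} (hy : ¬ IsAlgebraic K y) (a : A K 1) :
    psi hy (algebraMap (A K 1) (Q K 1) a) = MvPolynomial.aeval (fun _ : Fin 1 => y) a :=
  IsFractionRing.lift_algebraMap _ a

theorem psi_comp {y : M} (hy : ¬ IsAlgebraic K y) :
    (psi hy).comp (algebraMap (A K 1) (Q K 1)) =
      (MvPolynomial.aeval (R := K) (fun _ : Fin 1 => y)).toRingHom :=
  RingHom.ext fun a => psi_alg hy a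

theorem deg_ev (y z : M) (P : MvPolynomial (Fin 2) K) :
    (MvPolynomial.finSuccEquiv K 1 P).eval₂
      (MvPolynomial.aeval (R := K) (fun _ : Fin 1 => y)).toRingHom z =
      MvPolynomial.aeval ![z, y] P := by
  induction P using MvPolynomial.induction_on with
  | C a =>
    rw [MvPolynomial.finSuccEquiv_apply, MvPolynomial.eval₂Hom_C, RingHom.comp_apply,
      Polynomial.eval₂_C, MvPolynomial.aeval_C]
    exact MvPolynomial.aeval_C _ _
  | add p q hp hq => rw [map_add, Polynomial.eval₂_add, hp, hq, map_add]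
  | mul_X p i hp =>
    rw [map_mul, Polynomial.eval₂_mul, hp, map_mul]
    congr 1
    fin_cases i
    · change (MvPolynomial.finSuccEquiv K 1 (MvPolynomial.X 0)).eval₂ _ z = _
      rw [MvPolynomial.finSuccEquiv_X_zero, Polynomial.eval₂_X]
      change z = MvPolynomial.aeval ![z, y] (MvPolynomial.X 0)
      rw [MvPolynomial.aeval_X]
      rfl
    · change (MvPolynomial.finSuccEquiv K 1 (MvPolynomial.X (Fin.succ 0))).eval₂ _ z = _
      rw [MvPolynomial.finSuccEquiv_X_succ, Polynomial.eval₂_C]
      change MvPolynomial.aeval (fun _ : Fin 1 => y) (MvPolynomial.X 0) =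
        MvPolynomial.aeval ![z, y] (MvPolynomial.X 1)
      rw [MvPolynomial.aeval_X, MvPolynomial.aeval_X]
      rfl

/-- an irreducible relation has the least possible degree -/
theorem degreeOf_le {y z : M} (hy : ¬ IsAlgebraic K y) {P : MvPolynomial (Fin 2) K}
    (hP : Irreducible P) (h0 : MvPolynomial.aeval ![z, y] P = 0) {g : Polynomial (Q K 1)}
    (hg : g ≠ 0) (hgz : g.eval₂ (psi hy) z = 0) : P.degreeOf 0 ≤ g.natDegree := by
  obtain ⟨p, hp⟩ : ∃ p, p = MvPolynomial.finSuccEquiv K 1 P := ⟨_, rfl⟩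
  have hpi : Irreducible p := by
    rw [hp]
    exact (MulEquiv.irreducible_iff (MvPolynomial.finSuccEquiv K 1)).2 hP
  have hdeg : p.natDegree = P.degreeOf 0 := by
    rw [hp]
    exact MvPolynomial.natDegree_finSuccEquiv P
  rw [← hdeg]
  by_cases hd : p.natDegree = 0
  · omega
  have hprim : p.IsPrimitive := hpi.isPrimitive hd
  obtain ⟨_⟩ : Nonempty (NormalizedGCDMonoid (A K 1)) := inferInstance
  have hq : Irreducible (p.map (algebraMap (A K 1) (Q K 1))) :=
    (hprim.irreducible_iff_irreducible_map_fraction_map (K := Q K 1)).1 hpi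
  have hpz : (p.map (algebraMap (A K 1) (Q K 1))).eval₂ (psi hy) z = 0 := by
    rw [Polynomial.eval₂_map, psi_comp, hp, deg_ev, h0]
  rcases hq.isCoprime_or_dvd g with h | h
  · exfalso
    obtain ⟨a, b, hab⟩ := h
    have h1 := congrArg (Polynomial.eval₂ (psi hy) z) hab
    rw [Polynomial.eval₂_add, Polynomial.eval₂_mul, Polynomial.eval₂_mul, hpz, hgz,
      mul_zero, mul_zero, add_zero, Polynomial.eval₂_one] at h1
    exact zero_ne_one h1
  · have h1 := Polynomial.natDegree_le_of_dvd h hg
    rwa [Polynomial.natDegree_map_eq_of_injective (IsFractionRing.injective (A K 1) (Q K 1))] at h1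

/-- an element which is algebraic over the field of `y` -/
theorem exists_irred {y z : M} (hy : ¬ IsAlgebraic K y) {g : Polynomial (Q K 1)}
    (hg : g ≠ 0) (hgz : g.eval₂ (psi hy) z = 0) :
    ∃ P : MvPolynomial (Fin 2) K, Irreducible P ∧ MvPolynomial.aeval ![z, y] P = 0 := by
  obtain ⟨b, hbM, hb⟩ := IsLocalization.integerNormalization_spec (nonZeroDivisors (A K 1)) g
  obtain ⟨G, hGd⟩ : ∃ G, G = IsLocalization.integerNormalization (nonZeroDivisors (A K 1)) g :=
    ⟨_, rfl⟩
  rw [← hGd] at hb
  have hb0 : b ≠ 0 := nonZeroDivisors.ne_zero hbM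
  have hb1 : algebraMap (A K 1) (Q K 1) b ≠ 0 :=
    (map_ne_zero_iff _ (IsFractionRing.injective (A K 1) (Q K 1))).2 hb0
  have hbs : (b • g : Polynomial (Q K 1)) =
      Polynomial.C (algebraMap (A K 1) (Q K 1) b) * g := by
    rw [Algebra.smul_def]
    rfl
  rw [hbs] at hb
  have hG0 : G ≠ 0 := by
    rintro rfl
    rw [Polynomial.map_zero] at hb
    exact (mul_ne_zero (Polynomial.C_ne_zero.2 hb1) hg) hb.symm
  have hGz : G.eval₂ (MvPolynomial.aeval (R := K) (fun _ : Fin 1 => y)).toRingHom z = 0 := by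
    rw [← psi_comp hy, ← Polynomial.eval₂_map, hb, Polynomial.eval₂_mul, hgz, mul_zero]
  obtain ⟨P₀, hP₀⟩ : ∃ P₀, MvPolynomial.finSuccEquiv K 1 P₀ = G :=
    ⟨(MvPolynomial.finSuccEquiv K 1).symm G, AlgEquiv.apply_symm_apply _ _⟩
  have h0 : MvPolynomial.aeval ![z, y] P₀ = 0 := by
    rw [← deg_ev, hP₀, hGz]
  obtain ⟨I, hI⟩ : ∃ I : Ideal (MvPolynomial (Fin 2) K),
      I = RingHom.ker (MvPolynomial.aeval ![z, y] : MvPolynomial (Fin 2) K →ₐ[K] M).toRingHom :=
    ⟨_, rfl⟩
  have hIp : I.IsPrime := by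
    rw [hI]
    exact RingHom.ker_isPrime _
  have hI0 : I ≠ ⊥ := by
    intro h
    have h1 : P₀ ∈ I := by
      rw [hI]
      exact h0
    rw [h, Ideal.mem_bot] at h1
    rw [h1, map_zero] at hP₀
    exact hG0 hP₀.symm
  obtain ⟨P, hP, hPp⟩ := hIp.exists_mem_prime_of_ne_bot hI0
  rw [hI] at hP
  exact ⟨P, hPp.irreducible, hP⟩

end

section

variable {K : Type} [Field K] {M : Type} [Field M] [Algebra K M] [Algebra (A K 1) M]
  [IsScalarTower K (A K 1) M]

theorem deg_rho_inj (K : Type) [Field K] : Function.Injective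
    (MvPolynomial.aeval (R := K) (fun _ : Fin 1 => (Polynomial.X : Polynomial K))) := by
  have h1 : AlgebraicIndependent K (fun _ : Fin 1 => (Polynomial.X : Polynomial K)) :=
    algebraicIndependent_unique_type_iff.2 (Polynomial.transcendental_X K)
  exact h1

theorem deg_rho_le (r : A K 1) :
    (MvPolynomial.aeval (R := K) (fun _ : Fin 1 => (Polynomial.X : Polynomial K)) r).natDegree ≤
      r.totalDegree := by
  rw [MvPolynomial.aeval_def, MvPolynomial.eval₂_eq']
  refine Polynomial.natDegree_sum_le_of_forall_le _ _ fun m hm => ?_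
  rw [Fin.prod_univ_one]
  refine (Polynomial.natDegree_C_mul_X_pow_le _ _).trans ?_
  refine le_trans ?_ (MvPolynomial.le_totalDegree hm)
  rw [Finsupp.sum_fintype _ _ fun _ => rfl, Fin.sum_univ_one]

/-- the variable as an element of `M` -/
noncomputable def xM (K M : Type) [Field K] [Field M] [Algebra (A K 1) M] : M :=
  algebraMap (A K 1) M (MvPolynomial.X 0)

omit [Algebra (A K 1) M] [IsScalarTower K (A K 1) M] in
theorem psi_const {y : M} (hy : ¬ IsAlgebraic K y) (c : K) :
    algebraMap K M c ∈ (psi hy).fieldRange := by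
  refine ⟨algebraMap (A K 1) (Q K 1) (MvPolynomial.C c), ?_⟩
  rw [psi_alg, MvPolynomial.aeval_C]

omit [Algebra (A K 1) M] [IsScalarTower K (A K 1) M] in
theorem psi_self {y : M} (hy : ¬ IsAlgebraic K y) : y ∈ (psi hy).fieldRange := by
  refine ⟨algebraMap (A K 1) (Q K 1) (MvPolynomial.X 0), ?_⟩
  rw [psi_alg, MvPolynomial.aeval_X]

/-- a relation is a polynomial for `X` over the field of `y` -/
theorem poly_X {e : ℕ} {y : M} (hy : ¬ IsAlgebraic K y) (h : SX K e y) :
    ∃ S : Polynomial (psi hy).fieldRange, S ≠ 0 ∧ S.natDegree ≤ e ∧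
      Polynomial.aeval (xM K M) S = 0 := by
  classical
  obtain ⟨R, hR0, hRe, hRy⟩ := h
  let ky : K →+* (psi hy).fieldRange :=
    (algebraMap K M).codRestrict (psi hy).fieldRange.toSubring fun c => psi_const hy c
  let yy : (psi hy).fieldRange := ⟨y, psi_self hy⟩
  let ρ : A K 1 →ₐ[K] Polynomial K := MvPolynomial.aeval (fun _ : Fin 1 => Polynomial.X)
  let S : Polynomial (psi hy).fieldRange :=
    ∑ j ∈ R.support, (ρ (R.coeff j)).map ky * Polynomial.C (yy ^ j)
  have hev : ∀ r : A K 1, Polynomial.aeval (xM K M) ((ρ r).map ky) = algebraMap (A K 1) M r := by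
    intro r
    rw [Polynomial.aeval_def, Polynomial.eval₂_map]
    induction r using MvPolynomial.induction_on with
    | C a =>
      have h1 : ρ (MvPolynomial.C a) = Polynomial.C a := MvPolynomial.aeval_C _ _
      rw [h1, Polynomial.eval₂_C]
      exact IsScalarTower.algebraMap_apply K (A K 1) M a
    | add p q hp hq => rw [map_add, Polynomial.eval₂_add, hp, hq, map_add]
    | mul_X p i hp =>
      have h1 : ρ (MvPolynomial.X i) = Polynomial.X := MvPolynomial.aeval_X _ _
      rw [map_mul, Polynomial.eval₂_mul, hp, map_mul, h1, Polynomial.eval₂_X]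
      have h2 : i = 0 := Subsingleton.elim _ _
      rw [h2]
      rfl
  refine ⟨S, ?_, ?_, ?_⟩
  · intro hS
    obtain ⟨j, hj⟩ : ∃ j, R.coeff j ≠ 0 := by
      by_contra hcon
      push Not at hcon
      exact hR0 (Polynomial.ext fun j => by rw [hcon j, Polynomial.coeff_zero])
    have h1 : ρ (R.coeff j) ≠ 0 := fun h => hj (deg_rho_inj K (by rw [h, map_zero]))
    obtain ⟨n, hn⟩ : ∃ n, (ρ (R.coeff j)).coeff n ≠ 0 := by
      by_contra hcon
      push Not at hcon
      exact h1 (Polynomial.ext fun n => by rw [hcon n, Polynomial.coeff_zero])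
    have h2 : (∑ i ∈ R.support, Polynomial.C ((ρ (R.coeff i)).coeff n) * Polynomial.X ^ i :
        Polynomial K) = 0 := by
      by_contra hne
      apply hy
      refine ⟨_, hne, ?_⟩
      have h3 := congrArg (fun T : Polynomial (psi hy).fieldRange => ((T.coeff n : _) : M)) hS
      simp only [S, Polynomial.finsetSum_coeff, Polynomial.coeff_mul_C, Polynomial.coeff_map,
        Polynomial.coeff_zero] at h3
      rw [map_sum]
      have h4 : ((∑ i ∈ R.support, ky ((ρ (R.coeff i)).coeff n) * yy ^ i :
          (psi hy).fieldRange) : M) = ∑ i ∈ R.support,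
            Polynomial.aeval y (Polynomial.C ((ρ (R.coeff i)).coeff n) * Polynomial.X ^ i) := by
        rw [AddSubmonoidClass.coe_finsetSum]
        refine Finset.sum_congr rfl fun i _ => ?_
        rw [map_mul, Polynomial.aeval_C, map_pow, Polynomial.aeval_X]
        rfl
      rw [← h4, h3]
      rfl
    have h3 := congrArg (fun T : Polynomial K => T.coeff j) h2
    simp only [Polynomial.finsetSum_coeff, Polynomial.coeff_C_mul, Polynomial.coeff_X_pow,
      Polynomial.coeff_zero] at h3
    rw [Finset.sum_eq_single j] at h3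
    · rw [if_pos rfl, mul_one] at h3
      exact hn h3
    · intro i _ hi
      rw [if_neg (Ne.symm hi), mul_zero]
    · intro hj'
      exact absurd (Polynomial.mem_support_iff.2 hj) hj'
  · refine Polynomial.natDegree_sum_le_of_forall_le _ _ fun j _ => ?_
    refine (Polynomial.natDegree_mul_C_le _ _).trans ?_
    exact (Polynomial.natDegree_map_le.trans (deg_rho_le _)).trans (hRe j)
  · have h5 : Polynomial.aeval y R =
        ∑ j ∈ R.support, algebraMap (A K 1) M (R.coeff j) * y ^ j := by
      rw [Polynomial.aeval_def, Polynomial.eval₂_eq_sum, Polynomial.sum_def]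
    rw [map_sum, ← hRy, h5]
    refine Finset.sum_congr rfl fun j _ => ?_
    rw [map_mul, hev, Polynomial.aeval_C]
    rfl

end

section

variable {K : Type} [Field K] {M : Type} [Field M] [Algebra K M]
  [Algebra (A K 1) M] [Algebra (Q K 1) M] [IsScalarTower (A K 1) (Q K 1) M]
  [IsScalarTower K (A K 1) M] [FiniteDimensional (Q K 1) M] [IsGalois (Q K 1) M]

omit [FiniteDimensional (Q K 1) M] [IsGalois (Q K 1) M] in
/-- a subfield which contains `K` and `X` contains `K(X)` -/
theorem deg_Q_le (L : Subfield M) (hK : ∀ c : K, algebraMap K M c ∈ L) (hX : xM K M ∈ L)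
    (q : Q K 1) : algebraMap (Q K 1) M q ∈ L := by
  have h1 : ∀ a : A K 1, algebraMap (A K 1) M a ∈ L := by
    intro a
    induction a using MvPolynomial.induction_on with
    | C c =>
      have h2 := hK c
      rwa [IsScalarTower.algebraMap_apply K (A K 1) M] at h2
    | add p q hp hq =>
      rw [map_add]
      exact add_mem hp hq
    | mul_X p i hp =>
      have h2 : i = 0 := Subsingleton.elim _ _
      rw [map_mul, h2]
      exact mul_mem hp hX
  obtain ⟨a, b, hb, rfl⟩ := IsFractionRing.div_surjective (A := A K 1) q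
  rw [map_div₀, ← IsScalarTower.algebraMap_apply, ← IsScalarTower.algebraMap_apply]
  exact div_mem (h1 a) (h1 b)

/-- the degree of `M` over the field of `y` -/
theorem deg_top {e : ℕ} {y : M} (hy : ¬ IsAlgebraic K y) (h : SX K e y) :
    0 < Module.finrank (psi hy).fieldRange M ∧ Module.finrank (psi hy).fieldRange M ≤
      e * Nat.card (MulAction.stabilizer (M ≃ₐ[Q K 1] M) y) := by
  obtain ⟨S, hS0, hSe, hSx⟩ := poly_X hy h
  have hint : IsIntegral (psi hy).fieldRange (xM K M) :=
    (isAlgebraic_iff_isIntegral).1 ⟨S, hS0, hSx⟩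
  let L1 : IntermediateField (psi hy).fieldRange M :=
    IntermediateField.adjoin (psi hy).fieldRange {xM K M}
  have hL1 : Module.finrank (psi hy).fieldRange L1 ≤ e := by
    rw [IntermediateField.adjoin.finrank hint]
    exact (Polynomial.natDegree_le_natDegree (minpoly.degree_le_of_ne_zero _ _ hS0 hSx)).trans hSe
  have hfd : FiniteDimensional (psi hy).fieldRange L1 :=
    IntermediateField.adjoin.finiteDimensional hint
  have hL1pos : 0 < Module.finrank (psi hy).fieldRange L1 := Module.finrank_pos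
  -- the field `K(X, y)`
  let Ly : IntermediateField (Q K 1) M := IntermediateField.adjoin (Q K 1) {y}
  have hle : Ly.toSubfield ≤ L1.toSubfield := by
    refine Subfield.closure_le.2 ?_
    rintro z (⟨q, rfl⟩ | hz)
    · refine deg_Q_le L1.toSubfield (fun c => ?_) ?_ q
      · exact L1.algebraMap_mem ⟨algebraMap K M c, psi_const hy c⟩
      · exact IntermediateField.mem_adjoin_simple_self _ _
    · rw [Set.mem_singleton_iff] at hz
      rw [hz]
      exact L1.algebraMap_mem ⟨y, psi_self hy⟩
  have h1 : Subfield.relfinrank Ly.toSubfield L1.toSubfield * Module.finrank L1.toSubfield M =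
      Module.finrank Ly.toSubfield M := Subfield.relfinrank_mul_finrank_top hle
  have h2 : Module.finrank Ly.toSubfield M =
      Nat.card (MulAction.stabilizer (M ≃ₐ[Q K 1] M) y) := by
    have h3 : IntermediateField.fixedField (IntermediateField.fixingSubgroup Ly) = Ly :=
      IsGalois.fixedField_fixingSubgroup Ly
    have h4 : Module.finrank Ly M = Nat.card (IntermediateField.fixingSubgroup Ly) := by
      rw [← IntermediateField.finrank_fixedField_eq_card, h3]
    have h5 : IntermediateField.fixingSubgroup Ly =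
        MulAction.stabilizer (M ≃ₐ[Q K 1] M) y := by
      refine le_antisymm (fun g hg => ?_) ?_
      · rw [IntermediateField.mem_fixingSubgroup_iff] at hg
        exact hg y (IntermediateField.mem_adjoin_simple_self _ _)
      · refine (IntermediateField.le_iff_le _ _).1 (IntermediateField.adjoin_simple_le_iff.2 ?_)
        exact fun g => g.2
    rw [← h5]
    exact h4
  have h3 : Module.finrank (psi hy).fieldRange L1 * Module.finrank L1 M =
      Module.finrank (psi hy).fieldRange M := Module.finrank_mul_finrank _ _ _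
  have h4 : Module.finrank L1.toSubfield M = Module.finrank L1 M := rfl
  have h5 : 0 < Nat.card (MulAction.stabilizer (M ≃ₐ[Q K 1] M) y) := Nat.card_pos
  rw [h4, h2] at h1
  have h6 : 0 < Module.finrank L1 M := by
    rcases Nat.eq_zero_or_pos (Module.finrank L1 M) with h0 | h0
    · rw [h0, mul_zero] at h1
      omega
    · exact h0
  have h7 : Module.finrank L1 M ≤ Nat.card (MulAction.stabilizer (M ≃ₐ[Q K 1] M) y) :=
    Nat.le_of_dvd h5 ⟨_, by rw [← h1, mul_comm]⟩
  rw [← h3]
  exact ⟨Nat.mul_pos hL1pos h6, Nat.mul_le_mul hL1 h7⟩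

/-- the degree of `z` over the field of `y` -/
theorem deg_mid {e B : ℕ} {y z : M} (hy : ¬ IsAlgebraic K y) (h : SX K e y)
    (F : Subgroup (M ≃ₐ[Q K 1] M)) (hFy : ∀ g ∈ F, g y = y) (hFz : ∀ g ∈ F, g z = z)
    (hB : Nat.card (MulAction.stabilizer (M ≃ₐ[Q K 1] M) y) ≤ B * Nat.card F) :
    ∃ g : Polynomial (Q K 1), g ≠ 0 ∧ g.natDegree ≤ e * B ∧ g.eval₂ (psi hy) z = 0 := by
  obtain ⟨hpos, hle⟩ := deg_top hy h
  let Z : IntermediateField (Q K 1) M := IntermediateField.fixedField F
  have hZ : Module.finrank Z.toSubfield M = Nat.card F :=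
    IntermediateField.finrank_fixedField_eq_card F
  have hyZ : y ∈ Z.toSubfield := fun g => hFy g g.2
  have hzZ : z ∈ Z.toSubfield := fun g => hFz g g.2
  have hKZ : ∀ a : A K 1, MvPolynomial.aeval (fun _ : Fin 1 => y) a ∈ Z.toSubfield := by
    intro a
    induction a using MvPolynomial.induction_on with
    | C c =>
      rw [MvPolynomial.aeval_C, IsScalarTower.algebraMap_apply K (A K 1) M,
        IsScalarTower.algebraMap_apply (A K 1) (Q K 1) M]
      exact Z.algebraMap_mem _
    | add p q hp hq =>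
      rw [map_add]
      exact add_mem hp hq
    | mul_X p i hp =>
      rw [map_mul, MvPolynomial.aeval_X]
      exact mul_mem hp hyZ
  have hsub : (psi hy).fieldRange ≤ Z.toSubfield := by
    rintro _ ⟨q, rfl⟩
    obtain ⟨a, b, hb, rfl⟩ := IsFractionRing.div_surjective (A := A K 1) q
    rw [map_div₀, psi_alg, psi_alg]
    exact div_mem (hKZ a) (hKZ b)
  have h1 : Subfield.relfinrank (psi hy).fieldRange Z.toSubfield *
      Module.finrank Z.toSubfield M = Module.finrank (psi hy).fieldRange M :=
    Subfield.relfinrank_mul_finrank_top hsub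
  rw [hZ] at h1
  have hF : 0 < Nat.card F := Nat.card_pos
  have h2 : 0 < Subfield.relfinrank (psi hy).fieldRange Z.toSubfield := by
    rcases Nat.eq_zero_or_pos (Subfield.relfinrank (psi hy).fieldRange Z.toSubfield) with h0 | h0
    · rw [h0, zero_mul] at h1
      omega
    · exact h0
  have h3 : Subfield.relfinrank (psi hy).fieldRange Z.toSubfield ≤ e * B := by
    refine Nat.le_of_mul_le_mul_right ?_ hF
    rw [h1, mul_assoc]
    exact hle.trans (Nat.mul_le_mul_left _ hB)
  let W : IntermediateField (psi hy).fieldRange M := Subfield.extendScalars hsub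
  have h4 : Subfield.relfinrank (psi hy).fieldRange Z.toSubfield =
      Module.finrank (psi hy).fieldRange W := Subfield.relfinrank_eq_finrank_of_le hsub
  rw [h4] at h2 h3
  have hfd : FiniteDimensional (psi hy).fieldRange W := Module.finite_of_finrank_pos h2
  let zz : W := ⟨z, hzZ⟩
  let g₁ : Polynomial (psi hy).fieldRange := minpoly (psi hy).fieldRange zz
  have hg₁ : g₁ ≠ 0 := minpoly.ne_zero (IsIntegral.of_finite _ zz)
  have hg₁d : g₁.natDegree ≤ e * B := (minpoly.natDegree_le zz).trans h3
  have hg₁z : Polynomial.aeval z g₁ = 0 := by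
    have h6 := Polynomial.aeval_algebraMap_apply M zz g₁
    rw [minpoly.aeval, map_zero] at h6
    exact h6
  have hsurj : Function.Surjective (psi hy).rangeRestrictField := by
    rintro ⟨_, q, rfl⟩
    exact ⟨q, rfl⟩
  obtain ⟨g, hg⟩ := Polynomial.map_surjective _ hsurj g₁
  refine ⟨g, ?_, ?_, ?_⟩
  · rintro rfl
    rw [Polynomial.map_zero] at hg
    exact hg₁ hg.symm
  · rw [← Polynomial.natDegree_map (psi hy).rangeRestrictField, hg]
    exact hg₁d
  · rw [Polynomial.aeval_def, ← hg, Polynomial.eval₂_map] at hg₁z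
    exact hg₁z

end

/-- elements outside of `K` are transcendental -/
theorem deg_trans {K M : Type} [Field K] [IsAlgClosed K] [Field M] [Algebra K M] {y : M}
    (hK : ¬ ∃ c : K, algebraMap K M c = y) : ¬ IsAlgebraic K y := by
  intro h
  apply hK
  have h1 : IsIntegral K y := h.isIntegral
  have h2 : (minpoly K y).degree = 1 :=
    IsAlgClosed.degree_eq_one_of_irreducible K (minpoly.irreducible h1)
  exact minpoly.mem_range_of_degree_eq_one K y h2

theorem deg_total {K : Type} [Field K] {N : ℕ} {P : MvPolynomial (Fin 2) K}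
    (h0 : P.degreeOf 0 ≤ N) (h1 : P.degreeOf 1 ≤ N) : P.totalDegree ≤ 2 * N := by
  rw [MvPolynomial.totalDegree]
  refine Finset.sup_le fun m hm => ?_
  rw [Finsupp.sum_fintype _ _ fun _ => rfl, Fin.sum_univ_two]
  have h2 := (MvPolynomial.monomial_le_degreeOf 0 hm).trans h0
  have h3 := (MvPolynomial.monomial_le_degreeOf 1 hm).trans h1
  omega

theorem near_rel {K : Type} [Field K] [CharZero K] [IsAlgClosed K] {M : Type} [Field M]
    [Algebra K M] [Algebra (A K 1) M] [Algebra (Q K 1) M] [IsScalarTower (A K 1) (Q K 1) M]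
    [IsScalarTower K (A K 1) M] [IsScalarTower K (Q K 1) M] [FiniteDimensional (Q K 1) M]
    [IsGalois (Q K 1) M] {e B : ℕ} (y y' : M) (hy : SX K e y) (hy' : SX K e y')
    (hK : ¬ ∃ c : K, algebraMap K M c = y) (hK' : ¬ ∃ c : K, algebraMap K M c = y')
    (F : Subgroup (M ≃ₐ[Q K 1] M)) (hF : ∀ g ∈ F, g y = y ∧ g y' = y')
    (h : Nat.card (MulAction.stabilizer (M ≃ₐ[Q K 1] M) y) ≤ B * Nat.card F)
    (h' : Nat.card (MulAction.stabilizer (M ≃ₐ[Q K 1] M) y') ≤ B * Nat.card F) :
    TR K (2 * (e * B)) y y' := by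
  have ht := deg_trans hK
  have ht' := deg_trans hK'
  obtain ⟨g, hg, hgd, hgz⟩ := deg_mid ht hy F (fun s hs => (hF s hs).1) (fun s hs => (hF s hs).2) h
  obtain ⟨g', hg', hgd', hgz'⟩ := deg_mid ht' hy' F (fun s hs => (hF s hs).2)
    (fun s hs => (hF s hs).1) h'
  obtain ⟨P, hP, hP0⟩ := exists_irred ht' hg' hgz'
  refine ⟨P, hP.ne_zero, deg_total ((degreeOf_le ht' hP hP0 hg' hgz').trans hgd') ?_, hP0⟩
  -- the exchange of the variables
  let σ : Fin 2 ≃ Fin 2 := Equiv.swap 0 1
  have hPs : Irreducible (MvPolynomial.rename σ P) :=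
    (MulEquiv.irreducible_iff (MvPolynomial.renameEquiv K σ)).2 hP
  have hPs0 : MvPolynomial.aeval ![y', y] (MvPolynomial.rename σ P) = 0 := by
    rw [MvPolynomial.aeval_rename, ← hP0]
    congr 2
    funext i
    fin_cases i
    · rfl
    · rfl
  have h1 := (degreeOf_le ht hPs hPs0 hg hgz).trans hgd
  have h2 : (MvPolynomial.rename σ P).degreeOf (σ 1) = P.degreeOf 1 :=
    MvPolynomial.degreeOf_rename_of_injective σ.injective 1
  have h3 : σ 1 = 0 := rfl
  rw [← h2, h3]
  exact h1

end Pool.Agent.DI
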