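import Pool.Agent.DI.Pole

/-! # Domination: definitions -/

namespace Pool.Agent.DI

open Pool.Agent.QN Pool.Agent.QS

section

variable (K : Type) [Field K] {M : Type} [Field M] [Algebra (A K 1) M] {Γ : Option K → Type}
  [∀ i, LinearOrderedCommGroupWithZero (Γ i)]

/-- one valuation of `M` over each place of `K(X)` -/
structure Pls (v : ∀ i, Valuation M (Γ i)) : Prop where
  fin : ∀ a : K, IsPV (MvPolynomial.X 0 - MvPolynomial.C a : A K 1) (v (some a))
  inf : IsIV K (0 : Fin 1) (v none)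

/-- `z` lies in the field of `y` and has no other poles than `y` -/
def Dom [Algebra (Q K 1) M] (v : ∀ i, Valuation M (Γ i)) (y z : M) : Prop :=
  (∀ g : M ≃ₐ[Q K 1] M, g y = y → g z = z) ∧
    ∀ (i : Option K) (g : M ≃ₐ[Q K 1] M), v i (g z) ≤ max 1 (v i (g y))

end

variable {K : Type} [Field K] [CharZero K] [IsAlgClosed K] {M : Type} [Field M]
  [Algebra (A K 1) M] [Algebra (Q K 1) M] [IsScalarTower (A K 1) (Q K 1) M]
  [FiniteDimensional (Q K 1) M]

omit [CharZero K] [IsAlgClosed K] in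
theorem prime_lin (a : K) : Prime (MvPolynomial.X 0 - MvPolynomial.C a : A K 1) := by
  have h1 : Prime (Polynomial.X - Polynomial.C a) := Polynomial.prime_X_sub_C a
  let e : A K 1 ≃ₐ[K] Polynomial K := MvPolynomial.uniqueAlgEquiv K (Fin 1)
  have h2 : e (MvPolynomial.X 0 - MvPolynomial.C a) = Polynomial.X - Polynomial.C a := by
    rw [map_sub]
    congr 1
    · simp [e]
    · simp [e]
  rw [← h2] at h1
  exact (MulEquiv.prime_iff e.toMulEquiv).1 h1

theorem exists_pls (K M : Type) [Field K] [CharZero K] [IsAlgClosed K] [Field M]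
    [Algebra (A K 1) M] [Algebra (Q K 1) M] [IsScalarTower (A K 1) (Q K 1) M]
    [FiniteDimensional (Q K 1) M] :
    ∃ (Γ : Option K → Type) (_ : ∀ i, LinearOrderedCommGroupWithZero (Γ i))
      (v : ∀ i, Valuation M (Γ i)), Pls K v := by
  classical
  have h : ∀ i : Option K, ∃ (Γ : Type) (_ : LinearOrderedCommGroupWithZero Γ)
      (v : Valuation M Γ), (∀ a, i = some a → IsPV (MvPolynomial.X 0 - MvPolynomial.C a : A K 1) v) ∧
        (i = none → IsIV K (0 : Fin 1) v) := by
    intro i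
    rcases i with _ | a
    · obtain ⟨Γ, iΓ, v, hv⟩ := exists_IV (K := K) (M := M) (0 : Fin 1)
      exact ⟨Γ, iΓ, v, fun a h => by simp at h, fun _ => hv⟩
    · obtain ⟨Γ, iΓ, v, hv⟩ := exists_PV (M := M) _ (prime_lin a)
      exact ⟨Γ, iΓ, v, fun b h => by
        obtain rfl := Option.some.inj h
        exact hv, fun h => by simp at h⟩
  choose Γ iΓ v h1 h2 using h
  exact ⟨Γ, iΓ, v, ⟨fun a => h1 _ a rfl, h2 _ rfl⟩⟩

end Pool.Agent.DI
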