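import Pool.Agent.DI.OrbV

/-! # The codimension of the elements without poles at a place -/

namespace Pool.Agent.DI

open Pool.Agent.QN Pool.Agent.QS

variable {K Q M Γ : Type} [Field K] [Field Q] [Field M] [Algebra K Q] [Algebra K M] [Algebra Q M]
  [IsScalarTower K Q M] [LinearOrderedCommGroupWithZero Γ] {v : Valuation M Γ} {π : Γ}

namespace DomL

theorem perm {Γ' : Type} [CommMonoid Γ'] (a b c d p : Γ') :
    a * b * c * (d * p) = a * d * b * (c * p) := by
  rw [mul_mul_mul_comm (a * b) c d p, mul_right_comm a b d]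

omit [Algebra K Q] [IsScalarTower K Q M] in
theorem cle (h : Plc K Q v π) (κ : K) : v (algebraMap K M κ) ≤ 1 := by
  by_cases hκ : κ = 0
  · rw [hκ, map_zero, map_zero]
    exact zero_le_one
  · exact (h.const κ hκ).le

omit [LinearOrderedCommGroupWithZero Γ] in
theorem gK (g : M ≃ₐ[Q] M) (κ : K) (z : M) : g (κ • z) = κ • g z := by
  rw [← algebraMap_smul Q κ z, ← algebraMap_smul Q κ (g z)]
  exact map_smul g _ _

omit [Algebra K Q] [IsScalarTower K Q M] in
theorem vK (h : Plc K Q v π) (κ : K) (z : M) : v (κ • z) ≤ v z := by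
  rw [Algebra.smul_def, map_mul]
  exact mul_le_of_le_one_left' (cle h κ)

/-- the elements without poles over `v` -/
def npole (h : Plc K Q v π) : Submodule K M where
  carrier := {z | ∀ g : M ≃ₐ[Q] M, v (g z) ≤ 1}
  add_mem' := by
    intro a b ha hb g
    rw [map_add]
    exact (v.map_add _ _).trans (max_le (ha g) (hb g))
  zero_mem' := by
    intro g
    rw [map_zero, map_zero]
    exact zero_le_one
  smul_mem' := by
    intro c x hx g
    rw [gK]
    exact (vK h c _).trans (hx g)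

theorem mem_npole (h : Plc K Q v π) {z : M} : z ∈ npole h ↔ ∀ g : M ≃ₐ[Q] M, v (g z) ≤ 1 :=
  Iff.rfl

/-- the elements of `W` with `v (g z) < ρ` -/
def small (h : Plc K Q v π) (W : Submodule K M) (g : M ≃ₐ[Q] M) {ρ : Γ} (hρ : ρ ≠ 0) :
    Submodule K M where
  carrier := {z | z ∈ W ∧ v (g z) < ρ}
  add_mem' := by
    rintro a b ⟨ha, ha'⟩ ⟨hb, hb'⟩
    refine ⟨W.add_mem ha hb, ?_⟩
    rw [map_add]
    exact (v.map_add _ _).trans_lt (max_lt ha' hb')
  zero_mem' := by
    refine ⟨W.zero_mem, ?_⟩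
    rw [map_zero, map_zero]
    exact zero_lt_iff.2 hρ
  smul_mem' := by
    rintro c x ⟨hx, hx'⟩
    refine ⟨W.smul_mem c hx, ?_⟩
    rw [gK]
    exact (vK h c _).trans_lt hx'

theorem exists_max (h : Plc K Q v π) (W : Submodule K M) [FiniteDimensional K W]
    (g : M ≃ₐ[Q] M) : ∃ z₀ ∈ W, ∀ z ∈ W, v (g z) ≤ v (g z₀) := by
  classical
  let b := Module.finBasis K W
  rcases isEmpty_or_nonempty (Fin (Module.finrank K W)) with he | hne
  · refine ⟨0, W.zero_mem, fun z hz => ?_⟩
    have h1 : (⟨z, hz⟩ : W) = 0 := by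
      rw [← b.sum_repr ⟨z, hz⟩]
      exact Finset.sum_of_isEmpty _
    have h2 : z = 0 := congrArg Subtype.val h1
    rw [h2]
  · obtain ⟨j, -, hj⟩ := Finset.exists_max_image Finset.univ (fun j => v (g (b j : M)))
      Finset.univ_nonempty
    refine ⟨b j, (b j).2, fun z hz => ?_⟩
    have h1 : z = ∑ i, (b.repr ⟨z, hz⟩ i) • (b i : M) := by
      refine Eq.trans (show z = ((∑ i, (b.repr ⟨z, hz⟩ i) • b i : W) : M) by
        rw [b.sum_repr]) ?_
      rw [AddSubmonoidClass.coe_finsetSum]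
      rfl
    rw [h1, map_sum]
    refine v.map_sum_le fun i _ => ?_
    rw [gK]
    exact (vK h _ _).trans (hj i (Finset.mem_univ _))

theorem codim_one (h : Plc K Q v π) (W : Submodule K M) [FiniteDimensional K W]
    (g : M ≃ₐ[Q] M) {z₀ : M} (hz₀ : z₀ ∈ W) (hmax : ∀ z ∈ W, v (g z) ≤ v (g z₀))
    (h0 : v (g z₀) ≠ 0) :
    Module.finrank K W ≤ Module.finrank K (small h W g h0) + 1 := by
  have hle : W ≤ small h W g h0 ⊔ Submodule.span K {z₀} := by
    intro z hz
    have hg0 : g z₀ ≠ 0 := (Valuation.ne_zero_iff v).1 h0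
    have h1 := lam_spec h hg0 (hmax z hz)
    set κ := lam K v (g z₀) (g z)
    have h2 : z = (z - κ • z₀) + κ • z₀ := by ring
    rw [h2]
    refine Submodule.add_mem_sup ⟨W.sub_mem hz (W.smul_mem _ hz₀), ?_⟩
      (Submodule.smul_mem _ _ (Submodule.mem_span_singleton_self z₀))
    rw [map_sub, gK, Algebra.smul_def]
    exact h1
  have : FiniteDimensional K (small h W g h0) :=
    Submodule.finiteDimensional_of_le (show small h W g h0 ≤ W from fun z hz => hz.1)
  have : FiniteDimensional K (Submodule.span K {z₀}) :=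
    FiniteDimensional.span_singleton K z₀
  refine (Submodule.finrank_mono hle).trans
    ((Submodule.finrank_add_le_finrank_add_finrank _ _).trans ?_)
  have h3 : Module.finrank K (Submodule.span K {z₀}) ≤ 1 := by
    have := finrank_span_le_card (R := K) ({z₀} : Set M)
    simpa using this
  omega

variable [Infinite K] [FiniteDimensional Q M] [IsGalois Q M]

/-- the product over an orbit of the decomposition group -/
theorem orbit_le (h : Plc K Q v π) {y u : M} (g : M ≃ₐ[Q] M)
    (hu : ∀ σ : M ≃ₐ[Q] M, σ y = y → σ u = u) (h1 : 1 < v (g u)) (T : Finset M)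
    (hT : ∀ η, η ∈ T ↔ ∃ d : M ≃ₐ[Q] M, (∀ x, v (d x) = v x) ∧ d (g y) = η) :
    1 ≤ v (g u) ^ T.card * π := by
  classical
  let T' : Finset M := (conjs Q u).filter fun η =>
    ∃ d : M ≃ₐ[Q] M, (∀ x, v (d x) = v x) ∧ d (g u) = η
  have hv : ∀ η ∈ T', v η = v (g u) := by
    intro η hη
    obtain ⟨d, hd, rfl⟩ := (Finset.mem_filter.1 hη).2
    exact hd _
  have hmem : g u ∈ T' := Finset.mem_filter.2 ⟨mem_conjs.2 ⟨g, rfl⟩, 1, fun x => rfl, rfl⟩
  have hP : v (∏ η ∈ T', η) = v (g u) ^ T'.card := by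
    rw [map_prod, Finset.prod_congr rfl hv, Finset.prod_const]
  have h2 : 1 ≤ v (g u) ^ T'.card * π := by
    rw [← hP]
    refine h.fix _ (fun d hd => OrbV.prod_fix _ d fun η hη => ?_) ?_
    · obtain ⟨h3, d', hd', rfl⟩ := Finset.mem_filter.1 hη
      exact Finset.mem_filter.2 ⟨OrbV.conj_mem h3 d, d * d', fun x => by
        rw [AlgEquiv.mul_apply, hd, hd'], rfl⟩
    · rw [hP]
      exact one_lt_pow₀ h1 (Finset.card_pos.2 ⟨_, hmem⟩).ne'
  have hcard : T'.card ≤ T.card := by
    have hf : ∀ η ∈ T, ∃ d : M ≃ₐ[Q] M, (∀ x, v (d x) = v x) ∧ d (g y) = η := fun η hη =>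
      (hT η).1 hη
    let f : M → M := fun η =>
      if hη : η ∈ T then (hf η hη).choose (g u) else 0
    refine le_trans (Finset.card_le_card ?_) (Finset.card_image_le (s := T) (f := f))
    intro x hx
    obtain ⟨d, hd, rfl⟩ := (Finset.mem_filter.1 hx).2
    have hη : d (g y) ∈ T := (hT _).2 ⟨d, hd, rfl⟩
    refine Finset.mem_image.2 ⟨d (g y), hη, ?_⟩
    simp only [f, dif_pos hη]
    obtain ⟨hd', he⟩ := (hf _ hη).choose_spec
    set d' := (hf _ hη).choose
    have h4 : (g⁻¹ * (d⁻¹ * (d' * g))) u = u := by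
      apply hu
      rw [AlgEquiv.mul_apply, AlgEquiv.mul_apply, AlgEquiv.mul_apply, he]
      have h5 : d⁻¹ (d (g y)) = g y := by
        rw [← AlgEquiv.mul_apply, inv_mul_cancel, AlgEquiv.one_apply]
      rw [h5, ← AlgEquiv.mul_apply, inv_mul_cancel, AlgEquiv.one_apply]
    have h6 := congrArg (fun x => d (g x)) h4
    simp only [← AlgEquiv.mul_apply] at h6 ⊢
    have h7 : d * (g * (g⁻¹ * (d⁻¹ * (d' * g)))) = d' * g := by group
    have h8 : (d * (g * (g⁻¹ * (d⁻¹ * (d' * g))))) u = (d * g) u := h6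
    rw [h7] at h8
    exact h8
  refine h2.trans (mul_le_mul_left (pow_le_pow_right₀ h1.le hcard) _)

end DomL

open DomL

/-- the codimension of the elements without poles over `v` -/
theorem codim_le [Infinite K] [FiniteDimensional Q M] [IsGalois Q M] (h : Plc K Q v π) {y : M}
    (n : ℕ) : ∀ (W : Submodule K M) [FiniteDimensional K W] (r : M → Γ),
      (∀ z ∈ W, ∀ g : M ≃ₐ[Q] M, g y = y → g z = z) → (∀ η ∈ conjs Q y, 1 ≤ r η) →
      (∀ z ∈ W, ∀ g : M ≃ₐ[Q] M, v (g z) ≤ r (g y)) → (∏ η ∈ conjs Q y, r η) * π ^ n ≤ 1 →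
      Module.finrank K W ≤ Module.finrank K (W ⊓ npole h : Submodule K M) + n := by
  classical
  have hπ : 0 < π := h.disc.pos
  induction n with
  | zero =>
    intro W _ r hfix h1 hdom hprod
    rw [pow_zero, mul_one] at hprod
    have hWU : W ≤ npole h := by
      intro z hz g
      by_contra hcon
      rw [not_le] at hcon
      have h2 : 1 < r (g y) := hcon.trans_le (hdom z hz g)
      have hmem : g y ∈ conjs Q y := mem_conjs.2 ⟨g, rfl⟩
      rw [← Finset.mul_prod_erase _ _ hmem] at hprod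
      have h3 : 1 ≤ ∏ x ∈ (conjs Q y).erase (g y), r x :=
        Finset.one_le_prod' fun x hx => h1 x (Finset.mem_of_mem_erase hx)
      exact absurd hprod (not_le.2 (lt_mul_of_lt_of_one_le h2 h3))
    rw [inf_eq_left.2 hWU]
    exact Nat.le_add_right _ _
  | succ n ih =>
    intro W _ r hfix h1 hdom hprod
    by_cases hWU : W ≤ npole h
    · rw [inf_eq_left.2 hWU]
      exact Nat.le_add_right _ _
    obtain ⟨z, hz, hzn⟩ := SetLike.not_le_iff_exists.1 hWU
    rw [mem_npole] at hzn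
    push Not at hzn
    obtain ⟨g, hg⟩ := hzn
    obtain ⟨z₀, hz₀, hmax⟩ := exists_max h W g
    have hρ1 : 1 < v (g z₀) := hg.trans_le (hmax z hz)
    have hρ0 : v (g z₀) ≠ 0 := (zero_lt_one.trans hρ1).ne'
    have hcod := codim_one h W g hz₀ hmax hρ0
    set W' := small h W g hρ0 with hW'
    have hWle : W' ≤ W := fun z hz => hz.1
    have : FiniteDimensional K W' := Submodule.finiteDimensional_of_le hWle
    obtain ⟨u, ρ', hufix, hu1, hρ', hρ'1, hρ'max⟩ : ∃ (u : M) (ρ' : Γ),
        (∀ σ : M ≃ₐ[Q] M, σ y = y → σ u = u) ∧ 1 < v (g u) ∧ v (g z₀) = ρ' * v (g u) ∧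
        1 ≤ ρ' ∧ ∀ z ∈ W', v (g z) ≤ ρ' := by
      obtain ⟨z₁, hz₁, hmax₁⟩ := exists_max h W' g
      rcases le_or_gt (v (g z₁)) 1 with hc | hc
      · exact ⟨z₀, 1, hfix z₀ hz₀, hρ1, (one_mul _).symm, le_rfl, fun z hz =>
          (hmax₁ z hz).trans hc⟩
      · have h0 : v (g z₁) ≠ 0 := (zero_lt_one.trans hc).ne'
        refine ⟨z₀ / z₁, v (g z₁), fun σ hσ => ?_, ?_, ?_, hc.le, hmax₁⟩
        · rw [map_div₀, hfix z₀ hz₀ σ hσ, hfix z₁ (hWle hz₁) σ hσ]
        · rw [map_div₀, map_div₀, one_lt_div₀ (zero_lt_iff.2 h0)]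
          exact hz₁.2
        · rw [map_div₀, map_div₀, mul_div_cancel₀ _ h0]
    let T : Finset M := (conjs Q y).filter fun η =>
      ∃ d : M ≃ₐ[Q] M, (∀ x, v (d x) = v x) ∧ d (g y) = η
    have hT : ∀ η, η ∈ T ↔ ∃ d : M ≃ₐ[Q] M, (∀ x, v (d x) = v x) ∧ d (g y) = η := by
      intro η
      refine ⟨fun hη => (Finset.mem_filter.1 hη).2, fun hη => Finset.mem_filter.2 ⟨?_, hη⟩⟩
      obtain ⟨d, -, rfl⟩ := hη
      exact mem_conjs.2 ⟨d * g, rfl⟩
    have hTsub : T ⊆ conjs Q y := Finset.filter_subset _ _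
    have hkey := orbit_le h g hufix hu1 T hT
    have h2 := ih W' (fun η => if η ∈ T then ρ' else r η)
      (fun z hz => hfix z (hWle hz))
      (fun η hη => by
        show 1 ≤ if η ∈ T then ρ' else r η
        split_ifs
        · exact hρ'1
        · exact h1 η hη)
      (fun z hz σ => by
        show v (σ z) ≤ if σ y ∈ T then ρ' else r (σ y)
        split_ifs with hσ
        · obtain ⟨d, hd, he⟩ := (hT _).1 hσ
          have h4 : (g⁻¹ * (d⁻¹ * σ)) z = z := by
            apply hfix z (hWle hz)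
            rw [AlgEquiv.mul_apply, AlgEquiv.mul_apply, ← he]
            have h5 : d⁻¹ (d (g y)) = g y := by
              rw [← AlgEquiv.mul_apply, inv_mul_cancel, AlgEquiv.one_apply]
            rw [h5, ← AlgEquiv.mul_apply, inv_mul_cancel, AlgEquiv.one_apply]
          have h7 : σ = d * (g * (g⁻¹ * (d⁻¹ * σ))) := by group
          have h8 : σ z = d (g z) := by
            rw [h7, AlgEquiv.mul_apply, AlgEquiv.mul_apply, h4]
          rw [h8, hd]
          exact hρ'max z hz
        · exact hdom z (hWle hz) σ)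
      ?_
    · have h3 : Module.finrank K (W' ⊓ npole h : Submodule K M) ≤
          Module.finrank K (W ⊓ npole h : Submodule K M) := by
        have : FiniteDimensional K (W ⊓ npole h : Submodule K M) :=
          Submodule.finiteDimensional_of_le (inf_le_left : W ⊓ npole h ≤ W)
        exact Submodule.finrank_mono (inf_le_inf_right _ hWle)
      omega
    · have h3 : ∏ η ∈ conjs Q y, (if η ∈ T then ρ' else r η) =
          ρ' ^ T.card * ∏ η ∈ conjs Q y \ T, r η := by
        rw [← Finset.prod_sdiff hTsub, mul_comm]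
        congr 1
        · rw [Finset.prod_congr rfl fun η hη => if_pos hη, Finset.prod_const]
        · refine Finset.prod_congr rfl fun η hη => if_neg (Finset.mem_sdiff.1 hη).2
      have h4 : v (g z₀) ^ T.card * ∏ η ∈ conjs Q y \ T, r η ≤ ∏ η ∈ conjs Q y, r η := by
        rw [← Finset.prod_sdiff hTsub, mul_comm]
        refine mul_le_mul_right ?_ _
        rw [← Finset.prod_const]
        refine Finset.prod_le_prod' fun η hη => ?_
        obtain ⟨d, hd, rfl⟩ := (hT η).1 hη
        have := hdom z₀ hz₀ (d * g)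
        rw [AlgEquiv.mul_apply, AlgEquiv.mul_apply, hd] at this
        exact this
      rw [h3]
      calc ρ' ^ T.card * (∏ η ∈ conjs Q y \ T, r η) * π ^ n
          = ρ' ^ T.card * (∏ η ∈ conjs Q y \ T, r η) * π ^ n * 1 := (mul_one _).symm
        _ ≤ ρ' ^ T.card * (∏ η ∈ conjs Q y \ T, r η) * π ^ n * (v (g u) ^ T.card * π) :=
          mul_le_mul_right hkey _
        _ = (v (g z₀) ^ T.card * ∏ η ∈ conjs Q y \ T, r η) * π ^ (n + 1) := by
          rw [hρ', mul_pow, pow_succ]
          exact perm _ _ _ _ _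
        _ ≤ (∏ η ∈ conjs Q y, r η) * π ^ (n + 1) := mul_le_mul_left h4 _
        _ ≤ 1 := hprod

end Pool.Agent.DI
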