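import Pool.Agent.DI.DomDa
import Pool.Agent.DI.DomL

/-! # The dimension of a space of dominated elements -/

namespace Pool.Agent.DI

open Pool.Agent.QN Pool.Agent.QS

variable {K : Type} [Field K] [CharZero K] [IsAlgClosed K] {M : Type} [Field M] [Algebra K M]
  [Algebra (A K 1) M] [Algebra (Q K 1) M] [IsScalarTower (A K 1) (Q K 1) M]
  [IsScalarTower K (A K 1) M] [IsScalarTower K (Q K 1) M] [FiniteDimensional (Q K 1) M]
  [IsGalois (Q K 1) M] {Γ : Option K → Type} [∀ i, LinearOrderedCommGroupWithZero (Γ i)]
  {v : ∀ i, Valuation M (Γ i)}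

namespace DomD

omit [CharZero K] in
theorem assoc_lin {p : A K 1} (hp : Prime p) :
    ∃ a : K, Associated (MvPolynomial.X 0 - MvPolynomial.C a : A K 1) p := by
  obtain ⟨ev, hev⟩ := prime_root hp
  refine ⟨ev (MvPolynomial.X 0), ?_⟩
  have h1 : p ∣ (MvPolynomial.X 0 - MvPolynomial.C (ev (MvPolynomial.X 0)) : A K 1) := by
    refine (hev _).1 ?_
    have h2 : ev (MvPolynomial.C (ev (MvPolynomial.X 0))) = ev (MvPolynomial.X 0) :=
      ev.commutes _
    rw [map_sub, h2, sub_self]
  exact (hp.irreducible.associated_of_dvd (prime_lin _).irreducible h1).symm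

/-- an element without poles is a constant -/
theorem const_of_vals (hv : Pls K v) (z : M)
    (h : ∀ (i : Option K) (g : M ≃ₐ[Q K 1] M), v i (g z) ≤ 1) : ∃ c : K, algebraMap K M c = z := by
  classical
  obtain ⟨nQ, hmon, hnQ⟩ := cj_poly (⊥ : Subgroup (M ≃ₐ[Q K 1] M)) z
    (fun h hh => by rw [Subgroup.mem_bot.1 hh]; rfl)
  have hle : ∀ (i : Option K) (j : ℕ), v i (algebraMap (Q K 1) M (nQ.coeff j)) ≤ 1 := by
    intro i j
    have h1 := coeff_prod_le (v i) 1 (cj (⊥ : Subgroup (M ≃ₐ[Q K 1] M)) z) Finset.univ j
    rw [one_pow, mul_one] at h1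
    rw [← Polynomial.coeff_map, hnQ]
    exact h1.trans (Finset.prod_le_one' fun q _ => max_le le_rfl (h i _))
  have hmem : ∀ j, ∃ a : A K 1, algebraMap (A K 1) (Q K 1) a = nQ.coeff j := by
    intro j
    refine mem_of_vals (M := M) _ fun p hp => ?_
    obtain ⟨a, ha⟩ := assoc_lin hp
    exact ⟨Γ (some a), inferInstance, v (some a), ⟨(hv.fin a).le_one, fun f => by
      rw [(hv.fin a).lt_one, ha.dvd_iff_dvd_left]⟩, hle (some a) j⟩
  choose a ha using hmem
  have hdeg : ∀ j, (a j).totalDegree = 0 := by
    intro j
    by_cases h0 : a j = 0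
    · rw [h0, MvPolynomial.totalDegree_zero]
    · have h1 := hle none j
      rw [← ha j, ← IsScalarTower.algebraMap_apply, hv.inf.val _ h0] at h1
      by_contra hn
      exact absurd h1 (not_le.2 (one_lt_pow₀ hv.inf.one_lt hn))
  have hC : ∀ j, ∃ κ : K, MvPolynomial.C κ = a j := fun j =>
    ⟨_, (MvPolynomial.totalDegree_eq_zero_iff_eq_C.1 (hdeg j)).symm⟩
  choose κ hκ using hC
  have hκQ : ∀ j, algebraMap K M (κ j) = algebraMap (Q K 1) M (nQ.coeff j) := by
    intro j
    rw [← ha j, ← hκ j, ← IsScalarTower.algebraMap_apply (A K 1) (Q K 1) M,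
      ← MvPolynomial.algebraMap_eq, ← IsScalarTower.algebraMap_apply K (A K 1) M]
  have hroot : Polynomial.aeval z nQ = 0 := by
    rw [← Polynomial.eval_map_algebraMap, hnQ, Polynomial.eval_prod]
    refine Finset.prod_eq_zero (Finset.mem_univ (Cs.mk _ 1)) ?_
    rw [cj_mk _ z (fun h hh => by rw [Subgroup.mem_bot.1 hh]; rfl) 1]
    simp
  let P : Polynomial K := ∑ j ∈ Finset.range (nQ.natDegree + 1), Polynomial.monomial j (κ j)
  have hP : P.map (algebraMap K M) = nQ.map (algebraMap (Q K 1) M) := by
    ext j
    rw [Polynomial.coeff_map, Polynomial.coeff_map]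
    simp only [P, Polynomial.finsetSum_coeff, Polynomial.coeff_monomial]
    rw [Finset.sum_ite_eq' (Finset.range (nQ.natDegree + 1)) j κ]
    split_ifs with hj
    · exact hκQ j
    · rw [map_zero, Polynomial.coeff_eq_zero_of_natDegree_lt
        (by rw [Finset.mem_range] at hj; omega), map_zero]
  have hmonM : (P.map (algebraMap K M)).Monic := by
    rw [hP]
    exact hmon.map _
  have hmonP : P.Monic := Polynomial.monic_of_injective (algebraMap K M).injective hmonM
  have hint : IsIntegral K z := by
    refine ⟨P, hmonP, ?_⟩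
    rw [← Polynomial.aeval_def, ← Polynomial.eval_map_algebraMap, hP,
      Polynomial.eval_map_algebraMap]
    exact hroot
  obtain ⟨c, hc⟩ := minpoly.mem_range_of_degree_eq_one K z
    (IsAlgClosed.degree_eq_one_of_irreducible K (minpoly.irreducible hint))
  exact ⟨c, hc⟩

/-- the uniformisers of the places -/
noncomputable def piv (v : ∀ i, Valuation M (Γ i)) : ∀ i : Option K, Γ i
  | some a => v (some a) (algebraMap (A K 1) M (MvPolynomial.X 0 - MvPolynomial.C a))
  | none => (v none (algebraMap (A K 1) M (MvPolynomial.X 0)))⁻¹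

theorem plc (hv : Pls K v) (i : Option K) : Plc K (Q K 1) (v i) (piv v i) := by
  rcases i with _ | a
  · exact plc_inf hv.inf
  · exact plc_prime (prime_lin a) (hv.fin a)

end DomD

open DomD DomL

/-- at most `e + 1` dominated elements are linearly independent over `K` -/
theorem dim_le (hv : Pls K v) {e : ℕ} {y : M} (hy : SX K e y) {m : ℕ} (w : Fin m → M)
    (hw : ∀ i, Dom K v y (w i)) (hi : LinearIndependent K w) : m ≤ e + 1 := by
  classical
  obtain ⟨E, hE1, hE2, hE3⟩ := pole_sum hv hy
  have hPB : ∀ i, PB (Q K 1) (v i) (piv v i) (E i) y := by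
    intro i
    rcases i with _ | a
    · exact hE2
    · exact hE1 a
  let W : Submodule K M := Submodule.span K (Set.range w)
  have : FiniteDimensional K W := FiniteDimensional.span_of_finite K (Set.finite_range w)
  have hW : Module.finrank K W = m := by
    rw [finrank_span_eq_card hi, Fintype.card_fin]
  have hWdom : ∀ z ∈ W, Dom K v y z := by
    intro z hz
    refine ⟨fun g hg => ?_, fun i g => ?_⟩
    · induction hz using Submodule.span_induction with
      | mem x hx =>
        obtain ⟨j, rfl⟩ := hx
        exact (hw j).1 g hg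
      | zero => exact map_zero g
      | add x x' _ _ hx hx' => rw [map_add, hx, hx']
      | smul c x _ hx => rw [gK, hx]
    · induction hz using Submodule.span_induction with
      | mem x hx =>
        obtain ⟨j, rfl⟩ := hx
        exact (hw j).2 i g
      | zero =>
        rw [map_zero, map_zero]
        exact zero_le
      | add x x' _ _ hx hx' =>
        rw [map_add]
        exact ((v i).map_add _ _).trans (max_le hx hx')
      | smul c x _ hx =>
        rw [gK]
        exact (vK (plc hv i) c _).trans hx
  have hstep : ∀ s : Finset (Option K), Module.finrank K W ≤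
      Module.finrank K (W ⊓ s.inf fun i => npole (plc hv i) : Submodule K M) +
        ∑ i ∈ s, E i := by
    intro s
    induction s using Finset.induction_on with
    | empty => rw [Finset.inf_empty, inf_top_eq, Finset.sum_empty, add_zero]
    | insert i s hi ih =>
      set W' : Submodule K M := W ⊓ s.inf fun i => npole (plc hv i) with hW'
      have : FiniteDimensional K W' := Submodule.finiteDimensional_of_le inf_le_left
      have h1 := codim_le (plc hv i) (y := y) (E i) W' (fun η => max 1 (v i η))
        (fun z hz g hg => (hWdom z hz.1).1 g hg) (fun η _ => le_max_left _ _)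
        (fun z hz g => (hWdom z hz.1).2 i g) (hPB i)
      have h2 : (W ⊓ (insert i s).inf fun i => npole (plc hv i) : Submodule K M) =
          W' ⊓ npole (plc hv i) := by
        rw [Finset.inf_insert, hW', inf_assoc, inf_comm (npole (plc hv i))]
      rw [h2, Finset.sum_insert hi]
      omega
  have hfin : {i : Option K | E i ≠ 0}.Finite := by
    by_contra hinf
    obtain ⟨s, hs, hc⟩ := Set.Infinite.exists_subset_card_eq hinf (e + 1)
    have h1 : ∑ i ∈ s, 1 ≤ ∑ i ∈ s, E i :=
      Finset.sum_le_sum fun i hi => Nat.one_le_iff_ne_zero.2 (hs hi)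
    have h2 := hE3 s
    rw [Finset.sum_const, smul_eq_mul, mul_one, hc] at h1
    omega
  have h1 := hstep hfin.toFinset
  have h2 := hE3 hfin.toFinset
  have h3 : (W ⊓ hfin.toFinset.inf fun i => npole (plc hv i) : Submodule K M) ≤
      Submodule.span K {(1 : M)} := by
    rintro z ⟨hz, hz'⟩
    obtain ⟨c, rfl⟩ := const_of_vals hv z fun i g => by
      by_cases hEi : E i = 0
      · have h4 := hPB i
        rw [hEi] at h4
        unfold PB at h4
        rw [pow_zero, mul_one] at h4
        refine ((hWdom z hz).2 i g).trans (le_trans ?_ h4)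
        exact Finset.single_le_prod' (f := fun η => max 1 (v i η))
          (fun η _ => le_max_left _ _) (mem_conjs.2 ⟨g, rfl⟩)
      · have h4 : (hfin.toFinset.inf fun i => npole (plc hv i) : Submodule K M) ≤
            npole (plc hv i) := Finset.inf_le (hfin.mem_toFinset.2 hEi)
        exact h4 hz' g
    rw [Algebra.algebraMap_eq_smul_one]
    exact Submodule.smul_mem _ _ (Submodule.mem_span_singleton_self _)
  have h4 : Module.finrank K
      (W ⊓ hfin.toFinset.inf fun i => npole (plc hv i) : Submodule K M) ≤ 1 := by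
    have : FiniteDimensional K (Submodule.span K {(1 : M)}) :=
      FiniteDimensional.span_singleton K 1
    refine (Submodule.finrank_mono h3).trans ?_
    have := finrank_span_le_card (R := K) ({(1 : M)} : Set M)
    simpa using this
  omega

end Pool.Agent.DI
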