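import Pool.Agent.DI.Dom

set_option autoImplicit false

/-! # The number of the poles at all places together -/

namespace Pool.Agent.DI

open Pool.Agent.QN Pool.Agent.QS

variable {K : Type} [Field K] [CharZero K] [IsAlgClosed K] {M : Type} [Field M]
  [Algebra (A K 1) M] [Algebra (Q K 1) M] [IsScalarTower (A K 1) (Q K 1) M]
  [FiniteDimensional (Q K 1) M] [IsGalois (Q K 1) M] {Γ : Option K → Type}
  [∀ i, LinearOrderedCommGroupWithZero (Γ i)] {v : ∀ i, Valuation M (Γ i)}

namespace DomDa

omit [CharZero K] [IsAlgClosed K] in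
theorem coprime_lin {a b : K} (h : a ≠ b) :
    IsCoprime (MvPolynomial.X 0 - MvPolynomial.C a : A K 1)
      (MvPolynomial.X 0 - MvPolynomial.C b) := by
  have hb : b - a ≠ 0 := sub_ne_zero.2 (Ne.symm h)
  refine ⟨MvPolynomial.C (b - a)⁻¹, -MvPolynomial.C (b - a)⁻¹, ?_⟩
  have e : MvPolynomial.C (b - a)⁻¹ * (MvPolynomial.X 0 - MvPolynomial.C a) +
      -MvPolynomial.C (b - a)⁻¹ * (MvPolynomial.X 0 - MvPolynomial.C b) =
      (MvPolynomial.C ((b - a)⁻¹ * (b - a)) : A K 1) := by
    rw [MvPolynomial.C_mul, MvPolynomial.C_sub]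
    ring
  rw [e, inv_mul_cancel₀ hb, MvPolynomial.C_1]

omit [CharZero K] [IsAlgClosed K] in
theorem deg_lin (a : K) : (MvPolynomial.X 0 - MvPolynomial.C a : A K 1).totalDegree = 1 := by
  apply le_antisymm
  · refine (MvPolynomial.totalDegree_sub _ _).trans ?_
    rw [MvPolynomial.totalDegree_X, MvPolynomial.totalDegree_C]
    exact max_le le_rfl (Nat.zero_le _)
  · have h := PoleB.le_deg (prime_lin a) (one_ne_zero (α := A K 1)) 1
    rwa [pow_one, mul_one] at h

omit [CharZero K] [IsAlgClosed K] in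
/-- the multiplicities of the zeros -/
theorem exists_mult (α : A K 1) (hα : α ≠ 0) : ∃ m : K → ℕ,
    (∀ a, ∃ g : A K 1, ¬ (MvPolynomial.X 0 - MvPolynomial.C a : A K 1) ∣ g ∧
      α = (MvPolynomial.X 0 - MvPolynomial.C a) ^ m a * g) ∧
    ∀ S : Finset K, ∑ a ∈ S, m a ≤ α.totalDegree := by
  have h : ∀ a : K, ∃ (m : ℕ) (g : A K 1), ¬ (MvPolynomial.X 0 - MvPolynomial.C a : A K 1) ∣ g ∧
      α = (MvPolynomial.X 0 - MvPolynomial.C a) ^ m * g := fun a =>
    WfDvdMonoid.max_power_factor hα (prime_lin a).irreducible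
  choose m g hg hm using h
  refine ⟨m, fun a => ⟨g a, hg a, hm a⟩, fun S => ?_⟩
  have h1 : (∏ a ∈ S, (MvPolynomial.X 0 - MvPolynomial.C a : A K 1) ^ m a) ∣ α := by
    refine Finset.prod_dvd_of_coprime ?_ fun a _ => ⟨g a, hm a⟩
    intro a _ b _ hab
    exact (coprime_lin hab).pow
  obtain ⟨c, hc⟩ := h1
  have hne : ∀ a : K, (MvPolynomial.X 0 - MvPolynomial.C a : A K 1) ^ m a ≠ 0 := fun a =>
    pow_ne_zero _ (prime_lin a).ne_zero
  have hprod : ∏ a ∈ S, (MvPolynomial.X 0 - MvPolynomial.C a : A K 1) ^ m a ≠ 0 :=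
    Finset.prod_ne_zero_iff.2 fun a _ => hne a
  have hc0 : c ≠ 0 := by
    rintro rfl
    rw [mul_zero] at hc
    exact hα hc
  have hdeg : ∀ T : Finset K,
      (∏ a ∈ T, (MvPolynomial.X 0 - MvPolynomial.C a : A K 1) ^ m a).totalDegree =
        ∑ a ∈ T, m a := by
    classical
    intro T
    induction T using Finset.induction_on with
    | empty => simp
    | insert b T hb ih =>
      rw [Finset.prod_insert hb, Finset.sum_insert hb,
        MvPolynomial.totalDegree_mul_of_isDomain (hne b)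
          (Finset.prod_ne_zero_iff.2 fun a _ => hne a), ih]
      congr 1
      have hpow : ∀ n : ℕ,
          ((MvPolynomial.X 0 - MvPolynomial.C b : A K 1) ^ n).totalDegree = n := by
        intro n
        induction n with
        | zero => simp
        | succ n ihn =>
          rw [pow_succ, MvPolynomial.totalDegree_mul_of_isDomain
            (pow_ne_zero _ (prime_lin b).ne_zero) (prime_lin b).ne_zero, ihn, deg_lin]
      exact hpow _
  rw [hc, MvPolynomial.totalDegree_mul_of_isDomain hprod hc0, hdeg]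
  omega

end DomDa

omit [IsAlgClosed K] in
/-- the poles at all places -/
theorem pole_sum (hv : Pls K v) {e : ℕ} {y : M} (hy : SX K e y) : ∃ E : Option K → ℕ,
    (∀ a : K, PB (Q K 1) (v (some a))
      (v (some a) (algebraMap (A K 1) M (MvPolynomial.X 0 - MvPolynomial.C a))) (E (some a)) y) ∧
    PB (Q K 1) (v none) (v none (algebraMap (A K 1) M (MvPolynomial.X 0)))⁻¹ (E none) y ∧
    ∀ S : Finset (Option K), ∑ i ∈ S, E i ≤ e := by
  classical
  have hH : ∀ σ : M ≃ₐ[Q K 1] M, σ ∈ MulAction.stabilizer (M ≃ₐ[Q K 1] M) y ↔ σ y = y := by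
    intro σ
    rw [MulAction.mem_stabilizer_iff, AlgEquiv.smul_def]
  obtain ⟨α, N, hN, hdeg⟩ := PoleB.exists_N' hy _ hH
  generalize MulAction.stabilizer (M ≃ₐ[Q K 1] M) y = H at hH hN
  obtain ⟨m, hm, hmS⟩ := DomDa.exists_mult α hN.ne
  have htop := hdeg (Fintype.card (Cs H))
  rw [PoleB.coeff_top hN] at htop
  refine ⟨fun i => Option.elim i (e - α.totalDegree) m, fun a => ?_, ?_, fun S => ?_⟩
  · obtain ⟨g, hg, hα⟩ := hm a
    have h1 := hN.prime (prime_lin a) (hv.fin a)
    have h2 := (hv.fin a).val (prime_lin a) α g (m a) hα hg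
    unfold PB
    rw [← PoleB.prod_conj (fun η => max 1 (v (some a) η)) _ hH]
    show _ * v (some a) (algebraMap (A K 1) M (MvPolynomial.X 0 - MvPolynomial.C a)) ^ m a ≤ 1
    rw [← h2, mul_comm, h1]
  · obtain ⟨x, hx⟩ : ∃ x, x = v none (algebraMap (A K 1) M (MvPolynomial.X 0)) := ⟨_, rfl⟩
    have hx1 : 1 < x := by rw [hx]; exact hv.inf.one_lt
    have hx0 : x ≠ 0 := ne_of_gt (zero_lt_one.trans hx1)
    rw [← hx]
    have hco : ∀ (q : Cs H) (m : ℕ), (Polynomial.X - Polynomial.C (cj H y q)).coeff m =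
        if m = 0 then -cj H y q else if m = 1 then 1 else 0 := by
      intro q m
      rcases m with _ | _ | m
      · simp
      · simp [Polynomial.coeff_X]
      · simp [Polynomial.coeff_X]
    obtain ⟨-, m1, g2⟩ := gauss_prod1 (v none) (Finset.univ : Finset (Cs H))
      (fun q => Polynomial.X - Polynomial.C (cj H y q)) (fun q => max 1 (v none (cj H y q)))
      (fun q _ => ne_of_gt (lt_of_lt_of_le zero_lt_one (le_max_left _ _)))
      (fun q _ m => by
        rw [hco]
        split_ifs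
        · rw [Valuation.map_neg]; exact le_max_right _ _
        · rw [map_one]; exact le_max_left _ _
        · rw [map_zero]; exact zero_le)
      (fun q _ => by
        rcases le_total 1 (v none (cj H y q)) with hc | hc
        · exact ⟨0, by rw [hco, if_pos rfl, Valuation.map_neg, max_eq_right hc]⟩
        · exact ⟨1, by rw [hco, if_neg one_ne_zero, if_pos rfl, map_one, max_eq_left hc]⟩)
    have hcoef : v none (algebraMap (A K 1) M α) *
        v none ((∏ q : Cs H, (Polynomial.X - Polynomial.C (cj H y q))).coeff m1) =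
        v none (algebraMap (A K 1) M (N.coeff m1)) := by
      rw [← map_mul, ← Polynomial.coeff_C_mul, ← hN.map, Polynomial.coeff_map]
    have hle : v none (algebraMap (A K 1) M (N.coeff m1)) ≤ x ^ e := by
      by_cases h0 : N.coeff m1 = 0
      · rw [h0, map_zero, map_zero]
        exact zero_le
      · rw [hv.inf.val _ h0, ← hx]
        exact pow_le_pow_right₀ hx1.le (hdeg m1)
    rw [hv.inf.val _ hN.ne, ← hx, g2] at hcoef
    unfold PB
    rw [← PoleB.prod_conj (fun η => max 1 (v none η)) H hH]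
    show (∏ q : Cs H, max 1 (v none (cj H y q))) * x⁻¹ ^ (e - α.totalDegree) ≤ 1
    have h5 : x ^ α.totalDegree * ∏ q : Cs H, max 1 (v none (cj H y q)) ≤ x ^ e :=
      hcoef.le.trans hle
    have h6 : x ^ e = x ^ α.totalDegree * x ^ (e - α.totalDegree) := by
      rw [← pow_add]
      congr 1
      omega
    have h7 : (∏ q : Cs H, max 1 (v none (cj H y q))) ≤ x ^ (e - α.totalDegree) := by
      rw [h6] at h5
      have hp : 0 < x ^ α.totalDegree := zero_lt_iff.2 (pow_ne_zero _ hx0)
      exact le_of_mul_le_mul_left h5 hp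
    calc (∏ q : Cs H, max 1 (v none (cj H y q))) * x⁻¹ ^ (e - α.totalDegree)
        ≤ x ^ (e - α.totalDegree) * x⁻¹ ^ (e - α.totalDegree) := mul_le_mul_left h7 _
      _ = 1 := by rw [← mul_pow, mul_inv_cancel₀ hx0, one_pow]
      _ ≤ 1 := le_rfl
  · have h1 : ∑ i ∈ S, (Option.elim i (e - α.totalDegree) m : ℕ) ≤
        ∑ i ∈ Finset.insertNone S.eraseNone, (Option.elim i (e - α.totalDegree) m : ℕ) := by
      refine Finset.sum_le_sum_of_subset fun i hi => ?_
      rcases i with _ | a
      · exact Finset.none_mem_insertNone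
      · exact Finset.some_mem_insertNone.2 (Finset.mem_eraseNone.2 hi)
    refine h1.trans ?_
    rw [Finset.sum_insertNone]
    have h2 := hmS S.eraseNone
    show e - α.totalDegree + ∑ a ∈ S.eraseNone, m a ≤ e
    omega

end Pool.Agent.DI
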