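import Pool.Agent.DI.DomDa

set_option autoImplicit false

/-! # The divisor of the poles of an element -/

namespace Pool.Agent.DI

open Pool.Agent.QN Pool.Agent.QS

/-- the uniformisers of the places -/
noncomputable def piv {K : Type} [Field K] {M : Type} [Field M] [Algebra (A K 1) M]
    {Γ : Option K → Type} [∀ i, LinearOrderedCommGroupWithZero (Γ i)]
    (v : ∀ i, Valuation M (Γ i)) : ∀ i : Option K, Γ i
  | some a => v (some a) (algebraMap (A K 1) M (MvPolynomial.X 0 - MvPolynomial.C a))
  | none => (v none (algebraMap (A K 1) M (MvPolynomial.X 0)))⁻¹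

variable {K : Type} [Field K] [CharZero K] [IsAlgClosed K] {M : Type} [Field M] [Algebra K M]
  [Algebra (A K 1) M] [Algebra (Q K 1) M] [IsScalarTower (A K 1) (Q K 1) M]
  [IsScalarTower K (A K 1) M] [IsScalarTower K (Q K 1) M] [FiniteDimensional (Q K 1) M]
  [IsGalois (Q K 1) M] {Γ : Option K → Type} [∀ i, LinearOrderedCommGroupWithZero (Γ i)]
  {v : ∀ i, Valuation M (Γ i)}

theorem Pls.plc (hv : Pls K v) (i : Option K) : Plc K (Q K 1) (v i) (piv v i) := by
  rcases i with _ | a
  · exact plc_inf hv.inf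
  · exact plc_prime (prime_lin a) (hv.fin a)

/-- at most `e` poles in all -/
theorem exists_div (hv : Pls K v) {e : ℕ} {y : M} (hy : SX K e y) :
    ∃ n : Option K → ℕ, (∀ s : Finset (Option K), ∑ i ∈ s, n i ≤ e) ∧
      ∀ i, PB (Q K 1) (v i) (piv v i) (n i) y := by
  obtain ⟨E, h1, h2, h3⟩ := pole_sum hv hy
  refine ⟨E, h3, fun i => ?_⟩
  rcases i with _ | a
  · exact h2
  · exact h1 a

end Pool.Agent.DI
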