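import Pool.Agent.DI.Dom

set_option autoImplicit false

/-! # Domination and the degree of `X` -/

namespace Pool.Agent.DI

open Pool.Agent.QN Pool.Agent.QS

variable {K : Type} [Field K] [CharZero K] [IsAlgClosed K] {M : Type} [Field M] [Algebra K M]
  [Algebra (A K 1) M] [Algebra (Q K 1) M] [IsScalarTower (A K 1) (Q K 1) M]
  [IsScalarTower K (A K 1) M] [IsScalarTower K (Q K 1) M] [FiniteDimensional (Q K 1) M]
  [IsGalois (Q K 1) M] {Γ : Option K → Type} [∀ i, LinearOrderedCommGroupWithZero (Γ i)]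
  {v : ∀ i, Valuation M (Γ i)}

namespace DomS

omit [CharZero K] [IsAlgClosed K] [Algebra K M] [Algebra (A K 1) M]
  [IsScalarTower (A K 1) (Q K 1) M] [IsScalarTower K (A K 1) M] [IsScalarTower K (Q K 1) M]
  [IsGalois (Q K 1) M] in
/-- the Gauss norm of the polynomial of the conjugates -/
theorem gauss {Γ' : Type} [LinearOrderedCommGroupWithZero Γ'] (w : Valuation M Γ')
    (H : Subgroup (M ≃ₐ[Q K 1] M)) (z : M) :
    (∀ m, w ((∏ q : Cs H, (Polynomial.X - Polynomial.C (cj H z q))).coeff m) ≤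
      ∏ q : Cs H, max 1 (w (cj H z q))) ∧
    ∃ m, w ((∏ q : Cs H, (Polynomial.X - Polynomial.C (cj H z q))).coeff m) =
      ∏ q : Cs H, max 1 (w (cj H z q)) := by
  have hco : ∀ (q : Cs H) (m : ℕ), (Polynomial.X - Polynomial.C (cj H z q)).coeff m =
      if m = 0 then -cj H z q else if m = 1 then 1 else 0 := by
    intro q m
    rcases m with _ | _ | m
    · simp
    · simp [Polynomial.coeff_X]
    · simp [Polynomial.coeff_X]
  exact gauss_prod1 w (Finset.univ : Finset (Cs H))
    (fun q => Polynomial.X - Polynomial.C (cj H z q)) (fun q => max 1 (w (cj H z q)))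
    (fun q _ => ne_of_gt (lt_of_lt_of_le zero_lt_one (le_max_left _ _)))
    (fun q _ m => by
      rw [hco]
      split_ifs
      · rw [Valuation.map_neg]; exact le_max_right _ _
      · rw [map_one]; exact le_max_left _ _
      · rw [map_zero]; exact zero_le)
    (fun q _ => by
      rcases le_total 1 (w (cj H z q)) with hc | hc
      · exact ⟨0, by rw [hco, if_pos rfl, Valuation.map_neg, max_eq_right hc]⟩
      · exact ⟨1, by rw [hco, if_neg one_ne_zero, if_pos rfl, map_one, max_eq_left hc]⟩)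

omit [CharZero K] in
/-- a polynomial which is not constant has a linear factor -/
theorem exists_lin (p : A K 1) (hp : Irreducible p) :
    ∃ a : K, (MvPolynomial.X 0 - MvPolynomial.C a : A K 1) ∣ p := by
  let e : A K 1 ≃ₐ[K] Polynomial K := MvPolynomial.uniqueAlgEquiv K (Fin 1)
  have hX : ∀ a : K, e (MvPolynomial.X 0 - MvPolynomial.C a) = Polynomial.X - Polynomial.C a := by
    intro a
    rw [map_sub]
    congr 1
    · simp [e]
    · simp [e]
  have he : Irreducible (e p) := (MulEquiv.irreducible_iff e.toMulEquiv).2 hp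
  obtain ⟨a, ha⟩ := IsAlgClosed.exists_root (e p) (Polynomial.degree_pos_of_irreducible he).ne'
  refine ⟨a, ?_⟩
  have h1 : e (MvPolynomial.X 0 - MvPolynomial.C a) ∣ e p := by
    rw [hX]
    exact Polynomial.dvd_iff_isRoot.2 ha
  exact (map_dvd_iff e).1 h1

omit [CharZero K] [Algebra K M] [IsScalarTower K (A K 1) M] [IsScalarTower K (Q K 1) M]
  [FiniteDimensional (Q K 1) M] [IsGalois (Q K 1) M] in
/-- a rational function without finite poles is a polynomial -/
theorem exists_A (hv : Pls K v) (c : Q K 1)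
    (h : ∀ a : K, v (some a) (algebraMap (Q K 1) M c) ≤ 1) :
    ∃ f : A K 1, algebraMap (A K 1) (Q K 1) f = c := by
  obtain ⟨f, g, hrel, hfg⟩ := IsFractionRing.exists_reduced_fraction (A := A K 1) c
  have hg0 : (g : A K 1) ≠ 0 := nonZeroDivisors.ne_zero g.2
  have hu : IsUnit (g : A K 1) := by
    by_contra hu
    obtain ⟨p, hp, hpg⟩ := WfDvdMonoid.exists_irreducible_factor hu hg0
    obtain ⟨a, ha⟩ := exists_lin p hp
    have h1 : v (some a) (algebraMap (A K 1) M g) < 1 :=
      ((hv.fin a).lt_one _).2 (ha.trans hpg)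
    have h2 : v (some a) (algebraMap (A K 1) M f) = 1 := by
      refine le_antisymm ((hv.fin a).le_one f) (not_lt.1 fun h3 => ?_)
      exact (prime_lin a).not_isUnit (hrel (((hv.fin a).lt_one _).1 h3) (ha.trans hpg))
    have h3 : algebraMap (Q K 1) M c * algebraMap (A K 1) M g = algebraMap (A K 1) M f := by
      rw [IsScalarTower.algebraMap_apply (A K 1) (Q K 1) M,
        IsScalarTower.algebraMap_apply (A K 1) (Q K 1) M f, ← map_mul, ← hfg,
        IsLocalization.mk'_spec]
    have h4 := congrArg (v (some a)) h3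
    rw [map_mul, h2] at h4
    have h5 : v (some a) (algebraMap (Q K 1) M c) * v (some a) (algebraMap (A K 1) M g) < 1 := by
      refine lt_of_le_of_lt (mul_le_mul_left (h a) _) ?_
      rw [one_mul]
      exact h1
    exact absurd h4 h5.ne
  obtain ⟨u, hu⟩ := hu
  refine ⟨f * (u⁻¹ : (A K 1)ˣ), ?_⟩
  rw [← hfg, IsLocalization.eq_mk'_iff_mul_eq, ← map_mul, mul_assoc, ← hu, Units.inv_mul,
    mul_one]

end DomS

theorem dom_SX (hv : Pls K v) {e : ℕ} {y z : M} (hy : SX K e y) (h : Dom K v y z) :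
    SX K e z := by
  classical
  have hH : ∀ σ : M ≃ₐ[Q K 1] M, σ ∈ MulAction.stabilizer (M ≃ₐ[Q K 1] M) y ↔ σ y = y := by
    intro σ
    rw [MulAction.mem_stabilizer_iff, AlgEquiv.smul_def]
  obtain ⟨α, N, hN, hdeg⟩ := PoleB.exists_N' hy _ hH
  generalize MulAction.stabilizer (M ≃ₐ[Q K 1] M) y = H at hH hN
  have hz : ∀ σ ∈ H, σ z = z := fun σ hσ => h.1 σ ((hH σ).1 hσ)
  obtain ⟨nQ, hmon, hnQ⟩ := cj_poly H z hz
  -- the conjugates
  have hcj : ∀ (i : Option K) (q : Cs H), max 1 (v i (cj H z q)) ≤ max 1 (v i (cj H y q)) := by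
    intro i q
    obtain ⟨σ, rfl⟩ := Cs.mk_surjective H q
    rw [cj_mk H z hz, cj_mk H y fun g hg => (hH g).1 hg]
    exact max_le (le_max_left _ _) (h.2 i σ)
  have hprod : ∀ i : Option K, ∏ q : Cs H, max 1 (v i (cj H z q)) ≤
      ∏ q : Cs H, max 1 (v i (cj H y q)) := fun i =>
    Finset.prod_le_prod' fun q _ => hcj i q
  have hαQ : algebraMap (A K 1) (Q K 1) α ≠ 0 := fun h0 =>
    hN.ne (IsFractionRing.injective (A K 1) (Q K 1) (h0.trans (map_zero _).symm))
  -- the coefficients
  set P : Polynomial (Q K 1) := Polynomial.C (algebraMap (A K 1) (Q K 1) α) * nQ with hP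
  have hPv : ∀ (i : Option K) (m : ℕ), v i (algebraMap (Q K 1) M (P.coeff m)) ≤
      v i (algebraMap (A K 1) M α) * ∏ q : Cs H, max 1 (v i (cj H y q)) := by
    intro i m
    rw [hP, Polynomial.coeff_C_mul, map_mul, map_mul,
      ← IsScalarTower.algebraMap_apply (A K 1) (Q K 1) M, ← Polynomial.coeff_map, hnQ]
    exact mul_le_mul_right (((DomS.gauss (v i) H z).1 m).trans (hprod i)) _
  have hfin : ∀ m : ℕ, ∃ f : A K 1, algebraMap (A K 1) (Q K 1) f = P.coeff m := by
    intro m
    refine DomS.exists_A hv _ fun a => ?_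
    refine (hPv (some a) m).trans (le_of_eq ?_)
    exact hN.prime (prime_lin a) (hv.fin a)
  have hPl : P ∈ Polynomial.lifts (algebraMap (A K 1) (Q K 1)) := by
    rw [Polynomial.lifts_iff_coeff_lifts]
    intro m
    obtain ⟨f, hf⟩ := hfin m
    exact ⟨f, hf⟩
  obtain ⟨R, hR⟩ := (Polynomial.mem_lifts _).1 hPl
  have hP0 : P ≠ 0 := mul_ne_zero (Polynomial.C_ne_zero.2 hαQ) hmon.ne_zero
  refine ⟨R, ?_, ?_, ?_⟩
  · rintro rfl
    rw [Polynomial.map_zero] at hR
    exact hP0 hR.symm
  · intro m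
    by_cases h0 : R.coeff m = 0
    · rw [h0, MvPolynomial.totalDegree_zero]
      exact Nat.zero_le _
    obtain ⟨x, hx⟩ : ∃ x, x = v none (algebraMap (A K 1) M (MvPolynomial.X 0)) := ⟨_, rfl⟩
    have hx1 : 1 < x := by rw [hx]; exact hv.inf.one_lt
    have h1 : v none (algebraMap (A K 1) M (R.coeff m)) = x ^ (R.coeff m).totalDegree := by
      rw [hx]
      exact hv.inf.val _ h0
    have h2 : v none (algebraMap (A K 1) M (R.coeff m)) ≤
        v none (algebraMap (A K 1) M α) * ∏ q : Cs H, max 1 (v none (cj H y q)) := by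
      rw [IsScalarTower.algebraMap_apply (A K 1) (Q K 1) M, ← Polynomial.coeff_map, hR]
      exact hPv none m
    obtain ⟨-, m1, g2⟩ := DomS.gauss (v none) H y
    have hcoef : v none (algebraMap (A K 1) M α) *
        v none ((∏ q : Cs H, (Polynomial.X - Polynomial.C (cj H y q))).coeff m1) =
        v none (algebraMap (A K 1) M (N.coeff m1)) := by
      rw [← map_mul, ← Polynomial.coeff_C_mul, ← hN.map, Polynomial.coeff_map]
    have hle : v none (algebraMap (A K 1) M (N.coeff m1)) ≤ x ^ e := by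
      by_cases h0 : N.coeff m1 = 0
      · rw [h0, map_zero, map_zero]
        exact zero_le
      · rw [hv.inf.val _ h0, ← hx]
        exact pow_le_pow_right₀ hx1.le (hdeg m1)
    rw [← g2, hcoef, h1] at h2
    exact (pow_le_pow_iff_right₀ hx1).1 (h2.trans hle)
  · have h1 : (R.map (algebraMap (A K 1) M)).eval z = 0 := by
      rw [IsScalarTower.algebraMap_eq (A K 1) (Q K 1) M, ← Polynomial.map_map, hR, hP,
        Polynomial.map_mul, hnQ, Polynomial.eval_mul, Polynomial.eval_prod]
      refine mul_eq_zero_of_right _ (Finset.prod_eq_zero (Finset.mem_univ (Cs.mk H 1)) ?_)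
      rw [cj_mk H z hz, Polynomial.eval_sub, Polynomial.eval_X, Polynomial.eval_C]
      exact sub_self _
    rw [Polynomial.eval_map_algebraMap] at h1
    exact h1

end Pool.Agent.DI
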