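import Pool.Agent.DI.DomS
import Pool.Agent.DI.DomG

/-! # The elements of bounded degree in a finite-dimensional space: a finite union of subspaces -/

namespace Pool.Agent.DI

open Pool.Agent.QN Pool.Agent.QS

/-- the abstract form -/
theorem DomU.abs {F M : Type} [Field F] [AddCommGroup M] [Module F M] (S : M → Prop)
    (D : M → M → Prop) (hS : ∀ y z, S y → D y z → S z)
    (hG : ∀ V : Submodule F M, FiniteDimensional F V → ∃ (n : ℕ) (Z : Fin n → Submodule F M),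
      (∀ i, ¬ V ≤ Z i) ∧ ∀ y ∈ V, (∀ i, y ∉ Z i) → ∀ z ∈ V, D y z) :
    ∀ (d : ℕ) (V : Submodule F M), FiniteDimensional F V → Module.finrank F V ≤ d →
      ∃ (n : ℕ) (U : Fin n → Submodule F M),
        (∀ i, U i ≤ V ∧ ∃ y ∈ U i, S y ∧ ∀ z ∈ U i, D y z) ∧
        ∀ y ∈ V, S y ↔ ∃ i, y ∈ U i := by
  intro d
  induction d with
  | zero =>
    intro V hV hd
    obtain ⟨n, Z, hZ, hD⟩ := hG V hV
    have hV0 : V = ⊥ := Submodule.finrank_eq_zero.1 (by omega)
    have hn : n = 0 := by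
      by_contra h
      exact hZ ⟨0, Nat.pos_of_ne_zero h⟩ (by rw [hV0]; exact bot_le)
    subst hn
    by_cases h0 : S 0
    · refine ⟨1, fun _ => V, fun _ => ⟨le_rfl, 0, zero_mem _, h0,
        hD 0 (zero_mem _) fun i => i.elim0⟩, fun y hy => ⟨fun _ => ⟨0, hy⟩, fun _ =>
          hS 0 y h0 (hD 0 (zero_mem _) (fun i => i.elim0) y hy)⟩⟩
    · refine ⟨0, fun i => i.elim0, fun i => i.elim0, fun y hy => ⟨fun h1 => ?_, fun ⟨i, _⟩ =>
        i.elim0⟩⟩
      rw [hV0, Submodule.mem_bot] at hy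
      rw [hy] at h1
      exact absurd h1 h0
  | succ d ih =>
    intro V hV hd
    obtain ⟨n, Z, hZ, hD⟩ := hG V hV
    by_cases hc : ∃ y ∈ V, (∀ i, y ∉ Z i) ∧ S y
    · obtain ⟨y, hy, hyZ, hyS⟩ := hc
      exact ⟨1, fun _ => V, fun _ => ⟨le_rfl, y, hy, hyS, hD y hy hyZ⟩, fun z hz =>
        ⟨fun _ => ⟨0, hz⟩, fun _ => hS y z hyS (hD y hy hyZ z hz)⟩⟩
    · push Not at hc
      have h1 : ∀ i : Fin n, ∃ (m : ℕ) (U : Fin m → Submodule F M),
          (∀ j, U j ≤ V ⊓ Z i ∧ ∃ y ∈ U j, S y ∧ ∀ z ∈ U j, D y z) ∧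
          ∀ y ∈ V ⊓ Z i, S y ↔ ∃ j, y ∈ U j := by
        intro i
        have h2 : V ⊓ Z i < V := lt_of_le_of_ne inf_le_left fun h => hZ i (by
          rw [← h]
          exact inf_le_right)
        have h3 := Submodule.finrank_lt_finrank_of_lt h2
        exact ih _ (Submodule.finiteDimensional_of_le inf_le_left) (by omega)
      choose m U hU hUS using h1
      obtain ⟨N, ⟨f⟩⟩ := Finite.exists_equiv_fin (Σ i : Fin n, Fin (m i))
      let W : (Σ i : Fin n, Fin (m i)) → Submodule F M := fun a => U a.1 a.2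
      refine ⟨N, fun a => W (f.symm a), fun a => ?_, fun y hy => ⟨fun hyS => ?_, ?_⟩⟩
      · have h2 := hU (f.symm a).1 (f.symm a).2
        exact ⟨h2.1.trans inf_le_left, h2.2⟩
      · have h2 : ∃ i, y ∈ Z i := by
          by_contra h3
          push Not at h3
          exact hc y hy h3 hyS
        obtain ⟨i, hi⟩ := h2
        obtain ⟨j, hj⟩ := (hUS i y ⟨hy, hi⟩).1 hyS
        refine ⟨f ⟨i, j⟩, ?_⟩
        show y ∈ W (f.symm (f ⟨i, j⟩))
        rw [Equiv.symm_apply_apply]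
        exact hj
      · rintro ⟨a, ha⟩
        have h2 := (hU (f.symm a).1 (f.symm a).2).1 ha
        exact (hUS _ y h2).2 ⟨_, ha⟩

variable {K : Type} [Field K] [CharZero K] [IsAlgClosed K] {M : Type} [Field M] [Algebra K M]
  [Algebra (A K 1) M] [Algebra (Q K 1) M] [IsScalarTower (A K 1) (Q K 1) M]
  [IsScalarTower K (A K 1) M] [IsScalarTower K (Q K 1) M] [FiniteDimensional (Q K 1) M]
  [IsGalois (Q K 1) M] {Γ : Option K → Type} [∀ i, LinearOrderedCommGroupWithZero (Γ i)]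
  {v : ∀ i, Valuation M (Γ i)}

theorem union_M (hv : Pls K v) {F : Type} [Field F] [Infinite F] [Algebra F M]
    (hF : ∀ c : F, ∃ c' : K, algebraMap F M c = algebraMap K M c') (e : ℕ) (V : Submodule F M)
    [FiniteDimensional F V] :
    ∃ (n : ℕ) (U : Fin n → Submodule F M),
      (∀ i, U i ≤ V ∧ ∃ y ∈ U i, SX K e y ∧ ∀ z ∈ U i, Dom K v y z) ∧
      ∀ y ∈ V, SX K e y ↔ ∃ i, y ∈ U i :=
  DomU.abs (SX K e) (Dom K v) (fun _ _ hy h => dom_SX hv hy h)
    (fun V hV => exists_dom hv hF V) (Module.finrank F V) V ‹_› le_rfl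

end Pool.Agent.DI
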