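import Pool.Agent.DI.Sub
import Pool.Agent.DI.NoCube
import Pool.Agent.QDen.DenG
import Pool.Agent.QSP.Low

/-! # The density theorem -/

namespace Pool.Agent.DI

open Pool.Agent.QS

/-- a relation over the algebraic numbers of degree `≤ e` in `x` -/
def RX (e : ℕ) (x y : ℂ) : Prop :=
  ∃ P : MvPolynomial (Fin 2) ℂ, P ≠ 0 ∧ P.degreeOf 0 ≤ e ∧ (∀ m, IsAlgebraic ℚ (P.coeff m)) ∧
    MvPolynomial.eval ![x, y] P = 0

theorem End_lift {σ : Type} (P : MvPolynomial σ ℂ) (h : ∀ m, IsAlgebraic ℚ (P.coeff m)) :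
    ∃ Q : MvPolynomial σ (algebraicClosure ℚ ℂ),
      MvPolynomial.map (algebraMap (algebraicClosure ℚ ℂ) ℂ) Q = P := by
  have : P ∈ Set.range (MvPolynomial.map (σ := σ) (algebraMap (algebraicClosure ℚ ℂ) ℂ)) := by
    rw [MvPolynomial.mem_range_map_iff_coeffs_subset]
    intro c hc
    obtain ⟨e, -, rfl⟩ := MvPolynomial.mem_coeffs_iff.1 (Finset.mem_coe.1 hc)
    exact ⟨⟨P.coeff e, mem_algebraicClosure_iff.2 (h e)⟩, rfl⟩
  exact this

theorem sxl_of_rx {e : ℕ} {x y : ℂ} (h : RX e x y) : SXL (algebraicClosure ℚ ℂ) e x y := by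
  obtain ⟨P, hP0, hPd, hPa, hPe⟩ := h
  obtain ⟨P', rfl⟩ := End_lift P hPa
  have hinj : Function.Injective (algebraMap (algebraicClosure ℚ ℂ) ℂ) :=
    FaithfulSMul.algebraMap_injective _ _
  have hP'0 : P' ≠ 0 := by
    rintro rfl
    exact hP0 (map_zero _)
  have hsw : Function.Injective (Equiv.swap (0 : Fin 2) 1) := (Equiv.swap (0 : Fin 2) 1).injective
  refine ⟨MvPolynomial.finSuccEquiv (algebraicClosure ℚ ℂ) 1
    (MvPolynomial.rename (Equiv.swap (0 : Fin 2) 1) P'), ?_, fun j => ?_, ?_⟩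
  · rw [Ne, EmbeddingLike.map_eq_zero_iff]
    intro h0
    exact hP'0 (MvPolynomial.rename_injective _ hsw (by rw [h0, map_zero]))
  · have h1 := MvPolynomial.degreeOf_coeff_finSuccEquiv
      (MvPolynomial.rename (Equiv.swap (0 : Fin 2) 1) P') (0 : Fin 1) j
    have h2 : MvPolynomial.degreeOf (0 : Fin 1).succ
        (MvPolynomial.rename (Equiv.swap (0 : Fin 2) 1) P') = MvPolynomial.degreeOf 0 P' := by
      have h3 := MvPolynomial.degreeOf_rename_of_injective hsw (p := P') (0 : Fin 2)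
      rw [Equiv.swap_apply_left] at h3
      exact h3
    have h4 : MvPolynomial.degreeOf 0 P' ≤ e := by
      have h5 : MvPolynomial.degreeOf 0 (MvPolynomial.map (algebraMap (algebraicClosure ℚ ℂ) ℂ) P') =
          MvPolynomial.degreeOf 0 P' := by
        rw [MvPolynomial.degreeOf_eq_sup, MvPolynomial.degreeOf_eq_sup,
          MvPolynomial.support_map_of_injective P' hinj]
      rwa [h5] at hPd
    refine le_trans ?_ (h1.trans (h2.le.trans h4))
    rw [MvPolynomial.totalDegree, MvPolynomial.degreeOf_eq_sup]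
    refine Finset.sup_mono_fun fun m _ => ?_
    rw [Finsupp.sum_fintype _ _ fun _ => rfl]
    simp
  · have h1 := aeval_cons_L (K := algebraicClosure ℚ ℂ) (fun _ : Fin 1 => x) y
      (MvPolynomial.rename (Equiv.swap (0 : Fin 2) 1) P')
    rw [← h1, MvPolynomial.aeval_rename]
    have h2 : ((Fin.cons y fun _ : Fin 1 => x : Fin 2 → ℂ) ∘ (Equiv.swap (0 : Fin 2) 1)) =
        ![x, y] := by
      funext i
      fin_cases i
      · rfl
      · rfl
    rw [h2, ← hPe, MvPolynomial.eval_map, MvPolynomial.aeval_def]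

/-- the elements that are algebraic over `K(x)` -/
theorem sxl_sub {K L : Type} [Field K] [Field L] [Algebra K L] {x : L}
    {y y' : L} (h : ∃ e, SXL K e x y) (h' : ∃ e, SXL K e x y') : ∃ e, SXL K e x (y - y') := by
  let φ : A K 1 →+* L := (MvPolynomial.aeval (R := K) (fun _ : Fin 1 => x)).toRingHom
  let _ : Algebra (A K 1) L := φ.toAlgebra
  have h1 : ∀ y : L, (∃ e, SXL K e x y) ↔ IsAlgebraic (A K 1) y := by
    intro y
    constructor
    · rintro ⟨e, R, hR, -, h⟩
      exact ⟨R, hR, h⟩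
    · rintro ⟨R, hR, h⟩
      refine ⟨R.support.sup fun j => (R.coeff j).totalDegree, R, hR, fun j => ?_, h⟩
      by_cases hj : R.coeff j = 0
      · rw [hj, MvPolynomial.totalDegree_zero]
        exact Nat.zero_le _
      · exact Finset.le_sup (f := fun j => (R.coeff j).totalDegree)
          (Polynomial.mem_support_iff.2 hj)
  rw [h1] at h h' ⊢
  exact h.sub h'

/-- differences of logarithms of different primes are independent -/
theorem log_diff_indep {M0 : ℕ} (q r : Fin M0 → ℕ) (hq : ∀ m, (q m).Prime)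
    (hr : ∀ m, (r m).Prime) (hqi : Function.Injective q) (hqr : ∀ m m', q m ≠ r m') :
    LinearIndependent ℚ fun m => ((Real.log (q m : ℝ) : ℝ) : ℂ) - ((Real.log (r m : ℝ) : ℝ) : ℂ) := by
  classical
  rw [Fintype.linearIndependent_iff]
  intro g hg m0
  let S : Finset ℕ := Finset.univ.image q ∪ Finset.univ.image r
  have hqS : ∀ m, q m ∈ S := fun m =>
    Finset.mem_union_left _ (Finset.mem_image_of_mem _ (Finset.mem_univ m))
  have hrS : ∀ m, r m ∈ S := fun m =>
    Finset.mem_union_right _ (Finset.mem_image_of_mem _ (Finset.mem_univ m))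
  have hS : ∀ p ∈ S, p.Prime := by
    intro p hp
    rcases Finset.mem_union.1 hp with h | h
    · obtain ⟨m, -, rfl⟩ := Finset.mem_image.1 h
      exact hq m
    · obtain ⟨m, -, rfl⟩ := Finset.mem_image.1 h
      exact hr m
  have hsum : ∀ (f : ℕ → ℝ) (a : ℕ) (ha : a ∈ S),
      ∑ i : S, (if a = (i : ℕ) then (1 : ℝ) else 0) * f i = f a := by
    intro f a ha
    rw [Finset.sum_eq_single (⟨a, ha⟩ : S)]
    · simp
    · intro i _ hi
      rw [if_neg, zero_mul]
      intro h
      exact hi (Subtype.ext h.symm)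
    · intro h
      exact absurd (Finset.mem_univ _) h
  have h1 : ∑ m, (g m : ℝ) * (Real.log (q m) - Real.log (r m)) = 0 := by
    have h2 : ((∑ m, (g m : ℝ) * (Real.log (q m) - Real.log (r m)) : ℝ) : ℂ) = 0 := by
      rw [← hg]
      push_cast
      refine Finset.sum_congr rfl fun m _ => ?_
      rw [Algebra.smul_def]
      rfl
    exact_mod_cast h2
  have h3 := Pool.Agent.QDen.logs_indepQ S hS
    (fun i => ∑ m, g m * ((if q m = (i : ℕ) then 1 else 0) - (if r m = (i : ℕ) then 1 else 0)))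
    (by
      push_cast
      simp only [Finset.sum_mul]
      rw [Finset.sum_comm, ← h1]
      refine Finset.sum_congr rfl fun m _ => ?_
      have h4 : ∀ i : S, (g m : ℝ) * (((if q m = (i : ℕ) then 1 else 0 : ℚ) : ℝ) -
          ((if r m = (i : ℕ) then 1 else 0 : ℚ) : ℝ)) * Real.log ((i : ℕ) : ℝ) =
          (g m : ℝ) * ((if q m = (i : ℕ) then (1 : ℝ) else 0) * Real.log ((i : ℕ) : ℝ) -
            (if r m = (i : ℕ) then (1 : ℝ) else 0) * Real.log ((i : ℕ) : ℝ)) := fun i => by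
        split_ifs <;> push_cast <;> ring
      rw [Finset.sum_congr rfl fun i _ => h4 i, ← Finset.mul_sum, Finset.sum_sub_distrib,
        hsum (fun a => Real.log (a : ℝ)) (q m) (hqS m),
        hsum (fun a => Real.log (a : ℝ)) (r m) (hrS m)]) ⟨q m0, hqS m0⟩
  rw [Finset.sum_eq_single m0] at h3
  · simp only [if_true] at h3
    rw [if_neg fun h => hqr m0 m0 h.symm, sub_zero, mul_one] at h3
    exact h3
  · intro m _ hm
    simp only
    rw [if_neg fun h => hm (hqi h), if_neg fun h => hqr m0 m h.symm, sub_zero, mul_zero]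
  · intro h
    exact absurd (Finset.mem_univ _) h

/-- the bad integers -/
def Bd (e : ℕ) (x t : ℂ) : Set ℕ :=
  {a : ℕ | t + ((Real.log (a : ℝ) : ℝ) : ℂ) ≠ 0 ∧ RX e x (t + ((Real.log (a : ℝ) : ℝ) : ℂ))}

theorem main (e : ℕ) : ∃ (C : ℝ) (m X0 : ℕ), 0 < C ∧ ∀ x : ℂ, ¬ IsAlgebraic ℚ x → ∀ t : ℂ,
    IsAlgebraic ℚ (Complex.exp t) → ∀ X : ℕ, X0 ≤ X →
      ({a : ℕ | (1 ≤ a ∧ a ≤ X) ∧ a ∈ Bd e x t}.ncard : ℝ) ≤
        X * (C * Real.log (Real.log X) ^ m * Real.exp (-Real.log (Real.log X))) := by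
  classical
  obtain ⟨d, hd, hsub⟩ := subbox e
  obtain ⟨M0, hM0⟩ := no_cube d hd
  obtain ⟨s, n, hs, hn, hbox⟩ := hsub M0
  obtain ⟨C, m, X0, hC, hden⟩ := Pool.Agent.QDen.density_grid n s hn hs
  refine ⟨C, m, X0, hC, fun x hx t ht X hX => hden (Bd e x t) ?_ X hX⟩
  intro b hb V hVp hVc hVd
  by_contra hcon
  push Not at hcon
  let K := algebraicClosure ℚ ℂ
  have : IsAlgClosed K := (algebraicClosure.isAlgClosure ℚ ℂ).isAlgClosed
  have hxK : ¬ IsAlgebraic K x := by
    intro h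
    have : Algebra.IsAlgebraic ℚ K := algebraicClosure.isAlgebraic ℚ ℂ
    exact hx (h.restrictScalars ℚ)
  -- the primes
  let p : Fin n → Fin s → ℕ := fun m i => ((V m).equivFinOfCardEq (hVc m)).symm i
  have hpV : ∀ m i, p m i ∈ V m := fun m i => (((V m).equivFinOfCardEq (hVc m)).symm i).2
  have hpp : ∀ m i, (p m i).Prime := fun m i => hVp m _ (hpV m i)
  have hpinj : ∀ m, Function.Injective (p m) := fun m i j h =>
    ((V m).equivFinOfCardEq (hVc m)).symm.injective (Subtype.ext h)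
  let c : ℂ := t + ((Real.log (b : ℝ) : ℝ) : ℂ)
  let w : Fin n → Fin s → ℂ := fun m i => ((Real.log (p m i : ℝ) : ℝ) : ℂ)
  have hyz : ∀ z : Fin n → Fin s, c + ∑ m, w m (z m) =
      t + ((Real.log ((b * ∏ m, p m (z m) : ℕ) : ℝ) : ℝ) : ℂ) := by
    intro z
    have h0 : ∀ m ∈ (Finset.univ : Finset (Fin n)), ((p m (z m) : ℕ) : ℝ) ≠ 0 := fun m _ => by
      exact_mod_cast (hpp m (z m)).ne_zero
    push_cast
    rw [Real.log_mul (by exact_mod_cast hb) (Finset.prod_ne_zero_iff.2 h0), Real.log_prod h0,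
      Complex.ofReal_add, Complex.ofReal_sum, add_assoc]
  have hzB : ∀ z : Fin n → Fin s, b * ∏ m, p m (z m) ∈ Bd e x t := fun z =>
    hcon (fun m => p m (z m)) fun m => hpV m _
  have hz1 : ∀ z : Fin n → Fin s, 1 ≤ b * ∏ m, p m (z m) := fun z =>
    Nat.one_le_iff_ne_zero.2 (mul_ne_zero hb (Finset.prod_ne_zero_iff.2 fun m _ =>
      (hpp m (z m)).ne_zero))
  have htr : ∀ z : Fin n → Fin s, ¬ IsAlgebraic ℚ (c + ∑ m, w m (z m)) := by
    intro z
    rw [hyz]
    exact Pool.Agent.QDen.transcendental_lam ht (hz1 z) (hzB z).1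
  have hS : ∀ z : Fin n → Fin s, SXL K e x (c + ∑ m, w m (z m)) ∧
      ¬ ∃ κ : K, algebraMap K ℂ κ = c + ∑ m, w m (z m) := by
    intro z
    refine ⟨?_, ?_⟩
    · rw [hyz]
      exact sxl_of_rx (hzB z).2
    · rintro ⟨κ, hκ⟩
      refine htr z ?_
      rw [← hκ]
      exact mem_algebraicClosure_iff.1 κ.2
  have hw : ∀ m i j, ∃ e', SXL K e' x (w m i - w m j) := by
    intro m i j
    let z : Fin n → Fin s := fun _ => j
    have h1 : w m i - w m j = (c + ∑ k, w k (Function.update z m i k)) - (c + ∑ k, w k (z k)) := by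
      rw [add_sub_add_left_eq_sub, ← Finset.sum_sub_distrib, Finset.sum_eq_single m]
      · rw [Function.update_self]
      · intro k _ hk
        rw [Function.update_of_ne hk, sub_self]
      · intro h
        exact absurd (Finset.mem_univ m) h
    rw [h1]
    exact sxl_sub ⟨e, (hS _).1⟩ ⟨e, (hS _).1⟩
  obtain ⟨I, z0, j, hI, hj, hTR⟩ := hbox K x hxK c w hS hw
  -- the contradiction
  refine hM0 (c + ∑ m, w m (z0 m)) (fun m => w (I m) (j m) - w (I m) (z0 (I m))) ?_ ?_ ?_ (htr z0)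
    fun A => ?_
  · rw [hyz, Complex.exp_add, ← Complex.ofReal_exp,
      Real.exp_log (by exact_mod_cast Nat.pos_of_ne_zero (Nat.one_le_iff_ne_zero.1 (hz1 z0)))]
    exact ht.mul (by exact_mod_cast isAlgebraic_natCast (R := ℚ) (A := ℂ) _)
  · intro m
    have h1 : ∀ m i, IsAlgebraic ℚ (Complex.exp (w m i)) := by
      intro m i
      change IsAlgebraic ℚ (Complex.exp ((Real.log (p m i : ℝ) : ℝ) : ℂ))
      rw [← Complex.ofReal_exp, Real.exp_log (by exact_mod_cast (hpp m i).pos)]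
      exact_mod_cast isAlgebraic_natCast (R := ℚ) (A := ℂ) (p m i)
    rw [Complex.exp_sub]
    exact (h1 _ _).mul (h1 _ _).inv
  · have hdis : ∀ m m' : Fin n, m ≠ m' → ∀ i i', p m i ≠ p m' i' := by
      intro m m' hm i i' h
      exact Finset.disjoint_left.1 (hVd m m' hm) (hpV m i) (h ▸ hpV m' i')
    refine log_diff_indep (fun m => p (I m) (j m)) (fun m => p (I m) (z0 (I m)))
      (fun m => hpp _ _) (fun m => hpp _ _) ?_ ?_
    · intro m m' h
      by_contra hne
      exact hdis _ _ (fun h' => hne (hI h')) _ _ h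
    · intro m m' h
      rcases eq_or_ne m m' with rfl | hne
      · exact hj m (hpinj _ h)
      · exact hdis _ _ (fun h' => hne (hI h')) _ _ h
  · have h1 := hTR ∅ A
    rwa [Finset.sum_empty, add_zero] at h1

end Pool.Agent.DI
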