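import Mathlib

/-! # Littlewood-Offord for finite alphabets -/

set_option autoImplicit false

open Finset

namespace Pool.Agent.DI

theorem LO_central (n : ℕ) : n.centralBinom ^ 2 * (2 * n + 1) ≤ 16 ^ n := by
  induction n with
  | zero => simp
  | succ n ih =>
    have h := Nat.succ_mul_centralBinom_succ n
    have h1 : (n + 1) ^ 2 * ((n + 1).centralBinom ^ 2 * (2 * (n + 1) + 1)) ≤
        (n + 1) ^ 2 * 16 ^ (n + 1) := by
      calc (n + 1) ^ 2 * ((n + 1).centralBinom ^ 2 * (2 * (n + 1) + 1)) =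
            ((n + 1) * (n + 1).centralBinom) ^ 2 * (2 * (n + 1) + 1) := by ring
        _ = 4 * ((2 * n + 1) * (2 * n + 3)) * (n.centralBinom ^ 2 * (2 * n + 1)) := by
            rw [h]; ring
        _ ≤ 4 * ((2 * n + 1) * (2 * n + 3)) * 16 ^ n := Nat.mul_le_mul_left _ ih
        _ ≤ 4 * (4 * (n + 1) ^ 2) * 16 ^ n := by
            refine Nat.mul_le_mul_right _ (Nat.mul_le_mul_left _ ?_)
            nlinarith
        _ = (n + 1) ^ 2 * 16 ^ (n + 1) := by ring
    exact Nat.le_of_mul_le_mul_left h1 (by positivity)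

theorem LO_choose (s : ℕ) : s.choose (s / 2) ^ 2 * (s + 1) ≤ 4 ^ s := by
  rcases Nat.even_or_odd' s with ⟨n, rfl | rfl⟩
  · have h := LO_central n
    rw [Nat.centralBinom_eq_two_mul_choose] at h
    rw [Nat.mul_div_cancel_left _ (by norm_num : 0 < 2), pow_mul]
    exact h
  · have h := LO_central (n + 1)
    have e : (n + 1).centralBinom = 2 * (2 * n + 1).choose n := by
      rw [Nat.centralBinom_eq_two_mul_choose, show 2 * (n + 1) = (2 * n + 1) + 1 by ring,
        Nat.choose_succ_succ, Nat.choose_symm_half]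
      ring
    have e2 : (2 * n + 1) / 2 = n := by omega
    rw [e] at h
    rw [e2]
    have h2 : 4 * ((2 * n + 1).choose n ^ 2 * (2 * n + 1 + 1)) ≤ 4 * 4 ^ (2 * n + 1) := by
      calc 4 * ((2 * n + 1).choose n ^ 2 * (2 * n + 1 + 1)) ≤
            (2 * (2 * n + 1).choose n) ^ 2 * (2 * (n + 1) + 1) := by
            have : (2 * (2 * n + 1).choose n) ^ 2 * (2 * (n + 1) + 1) =
              4 * ((2 * n + 1).choose n ^ 2 * (2 * n + 3)) := by ring
            rw [this]
            refine Nat.mul_le_mul_left _ (Nat.mul_le_mul_left _ ?_)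
            omega
        _ ≤ 16 ^ (n + 1) := h
        _ = 4 * 4 ^ (2 * n + 1) := by
            rw [show (16 : ℕ) = 4 ^ 2 by norm_num, ← pow_mul]
            ring
    exact Nat.le_of_mul_le_mul_left h2 (by norm_num)

theorem LO_real (s : ℕ) : (s.choose (s / 2) : ℝ) ≤ 2 ^ s / Real.sqrt (s + 1) := by
  have h : ((s.choose (s / 2) : ℝ)) ^ 2 * (s + 1) ≤ 4 ^ s := by exact_mod_cast LO_choose s
  have hs : (0 : ℝ) < (s : ℝ) + 1 := by positivity
  rw [le_div_iff₀ (Real.sqrt_pos.2 hs)]
  refine le_of_sq_le_sq ?_ (by positivity)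
  rw [mul_pow, Real.sq_sqrt hs.le, ← pow_mul, mul_comm s 2, pow_mul]
  norm_num
  exact h

open Classical in
/-- Littlewood-Offord for non-zero vectors -/
theorem LO_nonzero {α V : Type} [Fintype α] [AddCommGroup V] [Module ℚ V] (d : α → V)
    (hd : ∀ a, d a ≠ 0) (c : V) :
    (univ.filter fun T : Finset α => ∑ a ∈ T, d a = c).card ≤
      (Fintype.card α).choose (Fintype.card α / 2) := by
  obtain ⟨f, hf⟩ := Module.exists_dual_forall_apply_ne_zero (K := ℚ) d hd
  set N : Finset α := univ.filter fun a => f (d a) < 0 with hN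
  have key : ∀ T : Finset α, f (∑ a ∈ T, d a) =
      ∑ a ∈ symmDiff T N, |f (d a)| + ∑ a ∈ N, f (d a) := by
    intro T
    rw [map_sum, ← Finset.sum_filter_add_sum_filter_not T (fun a => a ∈ N)]
    have e1 : symmDiff T N = (T.filter fun a => a ∉ N) ∪ (N.filter fun a => a ∉ T) := by
      ext a
      simp only [Finset.mem_symmDiff, mem_union, mem_filter]
    have e2 : Disjoint (T.filter fun a => a ∉ N) (N.filter fun a => a ∉ T) := by
      rw [disjoint_left]
      intro a h1 h2
      exact (mem_filter.1 h1).2 (mem_filter.1 h2).1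
    rw [e1, sum_union e2, ← Finset.sum_filter_add_sum_filter_not N (fun a => a ∈ T)]
    have e3 : ∑ a ∈ T.filter (fun a => a ∉ N), |f (d a)| =
        ∑ a ∈ T.filter (fun a => a ∉ N), f (d a) := by
      refine sum_congr rfl fun a ha => ?_
      have h := (mem_filter.1 ha).2
      rw [hN, mem_filter] at h
      push Not at h
      exact abs_of_nonneg (h (mem_univ _))
    have e4 : ∑ a ∈ N.filter (fun a => a ∉ T), |f (d a)| =
        -∑ a ∈ N.filter (fun a => a ∉ T), f (d a) := by
      rw [← sum_neg_distrib]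
      refine sum_congr rfl fun a ha => ?_
      have h := (mem_filter.1 ha).1
      rw [hN, mem_filter] at h
      exact abs_of_neg h.2
    have e5 : T.filter (fun a => a ∈ N) = N.filter (fun a => a ∈ T) := by
      ext a
      simp only [mem_filter]
      tauto
    rw [e3, e4, e5]
    ring
  have hanti : IsAntichain (· ⊆ ·)
      (((univ.filter fun T : Finset α => ∑ a ∈ T, d a = c).image fun T => symmDiff T N :
        Finset (Finset α)) : Set (Finset α)) := by
    intro U1 hU1 U2 hU2 hne hsub
    rw [mem_coe, mem_image] at hU1 hU2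
    obtain ⟨T1, hT1, rfl⟩ := hU1
    obtain ⟨T2, hT2, rfl⟩ := hU2
    have h1 := key T1
    have h2 := key T2
    rw [(mem_filter.1 hT1).2] at h1
    rw [(mem_filter.1 hT2).2] at h2
    have h3 : ∑ a ∈ symmDiff T1 N, |f (d a)| < ∑ a ∈ symmDiff T2 N, |f (d a)| := by
      have hss : symmDiff T1 N ⊂ symmDiff T2 N := lt_of_le_of_ne hsub hne
      obtain ⟨b, hb2, hb1⟩ := exists_of_ssubset hss
      exact sum_lt_sum_of_subset hsub hb2 hb1 (abs_pos.2 (hf b)) fun a _ _ => abs_nonneg _
    linarith
  have h := hanti.sperner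
  rwa [card_image_of_injective _ (symmDiff_left_injective N)] at h

open Classical in
/-- Littlewood-Offord, some vectors may be zero -/
theorem LO_general {n : ℕ} {V : Type} [AddCommGroup V] [Module ℚ V] (d : Fin n → V) (c : V) :
    (((univ.filter fun T : Finset (Fin n) => ∑ a ∈ T, d a = c).card : ℕ) : ℝ) ≤
      2 ^ n / Real.sqrt ((univ.filter fun a => d a ≠ 0).card + 1) := by
  set S : Finset (Fin n) := univ.filter fun a => d a ≠ 0 with hS
  have h1 := LO_nonzero (α := S) (fun a => d a) (fun a => (mem_filter.1 a.2).2) c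
  rw [Fintype.card_coe] at h1
  set P := univ.filter fun T : Finset S => ∑ a ∈ T, d a = c with hP
  have h2 : (univ.filter fun T : Finset (Fin n) => ∑ a ∈ T, d a = c).card ≤
      ((Sᶜ.powerset) ×ˢ P).card := by
    refine card_le_card_of_injOn (fun T => (T.filter (· ∉ S), T.subtype (· ∈ S))) ?_ ?_
    · intro T hT
      have hT' := (mem_filter.1 (mem_coe.1 hT)).2
      rw [mem_coe, mem_product]
      constructor
      · rw [mem_powerset]
        intro a ha
        rw [mem_compl]
        exact (mem_filter.1 ha).2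
      · rw [hP, mem_filter]
        refine ⟨mem_univ _, ?_⟩
        rw [← hT', ← Finset.sum_filter_add_sum_filter_not T (fun a => a ∈ S)]
        have e1 : ∑ a ∈ T.filter (fun a => a ∉ S), d a = 0 := by
          refine sum_eq_zero fun a ha => ?_
          have h := (mem_filter.1 ha).2
          rw [hS, mem_filter] at h
          push Not at h
          exact h (mem_univ _)
        rw [e1, add_zero]
        exact Finset.sum_subtype_eq_sum_filter (s := T) (f := d) (p := fun a => a ∈ S)
    · intro T1 _ T2 _ h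
      have h3 : T1.filter (· ∉ S) = T2.filter (· ∉ S) := congrArg Prod.fst h
      have h4 : T1.subtype (· ∈ S) = T2.subtype (· ∈ S) := congrArg Prod.snd h
      ext a
      by_cases ha : a ∈ S
      · have h5 : (⟨a, ha⟩ : S) ∈ T1.subtype (· ∈ S) ↔ (⟨a, ha⟩ : S) ∈ T2.subtype (· ∈ S) := by
          rw [h4]
        rwa [mem_subtype, mem_subtype] at h5
      · have h5 : a ∈ T1.filter (· ∉ S) ↔ a ∈ T2.filter (· ∉ S) := by rw [h3]
        constructor
        · intro h6
          exact (mem_filter.1 (h5.1 (mem_filter.2 ⟨h6, ha⟩))).1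
        · intro h6
          exact (mem_filter.1 (h5.2 (mem_filter.2 ⟨h6, ha⟩))).1
  rw [card_product, card_powerset, card_compl, Fintype.card_fin] at h2
  have h3 : (((univ.filter fun T : Finset (Fin n) => ∑ a ∈ T, d a = c).card : ℕ) : ℝ) ≤
      2 ^ (n - S.card) * (2 ^ S.card / Real.sqrt (S.card + 1)) := by
    have h4 : (((univ.filter fun T : Finset (Fin n) => ∑ a ∈ T, d a = c).card : ℕ) : ℝ) ≤
        2 ^ (n - S.card) * (P.card : ℝ) := by exact_mod_cast h2
    refine h4.trans (mul_le_mul_of_nonneg_left ?_ (by positivity))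
    refine le_trans ?_ (LO_real S.card)
    exact_mod_cast h1
  refine h3.trans (le_of_eq ?_)
  have h5 : S.card ≤ n := by
    have := card_le_univ S
    rwa [Fintype.card_fin] at this
  rw [mul_div_assoc', ← pow_add, Nat.sub_add_cancel h5]

open Classical in
theorem lo (q : ℕ) (δ : ℝ) (hδ : 0 < δ) : ∃ D : ℕ, ∀ (ι V : Type) [Fintype ι] [AddCommGroup V]
    [Module ℚ V], Fintype.card ι = q → ∀ (n : ℕ) (X : Fin n → ι → V) (c : V) (W : Finset (Fin n)),
    (∀ m ∈ W, ∃ a b : ι, X m a ≠ X m b) → D ≤ W.card →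
    (Nat.card {ω : Fin n → ι // ∑ m, X m (ω m) = c} : ℝ) ≤ δ * (q : ℝ) ^ n := by
  rcases Nat.eq_zero_or_pos q with rfl | hq
  · refine ⟨1, fun ι V _ _ _ hι n X c W hW hD => ?_⟩
    obtain ⟨m, hm⟩ := card_pos.1 (by omega : 0 < W.card)
    obtain ⟨a, -, -⟩ := hW m hm
    exact absurd (Fintype.card_pos_iff.2 ⟨a⟩) (by omega)
  have hq0 : (0 : ℝ) < q := by exact_mod_cast hq
  -- the parameters
  obtain ⟨k, hk⟩ := exists_nat_ge ((2 / δ) ^ 2)
  have hk1 : 1 / Real.sqrt (k + 1) ≤ δ / 2 := by
    have h1 : 2 / δ ≤ Real.sqrt (k + 1) := by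
      refine Real.le_sqrt_of_sq_le ?_
      linarith
    rw [div_le_iff₀ (by positivity)]
    have h2 : δ / 2 * (2 / δ) = 1 := by field_simp
    calc (1 : ℝ) = δ / 2 * (2 / δ) := h2.symm
      _ ≤ δ / 2 * Real.sqrt (k + 1) := mul_le_mul_of_nonneg_left h1 (by positivity)
  set r : ℝ := 1 - 1 / q with hr
  have hr0 : 0 ≤ r := by
    rw [hr, sub_nonneg, div_le_one hq0]
    exact_mod_cast hq
  have hr1 : r < 1 := by
    rw [hr]
    have : 0 < 1 / (q : ℝ) := by positivity
    linarith
  obtain ⟨D, hD⟩ := exists_pow_lt_of_lt_one (show 0 < δ / 2 / 2 ^ k by positivity) hr1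
  refine ⟨D, fun ι V _ _ _ hι n X c W hW hDW => ?_⟩
  -- the swaps
  have hch : ∀ m : Fin n, ∃ σ : Equiv.Perm ι, m ∈ W → ∃ a b : ι, a ≠ b ∧ X m a ≠ X m b ∧
      σ a = b ∧ σ b = a := by
    intro m
    by_cases hm : m ∈ W
    · obtain ⟨a, b, hab⟩ := hW m hm
      refine ⟨Equiv.swap a b, fun _ => ⟨a, b, fun h => hab (by rw [h]), hab,
        Equiv.swap_apply_left _ _, Equiv.swap_apply_right _ _⟩⟩
    · exact ⟨1, fun h => absurd h hm⟩
  choose σ hσ using hch
  set ρ : Finset (Fin n) → (Fin n → ι) → (Fin n → ι) := fun T u m =>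
    if m ∈ T then σ m (u m) else u m with hρ
  have hρb : ∀ T, Function.Bijective (ρ T) := by
    intro T
    rw [← Finite.injective_iff_bijective]
    intro u u' h
    funext m
    have h1 := congrFun h m
    simp only [hρ] at h1
    split_ifs at h1 with hm
    · exact (σ m).injective h1
    · exact h1
  set d : (Fin n → ι) → Fin n → V := fun u m => X m (σ m (u m)) - X m (u m) with hd
  have hsum : ∀ T u, ∑ m, X m (ρ T u m) = ∑ m, X m (u m) + ∑ m ∈ T, d u m := by
    intro T u
    have e : ∑ m ∈ T, d u m = ∑ m, if m ∈ T then d u m else 0 := by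
      rw [← sum_filter]
      congr 1
      ext m
      simp
    rw [e, ← sum_add_distrib]
    refine sum_congr rfl fun m _ => ?_
    simp only [hρ, hd]
    split_ifs with hm
    · abel
    · rw [add_zero]
  set Z := univ.filter fun ω : Fin n → ι => ∑ m, X m (ω m) = c with hZ
  have hcard : Nat.card {ω : Fin n → ι // ∑ m, X m (ω m) = c} = Z.card := by
    rw [Nat.card_eq_fintype_card, Fintype.card_subtype]
  rw [hcard]
  set s : (Fin n → ι) → ℕ := fun u => (univ.filter fun m => d u m ≠ 0).card with hs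
  -- double counting
  have hdc : (2 : ℝ) ^ n * Z.card ≤ ∑ u : Fin n → ι, 2 ^ n / Real.sqrt (s u + 1) := by
    have h1 : ∀ T : Finset (Fin n), Z.card = (univ.filter fun u => ∑ m, X m (ρ T u m) = c).card := by
      intro T
      symm
      refine card_bij (fun u _ => ρ T u) ?_ ?_ ?_
      · intro u hu
        rw [hZ, mem_filter]
        exact ⟨mem_univ _, (mem_filter.1 hu).2⟩
      · intro u _ u' _ h
        exact (hρb T).1 h
      · intro ω hω
        obtain ⟨u, hu⟩ := (hρb T).2 ω
        refine ⟨u, ?_, hu⟩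
        rw [mem_filter, hu]
        exact ⟨mem_univ _, (mem_filter.1 hω).2⟩
    have h2 : (2 : ℝ) ^ n * Z.card = ∑ _T : Finset (Fin n), (Z.card : ℝ) := by
      rw [sum_const, card_univ, Fintype.card_finset, Fintype.card_fin, nsmul_eq_mul]
      push_cast
      ring
    have h3 : ∑ _T : Finset (Fin n), (Z.card : ℝ) =
        ∑ T : Finset (Fin n), ∑ u : Fin n → ι, if ∑ m, X m (ρ T u m) = c then (1 : ℝ) else 0 := by
      refine sum_congr rfl fun T _ => ?_
      rw [h1 T, ← sum_filter, sum_const, nsmul_eq_mul, mul_one]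
    rw [h2, h3, sum_comm]
    refine sum_le_sum fun u _ => ?_
    refine le_trans (le_of_eq ?_) (LO_general (d u) (c - ∑ m, X m (u m)))
    rw [← sum_filter, sum_const, nsmul_eq_mul, mul_one]
    have e : (univ.filter fun T : Finset (Fin n) => ∑ m, X m (ρ T u m) = c) =
        univ.filter fun T : Finset (Fin n) => ∑ a ∈ T, d u a = c - ∑ m, X m (u m) := by
      ext T
      rw [mem_filter, mem_filter, hsum T u, eq_sub_iff_add_eq, add_comm]
    rw [e]
  -- the weights
  set w : Fin n → ι → ℝ := fun m i => if X m (σ m i) - X m i ≠ 0 then 1 / 2 else 1 with hw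
  have hw0 : ∀ m i, 0 ≤ w m i := by
    intro m i
    simp only [hw]
    split_ifs <;> norm_num
  have hwp : ∀ u, ∏ m, w m (u m) = (1 / 2) ^ s u := by
    intro u
    simp only [hw, hs, hd]
    rw [prod_ite, prod_const, prod_const_one, mul_one]
  have hterm : ∀ u, 1 / Real.sqrt (s u + 1) ≤ 1 / Real.sqrt (k + 1) + 2 ^ k * ∏ m, w m (u m) := by
    intro u
    rw [hwp u]
    rcases le_or_gt k (s u) with h | h
    · have h1 : 1 / Real.sqrt (s u + 1) ≤ 1 / Real.sqrt (k + 1) := by
        refine one_div_le_one_div_of_le (by positivity) (Real.sqrt_le_sqrt ?_)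
        have : (k : ℝ) ≤ s u := by exact_mod_cast h
        linarith
      have h2 : (0 : ℝ) ≤ 2 ^ k * (1 / 2) ^ s u := by positivity
      linarith
    · have h1 : 1 / Real.sqrt (s u + 1) ≤ 1 := by
        rw [div_le_one (by positivity)]
        rw [Real.one_le_sqrt]
        have : (0 : ℝ) ≤ s u := Nat.cast_nonneg _
        linarith
      have h2 : (1 : ℝ) ≤ 2 ^ k * (1 / 2) ^ s u := by
        rw [one_div, inv_pow, ← div_eq_mul_inv, le_div_iff₀ (by positivity), one_mul]
        exact pow_le_pow_right₀ (by norm_num) h.le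
      have h3 : 0 ≤ 1 / Real.sqrt ((k : ℝ) + 1) := by positivity
      linarith
  have hcι : (Fintype.card ι : ℝ) = q := by exact_mod_cast hι
  have hprod : ∑ u : Fin n → ι, ∏ m, w m (u m) ≤ (q : ℝ) ^ n * r ^ W.card := by
    have h1 : ∑ u : Fin n → ι, ∏ m, w m (u m) = ∏ m, ∑ i, w m i := by
      rw [Finset.prod_univ_sum, Fintype.piFinset_univ]
    have h2 : ∀ m, ∑ i, w m i ≤ if m ∈ W then (q : ℝ) * r else q := by
      intro m
      split_ifs with hm
      · obtain ⟨a, b, hab, hX, ha, hb⟩ := hσ m hm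
        have h3 : ∑ i, w m i ≤ ∑ i, (1 - ((if i = a then 1 / 2 else 0) +
            (if i = b then 1 / 2 else 0) : ℝ)) := by
          refine sum_le_sum fun i _ => ?_
          by_cases hia : i = a
          · subst hia
            rw [if_pos rfl, if_neg hab]
            simp only [hw]
            rw [ha, if_pos (sub_ne_zero.2 (Ne.symm hX))]
            norm_num
          · by_cases hib : i = b
            · subst hib
              rw [if_neg hia, if_pos rfl]
              simp only [hw]
              rw [hb, if_pos (sub_ne_zero.2 hX)]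
              norm_num
            · rw [if_neg hia, if_neg hib]
              simp only [hw]
              split_ifs <;> norm_num
        have h4 : ∑ i : ι, (1 - ((if i = a then 1 / 2 else 0) +
            (if i = b then 1 / 2 else 0) : ℝ)) = q - 1 := by
          rw [sum_sub_distrib, sum_add_distrib, sum_ite_eq' univ a, sum_ite_eq' univ b,
            if_pos (mem_univ _), if_pos (mem_univ _), sum_const, card_univ, nsmul_eq_mul, hcι]
          norm_num
        rw [h4] at h3
        have h5 : (q : ℝ) * r = q - 1 := by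
          rw [hr]
          field_simp
        rwa [h5]
      · calc ∑ i, w m i ≤ ∑ _i : ι, (1 : ℝ) := by
              refine sum_le_sum fun i _ => ?_
              simp only [hw]
              split_ifs <;> norm_num
          _ = q := by rw [sum_const, card_univ, nsmul_eq_mul, mul_one, hcι]
    rw [h1]
    calc ∏ m, ∑ i, w m i ≤ ∏ m : Fin n, (if m ∈ W then (q : ℝ) * r else q) :=
          prod_le_prod (fun m _ => sum_nonneg fun i _ => hw0 m i) fun m _ => h2 m
      _ = ∏ m : Fin n, ((q : ℝ) * if m ∈ W then r else 1) := by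
          refine prod_congr rfl fun m _ => ?_
          split_ifs
          · rfl
          · rw [mul_one]
      _ = (q : ℝ) ^ n * r ^ W.card := by
          rw [prod_mul_distrib, prod_const, card_univ, Fintype.card_fin, prod_ite_mem, univ_inter,
            prod_const]
  -- the end
  have h2n : (0 : ℝ) < 2 ^ n := by positivity
  have hZ1 : (Z.card : ℝ) ≤ ∑ u : Fin n → ι, 1 / Real.sqrt (s u + 1) := by
    have h1 : ∑ u : Fin n → ι, (2 : ℝ) ^ n / Real.sqrt (s u + 1) =
        2 ^ n * ∑ u : Fin n → ι, 1 / Real.sqrt (s u + 1) := by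
      rw [mul_sum]
      refine sum_congr rfl fun u _ => ?_
      ring
    rw [h1] at hdc
    exact le_of_mul_le_mul_left hdc h2n
  have hcu : (Fintype.card (Fin n → ι) : ℝ) = (q : ℝ) ^ n := by
    rw [Fintype.card_fun, Fintype.card_fin, hι]
    push_cast
    rfl
  calc (Z.card : ℝ) ≤ ∑ u : Fin n → ι, 1 / Real.sqrt (s u + 1) := hZ1
    _ ≤ ∑ u : Fin n → ι, (1 / Real.sqrt (k + 1) + 2 ^ k * ∏ m, w m (u m)) :=
        sum_le_sum fun u _ => hterm u
    _ = (q : ℝ) ^ n * (1 / Real.sqrt (k + 1)) + 2 ^ k * ∑ u : Fin n → ι, ∏ m, w m (u m) := by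
        rw [sum_add_distrib, sum_const, card_univ, nsmul_eq_mul, hcu, mul_sum]
    _ ≤ (q : ℝ) ^ n * (δ / 2) + 2 ^ k * ((q : ℝ) ^ n * r ^ W.card) := by
        refine add_le_add ?_ ?_
        · exact mul_le_mul_of_nonneg_left hk1 (by positivity)
        · exact mul_le_mul_of_nonneg_left hprod (by positivity)
    _ ≤ (q : ℝ) ^ n * (δ / 2) + (q : ℝ) ^ n * (δ / 2) := by
        refine add_le_add le_rfl ?_
        have h1 : r ^ W.card ≤ r ^ D := pow_le_pow_of_le_one hr0 hr1.le hDW
        have h2 : 2 ^ k * r ^ W.card ≤ δ / 2 := by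
          rw [lt_div_iff₀ (by positivity)] at hD
          have h3 : (0 : ℝ) < 2 ^ k := by positivity
          nlinarith
        calc 2 ^ k * ((q : ℝ) ^ n * r ^ W.card) = (q : ℝ) ^ n * (2 ^ k * r ^ W.card) := by ring
          _ ≤ (q : ℝ) ^ n * (δ / 2) := mul_le_mul_of_nonneg_left h2 (by positivity)
    _ = δ * (q : ℝ) ^ n := by ring

end Pool.Agent.DI
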