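import Pool.Agent.DI.Defs
import Pool.Agent.DI.LO
import Pool.Agent.QDen.Box

/-! # From cubes to a subbox in which everything has bounded degree -/

set_option autoImplicit false

namespace Pool.Agent.DI.GridH

open Finset

/-! ### the cube with given letters -/

/-- replace the coordinates whose letter is in `S` -/
def mix {n t : ℕ} (z : Fin n → Fin t) (ω : Fin n → Fin t × Option (Fin 7))
    (S : Finset (Option (Fin 7))) : Fin n → Fin t :=
  fun m => if (ω m).2 ∈ S then (ω m).1 else z m

/-- exchange the coordinates whose letter is in `S` -/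
def flp {n t : ℕ} (S : Finset (Option (Fin 7)))
    (p : (Fin n → Fin t) × (Fin n → Fin t × Option (Fin 7))) :
    (Fin n → Fin t) × (Fin n → Fin t × Option (Fin 7)) :=
  (mix p.1 p.2 S, fun m => (if (p.2 m).2 ∈ S then p.1 m else (p.2 m).1, (p.2 m).2))

theorem flp_flp {n t : ℕ} (S : Finset (Option (Fin 7)))
    (p : (Fin n → Fin t) × (Fin n → Fin t × Option (Fin 7))) : flp S (flp S p) = p := by
  refine Prod.ext (funext fun m => ?_) (funext fun m => Prod.ext ?_ ?_)
  · by_cases h : (p.2 m).2 ∈ S <;> simp [flp, mix, h]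
  · by_cases h : (p.2 m).2 ∈ S <;> simp [flp, mix, h]
  · rfl

theorem mix_flp {n t : ℕ} (S T : Finset (Option (Fin 7)))
    (p : (Fin n → Fin t) × (Fin n → Fin t × Option (Fin 7))) :
    mix (flp S p).1 (flp S p).2 T = mix p.1 p.2 (symmDiff T S) := by
  funext m
  by_cases h : (p.2 m).2 ∈ S <;> by_cases h' : (p.2 m).2 ∈ T <;>
    simp [flp, mix, h, h', Finset.mem_symmDiff]

theorem mix_empty {n t : ℕ} (z : Fin n → Fin t) (ω : Fin n → Fin t × Option (Fin 7)) :
    mix z ω ∅ = z := by
  funext m
  simp [mix]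

/-- pigeonhole -/
theorem pigeon {α β : Type} [Fintype α] [Fintype β] [DecidableEq β] [Nonempty β] (f : α → β) :
    ∃ b, (Fintype.card α : ℝ) ≤ Fintype.card β * ((univ.filter fun a => f a = b).card : ℝ) := by
  obtain ⟨b, -, hb⟩ := Finset.exists_le_card_fiber_of_nsmul_le_card_of_maps_to
    (s := (Finset.univ : Finset α)) (t := (Finset.univ : Finset β)) (f := f)
    (b := (Fintype.card α : ℝ) / Fintype.card β)
    (fun _ _ => Finset.mem_univ _) Finset.univ_nonempty (by
      rw [Finset.card_univ, Finset.card_univ, nsmul_eq_mul, mul_div_cancel₀ _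
        (Nat.cast_ne_zero.2 Fintype.card_ne_zero)])
  refine ⟨b, ?_⟩
  rw [div_le_iff₀ (Nat.cast_pos.2 Fintype.card_pos)] at hb
  linarith

section

variable {V : Type} [AddCommGroup V] {n t : ℕ}

/-- the point of the grid -/
def pt (c : V) (w : Fin n → Fin t → V) (z : Fin n → Fin t) : V := c + ∑ m, w m (z m)

theorem pt_mix (c : V) (w : Fin n → Fin t → V) (z : Fin n → Fin t)
    (ω : Fin n → Fin t × Option (Fin 7)) (S : Finset (Option (Fin 7))) :
    pt c w (mix z ω S) =
      pt c w z + ∑ m, if (ω m).2 ∈ S then w m (ω m).1 - w m (z m) else 0 := by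
  unfold pt
  rw [add_assoc, ← Finset.sum_add_distrib]
  congr 1
  refine Finset.sum_congr rfl fun m _ => ?_
  by_cases h : (ω m).2 ∈ S <;> simp [mix, h]

theorem pt_cube (c : V) (w : Fin n → Fin t → V) (z : Fin n → Fin t)
    (ω : Fin n → Fin t × Option (Fin 7)) (A : Finset (Fin 7)) :
    pt c w z + ∑ a ∈ A, ∑ m, (if (ω m).2 = some a then w m (ω m).1 - w m (z m) else 0) =
      pt c w (mix z ω (A.map Function.Embedding.some)) := by
  rw [pt_mix]
  congr 1
  rw [Finset.sum_comm]
  refine Finset.sum_congr rfl fun m _ => ?_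
  rcases h : (ω m).2 with _ | b
  · simp
  · by_cases hb : b ∈ A
    · simp [hb, Finset.sum_ite_eq]
    · simp [hb, Finset.sum_ite_eq]

/-- (8), first half: one pair of vertices, then one set of letters, is near often -/
theorem exists_letters {G : Type} [Group G] [DistribMulAction G V] (B : ℕ) (ht : 0 < t)
    (c : V) (w : Fin n → Fin t → V)
    (h : ∀ (y : V) (v : Fin 7 → V),
      (∀ A : Finset (Fin 7), ∃ z : Fin n → Fin t, y + ∑ m ∈ A, v m = c + ∑ m, w m (z m)) →
      ∃ A A' : Finset (Fin 7), A ≠ A' ∧ Near G B (y + ∑ m ∈ A, v m) (y + ∑ m ∈ A', v m)) :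
    ∃ S : Finset (Option (Fin 7)), S.Nonempty ∧ none ∉ S ∧
      ((t : ℝ) ^ n * (t * 8 : ℝ) ^ n) ≤ 2 ^ 14 *
        (Nat.card {p : (Fin n → Fin t) × (Fin n → Fin t × Option (Fin 7)) //
          Near G B (pt c w p.1) (pt c w (mix p.1 p.2 S))} : ℝ) := by
  classical
  have ht' : Nonempty (Fin t) := ⟨⟨0, ht⟩⟩
  have h1 : ∀ p : (Fin n → Fin t) × (Fin n → Fin t × Option (Fin 7)),
      ∃ AA : Finset (Fin 7) × Finset (Fin 7), AA.1 ≠ AA.2 ∧
        Near G B (pt c w (mix p.1 p.2 (AA.1.map Function.Embedding.some)))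
          (pt c w (mix p.1 p.2 (AA.2.map Function.Embedding.some))) := by
    intro p
    obtain ⟨A, A', hA, hN⟩ := h (pt c w p.1)
      (fun a => ∑ m, (if (p.2 m).2 = some a then w m (p.2 m).1 - w m (p.1 m) else 0))
      (fun A => ⟨_, pt_cube c w p.1 p.2 A⟩)
    rw [pt_cube, pt_cube] at hN
    exact ⟨(A, A'), hA, hN⟩
  choose f hf1 hf2 using h1
  have hcard : (Fintype.card ((Fin n → Fin t) × (Fin n → Fin t × Option (Fin 7))) : ℝ) =
      (t : ℝ) ^ n * (t * 8 : ℝ) ^ n := by
    simp
  have hc2 : (Fintype.card (Finset (Fin 7) × Finset (Fin 7)) : ℝ) = 2 ^ 14 := by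
    rw [Fintype.card_prod, Fintype.card_finset, Fintype.card_fin]
    norm_num
  obtain ⟨AA, hAA⟩ := pigeon f
  rw [hcard, hc2] at hAA
  have htp : (0 : ℝ) < t := by exact_mod_cast ht
  have hpos : (0 : ℝ) < (t : ℝ) ^ n * (t * 8 : ℝ) ^ n := by positivity
  have hne : (univ.filter fun p => f p = AA).Nonempty := by
    rw [← Finset.card_pos]
    have h5 := pos_of_mul_pos_right (hpos.trans_le hAA) (by norm_num)
    exact_mod_cast h5
  obtain ⟨p0, hp0⟩ := hne
  have hAA' : AA.1 ≠ AA.2 := by
    have := hf1 p0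
    rwa [(Finset.mem_filter.1 hp0).2] at this
  set S1 : Finset (Option (Fin 7)) := AA.1.map Function.Embedding.some with hS1
  set S2 : Finset (Option (Fin 7)) := AA.2.map Function.Embedding.some with hS2
  have hn1 : none ∉ S1 := by simp [hS1]
  have hn2 : none ∉ S2 := by simp [hS2]
  refine ⟨symmDiff S2 S1, ?_, ?_, ?_⟩
  · rw [Finset.nonempty_iff_ne_empty, ← Finset.bot_eq_empty, Ne, symmDiff_eq_bot, hS1, hS2]
    intro h
    exact hAA' (Finset.map_injective _ h).symm
  · rw [Finset.mem_symmDiff]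
    tauto
  · have h3 : (univ.filter fun p => f p = AA).card ≤
        (univ.filter fun p : (Fin n → Fin t) × (Fin n → Fin t × Option (Fin 7)) =>
          Near G B (pt c w p.1) (pt c w (mix p.1 p.2 (symmDiff S2 S1)))).card := by
      refine Finset.card_le_card_of_injOn (flp S1) ?_ ?_
      · intro p hp
        have hp' : f p = AA := (Finset.mem_filter.1 (Finset.mem_coe.1 hp)).2
        have h4 := hf2 p
        rw [hp'] at h4
        refine Finset.mem_coe.2 (Finset.mem_filter.2 ⟨Finset.mem_univ _, ?_⟩)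
        rw [mix_flp, symmDiff_assoc, symmDiff_self, symmDiff_bot]
        exact h4
      · intro p _ p' _ hpp
        rw [← flp_flp S1 p, hpp, flp_flp]
    rw [Nat.card_eq_fintype_card, Fintype.card_subtype]
    refine hAA.trans ?_
    gcongr

end

/-! ### the stabilisers -/

section

variable {G V : Type} [Group G] [Fintype G] [AddCommGroup V] [Module ℚ V] [DistribMulAction G V]
  {n t : ℕ}

open Classical in
/-- the stabiliser as a finite set -/
noncomputable def Hs (G : Type) [Group G] [Fintype G] {V : Type} [AddCommGroup V]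
    [DistribMulAction G V] (y : V) : Finset G := univ.filter fun s => s • y = y

open Classical in
/-- the directions which are not fixed -/
noncomputable def Wd (w : Fin n → Fin t → V) (z : Fin n → Fin t) (s : G) : Finset (Fin n) :=
  univ.filter fun m => ∃ i, s • (w m i - w m (z m)) ≠ w m i - w m (z m)

theorem mem_Hs {y : V} {s : G} : s ∈ Hs G y ↔ s • y = y := by
  simp [Hs]

theorem card_Hs (y : V) : (Hs G y).card = Nat.card (MulAction.stabilizer G y) := by
  classical
  rw [Nat.card_eq_fintype_card]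
  refine (Fintype.card_of_subtype _ fun s => ?_).symm
  rw [mem_Hs, MulAction.mem_stabilizer_iff]

theorem card_Hs_pos (y : V) : 0 < (Hs G y).card :=
  Finset.card_pos.2 ⟨1, mem_Hs.2 (one_smul G y)⟩

open Classical in
theorem near_le {B : ℕ} {y y' : V} (h : Near G B y y') :
    (Hs G y).card ≤ B * ((Hs G y).filter fun s => s • y' = y').card := by
  unfold Near at h
  rw [card_Hs]
  refine h.trans (Nat.mul_le_mul_left B (le_of_eq ?_))
  rw [Nat.card_eq_fintype_card]
  refine Fintype.card_of_subtype _ fun s => ?_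
  rw [Finset.mem_filter, mem_Hs, Subgroup.mem_inf, MulAction.mem_stabilizer_iff,
    MulAction.mem_stabilizer_iff]

omit [Fintype G] in
open Classical in
/-- Littlewood-Offord for the letters -/
theorem few_words {δ : ℝ} {D : ℕ} (hD : ∀ (ι V : Type) [Fintype ι] [AddCommGroup V]
    [Module ℚ V], Fintype.card ι = t * 8 → ∀ (n : ℕ) (X : Fin n → ι → V) (c : V)
      (W : Finset (Fin n)), (∀ m ∈ W, ∃ a b : ι, X m a ≠ X m b) → D ≤ W.card →
    (Nat.card {ω : Fin n → ι // ∑ m, X m (ω m) = c} : ℝ) ≤ δ * ((t * 8 : ℕ) : ℝ) ^ n)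
    (c : V) (w : Fin n → Fin t → V) {S : Finset (Option (Fin 7))} (hS : S.Nonempty)
    (hS0 : none ∉ S) (z : Fin n → Fin t) {s : G} (hs : s • pt c w z = pt c w z)
    (hW : D ≤ (Wd w z s).card) :
    ((univ.filter fun ω : Fin n → Fin t × Option (Fin 7) =>
      s • pt c w (mix z ω S) = pt c w (mix z ω S)).card : ℝ) ≤ δ * (t * 8 : ℝ) ^ n := by
  obtain ⟨g0, hg0⟩ := hS
  have h1 := hD (Fin t × Option (Fin 7)) V (by simp) n
    (fun m a => if a.2 ∈ S then s • (w m a.1 - w m (z m)) - (w m a.1 - w m (z m)) else 0) 0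
    (Wd w z s) (by
      intro m hm
      obtain ⟨i, hi⟩ := (Finset.mem_filter.1 hm).2
      refine ⟨(i, g0), (i, none), ?_⟩
      simp only [hg0, hS0, if_true, if_false]
      rw [Ne, sub_eq_zero]
      exact hi) hW
  have h2 : (univ.filter fun ω : Fin n → Fin t × Option (Fin 7) =>
      s • pt c w (mix z ω S) = pt c w (mix z ω S)).card =
      Nat.card {ω : Fin n → Fin t × Option (Fin 7) // ∑ m, (if (ω m).2 ∈ S then
        s • (w m (ω m).1 - w m (z m)) - (w m (ω m).1 - w m (z m)) else 0) = 0} := by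
    rw [Nat.card_eq_fintype_card, Fintype.card_subtype]
    congr 1
    ext ω
    simp only [Finset.mem_filter, Finset.mem_univ, true_and]
    rw [pt_mix, smul_add, hs, add_right_inj, Finset.smul_sum, ← sub_eq_zero,
      ← Finset.sum_sub_distrib]
    refine Eq.congr (Finset.sum_congr rfl fun m _ => ?_) rfl
    by_cases h : (ω m).2 ∈ S <;> simp [h]
  rw [h2]
  refine h1.trans (le_of_eq ?_)
  push_cast
  rfl

open Classical in
/-- (8), for one point: many elements of the stabiliser move only few directions -/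
theorem few_dirs {B : ℕ} (hB : 0 < B) {δ : ℝ} (hδ : 0 ≤ δ) {D : ℕ}
    (hD : ∀ (ι V : Type) [Fintype ι] [AddCommGroup V]
    [Module ℚ V], Fintype.card ι = t * 8 → ∀ (n : ℕ) (X : Fin n → ι → V) (c : V)
      (W : Finset (Fin n)), (∀ m ∈ W, ∃ a b : ι, X m a ≠ X m b) → D ≤ W.card →
    (Nat.card {ω : Fin n → ι // ∑ m, X m (ω m) = c} : ℝ) ≤ δ * ((t * 8 : ℕ) : ℝ) ^ n)
    (c : V) (w : Fin n → Fin t → V) {S : Finset (Option (Fin 7))} (hS : S.Nonempty)
    (hS0 : none ∉ S) (ht : 0 < t) (z : Fin n → Fin t) :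
    ((univ.filter fun ω : Fin n → Fin t × Option (Fin 7) =>
      Near G B (pt c w z) (pt c w (mix z ω S))).card : ℝ) / (B * (t * 8 : ℝ) ^ n) - δ ≤
      (((Hs G (pt c w z)).filter fun s => (Wd w z s).card < D).card : ℝ) /
        (Hs G (pt c w z)).card := by
  set H := Hs G (pt c w z) with hH
  set Q : ℝ := (t * 8 : ℝ) ^ n with hQ
  have htp : (0 : ℝ) < t := by exact_mod_cast ht
  have hQp : 0 < Q := by rw [hQ]; positivity
  have hHp : (0 : ℝ) < H.card := by exact_mod_cast card_Hs_pos (G := G) (pt c w z)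
  have hBp : (0 : ℝ) < B := by exact_mod_cast hB
  -- double counting
  have h1 : ∑ s ∈ H, ((univ.filter fun ω : Fin n → Fin t × Option (Fin 7) =>
      s • pt c w (mix z ω S) = pt c w (mix z ω S)).card : ℝ) =
      ∑ ω : Fin n → Fin t × Option (Fin 7), ((H.filter fun s =>
        s • pt c w (mix z ω S) = pt c w (mix z ω S)).card : ℝ) := by
    have := Finset.sum_card_bipartiteAbove_eq_sum_card_bipartiteBelow (s := H)
      (t := (univ : Finset (Fin n → Fin t × Option (Fin 7))))
      (fun s ω => s • pt c w (mix z ω S) = pt c w (mix z ω S))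
    unfold Finset.bipartiteAbove Finset.bipartiteBelow at this
    exact_mod_cast this
  have h2 : ((univ.filter fun ω : Fin n → Fin t × Option (Fin 7) =>
      Near G B (pt c w z) (pt c w (mix z ω S))).card : ℝ) * (H.card / B) ≤
      ∑ ω : Fin n → Fin t × Option (Fin 7), ((H.filter fun s =>
        s • pt c w (mix z ω S) = pt c w (mix z ω S)).card : ℝ) := by
    rw [← nsmul_eq_mul, ← Finset.sum_const]
    refine (Finset.sum_le_sum (g := fun ω => ((H.filter fun s =>
        s • pt c w (mix z ω S) = pt c w (mix z ω S)).card : ℝ)) fun ω hω => ?_).trans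
      (Finset.sum_le_sum_of_subset_of_nonneg (Finset.subset_univ _) fun _ _ _ =>
        Nat.cast_nonneg _)
    have h3 := near_le (Finset.mem_filter.1 hω).2
    rw [div_le_iff₀ hBp, mul_comm]
    exact_mod_cast h3
  have h3 : ∑ s ∈ H, ((univ.filter fun ω : Fin n → Fin t × Option (Fin 7) =>
      s • pt c w (mix z ω S) = pt c w (mix z ω S)).card : ℝ) ≤
      (H.filter fun s => (Wd w z s).card < D).card * Q + H.card * (δ * Q) := by
    have h4 : ∀ s ∈ H, ((univ.filter fun ω : Fin n → Fin t × Option (Fin 7) =>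
        s • pt c w (mix z ω S) = pt c w (mix z ω S)).card : ℝ) ≤
        (if (Wd w z s).card < D then Q else 0) + δ * Q := by
      intro s hs
      split_ifs with h
      · have h5 : ((univ.filter fun ω : Fin n → Fin t × Option (Fin 7) =>
            s • pt c w (mix z ω S) = pt c w (mix z ω S)).card : ℝ) ≤ Q := by
          refine (Nat.cast_le.2 (Finset.card_le_univ _)).trans (le_of_eq ?_)
          simp [hQ]
        have h6 : 0 ≤ δ * Q := mul_nonneg hδ hQp.le
        linarith
      · rw [zero_add]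
        exact few_words hD c w hS hS0 z (mem_Hs.1 hs) (not_lt.1 h)
    refine (Finset.sum_le_sum h4).trans (le_of_eq ?_)
    rw [Finset.sum_add_distrib, Finset.sum_const, nsmul_eq_mul, ← Finset.sum_filter,
      Finset.sum_const, nsmul_eq_mul]
  rw [h1] at h3
  have h4 := h2.trans h3
  rw [sub_le_iff_le_add, div_le_iff₀ (by positivity)]
  rw [mul_div_assoc', div_le_iff₀ hBp] at h4
  rw [add_mul, div_mul_eq_mul_div, ← sub_le_iff_le_add, le_div_iff₀ hHp]
  nlinarith [h4]

end

/-! ### blocks of directions -/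

/-- the directions of the block `k` -/
def blk (D M0 : ℕ) (k : Fin (2 * D)) (m : Fin M0) : Fin (2 * D * (M0 + 1)) :=
  finProdFinEquiv (k, m.castSucc)

theorem blk_injective (D M0 : ℕ) (k : Fin (2 * D)) : Function.Injective (blk D M0 k) := by
  intro m m' h
  have h1 := finProdFinEquiv.injective h
  exact Fin.castSucc_injective _ (Prod.mk.inj h1).2

theorem blk_avoid (D M0 : ℕ) (W : Finset (Fin (2 * D * (M0 + 1)))) (hW : W.card < D) :
    D ≤ (univ.filter fun k : Fin (2 * D) => ∀ m, blk D M0 k m ∉ W).card := by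
  classical
  have h1 : (univ.filter fun k : Fin (2 * D) => ¬ ∀ m, blk D M0 k m ∉ W) ⊆
      W.image fun i => (finProdFinEquiv.symm i).1 := by
    intro k hk
    have h2 := (Finset.mem_filter.1 hk).2
    push Not at h2
    obtain ⟨m, hm⟩ := h2
    refine Finset.mem_image.2 ⟨_, hm, ?_⟩
    simp [blk]
  have h3 := (Finset.card_le_card h1).trans Finset.card_image_le
  have h4 := Finset.card_filter_add_card_filter_not (s := (univ : Finset (Fin (2 * D))))
    (fun k => ∀ m, blk D M0 k m ∉ W)
  rw [Finset.card_univ, Fintype.card_fin] at h4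
  omega

section

variable {G V : Type} [Group G] [Fintype G] [AddCommGroup V] [Module ℚ V] [DistribMulAction G V]
  {t : ℕ}

open Classical in
/-- the part of the stabiliser which fixes the directions `I` -/
noncomputable def Fd {n M0 : ℕ} (w : Fin n → Fin t → V) (I : Fin M0 → Fin n) (y : V)
    (z : Fin n → Fin t) : Finset G :=
  (Hs G y).filter fun s => ∀ m, I m ∉ Wd w z s

open Classical in
theorem exists_block {D M0 : ℕ} (hD : 0 < D) {δ : ℝ} (c : V)
    (w : Fin (2 * D * (M0 + 1)) → Fin t → V)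
    (h : (Fintype.card (Fin (2 * D * (M0 + 1)) → Fin t) : ℝ) * δ ≤
      ∑ z : Fin (2 * D * (M0 + 1)) → Fin t,
        (((Hs G (pt c w z)).filter fun s => (Wd w z s).card < D).card : ℝ) /
          (Hs G (pt c w z)).card) :
    ∃ k : Fin (2 * D), (Fintype.card (Fin (2 * D * (M0 + 1)) → Fin t) : ℝ) * (δ / 2) ≤
      ∑ z : Fin (2 * D * (M0 + 1)) → Fin t,
        ((Fd (G := G) w (blk D M0 k) (pt c w z) z).card : ℝ) / (Hs G (pt c w z)).card := by
  have hne : (univ : Finset (Fin (2 * D))).Nonempty := ⟨⟨0, by omega⟩, Finset.mem_univ _⟩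
  obtain ⟨k, -, hk⟩ := Finset.exists_le_of_sum_le hne
    (f := fun _ => (Fintype.card (Fin (2 * D * (M0 + 1)) → Fin t) : ℝ) * (δ / 2))
    (g := fun k => ∑ z : Fin (2 * D * (M0 + 1)) → Fin t,
        ((Fd (G := G) w (blk D M0 k) (pt c w z) z).card : ℝ) / (Hs G (pt c w z)).card) (by
      rw [Finset.sum_const, Finset.card_univ, Fintype.card_fin, nsmul_eq_mul, Finset.sum_comm]
      have h1 : ∀ z : Fin (2 * D * (M0 + 1)) → Fin t,
          (D : ℝ) * ((((Hs G (pt c w z)).filter fun s => (Wd w z s).card < D).card : ℝ) /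
            (Hs G (pt c w z)).card) ≤
          ∑ k, ((Fd (G := G) w (blk D M0 k) (pt c w z) z).card : ℝ) /
            (Hs G (pt c w z)).card := by
        intro z
        rw [← Finset.sum_div, ← mul_div_assoc]
        refine div_le_div_of_nonneg_right ?_ (Nat.cast_nonneg _)
        have h2 := Finset.sum_card_bipartiteAbove_eq_sum_card_bipartiteBelow
          (s := (univ : Finset (Fin (2 * D)))) (t := Hs G (pt c w z))
          (fun k s => ∀ m, blk D M0 k m ∉ Wd w z s)
        unfold Finset.bipartiteAbove Finset.bipartiteBelow at h2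
        have h3 : ∑ k, (Fd (G := G) w (blk D M0 k) (pt c w z) z).card =
            ∑ s ∈ Hs G (pt c w z),
              (univ.filter fun k : Fin (2 * D) => ∀ m, blk D M0 k m ∉ Wd w z s).card := h2
        rw [← Nat.cast_sum, h3]
        have h4 : ∑ s ∈ (Hs G (pt c w z)).filter (fun s => (Wd w z s).card < D), D ≤
            ∑ s ∈ Hs G (pt c w z),
              (univ.filter fun k : Fin (2 * D) => ∀ m, blk D M0 k m ∉ Wd w z s).card := by
          refine (Finset.sum_le_sum fun s hs => ?_).trans
            (Finset.sum_le_sum_of_subset (Finset.filter_subset _ _))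
          exact blk_avoid D M0 _ (Finset.mem_filter.1 hs).2
        rw [Finset.sum_const, smul_eq_mul, mul_comm] at h4
        exact_mod_cast h4
      refine le_trans ?_ (Finset.sum_le_sum fun z _ => h1 z)
      rw [← Finset.mul_sum]
      have hDp : (0 : ℝ) ≤ D := Nat.cast_nonneg D
      have h5 := mul_le_mul_of_nonneg_left h hDp
      push_cast
      push_cast at h5
      linarith)
  exact ⟨k, hk⟩

open Classical in
theorem exists_good {n M0 : ℕ} {δ : ℝ} (c : V) (w : Fin n → Fin t → V) (I : Fin M0 → Fin n)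
    (h : (Fintype.card (Fin n → Fin t) : ℝ) * (δ / 2) ≤ ∑ z : Fin n → Fin t,
        ((Fd (G := G) w I (pt c w z) z).card : ℝ) / (Hs G (pt c w z)).card) :
    (Fintype.card (Fin n → Fin t) : ℝ) * (δ / 4) ≤
      ((univ.filter fun z : Fin n → Fin t => δ / 4 * (Hs G (pt c w z)).card ≤
        (Fd (G := G) w I (pt c w z) z).card).card : ℝ) := by
  have h1 : ∀ z : Fin n → Fin t, ((Fd (G := G) w I (pt c w z) z).card : ℝ) /
      (Hs G (pt c w z)).card ≤ (if δ / 4 * (Hs G (pt c w z)).card ≤
        (Fd (G := G) w I (pt c w z) z).card then 1 else 0) + δ / 4 ∨ δ < 0 := by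
    intro z
    rcases lt_or_ge δ 0 with hδ | hδ
    · exact Or.inr hδ
    left
    have hHp : (0 : ℝ) < (Hs G (pt c w z)).card := by
      exact_mod_cast card_Hs_pos (G := G) (pt c w z)
    split_ifs with h2
    · have h3 : ((Fd (G := G) w I (pt c w z) z).card : ℝ) / (Hs G (pt c w z)).card ≤ 1 := by
        rw [div_le_one hHp]
        exact_mod_cast Finset.card_le_card (Finset.filter_subset _ _)
      linarith
    · rw [not_le] at h2
      rw [zero_add, div_le_iff₀ hHp]
      exact h2.le
  by_cases hδ : δ < 0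
  · have h2 : (Fintype.card (Fin n → Fin t) : ℝ) * (δ / 4) ≤ 0 :=
      mul_nonpos_of_nonneg_of_nonpos (Nat.cast_nonneg _) (by linarith)
    exact h2.trans (Nat.cast_nonneg _)
  have h3 := h.trans (Finset.sum_le_sum fun z _ => (h1 z).resolve_right hδ)
  rw [Finset.sum_add_distrib, Finset.sum_const, Finset.card_univ, nsmul_eq_mul,
    Finset.sum_boole] at h3
  linarith

/-- the coordinates in `I` can be separated -/
theorem exists_fibre {n M0 : ℕ} (I : Fin M0 → Fin n) (hI : Function.Injective I) (ht : 0 < t)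
    (P : (Fin n → Fin t) → Prop) [DecidablePred P] {δ : ℝ}
    (h : (Fintype.card (Fin n → Fin t) : ℝ) * δ ≤ ((univ.filter P).card : ℝ)) :
    ∃ z : Fin n → Fin t, (t : ℝ) ^ M0 * δ ≤
      ((univ.filter fun x : Fin M0 → Fin t => P (Function.extend I x z)).card : ℝ) := by
  classical
  have ht' : Nonempty (Fin t) := ⟨⟨0, ht⟩⟩
  have h0 : ∀ p : (Fin n → Fin t) × (Fin M0 → Fin t),
      (Function.extend I (p.1 ∘ I) (Function.extend I p.2 p.1),
        (Function.extend I p.2 p.1) ∘ I) = p := by
    rintro ⟨z, x⟩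
    refine Prod.ext ?_ ?_
    · funext i
      by_cases hi : ∃ m, I m = i
      · obtain ⟨m, rfl⟩ := hi
        exact hI.extend_apply _ _ _
      · change Function.extend I (z ∘ I) (Function.extend I x z) i = z i
        rw [Function.extend_apply' _ _ _ hi, Function.extend_apply' _ _ _ hi]
    · funext m
      exact hI.extend_apply _ _ _
  let e : ((Fin n → Fin t) × (Fin M0 → Fin t)) ≃ ((Fin n → Fin t) × (Fin M0 → Fin t)) :=
    { toFun := fun p => (Function.extend I p.2 p.1, p.1 ∘ I)
      invFun := fun p => (Function.extend I p.2 p.1, p.1 ∘ I)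
      left_inv := fun p => h0 p
      right_inv := fun p => h0 p }
  have h1 : ∑ z : Fin n → Fin t, (univ.filter fun x : Fin M0 → Fin t =>
      P (Function.extend I x z)).card = ∑ p : (Fin n → Fin t) × (Fin M0 → Fin t),
        if P (e p).1 then 1 else 0 := by
    rw [Fintype.sum_prod_type]
    refine Finset.sum_congr rfl fun z _ => ?_
    rw [Finset.card_filter]
    rfl
  have h2 : ∑ p : (Fin n → Fin t) × (Fin M0 → Fin t), (if P (e p).1 then 1 else 0) =
      (univ.filter P).card * t ^ M0 := by
    rw [Equiv.sum_comp e (fun p => if P p.1 then 1 else 0), Fintype.sum_prod_type,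
      Finset.card_filter, Finset.sum_mul]
    refine Finset.sum_congr rfl fun z _ => ?_
    change ∑ _y : Fin M0 → Fin t, (if P z then 1 else 0) = _
    rw [Finset.sum_const, Finset.card_univ]
    simp [mul_comm]
  obtain ⟨z, -, hz⟩ := Finset.exists_le_of_sum_le (s := (univ : Finset (Fin n → Fin t)))
    Finset.univ_nonempty (f := fun _ => (t : ℝ) ^ M0 * δ)
    (g := fun z => ((univ.filter fun x : Fin M0 → Fin t =>
      P (Function.extend I x z)).card : ℝ)) (by
      rw [← Nat.cast_sum, h1, h2, Finset.sum_const, Finset.card_univ, nsmul_eq_mul]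
      push_cast
      push_cast at h
      have h3 : (0 : ℝ) ≤ (t : ℝ) ^ M0 := by positivity
      nlinarith [mul_le_mul_of_nonneg_right h h3])
  exact ⟨z, hz⟩

end

/-- a box with two values in each direction -/
theorem exists_box {δ : ℝ} (hδ : 0 < δ) (M0 : ℕ) : ∃ t : ℕ, 0 < t ∧
    ∀ H : Finset (Fin M0 → Fin t), (t : ℝ) ^ M0 * δ ≤ H.card →
      ∃ a b : Fin M0 → Fin t, (∀ m, b m ≠ a m) ∧
        ∀ A : Finset (Fin M0), (fun m => if m ∈ A then b m else a m) ∈ H := by
  classical
  obtain ⟨C, c, hC, hc, -, hbox⟩ := QDen.box_ord (t := 2) one_le_two M0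
  have h1 : Filter.Tendsto (fun n : ℕ => (n : ℝ) ^ c) Filter.atTop Filter.atTop :=
    (tendsto_rpow_atTop hc).comp tendsto_natCast_atTop_atTop
  obtain ⟨t, ht1, ht2⟩ := ((h1.eventually_gt_atTop (C / δ)).and
    (Filter.eventually_gt_atTop 0)).exists
  refine ⟨t, ht2, fun H hH => ?_⟩
  have htp : (0 : ℝ) < t := by exact_mod_cast ht2
  have h2 : C * ((Finset.range t).card : ℝ) ^ ((M0 : ℝ) - c) <
      (H.image fun x => fun m => (x m : ℕ)).card := by
    rw [Finset.card_range, Finset.card_image_of_injective]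
    · refine lt_of_lt_of_le ?_ hH
      rw [Real.rpow_sub htp, Real.rpow_natCast, ← mul_div_assoc, div_lt_iff₀ (by positivity)]
      rw [div_lt_iff₀ hδ] at ht1
      have h3 : (0 : ℝ) < (t : ℝ) ^ M0 := by positivity
      nlinarith [mul_lt_mul_of_pos_left ht1 h3]
    · intro x x' h
      funext m
      exact Fin.ext (congrFun h m)
  obtain ⟨U, hU, hUH⟩ := hbox (Finset.range t) (Finset.nonempty_range_iff.2 ht2.ne')
    (H.image fun x => fun m => (x m : ℕ)) (by
      intro f hf i
      obtain ⟨x, -, rfl⟩ := Finset.mem_image.1 hf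
      exact Finset.mem_range.2 (x i).2) h2
  have h3 : ∀ m, ∃ a b : Fin t, b ≠ a ∧ (a : ℕ) ∈ U m ∧ (b : ℕ) ∈ U m := by
    intro m
    obtain ⟨a, b, hab, hUm⟩ := Finset.card_eq_two.1 (hU m).2
    have ha : a ∈ U m := by rw [hUm]; simp
    have hb : b ∈ U m := by rw [hUm]; simp
    refine ⟨⟨a, Finset.mem_range.1 ((hU m).1 ha)⟩, ⟨b, Finset.mem_range.1 ((hU m).1 hb)⟩, ?_,
      ha, hb⟩
    intro h
    exact hab (congrArg Fin.val h).symm
  choose a b hab ha hb using h3
  refine ⟨a, b, hab, fun A => ?_⟩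
  have h4 : (fun m => ((if m ∈ A then b m else a m : Fin t) : ℕ)) ∈
      H.image fun x => fun m => (x m : ℕ) := by
    refine hUH (Fintype.mem_piFinset.2 fun m => ?_)
    split_ifs
    · exact hb m
    · exact ha m
  obtain ⟨x, hx, hx2⟩ := Finset.mem_image.1 h4
  have h5 : x = fun m => if m ∈ A then b m else a m := by
    funext m
    exact Fin.ext (congrFun hx2 m)
  rwa [h5] at hx

end Pool.Agent.DI.GridH

namespace Pool.Agent.DI

open Finset GridH

theorem grid (B : ℕ) : ∃ B2 : ℕ, 0 < B2 ∧ ∀ M0 : ℕ, ∃ t n : ℕ, 0 < t ∧ 0 < n ∧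
    ∀ (G V : Type) [Group G] [Finite G] [AddCommGroup V] [Module ℚ V] [DistribMulAction G V]
      (c : V) (w : Fin n → Fin t → V),
      (∀ (y : V) (v : Fin 7 → V),
        (∀ A : Finset (Fin 7), ∃ z : Fin n → Fin t, y + ∑ m ∈ A, v m = c + ∑ m, w m (z m)) →
        ∃ A A' : Finset (Fin 7), A ≠ A' ∧ Near G B (y + ∑ m ∈ A, v m) (y + ∑ m ∈ A', v m)) →
      ∃ (I : Fin M0 → Fin n) (z0 : Fin n → Fin t) (j : Fin M0 → Fin t), Function.Injective I ∧
        (∀ m, j m ≠ z0 (I m)) ∧ ∀ A : Finset (Fin M0),
          Nat.card (MulAction.stabilizer G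
            (c + ∑ m, w m (z0 m) + ∑ m ∈ A, (w (I m) (j m) - w (I m) (z0 (I m))))) ≤
          B2 * Nat.card ((MulAction.stabilizer G (c + ∑ m, w m (z0 m)) ⊓
            ⨅ m : Fin M0, MulAction.stabilizer G (w (I m) (j m) - w (I m) (z0 (I m))) :
              Subgroup G)) := by
  classical
  refine ⟨2 ^ 17 * (B + 1), by positivity, fun M0 => ?_⟩
  set δ : ℝ := 1 / (2 ^ 15 * ((B + 1 : ℕ) : ℝ)) with hδ
  have hBp : (0 : ℝ) < ((B + 1 : ℕ) : ℝ) := by positivity
  have hδ0 : 0 < δ := by rw [hδ]; positivity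
  obtain ⟨t, ht, hbox⟩ := exists_box (δ := δ / 4) (by positivity) M0
  obtain ⟨D, hD⟩ := lo (t * 8) δ hδ0
  refine ⟨t, 2 * (D + 1) * (M0 + 1), ht, by positivity, ?_⟩
  intro G V _ _ _ _ _ c w hcube
  have := Fintype.ofFinite G
  have htp : (0 : ℝ) < t := by exact_mod_cast ht
  -- the letters
  obtain ⟨S, hS, hS0, hSc⟩ := exists_letters (G := G) (B + 1) ht c w (by
    intro y v h
    obtain ⟨A, A', hA, hN⟩ := hcube y v h
    exact ⟨A, A', hA, le_trans hN (Nat.mul_le_mul_right _ (Nat.le_succ B))⟩)
  have hcardZ : (Fintype.card (Fin (2 * (D + 1) * (M0 + 1)) → Fin t) : ℝ) =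
      (t : ℝ) ^ (2 * (D + 1) * (M0 + 1)) := by simp
  set Q : ℝ := (t * 8 : ℝ) ^ (2 * (D + 1) * (M0 + 1)) with hQ
  have hQp : 0 < Q := by rw [hQ]; positivity
  -- one block of directions
  have h1 : (Fintype.card (Fin (2 * (D + 1) * (M0 + 1)) → Fin t) : ℝ) * δ ≤
      ∑ z : Fin (2 * (D + 1) * (M0 + 1)) → Fin t,
        (((Hs G (pt c w z)).filter fun s => (Wd w z s).card < D + 1).card : ℝ) /
          (Hs G (pt c w z)).card := by
    have h2 := Finset.sum_le_sum fun (z : Fin (2 * (D + 1) * (M0 + 1)) → Fin t)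
      (_ : z ∈ univ) => few_dirs (G := G) (B := B + 1) (Nat.succ_pos B) hδ0.le (D := D + 1)
        (fun ι V _ _ _ h1 n X c W hW hWc => hD ι V h1 n X c W hW (by omega)) c w hS hS0 ht z
    refine le_trans ?_ h2
    rw [Finset.sum_sub_distrib, Finset.sum_const, Finset.card_univ, nsmul_eq_mul,
      ← Finset.sum_div, ← Nat.cast_sum]
    have h3 : ∑ z : Fin (2 * (D + 1) * (M0 + 1)) → Fin t,
        (univ.filter fun ω : Fin (2 * (D + 1) * (M0 + 1)) → Fin t × Option (Fin 7) =>
          Near G (B + 1) (pt c w z) (pt c w (mix z ω S))).card =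
        Nat.card {p : (Fin (2 * (D + 1) * (M0 + 1)) → Fin t) ×
          (Fin (2 * (D + 1) * (M0 + 1)) → Fin t × Option (Fin 7)) //
          Near G (B + 1) (pt c w p.1) (pt c w (mix p.1 p.2 S))} := by
      rw [Nat.card_eq_fintype_card, Fintype.card_subtype, Finset.card_filter,
        Fintype.sum_prod_type]
      refine Finset.sum_congr rfl fun z _ => ?_
      rw [Finset.card_filter]
    rw [h3, le_sub_iff_add_le, ← mul_add, le_div_iff₀ (by positivity), hcardZ]
    have h4 : δ + δ = 1 / (2 ^ 14 * ((B + 1 : ℕ) : ℝ)) := by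
      rw [hδ]
      field_simp
      norm_num
    rw [h4]
    have h5 : (t : ℝ) ^ (2 * (D + 1) * (M0 + 1)) * (1 / (2 ^ 14 * ((B + 1 : ℕ) : ℝ))) *
        (((B + 1 : ℕ) : ℝ) * Q) = (t : ℝ) ^ (2 * (D + 1) * (M0 + 1)) * Q / 2 ^ 14 := by
      field_simp
    rw [h5, div_le_iff₀ (by norm_num)]
    linarith
  obtain ⟨k, hk⟩ := exists_block (Nat.succ_pos D) c w h1
  set I := blk (D + 1) M0 k with hI
  have hIi : Function.Injective I := blk_injective _ _ _
  obtain ⟨z, hz⟩ := exists_fibre I hIi ht
    (fun z => δ / 4 * ((Hs G (pt c w z)).card : ℝ) ≤ (Fd (G := G) w I (pt c w z) z).card)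
    (exists_good c w I hk)
  obtain ⟨a, b, hab, hH⟩ := hbox _ hz
  have hz0 : ∀ x : Fin M0 → Fin t, ∀ m, Function.extend I x z (I m) = x m :=
    fun x m => hIi.extend_apply _ _ _
  refine ⟨I, Function.extend I a z, b, hIi, fun m => ?_, fun A => ?_⟩
  · rw [hz0]
    exact hab m
  · set x : Fin M0 → Fin t := fun m => if m ∈ A then b m else a m with hx
    have h2 : pt c w (Function.extend I x z) = c + ∑ m, w m (Function.extend I a z m) +
        ∑ m ∈ A, (w (I m) (b m) - w (I m) (Function.extend I a z (I m))) := by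
      unfold pt
      rw [add_assoc]
      congr 1
      rw [← sub_eq_iff_eq_add', ← Finset.sum_sub_distrib]
      have h3 : ∀ i, i ∉ A.map ⟨I, hIi⟩ →
          w i (Function.extend I x z i) - w i (Function.extend I a z i) = 0 := by
        intro i hi
        by_cases hi' : ∃ m, I m = i
        · obtain ⟨m, rfl⟩ := hi'
          have hm : m ∉ A := fun hm => hi (Finset.mem_map.2 ⟨m, hm, rfl⟩)
          rw [hz0, hz0, hx]
          simp [hm]
        · rw [Function.extend_apply' _ _ _ hi', Function.extend_apply' _ _ _ hi', sub_self]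
      rw [← Finset.sum_subset (Finset.subset_univ (A.map ⟨I, hIi⟩)) fun i _ hi => h3 i hi,
        Finset.sum_map]
      refine Finset.sum_congr rfl fun m hm => ?_
      change w (I m) (Function.extend I x z (I m)) - w (I m) (Function.extend I a z (I m)) = _
      rw [hz0 x m, hx]
      simp [hm]
    have h3 := (Finset.mem_filter.1 (hH A)).2
    rw [← h2, ← card_Hs]
    have h4 : (Fd (G := G) w I (pt c w (Function.extend I x z)) (Function.extend I x z)).card ≤
        Nat.card ((MulAction.stabilizer G (c + ∑ m, w m (Function.extend I a z m)) ⊓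
          ⨅ m : Fin M0, MulAction.stabilizer G
            (w (I m) (b m) - w (I m) (Function.extend I a z (I m))) : Subgroup G)) := by
      rw [Nat.card_eq_fintype_card]
      have h5 : ∀ s ∈ Fd (G := G) w I (pt c w (Function.extend I x z)) (Function.extend I x z),
          s ∈ (MulAction.stabilizer G (c + ∑ m, w m (Function.extend I a z m)) ⊓
          ⨅ m : Fin M0, MulAction.stabilizer G
            (w (I m) (b m) - w (I m) (Function.extend I a z (I m))) : Subgroup G) := by
        intro s hs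
        obtain ⟨hs1, hs2⟩ := Finset.mem_filter.1 hs
        rw [mem_Hs] at hs1
        have h6 : ∀ m, s • (w (I m) (b m) - w (I m) (Function.extend I a z (I m))) =
            w (I m) (b m) - w (I m) (Function.extend I a z (I m)) := by
          intro m
          have h7 := hs2 m
          unfold Wd at h7
          rw [Finset.mem_filter] at h7
          push Not at h7
          have h8 := h7 (Finset.mem_univ _)
          have h9 := h8 (b m)
          have h10 := h8 (Function.extend I a z (I m))
          have h11 : w (I m) (b m) - w (I m) (Function.extend I a z (I m)) =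
              (w (I m) (b m) - w (I m) (Function.extend I x z (I m))) -
              (w (I m) (Function.extend I a z (I m)) -
                w (I m) (Function.extend I x z (I m))) := by abel
          rw [h11, smul_sub, h9, h10]
        refine Subgroup.mem_inf.2 ⟨?_, ?_⟩
        · rw [MulAction.mem_stabilizer_iff]
          have h7 : c + ∑ m, w m (Function.extend I a z m) = pt c w (Function.extend I x z) -
              ∑ m ∈ A, (w (I m) (b m) - w (I m) (Function.extend I a z (I m))) := by
            rw [h2, add_sub_cancel_right]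
          rw [h7, smul_sub, hs1, Finset.smul_sum]
          congr 1
          exact Finset.sum_congr rfl fun m _ => h6 m
        · rw [Subgroup.mem_iInf]
          exact fun m => MulAction.mem_stabilizer_iff.2 (h6 m)
      calc (Fd (G := G) w I (pt c w (Function.extend I x z)) (Function.extend I x z)).card
          ≤ (univ.filter fun s : G => s ∈ (MulAction.stabilizer G
              (c + ∑ m, w m (Function.extend I a z m)) ⊓
            ⨅ m : Fin M0, MulAction.stabilizer G
            (w (I m) (b m) - w (I m) (Function.extend I a z (I m))) : Subgroup G)).card :=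
            Finset.card_le_card fun s hs => Finset.mem_filter.2 ⟨Finset.mem_univ s, h5 s hs⟩
        _ = _ := (Fintype.card_subtype _).symm
    have h5 : δ / 4 = 1 / (2 ^ 17 * ((B + 1 : ℕ) : ℝ)) := by
      rw [hδ]
      field_simp
      norm_num
    rw [h5, div_mul_eq_mul_div, one_mul, div_le_iff₀ (by positivity)] at h3
    have h6 : ((Hs G (pt c w (Function.extend I x z))).card : ℝ) ≤
        ((2 ^ 17 * (B + 1) * (Fd (G := G) w I (pt c w (Function.extend I x z))
          (Function.extend I x z)).card : ℕ) : ℝ) := by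
      push_cast
      push_cast at h3
      linarith
    exact (Nat.cast_le.1 h6).trans (Nat.mul_le_mul_left _ h4)

end Pool.Agent.DI
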