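import Pool.Agent.DI.Defs

set_option autoImplicit false

/-!
# Random cubes in a grid
-/

namespace Pool.Agent.DI

/-- The coordinates with `g`-label in `S` are taken from `i`, the others from `z`. -/
def mix {n t : ℕ} (g : Fin n → Fin 8) (S : Finset (Fin 7)) (z i : Fin n → Fin t) : Fin n → Fin t :=
  fun l => if ∃ m ∈ S, g l = m.succ then i l else z l

namespace GridA

theorem mix_pos {n t : ℕ} (g : Fin n → Fin 8) (S : Finset (Fin 7)) (z i : Fin n → Fin t) (l : Fin n)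
    (h : ∃ m ∈ S, g l = m.succ) : mix g S z i l = i l := if_pos h

theorem mix_neg {n t : ℕ} (g : Fin n → Fin 8) (S : Finset (Fin 7)) (z i : Fin n → Fin t) (l : Fin n)
    (h : ¬ ∃ m ∈ S, g l = m.succ) : mix g S z i l = z l := if_neg h

/-- Exchanging twice. -/
theorem mix_mix {n t : ℕ} (g : Fin n → Fin 8) (S : Finset (Fin 7)) (z i : Fin n → Fin t) :
    mix g S (mix g S z i) (mix g S i z) = z := by
  funext l
  by_cases h : ∃ m ∈ S, g l = m.succ
  · rw [mix_pos _ _ _ _ _ h, mix_pos _ _ _ _ _ h]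
  · rw [mix_neg _ _ _ _ _ h, mix_neg _ _ _ _ _ h]

theorem mix_symm {n t : ℕ} (g : Fin n → Fin 8) (A A' : Finset (Fin 7)) (z i : Fin n → Fin t) :
    mix g (symmDiff A A') (mix g A z i) (mix g A i z) = mix g A' z i := by
  classical
  funext l
  have h0 : (∃ m ∈ symmDiff A A', g l = m.succ) ↔
      ((∃ m ∈ A, g l = m.succ) ∧ ¬ ∃ m ∈ A', g l = m.succ) ∨
      ((∃ m ∈ A', g l = m.succ) ∧ ¬ ∃ m ∈ A, g l = m.succ) := by
    constructor
    · rintro ⟨m, hm, he⟩
      rw [Finset.mem_symmDiff] at hm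
      rcases hm with ⟨h1, h2⟩ | ⟨h1, h2⟩
      · refine Or.inl ⟨⟨m, h1, he⟩, ?_⟩
        rintro ⟨m', h3, h4⟩
        rw [he] at h4
        exact h2 (Fin.succ_injective _ h4 ▸ h3)
      · refine Or.inr ⟨⟨m, h1, he⟩, ?_⟩
        rintro ⟨m', h3, h4⟩
        rw [he] at h4
        exact h2 (Fin.succ_injective _ h4 ▸ h3)
    · rintro (⟨⟨m, h1, he⟩, h2⟩ | ⟨⟨m, h1, he⟩, h2⟩)
      · exact ⟨m, Finset.mem_symmDiff.2 (Or.inl ⟨h1, fun h3 => h2 ⟨m, h3, he⟩⟩), he⟩
      · exact ⟨m, Finset.mem_symmDiff.2 (Or.inr ⟨h1, fun h3 => h2 ⟨m, h3, he⟩⟩), he⟩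
  by_cases hA : ∃ m ∈ A, g l = m.succ
  · by_cases hA' : ∃ m ∈ A', g l = m.succ
    · have h1 : ¬ ∃ m ∈ symmDiff A A', g l = m.succ := by
        rw [h0]
        exact fun h => h.elim (fun h => h.2 hA') (fun h => h.2 hA)
      rw [mix_neg _ _ _ _ _ h1, mix_pos _ _ _ _ _ hA, mix_pos _ _ _ _ _ hA']
    · have h1 : ∃ m ∈ symmDiff A A', g l = m.succ := by
        rw [h0]
        exact Or.inl ⟨hA, hA'⟩
      rw [mix_pos _ _ _ _ _ h1, mix_pos _ _ _ _ _ hA, mix_neg _ _ _ _ _ hA']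
  · by_cases hA' : ∃ m ∈ A', g l = m.succ
    · have h1 : ∃ m ∈ symmDiff A A', g l = m.succ := by
        rw [h0]
        exact Or.inr ⟨hA', hA⟩
      rw [mix_pos _ _ _ _ _ h1, mix_neg _ _ _ _ _ hA, mix_pos _ _ _ _ _ hA']
    · have h1 : ¬ ∃ m ∈ symmDiff A A', g l = m.succ := by
        rw [h0]
        exact fun h => h.elim (fun h => hA h.1) (fun h => hA' h.1)
      rw [mix_neg _ _ _ _ _ h1, mix_neg _ _ _ _ _ hA, mix_neg _ _ _ _ _ hA']

/-- The vertices of a random cube. -/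
theorem vertex {n t : ℕ} {V : Type} [AddCommGroup V] (c : V) (w : Fin n → Fin t → V)
    (g : Fin n → Fin 8) (z i : Fin n → Fin t) (A : Finset (Fin 7)) :
    (c + ∑ l, w l (z l)) + ∑ m ∈ A, (∑ l, if g l = m.succ then w l (i l) - w l (z l) else 0) =
      c + ∑ l, w l (mix g A z i l) := by
  classical
  rw [Finset.sum_comm, add_assoc, ← Finset.sum_add_distrib]
  congr 1
  refine Finset.sum_congr rfl fun l _ => ?_
  by_cases h : ∃ m ∈ A, g l = m.succ
  · obtain ⟨m, hm, he⟩ := h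
    rw [mix_pos _ _ _ _ _ ⟨m, hm, he⟩, Finset.sum_eq_single m]
    · rw [if_pos he]
      abel
    · intro m' _ hne
      rw [if_neg]
      intro h2
      rw [he] at h2
      exact hne (Fin.succ_injective _ h2).symm
    · intro h2
      exact absurd hm h2
  · rw [mix_neg _ _ _ _ _ h, Finset.sum_eq_zero, add_zero]
    intro m hm
    rw [if_neg]
    intro h2
    exact h ⟨m, hm, h2⟩

end GridA

open GridA

/-- Averaging over random cubes. -/
theorem grid_avg (B t n : ℕ) (G V : Type) [Group G] [Finite G] [AddCommGroup V] [Module ℚ V]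
    [DistribMulAction G V] (c : V) (w : Fin n → Fin t → V)
    (h : ∀ (y : V) (v : Fin 7 → V),
      (∀ A : Finset (Fin 7), ∃ z : Fin n → Fin t, y + ∑ m ∈ A, v m = c + ∑ m, w m (z m)) →
      ∃ A A' : Finset (Fin 7), A ≠ A' ∧ Near G B (y + ∑ m ∈ A, v m) (y + ∑ m ∈ A', v m)) :
    ∃ S : Finset (Fin 7), S.Nonempty ∧ t ^ n * t ^ n * 8 ^ n ≤
      2 ^ 14 * Nat.card {q : (Fin n → Fin t) × (Fin n → Fin t) × (Fin n → Fin 8) //
        Near G B (c + ∑ m, w m (q.1 m)) (c + ∑ m, w m (mix q.2.2 S q.1 q.2.1 m))} := by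
  classical
  have key : ∀ q : (Fin n → Fin t) × (Fin n → Fin t) × (Fin n → Fin 8),
      ∃ p : Finset (Fin 7) × Finset (Fin 7), p.1 ≠ p.2 ∧
        Near G B (c + ∑ m, w m (mix q.2.2 p.1 q.1 q.2.1 m))
          (c + ∑ m, w m (mix q.2.2 p.2 q.1 q.2.1 m)) := by
    intro q
    obtain ⟨A, A', hne, hN⟩ := h (c + ∑ l, w l (q.1 l))
      (fun m => ∑ l, if q.2.2 l = m.succ then w l (q.2.1 l) - w l (q.1 l) else 0)
      (fun A => ⟨mix q.2.2 A q.1 q.2.1, vertex c w q.2.2 q.1 q.2.1 A⟩)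
    refine ⟨(A, A'), hne, ?_⟩
    rw [vertex, vertex] at hN
    exact hN
  choose f hf1 hf2 using key
  obtain ⟨p, hp⟩ : ∃ p : Finset (Fin 7) × Finset (Fin 7), t ^ n * t ^ n * 8 ^ n ≤ 2 ^ 14 *
      (Finset.univ.filter fun q : (Fin n → Fin t) × (Fin n → Fin t) × (Fin n → Fin 8) =>
        f q = p).card := by
    by_contra hcon
    push Not at hcon
    have h1 : ∑ p : Finset (Fin 7) × Finset (Fin 7),
        (Finset.univ.filter fun q : (Fin n → Fin t) × (Fin n → Fin t) × (Fin n → Fin 8) =>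
          f q = p).card = t ^ n * t ^ n * 8 ^ n := by
      rw [← Finset.card_eq_sum_card_fiberwise (fun q _ => Finset.mem_univ (f q))]
      simp only [Finset.card_univ, Fintype.card_prod, Fintype.card_fun, Fintype.card_fin]
      ring
    have h2 : ∑ p : Finset (Fin 7) × Finset (Fin 7), 2 ^ 14 *
        (Finset.univ.filter fun q : (Fin n → Fin t) × (Fin n → Fin t) × (Fin n → Fin 8) =>
          f q = p).card < ∑ _p : Finset (Fin 7) × Finset (Fin 7), t ^ n * t ^ n * 8 ^ n :=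
      Finset.sum_lt_sum_of_nonempty Finset.univ_nonempty fun p _ => hcon p
    rw [← Finset.mul_sum, h1, Finset.sum_const, Finset.card_univ, Fintype.card_prod,
      Fintype.card_finset, Fintype.card_fin, smul_eq_mul] at h2
    exact lt_irrefl _ (h2.trans_le (le_of_eq (by norm_num)))
  by_cases h0 : (Finset.univ.filter fun q : (Fin n → Fin t) × (Fin n → Fin t) × (Fin n → Fin 8) =>
      f q = p).card = 0
  · refine ⟨Finset.univ, Finset.univ_nonempty, ?_⟩
    rw [h0, mul_zero] at hp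
    exact hp.trans (Nat.zero_le _)
  obtain ⟨q₀, hq₀⟩ := Finset.card_pos.1 (Nat.pos_of_ne_zero h0)
  have hne : p.1 ≠ p.2 := by
    rw [← (Finset.mem_filter.1 hq₀).2]
    exact hf1 q₀
  refine ⟨symmDiff p.1 p.2, ?_, hp.trans (Nat.mul_le_mul_left _ ?_)⟩
  · rw [Finset.nonempty_iff_ne_empty]
    intro h3
    exact hne (symmDiff_eq_bot.1 h3)
  · rw [← Fintype.card_subtype, ← Nat.card_eq_fintype_card]
    refine Nat.card_le_card_of_injective
      (fun q => ⟨(mix q.1.2.2 p.1 q.1.1 q.1.2.1, mix q.1.2.2 p.1 q.1.2.1 q.1.1, q.1.2.2), ?_⟩) ?_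
    · have h4 := hf2 q.1
      rw [q.2] at h4
      simp only
      rw [mix_symm]
      exact h4
    · intro q q' hqq
      have h5 := congrArg Subtype.val hqq
      simp only [Prod.mk.injEq] at h5
      obtain ⟨h6, h7, h8⟩ := h5
      rw [← h8] at h6 h7
      have h9 := mix_mix q.1.2.2 p.1 q.1.1 q.1.2.1
      have h10 := mix_mix q.1.2.2 p.1 q.1.2.1 q.1.1
      rw [h6, h7, mix_mix] at h9
      rw [h7, h6, mix_mix] at h10
      exact Subtype.ext (Prod.ext h9.symm (Prod.ext h10.symm h8))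

end Pool.Agent.DI
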