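import Pool.Agent.DI.End

/-! # Linear forms with coefficients in a finite set -/

namespace Pool.Agent.DI

open Module Submodule Pool.Agent.QDen Pool.Agent.QS

namespace Lat

/-- the algebraic numbers as a subfield of the complex numbers -/
noncomputable def KF : Subfield ℂ := (algebraicClosure ℚ ℂ).toSubfield

theorem mem_KF {c : ℂ} : c ∈ KF ↔ IsAlgebraic ℚ c := mem_algebraicClosure_iff

theorem indepKF {ι : Type*} [Fintype ι] {v : ι → ℂ}
    (hv : LinearIndependent (algebraicClosure ℚ ℂ) v) : LinearIndependent KF v := by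
  rw [Fintype.linearIndependent_iff] at hv ⊢
  intro g hg i
  have h1 := hv (fun i => ⟨(g i : ℂ), mem_algebraicClosure_iff.2 (mem_KF.1 (g i).2)⟩) (by
    rw [← hg]
    rfl) i
  exact Subtype.ext (congrArg Subtype.val h1)

theorem indep_of_KF {ι : Type*} [Fintype ι] {v : ι → ℂ} (hv : LinearIndependent KF v) :
    LinearIndependent (algebraicClosure ℚ ℂ) v := by
  rw [Fintype.linearIndependent_iff] at hv ⊢
  intro g hg i
  have h1 := hv (fun i => ⟨(g i : ℂ), mem_KF.2 (mem_algebraicClosure_iff.1 (g i).2)⟩) (by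
    rw [← hg]
    rfl) i
  exact Subtype.ext (congrArg Subtype.val h1)

theorem span_KF {n : ℕ} {t : Fin n → ℂ} {y : ℂ} (h : y ∈ span KF (Set.range t)) :
    y ∈ span (algebraicClosure ℚ ℂ) (Set.range t) := by
  rw [mem_span_range_iff_exists_fun] at h ⊢
  obtain ⟨c, hc⟩ := h
  refine ⟨fun i => ⟨(c i : ℂ), mem_algebraicClosure_iff.2 (mem_KF.1 (c i).2)⟩, ?_⟩
  rw [← hc]
  rfl

theorem free_KF {n : ℕ} {t : Fin n → ℂ}
    (ht : LinearIndependent (algebraicClosure ℚ ℂ) (Fin.cons 1 t : Fin (n + 1) → ℂ)) :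
    QR.Free (algebraicClosure ℚ ℂ) (span KF (Set.range t)) := by
  rw [linearIndependent_finCons] at ht
  intro κ _ v hv hi a c h
  have h1 : ∑ i, algebraMap (algebraicClosure ℚ ℂ) ℂ (c i) * v i ∈
      span (algebraicClosure ℚ ℂ) (Set.range t) := by
    refine sum_mem fun i _ => ?_
    rw [← Algebra.smul_def]
    exact smul_mem _ _ (span_KF (hv i))
  have ha : a = 0 := by
    by_contra ha
    refine ht.2 ?_
    have h2 : algebraMap (algebraicClosure ℚ ℂ) ℂ a ∈
        span (algebraicClosure ℚ ℂ) (Set.range t) := by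
      rw [eq_neg_of_add_eq_zero_left h]
      exact neg_mem h1
    have h3 := smul_mem _ a⁻¹ h2
    rwa [Algebra.smul_def, ← map_mul, inv_mul_cancel₀ ha, map_one] at h3
  refine ⟨ha, ?_⟩
  rw [ha, map_zero, zero_add] at h
  have h4 := Fintype.linearIndependent_iff.1 (indep_of_KF hi) c (by
    rw [← h]
    exact Finset.sum_congr rfl fun i _ => Algebra.smul_def _ _)
  exact h4

end Lat

theorem no_cubeK (d : ℕ) (hd : 0 < d) : ∃ M0 : ℕ, ∀ (c : ℂ) (u : Fin M0 → ℂ),
    LinearIndependent (algebraicClosure ℚ ℂ)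
      (Fin.cons 1 (Fin.cons c u : Fin (M0 + 1) → ℂ) : Fin (M0 + 1 + 1) → ℂ) →
    ¬ ∀ A : Finset (Fin M0), TR (algebraicClosure ℚ ℂ) d c (c + ∑ m ∈ A, u m) := by
  classical
  obtain ⟨M0, hM0⟩ := NoC.large d
  refine ⟨M0, fun c u hli hall => ?_⟩
  have hli2 := (linearIndependent_finCons.1 hli)
  have hu : LinearIndependent (algebraicClosure ℚ ℂ) u := (linearIndependent_finCons.1 hli2.1).1
  have hct : ¬ IsAlgebraic ℚ c := by
    intro h
    have h0 : c ≠ 0 := hli2.1.ne_zero 0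
    refine hli2.2 ?_
    have h1 : c ∈ span (algebraicClosure ℚ ℂ)
        (Set.range (Fin.cons c u : Fin (M0 + 1) → ℂ)) := subset_span ⟨0, rfl⟩
    have h2 := smul_mem _ (⟨c, mem_algebraicClosure_iff.2 h⟩ : algebraicClosure ℚ ℂ)⁻¹ h1
    have h3 : (⟨c, mem_algebraicClosure_iff.2 h⟩ : algebraicClosure ℚ ℂ)⁻¹ • c = 1 := by
      rw [Algebra.smul_def, map_inv₀]
      exact inv_mul_cancel₀ h0
    rwa [h3] at h2
  let t : Fin (M0 + 1) → ℂ := Fin.cons c u
  obtain ⟨n, U, hn, _, hU, hUeq⟩ := Pool.Agent.QN.main Lat.KF (fun c hc => Lat.mem_KF.1 hc)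
    (k := 1) one_pos hd (Nat.succ_pos _) ![c]
    (fun P h1 _ h3 => NoC.good_one hct P h1 h3) t (Lat.free_KF hli)
  have hw : LinearIndependent Lat.KF u := Lat.indepKF hu
  have hspan : ∀ T : Finset (Fin M0), c + ∑ i ∈ T, u i ∈ span Lat.KF (Set.range t) := by
    intro T
    refine add_mem (subset_span ⟨0, rfl⟩) (sum_mem fun i _ => subset_span ⟨i.succ, ?_⟩)
    simp [t]
  have hcov : (Set.univ : Set (Finset (Fin M0))) ⊆
      ⋃ i ∈ (Finset.univ : Finset (Fin n)), {T : Finset (Fin M0) | c + ∑ i ∈ T, u i ∈ U i} := by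
    intro T _
    have h1 : c + ∑ i ∈ T, u i ∈ ⋃ i, (U i : Set ℂ) := by
      rw [← hUeq]
      exact ⟨hspan T, NoC.bad_of_rel (hall T)⟩
    obtain ⟨i, hi⟩ := Set.mem_iUnion.1 h1
    simp only [Finset.mem_univ, Set.iUnion_true, Set.mem_iUnion]
    exact ⟨i, hi⟩
  have hUi : ∀ i, {T : Finset (Fin M0) | c + ∑ i ∈ T, u i ∈ U i}.ncard ≤
      2 ^ ((1 + d).choose d) := by
    intro i
    have : FiniteDimensional Lat.KF (span Lat.KF (Set.range t)) :=
      FiniteDimensional.span_of_finite Lat.KF (Set.finite_range t)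
    have : FiniteDimensional Lat.KF (U i) := Submodule.finiteDimensional_of_le (hU i).1
    exact (Pool.Agent.QDen.cube u hw c (U i)).trans (Nat.pow_le_pow_right (by norm_num) (hU i).2.le)
  have h1 : (Set.univ : Set (Finset (Fin M0))).ncard ≤ n * 2 ^ ((1 + d).choose d) := by
    refine (Set.ncard_le_ncard hcov (Set.toFinite _)).trans ?_
    refine (Finset.set_ncard_biUnion_le _ _).trans ?_
    refine (Finset.sum_le_card_nsmul _ _ (2 ^ ((1 + d).choose d)) fun i _ => hUi i).trans ?_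
    rw [Finset.card_univ, Fintype.card_fin, smul_eq_mul]
  rw [Set.ncard_univ, Nat.card_eq_fintype_card, Fintype.card_finset, Fintype.card_fin] at h1
  exact absurd (h1.trans (Nat.mul_le_mul_right _ hn)) (not_le.2 hM0)

namespace Lat

/-- a set of points of `S ^ n` without a full grid is small -/
theorem grid_points {T : Type} (n s : ℕ) (hs : 1 ≤ s) : ∃ C c : ℝ, 0 < C ∧ 0 < c ∧ c ≤ 1 ∧
    ∀ S : Finset T, S.Nonempty → ∀ H : Set (Fin n → T), (∀ f ∈ H, ∀ j, f j ∈ S) →
      (∀ p : Fin n → Fin s → T, (∀ m, Function.Injective (p m)) →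
        ∃ z : Fin n → Fin s, (fun m => p m (z m)) ∉ H) →
      (H.ncard : ℝ) ≤ C * (S.card : ℝ) ^ ((n : ℝ) - c) := by
  classical
  obtain ⟨C, c, hC, hc, hc1, h⟩ := Pool.Agent.QDen.box_ord hs n
  refine ⟨C, c, hC, hc, hc1, fun S hS H hHS hgrid => ?_⟩
  by_contra hcon
  push Not at hcon
  have hHf : H.Finite := by
    refine (Fintype.piFinset fun _ : Fin n => S).finite_toSet.subset fun f hf => ?_
    rw [Finset.mem_coe, Fintype.mem_piFinset]
    exact hHS f hf
  let H' : Finset (Fin n → T) := hHf.toFinset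
  have hH' : ∀ f, f ∈ H' ↔ f ∈ H := fun f => hHf.mem_toFinset
  have hcard : H.ncard = H'.card := Set.ncard_eq_toFinset_card H hHf
  -- the numbering of `S`
  let num : T → ℕ := fun a => if ha : a ∈ S then (S.equivFin ⟨a, ha⟩ : ℕ) else 0
  have hnum : ∀ a ∈ S, ∀ b ∈ S, num a = num b → a = b := by
    intro a ha b hb hab
    simp only [num, ha, hb, dif_pos] at hab
    have := S.equivFin.injective (Fin.ext hab)
    exact congrArg Subtype.val this
  have hlt : ∀ a ∈ S, num a < S.card := by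
    intro a ha
    simp only [num, ha, dif_pos]
    exact Fin.is_lt _
  have hsurj : ∀ i < S.card, ∃ a ∈ S, num a = i := by
    intro i hi
    let a := S.equivFin.symm ⟨i, hi⟩
    refine ⟨a, a.2, ?_⟩
    simp only [num, a.2, dif_pos]
    have : S.equivFin ⟨(a : T), a.2⟩ = ⟨i, hi⟩ := by
      have h1 : (⟨(a : T), a.2⟩ : S) = a := rfl
      rw [h1]
      exact S.equivFin.apply_symm_apply _
    rw [this]
  let en : (Fin n → T) → (Fin n → ℕ) := fun f j => num (f j)
  have hinj : Set.InjOn en (H' : Set (Fin n → T)) := by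
    intro f hf g hg hfg
    funext j
    exact hnum _ (hHS f ((hH' f).1 hf) j) _ (hHS g ((hH' g).1 hg) j) (congrFun hfg j)
  have hN' : (Finset.range S.card).Nonempty :=
    Finset.nonempty_range_iff.2 (Finset.card_pos.2 hS).ne'
  obtain ⟨V, hV, hVH⟩ := h (Finset.range S.card) hN' (H'.image en) (fun f hf i => by
    obtain ⟨g, hg, rfl⟩ := Finset.mem_image.1 hf
    rw [Finset.mem_range]
    exact hlt _ (hHS g ((hH' g).1 hg) i)) (by
    rw [Finset.card_image_of_injOn hinj, Finset.card_range, ← hcard]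
    exact hcon)
  let q : Fin n → Fin s → ℕ := fun m i => ((V m).equivFinOfCardEq (hV m).2).symm i
  have hqV : ∀ m i, q m i ∈ V m := fun m i => (((V m).equivFinOfCardEq (hV m).2).symm i).2
  have hqi : ∀ m, Function.Injective (q m) := fun m i j h =>
    ((V m).equivFinOfCardEq (hV m).2).symm.injective (Subtype.ext h)
  choose p hpS hpn using fun (m : Fin n) (i : Fin s) =>
    hsurj (q m i) (Finset.mem_range.1 ((hV m).1 (hqV m i)))
  obtain ⟨z, hz⟩ := hgrid p fun m i i' h => hqi m (by rw [← hpn, ← hpn, h])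
  apply hz
  have h1 : (fun m => q m (z m)) ∈ Fintype.piFinset V :=
    Fintype.mem_piFinset.2 fun m => hqV m _
  obtain ⟨f, hf, hfe⟩ := Finset.mem_image.1 (hVH h1)
  have hfH := (hH' f).1 hf
  have h3 : (fun m => p m (z m)) = f := by
    funext m
    refine hnum _ (hpS _ _) _ (hHS f hfH m) ?_
    rw [hpn]
    exact (congrFun hfe m).symm
  rw [h3]
  exact hfH

theorem sum_cons2 {K V : Type} [Field K] [AddCommGroup V] [Module K V] {n : ℕ}
    (g : Fin (n + 1 + 1) → K) (o c0 : V) (l : Fin n → V) :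
    ∑ i, g i • (Fin.cons o (Fin.cons c0 l : Fin (n + 1) → V) : Fin (n + 1 + 1) → V) i =
      g 0 • o + (g (Fin.succ 0) • c0 + ∑ j, g (Fin.succ (Fin.succ j)) • l j) := by
  rw [Fin.sum_univ_succ, Fin.sum_univ_succ]
  simp only [Fin.cons_zero, Fin.cons_succ]

/-- independence of `1`, a vector with a component at `c0`, and multiples of different `l j` -/
theorem indep_aux {K V : Type} [Field K] [AddCommGroup V] [Module K V] {n M0 : ℕ} {o c0 : V}
    {l : Fin n → V}
    (hli : LinearIndependent K (Fin.cons o (Fin.cons c0 l : Fin (n + 1) → V) :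
      Fin (n + 1 + 1) → V)) (a : Fin n → K) (I : Fin M0 → Fin n) (hI : Function.Injective I)
    (δ : Fin M0 → K) (hδ : ∀ m, δ m ≠ 0) :
    LinearIndependent K (Fin.cons o (Fin.cons (c0 + ∑ j, a j • l j) (fun m => δ m • l (I m)) :
      Fin (M0 + 1) → V) : Fin (M0 + 1 + 1) → V) := by
  classical
  rw [Fintype.linearIndependent_iff] at hli ⊢
  intro g hg
  rw [sum_cons2] at hg
  have h1 := hli (Fin.cons (g 0) (Fin.cons (g (Fin.succ 0)) fun j => g (Fin.succ 0) * a j +
    ∑ m, if I m = j then g m.succ.succ * δ m else 0)) (by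
    rw [sum_cons2]
    simp only [Fin.cons_zero, Fin.cons_succ]
    rw [← hg]
    congr 1
    rw [smul_add, add_assoc]
    congr 1
    rw [Finset.smul_sum]
    simp only [add_smul, Finset.sum_add_distrib, Finset.sum_smul]
    congr 1
    · exact Finset.sum_congr rfl fun j _ => mul_smul _ _ _
    · rw [Finset.sum_comm]
      refine Finset.sum_congr rfl fun m _ => ?_
      simp only [ite_smul, zero_smul]
      rw [Finset.sum_ite_eq, if_pos (Finset.mem_univ _), mul_smul])
  have h0 : g 0 = 0 := h1 0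
  have hc : g (Fin.succ 0) = 0 := h1 (Fin.succ 0)
  intro i
  refine Fin.cases h0 (fun i => ?_) i
  refine Fin.cases hc (fun m => ?_) i
  have h2 := h1 (I m).succ.succ
  simp only [Fin.cons_succ] at h2
  rw [hc, zero_mul, zero_add, Finset.sum_eq_single m] at h2
  · rw [if_pos rfl] at h2
    exact (mul_eq_zero.1 h2).resolve_right (hδ m)
  · intro m' _ hm'
    rw [if_neg fun h => hm' (hI h)]
  · intro h
    exact absurd (Finset.mem_univ _) h

/-- one fibre: `c0` is a new direction -/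
theorem fibre (e : ℕ) : ∃ (n : ℕ) (C c : ℝ), 0 < n ∧ 0 < C ∧ 0 < c ∧ c ≤ 1 ∧
    ∀ x : ℂ, ¬ IsAlgebraic ℚ x → ∀ (l : Fin n → ℂ) (c0 : ℂ),
      LinearIndependent (algebraicClosure ℚ ℂ)
        (Fin.cons 1 (Fin.cons c0 l : Fin (n + 1) → ℂ) : Fin (n + 1 + 1) → ℂ) →
      ∀ S : Finset (algebraicClosure ℚ ℂ), S.Nonempty →
      ({m : Fin n → algebraicClosure ℚ ℂ | (∀ j, m j ∈ S) ∧
        RX e x (c0 + ∑ j, m j • l j)}.ncard : ℝ) ≤ C * (S.card : ℝ) ^ ((n : ℝ) - c) := by
  classical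
  obtain ⟨d, hd, hsub⟩ := subbox e
  obtain ⟨M0, hM0⟩ := no_cubeK d hd
  obtain ⟨s, n, hs, hn, hbox⟩ := hsub M0
  obtain ⟨C, c1, hC, hc0, hc1, hfew⟩ := grid_points (T := algebraicClosure ℚ ℂ) n s hs
  refine ⟨n, C, c1, hn, hC, hc0, hc1, fun x hx l c0 hli S hS => ?_⟩
  refine hfew S hS _ (fun f hf => hf.1) fun p hpi => ?_
  by_contra hcon
  push Not at hcon
  let K := algebraicClosure ℚ ℂ
  have : IsAlgClosed K := (algebraicClosure.isAlgClosure ℚ ℂ).isAlgClosed
  have hxK : ¬ IsAlgebraic K x := by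
    intro h
    have : Algebra.IsAlgebraic ℚ K := algebraicClosure.isAlgebraic ℚ ℂ
    exact hx (h.restrictScalars ℚ)
  let w : Fin n → Fin s → ℂ := fun m i => p m i • l m
  have hnK : ∀ a : Fin n → K, ¬ ∃ κ : K, algebraMap K ℂ κ = c0 + ∑ j, a j • l j := by
    rintro a ⟨κ, hκ⟩
    rw [Fintype.linearIndependent_iff] at hli
    have h1 := hli (Fin.cons (-κ) (Fin.cons 1 a)) (by
      rw [sum_cons2]
      simp only [Fin.cons_zero, Fin.cons_succ]
      rw [one_smul, ← hκ, neg_smul, Algebra.smul_def, mul_one, neg_add_cancel]) (Fin.succ 0)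
    simp only [Fin.cons_succ, Fin.cons_zero] at h1
    exact one_ne_zero h1
  have hS' : ∀ z : Fin n → Fin s, SXL K e x (c0 + ∑ m, w m (z m)) ∧
      ¬ ∃ κ : K, algebraMap K ℂ κ = c0 + ∑ m, w m (z m) := fun z =>
    ⟨sxl_of_rx (hcon z).2, hnK fun m => p m (z m)⟩
  have hw : ∀ m i j, ∃ e', SXL K e' x (w m i - w m j) := by
    intro m i j
    let z : Fin n → Fin s := fun _ => j
    have h1 : w m i - w m j =
        (c0 + ∑ k, w k (Function.update z m i k)) - (c0 + ∑ k, w k (z k)) := by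
      rw [add_sub_add_left_eq_sub, ← Finset.sum_sub_distrib, Finset.sum_eq_single m]
      · rw [Function.update_self]
      · intro k _ hk
        rw [Function.update_of_ne hk, sub_self]
      · intro h
        exact absurd (Finset.mem_univ m) h
    rw [h1]
    exact sxl_sub ⟨e, (hS' _).1⟩ ⟨e, (hS' _).1⟩
  obtain ⟨I, z0, j, hI, hj, hTR⟩ := hbox K x hxK c0 w hS' hw
  refine hM0 (c0 + ∑ m, w m (z0 m)) (fun m => w (I m) (j m) - w (I m) (z0 (I m))) ?_
    fun A => ?_
  · have h1 := indep_aux hli (fun m => p m (z0 m)) I hI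
      (fun m => p (I m) (j m) - p (I m) (z0 (I m)))
      (fun m => sub_ne_zero.2 fun h => hj m (hpi (I m) h))
    have h2 : (fun m => w (I m) (j m) - w (I m) (z0 (I m))) =
        fun m => (p (I m) (j m) - p (I m) (z0 (I m))) • l (I m) := by
      funext m
      exact (sub_smul _ _ _).symm
    rw [h2]
    exact h1
  · have h1 := hTR ∅ A
    rwa [Finset.sum_empty, add_zero] at h1

end Lat

theorem lattice (e : ℕ) : ∃ (n : ℕ) (C c : ℝ), 0 < n ∧ 0 < C ∧ 0 < c ∧ c ≤ 1 ∧
    ∀ x : ℂ, ¬ IsAlgebraic ℚ x → ∀ (r : ℕ) (l : Fin r → ℂ), n ≤ r →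
      LinearIndependent (algebraicClosure ℚ ℂ) (Fin.cons 1 l : Fin (r + 1) → ℂ) →
      ∀ S : Finset (algebraicClosure ℚ ℂ),
      ({m : Fin r → algebraicClosure ℚ ℂ | (∀ j, m j ∈ S) ∧
        RX e x (∑ j, m j • l j)}.ncard : ℝ) ≤ C * (S.card : ℝ) ^ ((r : ℝ) - c) := by
  classical
  obtain ⟨n, C, c, hn, hC, hc, hc1, hfib⟩ := Lat.fibre e
  refine ⟨n + 1, 1 + C, c, Nat.succ_pos _, by positivity, hc, hc1,
    fun x hx r l hr hli S => ?_⟩
  obtain ⟨k, rfl⟩ : ∃ k, r = n + (k + 1) := ⟨r - (n + 1), by omega⟩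
  rcases S.eq_empty_or_nonempty with rfl | hS
  · have h0 : {m : Fin (n + (k + 1)) → algebraicClosure ℚ ℂ |
        (∀ j, m j ∈ (∅ : Finset (algebraicClosure ℚ ℂ))) ∧ RX e x (∑ j, m j • l j)} = ∅ := by
      rw [Set.eq_empty_iff_forall_notMem]
      rintro m ⟨h1, -⟩
      exact absurd (h1 ⟨0, by omega⟩) (Finset.notMem_empty _)
    rw [h0, Set.ncard_empty, Nat.cast_zero]
    positivity
  have hS1 : (1 : ℝ) ≤ S.card := by exact_mod_cast Finset.card_pos.2 hS
  set l1 : Fin n → ℂ := fun j => l (Fin.castAdd (k + 1) j) with hl1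
  set l2 : Fin (k + 1) → ℂ := fun j => l (Fin.natAdd n j) with hl2
  let F : Finset (Fin (n + (k + 1)) → algebraicClosure ℚ ℂ) :=
    (Fintype.piFinset fun _ => S).filter fun m => RX e x (∑ j, m j • l j)
  have hF : {m : Fin (n + (k + 1)) → algebraicClosure ℚ ℂ | (∀ j, m j ∈ S) ∧
      RX e x (∑ j, m j • l j)} = ↑F := by
    ext m
    simp [F, Fintype.mem_piFinset]
  rw [hF, Set.ncard_coe_finset]
  let G : Finset (Fin (k + 1) → algebraicClosure ℚ ℂ) := Fintype.piFinset fun _ => S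
  let φ : (Fin (n + (k + 1)) → algebraicClosure ℚ ℂ) → (Fin (k + 1) → algebraicClosure ℚ ℂ) :=
    fun m j => m (Fin.natAdd n j)
  let ψ : (Fin (n + (k + 1)) → algebraicClosure ℚ ℂ) → (Fin n → algebraicClosure ℚ ℂ) :=
    fun m j => m (Fin.castAdd (k + 1) j)
  have hmap : ∀ m ∈ F, φ m ∈ G := by
    intro m hm
    rw [Fintype.mem_piFinset]
    exact fun j => Fintype.mem_piFinset.1 (Finset.mem_filter.1 hm).1 _
  have hinj : ∀ m m' : Fin (n + (k + 1)) → algebraicClosure ℚ ℂ, φ m = φ m' → ψ m = ψ m' →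
      m = m' := by
    intro m m' h1 h2
    funext j
    refine Fin.addCases (fun j => ?_) (fun j => ?_) j
    · exact congrFun h2 j
    · exact congrFun h1 j
  have hsum : ∀ m : Fin (n + (k + 1)) → algebraicClosure ℚ ℂ, ∑ j, m j • l j =
      ∑ j, φ m j • l2 j + ∑ j, ψ m j • l1 j := by
    intro m
    rw [Fin.sum_univ_add, add_comm]
  -- the fibre over `b`
  have hfibre : ∀ b ∈ G, b ≠ 0 → (((F.filter fun m => φ m = b).card : ℕ) : ℝ) ≤
      C * (S.card : ℝ) ^ ((n : ℝ) - c) := by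
    intro b hb hb0
    have hlib : LinearIndependent (algebraicClosure ℚ ℂ)
        (Fin.cons 1 (Fin.cons (∑ j, b j • l2 j) l1 : Fin (n + 1) → ℂ) :
          Fin (n + 1 + 1) → ℂ) := by
      obtain ⟨j0, hj0⟩ := Function.ne_iff.1 hb0
      rw [Fintype.linearIndependent_iff] at hli ⊢
      intro g hg
      rw [Lat.sum_cons2] at hg
      have h1 := hli (Fin.cons (g 0) (Fin.append (fun j => g j.succ.succ)
        (fun j => g (Fin.succ 0) * b j))) (by
        rw [Fin.sum_univ_succ, Fin.sum_univ_add]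
        simp only [Fin.cons_zero, Fin.cons_succ, Fin.append_left, Fin.append_right]
        rw [← hg]
        congr 1
        rw [add_comm]
        congr 1
        rw [Finset.smul_sum]
        exact Finset.sum_congr rfl fun j _ => mul_smul _ _ _)
      have h0 : g 0 = 0 := h1 0
      have h2 := h1 (Fin.natAdd n j0).succ
      simp only [Fin.cons_succ, Fin.append_right] at h2
      have h3 : g (Fin.succ 0) = 0 := (mul_eq_zero.1 h2).resolve_right hj0
      intro i
      refine Fin.cases h0 (fun i => ?_) i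
      refine Fin.cases h3 (fun j => ?_) i
      have h4 := h1 (Fin.castAdd (k + 1) j).succ
      simp only [Fin.cons_succ, Fin.append_left] at h4
      exact h4
    refine le_trans ?_ (hfib x hx l1 (∑ j, b j • l2 j) hlib S hS)
    have hfin : {m : Fin n → algebraicClosure ℚ ℂ | (∀ j, m j ∈ S) ∧
        RX e x (∑ j, b j • l2 j + ∑ j, m j • l1 j)}.Finite := by
      refine (Fintype.piFinset fun _ : Fin n => S).finite_toSet.subset fun f hf => ?_
      rw [Finset.mem_coe, Fintype.mem_piFinset]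
      exact hf.1
    rw [← Set.ncard_coe_finset]
    have := Set.ncard_le_ncard_of_injOn (s := ((F.filter fun m => φ m = b :
      Finset (Fin (n + (k + 1)) → algebraicClosure ℚ ℂ)) : Set _))
      (t := {m : Fin n → algebraicClosure ℚ ℂ | (∀ j, m j ∈ S) ∧
        RX e x (∑ j, b j • l2 j + ∑ j, m j • l1 j)}) ψ (fun m hm => by
        rw [Finset.mem_coe, Finset.mem_filter] at hm
        obtain ⟨hm1, hm2⟩ := hm
        obtain ⟨hm3, hm4⟩ := Finset.mem_filter.1 hm1
        refine ⟨fun j => Fintype.mem_piFinset.1 hm3 _, ?_⟩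
        rw [← hm2, ← hsum]
        exact hm4) (fun m hm m' hm' h => by
        rw [Finset.mem_coe, Finset.mem_filter] at hm hm'
        exact hinj m m' (hm.2.trans hm'.2.symm) h) hfin
    exact_mod_cast this
  have hfibre0 : (F.filter fun m => φ m = 0).card ≤ S.card ^ n := by
    have h1 : (F.filter fun m => φ m = 0).card ≤ (Fintype.piFinset fun _ : Fin n => S).card := by
      refine Finset.card_le_card_of_injOn ψ (fun m hm => ?_) (fun m hm m' hm' h => ?_)
      · rw [Finset.mem_coe, Finset.mem_filter] at hm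
        rw [Finset.mem_coe, Fintype.mem_piFinset]
        exact fun j => Fintype.mem_piFinset.1 (Finset.mem_filter.1 hm.1).1 _
      · rw [Finset.mem_coe, Finset.mem_filter] at hm hm'
        exact hinj m m' (hm.2.trans hm'.2.symm) h
    rwa [Fintype.card_piFinset, Finset.prod_const, Finset.card_univ, Fintype.card_fin] at h1
  have hcard : (F.card : ℝ) = ∑ b ∈ G, (((F.filter fun m => φ m = b).card : ℕ) : ℝ) := by
    rw [Finset.card_eq_sum_card_fiberwise hmap]
    push_cast
    rfl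
  have hbound : ∀ b ∈ G, (((F.filter fun m => φ m = b).card : ℕ) : ℝ) ≤
      (if b = 0 then (S.card : ℝ) ^ n else 0) + C * (S.card : ℝ) ^ ((n : ℝ) - c) := by
    intro b hb
    split_ifs with h
    · rw [h]
      have h1 : (((F.filter fun m => φ m = 0).card : ℕ) : ℝ) ≤ (S.card : ℝ) ^ n := by
        exact_mod_cast hfibre0
      have h2 : 0 ≤ C * (S.card : ℝ) ^ ((n : ℝ) - c) := by positivity
      linarith
    · rw [zero_add]
      exact hfibre b hb h
  rw [hcard]
  refine (Finset.sum_le_sum hbound).trans ?_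
  rw [Finset.sum_add_distrib, Finset.sum_const]
  have hGc : G.card = S.card ^ (k + 1) := by
    rw [Fintype.card_piFinset, Finset.prod_const, Finset.card_univ, Fintype.card_fin]
  have hsum0 : ∑ b ∈ G, (if b = 0 then (S.card : ℝ) ^ n else 0) ≤ (S.card : ℝ) ^ n := by
    rw [Finset.sum_ite_eq']
    split_ifs
    · exact le_refl _
    · positivity
  have hpos : (0 : ℝ) < S.card := by linarith
  have h1 : (S.card : ℝ) ^ n ≤ (S.card : ℝ) ^ (((n + (k + 1) : ℕ) : ℝ) - c) := by
    rw [← Real.rpow_natCast]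
    refine Real.rpow_le_rpow_of_exponent_le hS1 ?_
    push_cast
    have : (0 : ℝ) ≤ k := Nat.cast_nonneg k
    linarith
  have h2 : (G.card • (C * (S.card : ℝ) ^ ((n : ℝ) - c)) : ℝ) =
      C * (S.card : ℝ) ^ (((n + (k + 1) : ℕ) : ℝ) - c) := by
    rw [hGc, nsmul_eq_mul]
    push_cast
    rw [← Real.rpow_natCast, show (n : ℝ) + ((k : ℝ) + 1) - c = ((k + 1 : ℕ) : ℝ) + ((n : ℝ) - c) by
      push_cast; ring, Real.rpow_add hpos]
    ring
  calc _ ≤ (S.card : ℝ) ^ n + G.card • (C * (S.card : ℝ) ^ ((n : ℝ) - c)) := by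
        linarith
    _ ≤ 1 * (S.card : ℝ) ^ (((n + (k + 1) : ℕ) : ℝ) - c) +
        C * (S.card : ℝ) ^ (((n + (k + 1) : ℕ) : ℝ) - c) := by
        rw [h2]
        linarith
    _ = (1 + C) * (S.card : ℝ) ^ (((n + (k + 1) : ℕ) : ℝ) - c) := by ring

end Pool.Agent.DI
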