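import Pool.Agent.DI.OrbV

/-! # Conjugates with a given leading coefficient -/

namespace Pool.Agent.DI

open Pool.Agent.QN Pool.Agent.QS

variable {K Q M Γ : Type} [Field K] [CharZero K] [Field Q] [Field M] [Algebra K Q] [Algebra K M]
  [Algebra Q M] [IsScalarTower K Q M] [LinearOrderedCommGroupWithZero Γ] {v : Valuation M Γ}
  {π : Γ} [FiniteDimensional Q M] [IsGalois Q M]

omit [FiniteDimensional Q M] [IsGalois Q M] in
private theorem inv_ap (g : M ≃ₐ[Q] M) (u : M) : g (g⁻¹ u) = u := by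
  rw [← AlgEquiv.mul_apply, mul_inv_cancel, AlgEquiv.one_apply]

omit [FiniteDimensional Q M] [IsGalois Q M] in
private theorem dv_inv {g : M ≃ₐ[Q] M} (h : ∀ u, v (g u) = v u) : ∀ u, v (g⁻¹ u) = v u := by
  intro u
  have h1 := h (g⁻¹ u)
  rw [inv_ap] at h1
  exact h1.symm

omit [FiniteDimensional Q M] [IsGalois Q M] in
private theorem dv_mul {g g' : M ≃ₐ[Q] M} (h : ∀ u, v (g u) = v u) (h' : ∀ u, v (g' u) = v u) :
    ∀ u, v ((g * g') u) = v u := by
  intro u
  rw [AlgEquiv.mul_apply, h, h']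

/-- the elements of one orbit with the same leading coefficient -/
private theorem orbit_le (h : Plc K Q v π) {e : ℕ} {y : M} (hy : PB Q v π e y) {z0 : M}
    (hz0 : 1 < v z0) (O : Finset M) (hO : O ⊆ conjs Q y)
    (hO1 : ∀ g : M ≃ₐ[Q] M, (∀ u, v (g u) = v u) → ∀ η ∈ O, g η ∈ O)
    (hO2 : ∀ η ∈ O, ∀ η' ∈ O, ∃ g : M ≃ₐ[Q] M, (∀ u, v (g u) = v u) ∧ g η = η')
    (a : K) (ha : a ≠ 0) (T : K → Finset M) (hT : ∀ b η, η ∈ T b ↔ η ∈ O ∧ lam K v z0 η = b) :
    (T a).card ≤ e := by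
  classical
  have : Infinite K := inferInstance
  rcases (T a).eq_empty_or_nonempty with h0 | ⟨η, hη⟩
  · rw [h0]
    simp
  obtain ⟨hη1, hη2⟩ := (hT _ _).1 hη
  have hz00 : z0 ≠ 0 := by
    rintro rfl
    rw [map_zero] at hz0
    exact absurd hz0 (not_lt.2 zero_le_one)
  have hvη : ∀ η' ∈ O, v η' = v z0 := by
    intro η' hη'
    obtain ⟨g, hg, rfl⟩ := hO2 η hη1 η' hη'
    rw [hg]
    exact lam_ne_zero h hz00 (by rw [hη2]; exact ha)
  have hlam : ∀ η' ∈ O, lam K v z0 η' ≠ 0 := fun η' hη' => lam_ne_zero' h hz00 (hvη η' hη')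
  set B : Finset K := O.image (lam K v z0) with hB
  have hB0 : ∀ b ∈ B, b ≠ 0 := by
    intro b hb
    obtain ⟨η', hη', rfl⟩ := Finset.mem_image.1 hb
    exact hlam η' hη'
  have hchi : ∀ g : M ≃ₐ[Q] M, (∀ u, v (g u) = v u) → lam K v z0 (g z0) ≠ 0 :=
    fun g hg => lam_ne_zero' h hz00 (hg z0)
  have hTg : ∀ g : M ≃ₐ[Q] M, (∀ u, v (g u) = v u) → ∀ b,
      (T b).image g = T (lam K v z0 (g z0) * b) := by
    intro g hg b
    ext η'
    rw [Finset.mem_image, hT]
    constructor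
    · rintro ⟨η'', h1, rfl⟩
      obtain ⟨h2, h3⟩ := (hT _ _).1 h1
      exact ⟨hO1 g hg _ h2, by rw [lam_smul h hz00 g hg, h3]⟩
    · rintro ⟨h1, h2⟩
      refine ⟨g⁻¹ η', (hT _ _).2 ⟨hO1 _ (dv_inv hg) _ h1, ?_⟩, inv_ap g η'⟩
      have h3 := lam_smul h hz00 g hg (g⁻¹ η')
      rw [inv_ap, h2] at h3
      exact (mul_left_cancel₀ (hchi g hg) h3).symm
  have hcard : ∀ b ∈ B, (T b).card = (T a).card := by
    intro b hb
    obtain ⟨η', hη', rfl⟩ := Finset.mem_image.1 hb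
    obtain ⟨g, hg, rfl⟩ := hO2 η hη1 η' hη'
    rw [lam_smul h hz00 g hg, hη2, ← hTg g hg, Finset.card_image_of_injective _ g.injective]
  have hTa : 0 < (T a).card := Finset.card_pos.2 ⟨η, hη⟩
  have hs : ∀ b ∈ B, v (∑ η' ∈ T b, η') = v z0 := by
    intro b hb
    refine lam_ne_zero h hz00 ?_
    rw [lam_sum h hz00 _ _ fun i hi => (hvη i ((hT _ _).1 hi).1).le,
      Finset.sum_congr rfl fun i hi => ((hT _ _).1 hi).2, Finset.sum_const, nsmul_eq_mul, hcard b hb]
    exact mul_ne_zero (Nat.cast_ne_zero.2 hTa.ne') (hB0 b hb)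
  have hBg : ∀ g : M ≃ₐ[Q] M, (∀ u, v (g u) = v u) → ∀ b ∈ B, lam K v z0 (g z0) * b ∈ B := by
    intro g hg b hb
    obtain ⟨η', hη', rfl⟩ := Finset.mem_image.1 hb
    exact Finset.mem_image.2 ⟨g η', hO1 g hg _ hη', lam_smul h hz00 g hg _⟩
  have hw : ∀ g : M ≃ₐ[Q] M, (∀ u, v (g u) = v u) →
      g (∏ b ∈ B, ∑ η' ∈ T b, η') = ∏ b ∈ B, ∑ η' ∈ T b, η' := by
    intro g hg
    rw [map_prod]
    have h1 : ∀ b, g (∑ η' ∈ T b, η') = ∑ η' ∈ T (lam K v z0 (g z0) * b), η' := by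
      intro b
      rw [map_sum, ← hTg g hg, Finset.sum_image fun x _ y _ hxy => g.injective hxy]
    have hinj : ∀ x ∈ B, ∀ y ∈ B, lam K v z0 (g z0) * x = lam K v z0 (g z0) * y → x = y :=
      fun x _ y _ hxy => mul_left_cancel₀ (hchi g hg) hxy
    have himg : B.image (fun b => lam K v z0 (g z0) * b) = B := by
      refine Finset.eq_of_subset_of_card_le ?_ ?_
      · intro x hx
        obtain ⟨b, hb, rfl⟩ := Finset.mem_image.1 hx
        exact hBg g hg b hb
      · rw [Finset.card_image_of_injOn fun x hx y hy hxy => hinj x hx y hy hxy]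
    calc ∏ b ∈ B, g (∑ η' ∈ T b, η') = ∏ b ∈ B, ∑ η' ∈ T (lam K v z0 (g z0) * b), η' :=
          Finset.prod_congr rfl fun b _ => h1 b
      _ = ∏ b ∈ B.image (fun b => lam K v z0 (g z0) * b), ∑ η' ∈ T b, η' :=
          (Finset.prod_image (f := fun b => ∑ η' ∈ T b, η')
            (g := fun b => lam K v z0 (g z0) * b) fun x hx y hy hxy => hinj x hx y hy hxy).symm
      _ = _ := by rw [himg]
  have hvw : v (∏ b ∈ B, ∑ η' ∈ T b, η') = v z0 ^ B.card := by
    rw [map_prod, Finset.prod_congr rfl hs, Finset.prod_const]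
  have haB : a ∈ B := Finset.mem_image.2 ⟨η, hη1, hη2⟩
  have hBc : B.card ≠ 0 := Finset.card_ne_zero_of_mem haB
  have h1 := h.fix _ hw (by rw [hvw]; exact one_lt_pow₀ hz0 hBc)
  rw [hvw] at h1
  have hOc : O.card = B.card * (T a).card := by
    rw [Finset.card_eq_sum_card_image (lam K v z0) O, ← smul_eq_mul, ← Finset.sum_const]
    refine Finset.sum_congr rfl fun b hb => ?_
    rw [← hcard b hb]
    congr 1
    ext η'
    rw [Finset.mem_filter, hT]
  have h2 : v z0 ^ O.card * π ^ e ≤ 1 := by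
    refine le_trans (mul_le_mul_left ?_ _) hy
    calc v z0 ^ O.card = ∏ η' ∈ O, max 1 (v η') := by
          rw [← Finset.prod_const]
          refine Finset.prod_congr rfl fun η' hη' => ?_
          rw [hvη η' hη', max_eq_right hz0.le]
      _ ≤ ∏ η' ∈ conjs Q y, max 1 (v η') :=
          Finset.prod_le_prod_of_subset_of_one_le' hO fun i _ _ => le_max_left _ _
  by_contra hc
  rw [not_le] at hc
  obtain ⟨k, hk⟩ := Nat.exists_eq_add_of_lt hc
  have h3 : v z0 ^ O.card * π ^ e = (v z0 ^ B.card * π) ^ e * v z0 ^ (B.card * (k + 1)) := by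
    rw [hOc, hk, mul_pow, ← pow_mul, mul_right_comm, ← pow_add]
    congr 2
    ring
  have h4 : 1 < v z0 ^ (B.card * (k + 1)) := one_lt_pow₀ hz0 (mul_ne_zero hBc (Nat.succ_ne_zero k))
  have h5 : 1 ≤ (v z0 ^ B.card * π) ^ e := one_le_pow₀ h1
  rw [h3] at h2
  exact absurd h2 (not_le.2 (lt_of_lt_of_le h4 (le_mul_of_one_le_left zero_le h5)))

/-- the number of conjugates with a given leading coefficient -/
theorem level_le (h : Plc K Q v π) {e : ℕ} {y : M} (hy : PB Q v π e y) {z0 : M} (hz0 : 1 < v z0)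
    (a : K) (ha : a ≠ 0) :
    {η : M | η ∈ conjs Q y ∧ lam K v z0 η = a}.ncard ≤ e ^ 2 := by
  classical
  have : Infinite K := inferInstance
  have hz00 : z0 ≠ 0 := by
    rintro rfl
    rw [map_zero] at hz0
    exact absurd hz0 (not_lt.2 zero_le_one)
  let f : M → Set M := fun z => {z' | ∃ g : M ≃ₐ[Q] M, (∀ u, v (g u) = v u) ∧ g z = z'}
  have hf : ∀ g : M ≃ₐ[Q] M, (∀ u, v (g u) = v u) → ∀ z, f (g z) = f z := by
    intro g hg z
    ext z'
    constructor
    · rintro ⟨g', hg', rfl⟩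
      exact ⟨g' * g, dv_mul hg' hg, rfl⟩
    · rintro ⟨g', hg', rfl⟩
      refine ⟨g' * g⁻¹, dv_mul hg' (dv_inv hg), ?_⟩
      rw [AlgEquiv.mul_apply, ← AlgEquiv.mul_apply g⁻¹ g, inv_mul_cancel, AlgEquiv.one_apply]
  have hself : ∀ z, z ∈ f z := fun z => ⟨1, fun _ => rfl, rfl⟩
  have h1 := values_le h hy f hf
  set S : Finset M := (conjs Q y).filter fun η => lam K v z0 η = a with hS
  have hSs : {η : M | η ∈ conjs Q y ∧ lam K v z0 η = a} = (S : Set M) := by
    ext η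
    simp [hS]
  rw [hSs, Set.ncard_coe_finset]
  have hfib : ∀ ω ∈ S.image f, (S.filter fun η => f η = ω).card ≤ e := by
    intro ω hω
    obtain ⟨η, hη, rfl⟩ := Finset.mem_image.1 hω
    obtain ⟨hη1, hη2⟩ := Finset.mem_filter.1 hη
    have h2 := orbit_le h hy hz0 ((conjs Q y).filter fun η' => f η' = f η)
      (Finset.filter_subset _ _) ?_ ?_ a ha
      (fun b => ((conjs Q y).filter fun η' => f η' = f η).filter fun η' => lam K v z0 η' = b)
      (fun b η' => Finset.mem_filter)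
    · refine le_trans (Finset.card_le_card ?_) h2
      intro η' hη'
      obtain ⟨h3, h4⟩ := Finset.mem_filter.1 hη'
      obtain ⟨h5, h6⟩ := Finset.mem_filter.1 h3
      exact Finset.mem_filter.2 ⟨Finset.mem_filter.2 ⟨h5, h4⟩, h6⟩
    · intro g hg η' hη'
      obtain ⟨h3, h4⟩ := Finset.mem_filter.1 hη'
      obtain ⟨g', rfl⟩ := mem_conjs.1 h3
      exact Finset.mem_filter.2 ⟨mem_conjs.2 ⟨g * g', rfl⟩, by rw [hf g hg, h4]⟩
    · intro η' hη' η'' hη''
      obtain ⟨-, h4⟩ := Finset.mem_filter.1 hη'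
      obtain ⟨-, h6⟩ := Finset.mem_filter.1 hη''
      have h7 : η'' ∈ f η' := by
        rw [h4, ← h6]
        exact hself η''
      exact h7
  have hfin : (f '' {η : M | η ∈ conjs Q y ∧ 1 < v η}).Finite :=
    (((conjs Q y).finite_toSet).subset fun η hη => hη.1).image f
  have himg : (S.image f).card ≤ e := by
    refine le_trans ?_ h1
    rw [← Set.ncard_coe_finset]
    refine Set.ncard_le_ncard ?_ hfin
    intro ω hω
    obtain ⟨η, hη, rfl⟩ := Finset.mem_image.1 hω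
    obtain ⟨hη1, hη2⟩ := Finset.mem_filter.1 hη
    refine ⟨η, ⟨hη1, ?_⟩, rfl⟩
    rw [lam_ne_zero h hz00 (by rw [hη2]; exact ha)]
    exact hz0
  calc S.card ≤ e * (S.image f).card := Finset.card_le_mul_card_image S e hfib
    _ ≤ e * e := Nat.mul_le_mul_left e himg
    _ = e ^ 2 := (sq e).symm

end Pool.Agent.DI
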