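import Pool.Agent.DI.Defs
import Pool.Agent.QN.NPol

/-! # Residues at the places of `M` over `K(X)` -/

set_option autoImplicit false
set_option linter.unusedSectionVars false

namespace Pool.Agent.DI

open Pool.Agent.QN Pool.Agent.QS

/-- residues exist in an algebraic extension if they exist below -/
theorem exists_res {K Q M Γ : Type} [Field K] [IsAlgClosed K] [Field Q] [Field M] [Algebra K Q]
    [Algebra K M] [Algebra Q M] [IsScalarTower K Q M] [Algebra.IsAlgebraic Q M]
    [LinearOrderedCommGroupWithZero Γ] {v : Valuation M Γ}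
    (hK : ∀ c : K, c ≠ 0 → v (algebraMap K M c) = 1)
    (hQ : ∀ q : Q, v (algebraMap Q M q) ≤ 1 → ∃ κ : K,
      v (algebraMap Q M q - algebraMap K M κ) < 1) (z : M) (hz : v z ≤ 1) :
    ∃ κ : K, v (z - algebraMap K M κ) < 1 := by
  classical
  obtain ⟨P, hP0, hP⟩ := Algebra.IsAlgebraic.isAlgebraic (R := Q) z
  obtain ⟨m, hm, hmax⟩ := P.support.exists_max_image
    (fun j => v (algebraMap Q M (P.coeff j))) (Polynomial.support_nonempty.2 hP0)
  have hc0 : P.coeff m ≠ 0 := Polynomial.mem_support_iff.1 hm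
  have hv0 : v (algebraMap Q M (P.coeff m)) ≠ 0 :=
    (Valuation.ne_zero_iff v).2 ((map_ne_zero _).2 hc0)
  have hb : ∀ j, v (algebraMap Q M (P.coeff j / P.coeff m)) ≤ 1 := by
    intro j
    rw [map_div₀, map_div₀, div_le_one₀ (zero_lt_iff.2 hv0)]
    by_cases hj : j ∈ P.support
    · exact hmax j hj
    · rw [Polynomial.notMem_support_iff.1 hj, map_zero, map_zero]
      exact zero_le
  choose κ hκ using fun j => hQ (P.coeff j / P.coeff m) (hb j)
  have hκm : κ m ≠ 0 := by
    intro h0
    have h1 := hκ m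
    rw [h0, map_zero, sub_zero, div_self hc0, map_one, map_one] at h1
    exact lt_irrefl _ h1
  let R : Polynomial K := ∑ j ∈ P.support, Polynomial.monomial j (κ j)
  have hRm : R.coeff m = κ m := by
    show (∑ j ∈ P.support, Polynomial.monomial j (κ j)).coeff m = κ m
    rw [Polynomial.finsetSum_coeff, Finset.sum_eq_single m]
    · rw [Polynomial.coeff_monomial, if_pos rfl]
    · intro j _ hj
      rw [Polynomial.coeff_monomial, if_neg hj]
    · intro h
      exact absurd hm h
  have hR0 : R ≠ 0 := by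
    intro h
    rw [h, Polynomial.coeff_zero] at hRm
    exact hκm hRm.symm
  have hzero : ∑ j ∈ P.support, algebraMap Q M (P.coeff j / P.coeff m) * z ^ j = 0 := by
    have h1 : Polynomial.aeval z P = ∑ j ∈ P.support, algebraMap Q M (P.coeff j) * z ^ j := by
      rw [Polynomial.aeval_def, Polynomial.eval₂_eq_sum, Polynomial.sum_def]
    rw [hP] at h1
    have h2 : ∀ j ∈ P.support, algebraMap Q M (P.coeff j / P.coeff m) * z ^ j =
        (algebraMap Q M (P.coeff m))⁻¹ * (algebraMap Q M (P.coeff j) * z ^ j) := by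
      intro j _
      rw [map_div₀]
      ring
    rw [Finset.sum_congr rfl h2, ← Finset.mul_sum, ← h1, mul_zero]
  have hRz : v (Polynomial.aeval z R) < 1 := by
    have h1 : Polynomial.aeval z R = ∑ j ∈ P.support, algebraMap K M (κ j) * z ^ j := by
      show Polynomial.aeval z (∑ j ∈ P.support, Polynomial.monomial j (κ j)) = _
      rw [map_sum]
      refine Finset.sum_congr rfl fun j _ => ?_
      rw [Polynomial.aeval_monomial]
    have h2 : Polynomial.aeval z R = - ∑ j ∈ P.support,
        (algebraMap Q M (P.coeff j / P.coeff m) - algebraMap K M (κ j)) * z ^ j := by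
      rw [h1]
      simp only [sub_mul]
      rw [Finset.sum_sub_distrib, hzero, zero_sub, neg_neg]
    rw [h2, Valuation.map_neg]
    refine v.map_sum_lt one_ne_zero fun j _ => ?_
    rw [map_mul, map_pow]
    calc v (algebraMap Q M (P.coeff j / P.coeff m) - algebraMap K M (κ j)) * v z ^ j
        ≤ v (algebraMap Q M (P.coeff j / P.coeff m) - algebraMap K M (κ j)) * 1 := by
          exact mul_le_mul_right (pow_le_one' hz j) _
      _ < 1 := by rw [mul_one]; exact hκ j
  by_contra hno
  push Not at hno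
  have hsp := IsAlgClosed.splits R
  have hprod := hsp.eq_prod_roots
  have h3 : Polynomial.aeval z R = algebraMap K M R.leadingCoeff *
      (R.roots.map fun r => z - algebraMap K M r).prod := by
    conv_lhs => rw [hprod]
    rw [map_mul, Polynomial.aeval_C, map_multiset_prod, Multiset.map_map]
    congr 2
    refine Multiset.map_congr rfl fun r _ => ?_
    simp
  rw [h3, map_mul, hK _ (Polynomial.leadingCoeff_ne_zero.2 hR0), one_mul, map_multiset_prod,
    Multiset.map_map] at hRz
  refine absurd hRz (not_lt.2 ?_)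
  refine Multiset.one_le_prod_of_one_le ?_
  intro x hx
  obtain ⟨r, _, rfl⟩ := Multiset.mem_map.1 hx
  exact hno r

/-- a prime of `K[X]` is the kernel of the evaluation at a point -/
theorem prime_root {K : Type} [Field K] [IsAlgClosed K] {p : A K 1} (hp : Prime p) :
    ∃ ev : A K 1 →ₐ[K] K, ∀ f, ev f = 0 ↔ p ∣ f := by
  let φ : A K 1 ≃ₐ[K] Polynomial K := MvPolynomial.uniqueAlgEquiv K (Fin 1)
  have hφ : Irreducible (φ p) := (MulEquiv.irreducible_iff φ).2 hp.irreducible
  obtain ⟨α, hα⟩ := IsAlgClosed.exists_root (φ p) (by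
    intro h
    rw [Polynomial.eq_C_of_degree_eq_zero h] at hφ
    have h0 : (φ p).coeff 0 ≠ 0 := by
      intro h0
      rw [h0, map_zero] at hφ
      exact hφ.ne_zero rfl
    exact hφ.not_isUnit ((isUnit_iff_ne_zero.2 h0).map Polynomial.C))
  refine ⟨(Polynomial.aeval α).comp (φ : A K 1 →ₐ[K] Polynomial K), fun f => ?_⟩
  have h1 : Associated (Polynomial.X - Polynomial.C α) (φ p) := by
    have hd : (Polynomial.X - Polynomial.C α) ∣ φ p := Polynomial.dvd_iff_isRoot.2 hα
    exact (Polynomial.irreducible_X_sub_C α).associated_of_dvd hφ hd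
  have h2 : ((Polynomial.aeval α).comp (φ : A K 1 →ₐ[K] Polynomial K)) f =
      (φ f).eval α := by
    simp [Polynomial.coe_aeval_eq_eval]
  rw [h2]
  have h3 : (φ f).eval α = 0 ↔ (Polynomial.X - Polynomial.C α) ∣ φ f := by
    rw [Polynomial.dvd_iff_isRoot]; rfl
  rw [h3, h1.dvd_iff_dvd_left]
  exact map_dvd_iff φ

variable {K : Type} [Field K] [CharZero K] [IsAlgClosed K] {M Γ : Type} [Field M] [Algebra K M]
  [Algebra (A K 1) M] [Algebra (Q K 1) M] [IsScalarTower (A K 1) (Q K 1) M]
  [IsScalarTower K (A K 1) M] [IsScalarTower K (Q K 1) M] [FiniteDimensional (Q K 1) M]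
  [IsGalois (Q K 1) M] [LinearOrderedCommGroupWithZero Γ] {v : Valuation M Γ}

theorem plc_prime {p : A K 1} (hp : Prime p) (hv : IsPV p v) :
    Plc K (Q K 1) v (v (algebraMap (A K 1) M p)) := by
  have hK : ∀ c : K, c ≠ 0 → v (algebraMap K M c) = 1 := by
    intro c hc
    rw [IsScalarTower.algebraMap_apply K (A K 1) M]
    exact hv.const hp c hc
  have hinj := algM_injective (K := K) (k := 1) (M := M)
  have hpne : v (algebraMap (A K 1) M p) ≠ 0 :=
    (Valuation.ne_zero_iff v).2 fun h => hp.ne_zero (hinj (by rw [h, map_zero]))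
  have hplt : v (algebraMap (A K 1) M p) < 1 := (hv.lt_one p).2 dvd_rfl
  refine ⟨hv.disc hp, hK, fun z hz => exists_res (Q := Q K 1) hK (fun q hq => ?_) z hz⟩
  by_cases hq0 : q = 0
  · refine ⟨0, ?_⟩
    rw [hq0, map_zero, map_zero, sub_zero, map_zero]
    exact zero_lt_one
  obtain ⟨a, b, hb, rfl⟩ := IsFractionRing.div_surjective (A := A K 1) q
  have hb0 : b ≠ 0 := nonZeroDivisors.ne_zero hb
  have ha0 : a ≠ 0 := by
    rintro rfl
    apply hq0
    rw [map_zero, zero_div]
  obtain ⟨m, g, hg, rfl⟩ := WfDvdMonoid.max_power_factor' ha0 hp.not_isUnit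
  obtain ⟨n, h, hh, rfl⟩ := WfDvdMonoid.max_power_factor' hb0 hp.not_isUnit
  have e1 : ∀ f : A K 1, algebraMap (Q K 1) M (algebraMap (A K 1) (Q K 1) f) =
      algebraMap (A K 1) M f := fun f => (IsScalarTower.algebraMap_apply _ _ _ f).symm
  have hmn : n ≤ m := by
    by_contra hlt
    push Not at hlt
    rw [map_div₀, e1, e1, map_div₀, hv.val hp _ g m rfl hg, hv.val hp _ h n rfl hh,
      div_le_one₀ (pow_pos (zero_lt_iff.2 hpne) _)] at hq
    exact absurd hq (not_le.2 (pow_lt_pow_right_of_lt_one₀ (zero_lt_iff.2 hpne) hplt hlt))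
  obtain ⟨l, rfl⟩ := Nat.exists_eq_add_of_le hmn
  obtain ⟨ev, hev⟩ := prime_root hp
  have hh0 : ev h ≠ 0 := fun h0 => hh ((hev h).1 h0)
  refine ⟨ev (p ^ l * g) / ev h, ?_⟩
  have hhM : algebraMap (A K 1) M h ≠ 0 := by
    intro h0
    apply hh0
    rw [hinj (h0.trans (map_zero _).symm), map_zero]
  have hpM : algebraMap (A K 1) M p ≠ 0 := (Valuation.ne_zero_iff v).1 hpne
  have h1 : v (algebraMap (A K 1) M h) = 1 :=
    le_antisymm (hv.le_one h) (not_lt.1 fun hlt => hh ((hv.lt_one h).1 hlt))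
  set κ := ev (p ^ l * g) / ev h with hκ
  have h2 : algebraMap (Q K 1) M (algebraMap (A K 1) (Q K 1) (p ^ (n + l) * g) /
      algebraMap (A K 1) (Q K 1) (p ^ n * h)) - algebraMap K M κ =
      algebraMap (A K 1) M (p ^ l * g - MvPolynomial.C κ * h) / algebraMap (A K 1) M h := by
    rw [map_div₀, e1, e1, IsScalarTower.algebraMap_apply K (A K 1) M κ, map_sub, map_mul, map_mul,
      map_mul, map_mul, map_pow, map_pow, map_pow, pow_add,
      show algebraMap K (A K 1) κ = MvPolynomial.C κ from rfl]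
    field_simp
  rw [h2, map_div₀, h1, div_one]
  refine (hv.lt_one _).2 ((hev _).1 ?_)
  have h3 : ev (MvPolynomial.C κ) = κ := ev.commutes κ
  rw [map_sub, map_mul ev (MvPolynomial.C κ) h, h3, hκ, div_mul_cancel₀ _ hh0, sub_self]

/-- the top coefficient -/
private theorem coeff_top {K : Type} [Field K] {f : A K 1} (hf : f ≠ 0) :
    MvPolynomial.coeff (Finsupp.single 0 f.totalDegree) f ≠ 0 := by
  obtain ⟨m, hm, h⟩ := Finset.exists_mem_eq_sup f.support (MvPolynomial.support_nonempty.2 hf)
    (fun s => s.sum fun _ e => e)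
  have h1 : f.totalDegree = m 0 := by
    rw [MvPolynomial.totalDegree, h, Finsupp.sum_fintype _ _ (fun _ => rfl)]
    simp
  have h2 : Finsupp.single 0 f.totalDegree = m := by
    refine Finsupp.ext fun i => ?_
    rw [h1, Subsingleton.elim i 0, Finsupp.single_eq_same]
  rw [h2]
  exact MvPolynomial.mem_support_iff.1 hm

theorem plc_inf (hv : IsIV K (0 : Fin 1) v) :
    Plc K (Q K 1) v (v (algebraMap (A K 1) M (MvPolynomial.X 0)))⁻¹ := by
  have hK : ∀ c : K, c ≠ 0 → v (algebraMap K M c) = 1 := by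
    intro c hc
    rw [IsScalarTower.algebraMap_apply K (A K 1) M]
    exact hv.const c hc
  have hinj := algM_injective (K := K) (k := 1) (M := M)
  have hX := hv.one_lt
  refine ⟨hv.disc, hK, fun z hz => exists_res (Q := Q K 1) hK (fun q hq => ?_) z hz⟩
  by_cases hq0 : q = 0
  · refine ⟨0, ?_⟩
    rw [hq0, map_zero, map_zero, sub_zero, map_zero]
    exact zero_lt_one
  obtain ⟨a, b, hb, rfl⟩ := IsFractionRing.div_surjective (A := A K 1) q
  have hb0 : b ≠ 0 := nonZeroDivisors.ne_zero hb
  have ha0 : a ≠ 0 := by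
    rintro rfl
    apply hq0
    rw [map_zero, zero_div]
  have e1 : ∀ f : A K 1, algebraMap (Q K 1) M (algebraMap (A K 1) (Q K 1) f) =
      algebraMap (A K 1) M f := fun f => (IsScalarTower.algebraMap_apply _ _ _ f).symm
  have hbM : algebraMap (A K 1) M b ≠ 0 := fun h0 => hb0 (hinj (by rw [h0, map_zero]))
  have hvb : v (algebraMap (A K 1) M b) ≠ 0 := (Valuation.ne_zero_iff v).2 hbM
  have hab : a.totalDegree ≤ b.totalDegree := by
    by_contra hlt
    push Not at hlt
    rw [map_div₀, e1, e1, map_div₀, div_le_one₀ (zero_lt_iff.2 hvb), hv.val a ha0, hv.val b hb0]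
      at hq
    exact absurd hq (not_le.2 (pow_lt_pow_right₀ hX hlt))
  let κ : K := MvPolynomial.coeff (Finsupp.single 0 b.totalDegree) a /
    MvPolynomial.coeff (Finsupp.single 0 b.totalDegree) b
  refine ⟨κ, ?_⟩
  have h2 : algebraMap (Q K 1) M (algebraMap (A K 1) (Q K 1) a /
      algebraMap (A K 1) (Q K 1) b) - algebraMap K M κ =
      algebraMap (A K 1) M (a - MvPolynomial.C κ * b) / algebraMap (A K 1) M b := by
    rw [map_div₀, e1, e1, IsScalarTower.algebraMap_apply K (A K 1) M κ, map_sub, map_mul,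
      show algebraMap K (A K 1) κ = MvPolynomial.C κ from rfl]
    field_simp
  rw [h2, map_div₀, div_lt_one₀ (zero_lt_iff.2 hvb)]
  by_cases hf : a - MvPolynomial.C κ * b = 0
  · rw [hf, map_zero, map_zero]
    exact zero_lt_iff.2 hvb
  · rw [hv.val _ hf, hv.val b hb0]
    refine pow_lt_pow_right₀ hX (lt_of_le_of_ne ?_ ?_)
    · refine (MvPolynomial.totalDegree_sub _ _).trans (max_le hab ?_)
      refine (MvPolynomial.totalDegree_mul _ _).trans ?_
      rw [MvPolynomial.totalDegree_C, zero_add]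
    · intro he
      have h3 := coeff_top hf
      rw [he] at h3
      apply h3
      rw [MvPolynomial.coeff_sub, MvPolynomial.coeff_C_mul]
      show _ - MvPolynomial.coeff (Finsupp.single 0 b.totalDegree) a /
        MvPolynomial.coeff (Finsupp.single 0 b.totalDegree) b * _ = 0
      rw [div_mul_cancel₀ _ (coeff_top hb0), sub_self]

end Pool.Agent.DI
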