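import Pool.Agent.DI.Defs
import Pool.Agent.QN.NPol

set_option autoImplicit false

/-! # The number of the poles of the conjugates -/

namespace Pool.Agent.DI

open Pool.Agent.QN Pool.Agent.QS

variable {K : Type} [Field K] [CharZero K] {M Γ : Type} [Field M]
  [Algebra (A K 1) M] [Algebra (Q K 1) M] [IsScalarTower (A K 1) (Q K 1) M]
  [FiniteDimensional (Q K 1) M] [IsGalois (Q K 1) M] [LinearOrderedCommGroupWithZero Γ]
  {v : Valuation M Γ}

namespace PoleB

omit [CharZero K] in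
/-- the degree in `X` of a divisor -/
theorem deg_mul (N S : Polynomial (A K 1)) (hN : N ≠ 0) (hS : S ≠ 0) (e : ℕ)
    (h : ∀ j, ((N * S).coeff j).totalDegree ≤ e) (j : ℕ) : (N.coeff j).totalDegree ≤ e := by
  classical
  obtain ⟨Γ', _, v', hv⟩ := exists_IV (K := K) (k := 1) (M := Q K 1) (0 : Fin 1)
  have hth : ∀ P : Polynomial (A K 1), P ≠ 0 → ∃ t : ℕ, (∀ j, (P.coeff j).totalDegree ≤ t) ∧
      ∃ j, P.coeff j ≠ 0 ∧ (P.coeff j).totalDegree = t := by
    intro P hP
    obtain ⟨i, hi, hi2⟩ := Finset.exists_mem_eq_sup P.support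
      (Polynomial.support_nonempty.2 hP) fun j => (P.coeff j).totalDegree
    refine ⟨P.support.sup fun j => (P.coeff j).totalDegree, fun l => ?_, i,
      Polynomial.mem_support_iff.1 hi, hi2.symm⟩
    by_cases hl : P.coeff l = 0
    · rw [hl, MvPolynomial.totalDegree_zero]
      exact Nat.zero_le _
    · exact Finset.le_sup (f := fun j => (P.coeff j).totalDegree)
        (Polynomial.mem_support_iff.2 hl)
  obtain ⟨a, ha, ja, hja, hja2⟩ := hth N hN
  obtain ⟨b, hb, jb, hjb, hjb2⟩ := hth S hS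
  obtain ⟨x, hx⟩ : ∃ x, x = v' (algebraMap (A K 1) (Q K 1) (MvPolynomial.X 0)) := ⟨_, rfl⟩
  have hx1 : 1 < x := by rw [hx]; exact hv.one_lt
  have hval : ∀ f : A K 1, f ≠ 0 → v' (algebraMap (A K 1) (Q K 1) f) = x ^ f.totalDegree := by
    intro f hf
    rw [hx]
    exact hv.val f hf
  have hle : ∀ (P : Polynomial (A K 1)) (t : ℕ), (∀ j, (P.coeff j).totalDegree ≤ t) →
      ∀ j, v' ((P.map (algebraMap (A K 1) (Q K 1))).coeff j) ≤ x ^ t := by
    intro P t ht j
    rw [Polynomial.coeff_map]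
    by_cases h0 : P.coeff j = 0
    · rw [h0, map_zero, map_zero]
      exact zero_le
    · rw [hval _ h0]
      exact pow_le_pow_right₀ hx1.le (ht j)
  have hx0 : x ≠ 0 := ne_of_gt (zero_lt_one.trans hx1)
  obtain ⟨-, m, hm⟩ := gauss_prod1 v' (Finset.univ : Finset (Fin 2))
    ![N.map (algebraMap (A K 1) (Q K 1)), S.map (algebraMap (A K 1) (Q K 1))] ![x ^ a, x ^ b]
    (fun i _ => by
      fin_cases i
      · exact pow_ne_zero _ hx0
      · exact pow_ne_zero _ hx0)
    (fun i _ m => by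
      fin_cases i
      · exact hle N a ha m
      · exact hle S b hb m)
    (fun i _ => by
      fin_cases i
      · refine ⟨ja, ?_⟩
        show v' ((N.map (algebraMap (A K 1) (Q K 1))).coeff ja) = x ^ a
        rw [Polynomial.coeff_map, hval _ hja, hja2]
      · refine ⟨jb, ?_⟩
        show v' ((S.map (algebraMap (A K 1) (Q K 1))).coeff jb) = x ^ b
        rw [Polynomial.coeff_map, hval _ hjb, hjb2])
  rw [Fin.prod_univ_two, Fin.prod_univ_two] at hm
  have hm' : v' (((N * S).map (algebraMap (A K 1) (Q K 1))).coeff m) = x ^ a * x ^ b := by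
    rw [Polynomial.map_mul]
    exact hm
  rw [Polynomial.coeff_map, ← pow_add] at hm'
  have h0 : (N * S).coeff m ≠ 0 := by
    intro h0
    rw [h0, map_zero, map_zero] at hm'
    exact pow_ne_zero _ hx0 hm'.symm
  rw [hval _ h0] at hm'
  have h1 : ((N * S).coeff m).totalDegree = a + b := (pow_right_strictMono₀ hx1).injective hm'
  have h2 := h m
  have h3 := ha j
  omega

omit [CharZero K] in
/-- a primitive divisor over `K(X)` is a divisor over `K[X]` -/
theorem dvd_of_prim (N P : Polynomial (A K 1)) (hP : P ≠ 0)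
    (hprim : ∀ p : A K 1, Prime p → ∃ j, ¬ p ∣ N.coeff j)
    (hdvd : N.map (algebraMap (A K 1) (Q K 1)) ∣ P.map (algebraMap (A K 1) (Q K 1))) :
    N ∣ P := by
  have hinj : Function.Injective (algebraMap (A K 1) (Q K 1)) := IsFractionRing.injective _ _
  have hN0 : N ≠ 0 := by
    rintro rfl
    rw [Polynomial.map_zero, zero_dvd_iff] at hdvd
    exact hP ((Polynomial.map_eq_zero_iff hinj).1 hdvd)
  have hpr : N.IsPrimitive := by
    intro r hr
    by_contra hu
    have hr0 : r ≠ 0 := by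
      rintro rfl
      rw [Polynomial.C_0, zero_dvd_iff] at hr
      exact hN0 hr
    obtain ⟨p, hp, hpr⟩ := WfDvdMonoid.exists_irreducible_factor hu hr0
    obtain ⟨j, hj⟩ := hprim p (UniqueFactorizationMonoid.irreducible_iff_prime.1 hp)
    exact hj (hpr.trans ((Polynomial.C_dvd_iff_dvd_coeff r N).1 hr j))
  exact hpr.dvd_of_fraction_map_dvd_fraction_map hdvd

/-- the primitive polynomial of an element has degree at most `e` in `X` -/
theorem exists_N' {e : ℕ} {z : M} (hz : SX K e z) (H : Subgroup (M ≃ₐ[Q K 1] M))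
    (hH : ∀ σ : M ≃ₐ[Q K 1] M, σ ∈ H ↔ σ z = z) :
    ∃ (α : A K 1) (N : Polynomial (A K 1)), IsN H z α N ∧
      ∀ j, (N.coeff j).totalDegree ≤ e := by
  obtain ⟨R, hR0, hRd, hR⟩ := hz
  obtain ⟨nQ, hmon, hnQ⟩ := cj_poly H z fun h hh => (hH h).1 hh
  obtain ⟨α, N, hα, hN, hprim⟩ := exists_primitive1 nQ nQ.natDegree hmon
  have hmapN : N.map (algebraMap (A K 1) M) = Polynomial.C (algebraMap (A K 1) M α) *
      ∏ q : Cs H, (Polynomial.X - Polynomial.C (cj H z q)) := by
    rw [← hnQ, IsScalarTower.algebraMap_eq (A K 1) (Q K 1) M, ← Polynomial.map_map, hN,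
      Polynomial.map_mul, Polynomial.map_C]
    rfl
  have hroot : ∀ q : Cs H, (R.map (algebraMap (A K 1) M)).IsRoot (cj H z q) := by
    intro q
    obtain ⟨σ, hσ⟩ : ∃ σ : M ≃ₐ[Q K 1] M, cj H z q = σ z := ⟨_, rfl⟩
    have h1 : Polynomial.aeval (cj H z q) (R.map (algebraMap (A K 1) (Q K 1))) = 0 := by
      have h2 : Polynomial.aeval z (R.map (algebraMap (A K 1) (Q K 1))) = 0 := by
        rw [Polynomial.aeval_map_algebraMap]
        exact hR
      have h3 := congrArg σ h2
      rw [map_zero] at h3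
      rw [← h3, hσ]
      exact (Polynomial.aeval_algHom_apply σ.toAlgHom z _)
    rw [Polynomial.aeval_map_algebraMap] at h1
    rw [Polynomial.IsRoot.def, Polynomial.eval_map_algebraMap]
    exact h1
  have hdvd : (∏ q : Cs H, (Polynomial.X - Polynomial.C (cj H z q))) ∣
      R.map (algebraMap (A K 1) M) := by
    refine Finset.prod_dvd_of_coprime ?_ fun q _ => Polynomial.dvd_iff_isRoot.2 (hroot q)
    intro q _ q' _ hqq
    exact Polynomial.isCoprime_X_sub_C_of_isUnit_sub
      (isUnit_iff_ne_zero.2 (sub_ne_zero.2 fun h => hqq (cj_injective H z hH h)))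
  have hdvd2 : N ∣ R := by
    refine dvd_of_prim N R hR0 hprim ?_
    rw [hN]
    have hαQ : algebraMap (A K 1) (Q K 1) α ≠ 0 := fun h =>
      hα (IsFractionRing.injective (A K 1) (Q K 1) (h.trans (map_zero _).symm))
    have hu : IsUnit (Polynomial.C (algebraMap (A K 1) (Q K 1) α)) :=
      Polynomial.isUnit_C.2 (isUnit_iff_ne_zero.2 hαQ)
    rw [hu.mul_left_dvd, ← Polynomial.map_dvd_map' (algebraMap (Q K 1) M), hnQ,
      Polynomial.map_map, ← IsScalarTower.algebraMap_eq]
    exact hdvd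
  obtain ⟨S, hS⟩ := hdvd2
  have hN0 : N ≠ 0 := by
    rintro rfl
    rw [zero_mul] at hS
    exact hR0 hS
  have hS0 : S ≠ 0 := by
    rintro rfl
    rw [mul_zero] at hS
    exact hR0 hS
  exact ⟨α, N, ⟨hα, hmapN, hprim⟩, deg_mul N S hN0 hS0 e (by rw [← hS]; exact hRd)⟩

/-- the top coefficient -/
theorem coeff_top {H : Subgroup (M ≃ₐ[Q K 1] M)} {z : M} {α : A K 1} {N : Polynomial (A K 1)}
    (h : IsN H z α N) : N.coeff (Fintype.card (Cs H)) = α := by
  apply algM_injective (M := M)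
  rw [← Polynomial.coeff_map, h.map, Polynomial.coeff_C_mul]
  have h2 : (∏ q : Cs H, (Polynomial.X - Polynomial.C (cj H z q))).coeff
      (Fintype.card (Cs H)) = 1 := by
    have hmon : (∏ q : Cs H, (Polynomial.X - Polynomial.C (cj H z q))).Monic :=
      Polynomial.monic_prod_X_sub_C _ _
    have hdeg : (∏ q : Cs H, (Polynomial.X - Polynomial.C (cj H z q))).natDegree =
        Fintype.card (Cs H) := by
      rw [Polynomial.natDegree_finsetProd_X_sub_C_eq_card]
      rfl
    rw [← hdeg]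
    exact hmon.coeff_natDegree
  rw [h2, mul_one]

omit [CharZero K] [IsScalarTower (A K 1) (Q K 1) M] [IsGalois (Q K 1) M] [Algebra (A K 1) M] in
/-- the product over the conjugates -/
theorem prod_conj (f : M → Γ) {z : M} (H : Subgroup (M ≃ₐ[Q K 1] M))
    (hH : ∀ σ : M ≃ₐ[Q K 1] M, σ ∈ H ↔ σ z = z) :
    ∏ q : Cs H, f (cj H z q) = ∏ η ∈ conjs (Q K 1) z, f η := by
  refine Finset.prod_nbij (cj H z) (fun q _ => mem_conjs.2 ⟨_, rfl⟩)
    ((cj_injective H z hH).injOn) ?_ (fun _ _ => rfl)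
  intro η hη
  obtain ⟨g, rfl⟩ := mem_conjs.1 (Finset.mem_coe.1 hη)
  exact ⟨Cs.mk H g, Finset.mem_coe.2 (Finset.mem_univ _), cj_mk H z (fun h hh => (hH h).1 hh) g⟩

omit [CharZero K] in
/-- the multiplicity of a prime is at most the degree -/
theorem le_deg {p g : A K 1} (hp : Prime p) (hg : g ≠ 0) (m : ℕ) :
    m ≤ (p ^ m * g).totalDegree := by
  have hp1 : 1 ≤ p.totalDegree := by
    by_contra hcon
    have h0 : p.totalDegree = 0 := by omega
    rw [MvPolynomial.totalDegree_eq_zero_iff_eq_C] at h0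
    have hc : MvPolynomial.coeff 0 p ≠ 0 := by
      intro h1
      rw [h1, MvPolynomial.C_0] at h0
      exact hp.ne_zero h0
    apply hp.not_isUnit
    rw [h0]
    exact (isUnit_iff_ne_zero.2 hc).map MvPolynomial.C
  have hpow : ∀ m : ℕ, (p ^ m).totalDegree = m * p.totalDegree := by
    intro m
    induction m with
    | zero => simp
    | succ m ih =>
      rw [pow_succ, MvPolynomial.totalDegree_mul_of_isDomain (pow_ne_zero _ hp.ne_zero)
        hp.ne_zero, ih, Nat.succ_mul]
  rw [MvPolynomial.totalDegree_mul_of_isDomain (pow_ne_zero _ hp.ne_zero) hg, hpow]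
  nlinarith

end PoleB

/-- at a finite place -/
theorem bound_prime {p : A K 1} (hp : Prime p) (hv : IsPV p v) {e : ℕ} {z : M} (hz : SX K e z) :
    PB (Q K 1) v (v (algebraMap (A K 1) M p)) e z := by
  classical
  have hH : ∀ σ : M ≃ₐ[Q K 1] M, σ ∈ MulAction.stabilizer (M ≃ₐ[Q K 1] M) z ↔ σ z = z := by
    intro σ
    rw [MulAction.mem_stabilizer_iff, AlgEquiv.smul_def]
  obtain ⟨α, N, hN, hdeg⟩ := PoleB.exists_N' hz _ hH
  have h1 := hN.prime hp hv
  obtain ⟨m, g, hg, hα⟩ := WfDvdMonoid.max_power_factor hN.ne hp.irreducible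
  have h2 := hv.val hp α g m hα hg
  have hm : m ≤ e := by
    have h3 := hdeg (Fintype.card (Cs (MulAction.stabilizer (M ≃ₐ[Q K 1] M) z)))
    rw [PoleB.coeff_top hN, hα] at h3
    refine (PoleB.le_deg hp ?_ m).trans h3
    rintro rfl
    exact hg (dvd_zero _)
  have h4 : v (algebraMap (A K 1) M p) ≤ 1 := hv.le_one p
  unfold PB
  rw [← PoleB.prod_conj (fun η => max 1 (v η)) _ hH]
  refine le_trans (mul_le_mul_right (pow_le_pow_right_of_le_one' h4 hm) _) ?_
  rw [← h2, mul_comm, h1]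

/-- at infinity -/
theorem bound_inf (hv : IsIV K (0 : Fin 1) v) {e : ℕ} {z : M} (hz : SX K e z) :
    PB (Q K 1) v (v (algebraMap (A K 1) M (MvPolynomial.X 0)))⁻¹ e z := by
  classical
  have hH : ∀ σ : M ≃ₐ[Q K 1] M, σ ∈ MulAction.stabilizer (M ≃ₐ[Q K 1] M) z ↔ σ z = z := by
    intro σ
    rw [MulAction.mem_stabilizer_iff, AlgEquiv.smul_def]
  obtain ⟨α, N, hN, hdeg⟩ := PoleB.exists_N' hz _ hH
  generalize MulAction.stabilizer (M ≃ₐ[Q K 1] M) z = H at hH hN
  obtain ⟨x, hx⟩ : ∃ x, x = v (algebraMap (A K 1) M (MvPolynomial.X 0)) := ⟨_, rfl⟩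
  have hx1 : 1 < x := by rw [hx]; exact hv.one_lt
  have hx0 : x ≠ 0 := ne_of_gt (zero_lt_one.trans hx1)
  rw [← hx]
  have hco : ∀ (q : Cs H) (m : ℕ), (Polynomial.X - Polynomial.C (cj H z q)).coeff m =
      if m = 0 then -cj H z q else if m = 1 then 1 else 0 := by
    intro q m
    rcases m with _ | _ | m
    · simp
    · simp [Polynomial.coeff_X]
    · simp [Polynomial.coeff_X]
  obtain ⟨-, m1, g2⟩ := gauss_prod1 v (Finset.univ : Finset (Cs H))
    (fun q => Polynomial.X - Polynomial.C (cj H z q)) (fun q => max 1 (v (cj H z q)))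
    (fun q _ => ne_of_gt (lt_of_lt_of_le zero_lt_one (le_max_left _ _)))
    (fun q _ m => by
      rw [hco]
      split_ifs
      · rw [Valuation.map_neg]; exact le_max_right _ _
      · rw [map_one]; exact le_max_left _ _
      · rw [map_zero]; exact zero_le)
    (fun q _ => by
      rcases le_total 1 (v (cj H z q)) with hc | hc
      · exact ⟨0, by rw [hco, if_pos rfl, Valuation.map_neg, max_eq_right hc]⟩
      · exact ⟨1, by rw [hco, if_neg one_ne_zero, if_pos rfl, map_one, max_eq_left hc]⟩)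
  have hcoef : v (algebraMap (A K 1) M α) *
      v ((∏ q : Cs H, (Polynomial.X - Polynomial.C (cj H z q))).coeff m1) =
      v (algebraMap (A K 1) M (N.coeff m1)) := by
    rw [← map_mul, ← Polynomial.coeff_C_mul, ← hN.map, Polynomial.coeff_map]
  have hle : v (algebraMap (A K 1) M (N.coeff m1)) ≤ x ^ e := by
    by_cases h0 : N.coeff m1 = 0
    · rw [h0, map_zero, map_zero]
      exact zero_le
    · rw [hv.val _ h0, ← hx]
      exact pow_le_pow_right₀ hx1.le (hdeg m1)
  have hα1 : 1 ≤ v (algebraMap (A K 1) M α) := by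
    rw [hv.val _ hN.ne, ← hx]
    exact one_le_pow₀ hx1.le
  unfold PB
  rw [← PoleB.prod_conj (fun η => max 1 (v η)) H hH, ← g2]
  have h5 : v ((∏ q : Cs H, (Polynomial.X - Polynomial.C (cj H z q))).coeff m1) ≤ x ^ e := by
    refine le_trans ?_ (hcoef.le.trans hle)
    calc v ((∏ q : Cs H, (Polynomial.X - Polynomial.C (cj H z q))).coeff m1)
        = 1 * v ((∏ q : Cs H, (Polynomial.X - Polynomial.C (cj H z q))).coeff m1) :=
          (one_mul _).symm
      _ ≤ _ := mul_le_mul_left hα1 _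
  calc v ((∏ q : Cs H, (Polynomial.X - Polynomial.C (cj H z q))).coeff m1) * x⁻¹ ^ e
      ≤ x ^ e * x⁻¹ ^ e := mul_le_mul_left h5 _
    _ = 1 := by rw [← mul_pow, mul_inv_cancel₀ hx0, one_pow]
    _ ≤ 1 := le_rfl

end Pool.Agent.DI
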