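import Pool.Agent.DI.End
import Pool.Agent.BKR.Baker

/-! # Sums of few powers -/

namespace Pool.Agent.DI

open Finset

/-- at most `2 s` independent directions in a cube all of whose vertices are combinations of at
most `s` members of an independent family -/
theorem cube_support {K E ι : Type} [Field K] [AddCommGroup E] [Module K E] (f : ι → E)
    (hf : LinearIndependent K f) (s n : ℕ) (c : E) (v : Fin n → E) (hv : LinearIndependent K v)
    (h : ∀ A : Finset (Fin n), ∃ (g : Fin s → K) (i : Fin s → ι),
      c + ∑ m ∈ A, v m = ∑ k, g k • f (i k)) : n ≤ 2 * s := by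
  classical
  have hinj : Function.Injective (Finsupp.linearCombination K f) := hf
  choose g i hgi using h
  let w : Finset (Fin n) → ι →₀ K := fun A => ∑ k, Finsupp.single (i A k) (g A k)
  have hw : ∀ A, Finsupp.linearCombination K f (w A) = c + ∑ m ∈ A, v m := by
    intro A
    rw [hgi A, map_sum]
    refine Finset.sum_congr rfl fun k _ => ?_
    rw [Finsupp.linearCombination_single]
  have hwc : ∀ A, (w A).support.card ≤ s := by
    intro A
    have h1 : (w A).support ⊆ Finset.univ.image (i A) := by
      intro j hj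
      rw [Finsupp.mem_support_iff] at hj
      by_contra hcon
      apply hj
      change (∑ k, Finsupp.single (i A k) (g A k)) j = 0
      rw [Finsupp.finsetSum_apply]
      refine Finset.sum_eq_zero fun k _ => ?_
      rw [Finsupp.single_apply, if_neg]
      intro h
      exact hcon (h ▸ Finset.mem_image_of_mem _ (Finset.mem_univ k))
    refine (Finset.card_le_card h1).trans (Finset.card_image_le.trans ?_)
    rw [Finset.card_univ, Fintype.card_fin]
  let u : Fin n → ι →₀ K := fun m => w {m} - w ∅
  have hu : ∀ m, Finsupp.linearCombination K f (u m) = v m := by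
    intro m
    rw [map_sub, hw, hw, Finset.sum_singleton, Finset.sum_empty]
    abel
  have hwA : ∀ A, w A = w ∅ + ∑ m ∈ A, u m := by
    intro A
    apply hinj
    rw [hw, map_add, hw, map_sum, Finset.sum_empty, add_zero]
    congr 1
    exact Finset.sum_congr rfl fun m _ => (hu m).symm
  have hui : LinearIndependent K u := by
    have h1 : LinearIndependent K (Finsupp.linearCombination K f ∘ u) := by
      have h2 : Finsupp.linearCombination K f ∘ u = v := funext hu
      rw [h2]
      exact hv
    exact LinearIndependent.of_comp _ h1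
  let I : Finset ι := Finset.univ.biUnion fun m => (u m).support
  -- every exponent occurs in at least half of the vertices
  have hhalf : ∀ j ∈ I, 2 ^ n ≤ 2 * ((Finset.univ : Finset (Finset (Fin n))).filter
      fun A => w A j ≠ 0).card := by
    intro j hj
    obtain ⟨m, -, hm⟩ := Finset.mem_biUnion.1 hj
    rw [Finsupp.mem_support_iff] at hm
    let fl : Finset (Fin n) → Finset (Fin n) := fun A => symmDiff A {m}
    have hfl : Function.Injective fl := fun A B hAB => by
      have := congrArg (fun C => symmDiff C {m}) hAB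
      simpa [fl, symmDiff_symmDiff_cancel_right] using this
    have h1 : ((Finset.univ : Finset (Finset (Fin n))).filter fun A => w A j = 0).card ≤
        ((Finset.univ : Finset (Finset (Fin n))).filter fun A => w A j ≠ 0).card := by
      refine Finset.card_le_card_of_injOn fl ?_ hfl.injOn
      intro A hA
      simp only [Finset.coe_filter, Finset.mem_univ, true_and, Set.mem_ofPred_eq] at hA ⊢
      intro h0
      apply hm
      by_cases hmA : m ∈ A
      · have h2 : fl A = A.erase m := by
          ext k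
          simp only [fl, Finset.mem_symmDiff, Finset.mem_singleton, Finset.mem_erase]
          constructor
          · rintro (⟨h3, h4⟩ | ⟨h3, h4⟩)
            · exact ⟨h4, h3⟩
            · exact absurd (h3 ▸ hmA) h4
          · rintro ⟨h3, h4⟩
            exact Or.inl ⟨h4, h3⟩
        rw [h2, hwA] at h0
        rw [hwA, ← Finset.add_sum_erase _ _ hmA] at hA
        simp only [Finsupp.add_apply] at h0 hA
        linear_combination hA - h0
      · have h2 : fl A = insert m A := by
          ext k
          simp only [fl, Finset.mem_symmDiff, Finset.mem_singleton, Finset.mem_insert]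
          constructor
          · rintro (⟨h3, h4⟩ | ⟨h3, h4⟩)
            · exact Or.inr h3
            · exact Or.inl h3
          · rintro (h3 | h3)
            · exact Or.inr ⟨h3, h3 ▸ hmA⟩
            · exact Or.inl ⟨h3, fun h4 => hmA (h4 ▸ h3)⟩
        rw [h2, hwA, Finset.sum_insert hmA] at h0
        rw [hwA] at hA
        simp only [Finsupp.add_apply] at h0 hA
        linear_combination h0 - hA
    have h2 := Finset.card_filter_add_card_filter_not (s := (Finset.univ : Finset (Finset (Fin n))))
      (fun A => w A j = 0)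
    rw [Finset.card_univ, Fintype.card_finset, Fintype.card_fin] at h2
    simp only [ne_eq] at h1 ⊢
    omega
  have hsum : ∑ j ∈ I, ((Finset.univ : Finset (Finset (Fin n))).filter
      fun A => w A j ≠ 0).card ≤ s * 2 ^ n := by
    have h1 : ∑ j ∈ I, ((Finset.univ : Finset (Finset (Fin n))).filter
        fun A => w A j ≠ 0).card = ∑ A : Finset (Fin n), (I.filter fun j => w A j ≠ 0).card := by
      simp only [Finset.card_filter]
      exact Finset.sum_comm
    rw [h1]
    refine (Finset.sum_le_card_nsmul _ _ s fun A _ => ?_).trans ?_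
    · refine le_trans (Finset.card_le_card fun j hj => ?_) (hwc A)
      rw [Finsupp.mem_support_iff]
      exact (Finset.mem_filter.1 hj).2
    · rw [Finset.card_univ, Fintype.card_finset, Fintype.card_fin, smul_eq_mul, mul_comm]
  have hI : I.card ≤ 2 * s := by
    have h1 : I.card * 2 ^ n ≤ 2 * (s * 2 ^ n) := by
      calc I.card * 2 ^ n = ∑ _j ∈ I, 2 ^ n := by rw [Finset.sum_const, smul_eq_mul]
        _ ≤ ∑ j ∈ I, 2 * ((Finset.univ : Finset (Finset (Fin n))).filter
            fun A => w A j ≠ 0).card := Finset.sum_le_sum hhalf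
        _ = 2 * ∑ j ∈ I, ((Finset.univ : Finset (Finset (Fin n))).filter
            fun A => w A j ≠ 0).card := (Finset.mul_sum _ _ _).symm
        _ ≤ 2 * (s * 2 ^ n) := Nat.mul_le_mul_left 2 hsum
    rw [← mul_assoc] at h1
    exact Nat.le_of_mul_le_mul_right h1 (by positivity)
  refine le_trans ?_ hI
  -- restriction to `I`
  let ρ : (ι →₀ K) →ₗ[K] (I → K) :=
    { toFun := fun z j => z j
      map_add' := fun _ _ => rfl
      map_smul' := fun _ _ => rfl }
  have hρ : LinearIndependent K fun m => ρ (u m) := by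
    rw [Fintype.linearIndependent_iff]
    intro a ha
    refine Fintype.linearIndependent_iff.1 hui a ?_
    ext j
    rw [Finsupp.zero_apply]
    by_cases hj : j ∈ I
    · have h1 := congrFun ha ⟨j, hj⟩
      rw [Finset.sum_apply, Pi.zero_apply] at h1
      rw [Finsupp.finsetSum_apply, ← h1]
      rfl
    · rw [Finsupp.finsetSum_apply]
      refine Finset.sum_eq_zero fun m _ => ?_
      have h1 : u m j = 0 := by
        by_contra h2
        exact hj (Finset.mem_biUnion.2 ⟨m, Finset.mem_univ m, Finsupp.mem_support_iff.2 h2⟩)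
      rw [Finsupp.smul_apply, h1, smul_zero]
  have h1 := hρ.fintype_card_le_finrank
  rwa [Fintype.card_fin, Module.finrank_fintype_fun_eq_card, Fintype.card_coe] at h1

/-- the rational powers of a transcendental number are independent -/
theorem powers_indep (x : ℂ) (hx : ¬ IsAlgebraic ℚ x) :
    LinearIndependent (algebraicClosure ℚ ℂ) fun q : ℚ => x ^ (q : ℂ) := by
  classical
  let K := algebraicClosure ℚ ℂ
  have hx0 : x ≠ 0 := by
    rintro rfl
    exact hx isAlgebraic_zero
  rw [linearIndependent_iff']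
  intro s g hg q0 hq0
  let N : ℕ := ∏ q ∈ s, q.den
  have hN : N ≠ 0 := Finset.prod_ne_zero_iff.2 fun q _ => q.den_nz
  let nn : ℚ → ℤ := fun q => q.num * ((N / q.den : ℕ) : ℤ)
  have hnn : ∀ q ∈ s, (q : ℂ) = (nn q : ℂ) / (N : ℂ) := by
    intro q hq
    have h1 : q.den ∣ N := Finset.dvd_prod_of_mem _ hq
    obtain ⟨k, hk⟩ := h1
    have h2 : N / q.den = k := by rw [hk, Nat.mul_div_cancel_left _ q.den_pos]
    have h3 : (N : ℂ) = (q.den : ℂ) * (k : ℂ) := by exact_mod_cast hk
    have h4 : (k : ℂ) ≠ 0 := by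
      intro h
      have h7 : (N : ℂ) = 0 := h3.trans (by rw [h, mul_zero])
      exact hN (Nat.cast_eq_zero.1 h7)
    have h5 : ((q.den : ℕ) : ℂ) ≠ 0 := by exact_mod_cast q.den_nz
    have h6 : (nn q : ℂ) = (q.num : ℂ) * (k : ℂ) := by
      simp only [nn, h2]
      push_cast
      ring
    rw [h6, h3, Rat.cast_def, mul_div_mul_right _ _ h4]
  let ξ : ℂ := Complex.exp (Complex.log x / N)
  have hξ : ∀ q ∈ s, x ^ (q : ℂ) = ξ ^ (nn q) := by
    intro q hq
    rw [Complex.cpow_def_of_ne_zero hx0, hnn q hq, ← Complex.exp_int_mul]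
    congr 1
    ring
  have hξN : ξ ^ N = x := by
    rw [← Complex.exp_nat_mul, mul_div_cancel₀ _ (by exact_mod_cast hN), Complex.exp_log hx0]
  have hξK : ¬ IsAlgebraic K ξ := by
    intro h
    have : Algebra.IsAlgebraic ℚ K := algebraicClosure.isAlgebraic ℚ ℂ
    apply hx
    rw [← hξN]
    exact (h.restrictScalars ℚ).pow N
  have hξ0 : ξ ≠ 0 := Complex.exp_ne_zero _
  let B : ℤ := ∑ q ∈ s, |nn q|
  have hB : ∀ q ∈ s, 0 ≤ nn q + B := by
    intro q hq
    have h1 : |nn q| ≤ B := Finset.single_le_sum (f := fun q => |nn q|) (fun _ _ => abs_nonneg _) hq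
    have h2 := neg_abs_le (nn q)
    linarith
  let e : ℚ → ℕ := fun q => (nn q + B).toNat
  have he : ∀ q ∈ s, ((e q : ℕ) : ℤ) = nn q + B := fun q hq => Int.toNat_of_nonneg (hB q hq)
  have hinj : ∀ q ∈ s, ∀ q' ∈ s, e q = e q' → q = q' := by
    intro q hq q' hq' h
    have h1 : nn q = nn q' := by
      have h2 := he q hq
      have h3 := he q' hq'
      rw [h] at h2
      linarith
    have h2 : (q : ℂ) = (q' : ℂ) := by rw [hnn q hq, hnn q' hq', h1]
    exact_mod_cast h2
  let P : Polynomial K := ∑ q ∈ s, Polynomial.monomial (e q) (g q)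
  have hP : Polynomial.aeval ξ P = 0 := by
    have h1 : Polynomial.aeval ξ P = ξ ^ B * ∑ q ∈ s, g q • x ^ (q : ℂ) := by
      rw [map_sum, Finset.mul_sum]
      refine Finset.sum_congr rfl fun q hq => ?_
      rw [Polynomial.aeval_monomial, hξ q hq, Algebra.smul_def, mul_left_comm, ← zpow_add₀ hξ0,
        add_comm B, ← he q hq, zpow_natCast]
    rw [h1, hg, mul_zero]
  have hP0 : P = 0 := by
    by_contra h
    exact hξK ⟨P, h, hP⟩
  have h1 : P.coeff (e q0) = g q0 := by
    rw [Polynomial.finsetSum_coeff, Finset.sum_eq_single q0]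
    · rw [Polynomial.coeff_monomial, if_pos rfl]
    · intro q hq hne
      rw [Polynomial.coeff_monomial, if_neg]
      intro h
      exact hne (hinj q hq q0 hq0 h)
    · intro h
      exact absurd hq0 h
  rw [← h1, hP0, Polynomial.coeff_zero]

/-- for almost all integers the logarithm is no sum of `s` members of an independent family -/
theorem few_terms (s : ℕ) : ∃ (C : ℝ) (m X0 : ℕ), 0 < C ∧ ∀ (ι : Type) (f : ι → ℂ),
    LinearIndependent (algebraicClosure ℚ ℂ) f → ∀ t : ℂ, ∀ X : ℕ, X0 ≤ X →
      ({a : ℕ | (1 ≤ a ∧ a ≤ X) ∧ ∃ (g : Fin s → algebraicClosure ℚ ℂ) (i : Fin s → ι),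
        t + ((Real.log (a : ℝ) : ℝ) : ℂ) = ∑ k, g k • f (i k)}.ncard : ℝ) ≤
        X * (C * Real.log (Real.log X) ^ m * Real.exp (-Real.log (Real.log X))) := by
  classical
  obtain ⟨C, m, X0, hC, hden⟩ := Pool.Agent.QDen.density_grid (2 * s + 1) 2 (by omega) (by norm_num)
  refine ⟨C, m, X0, hC, fun ι f hf t X hX =>
    hden {a : ℕ | ∃ (g : Fin s → algebraicClosure ℚ ℂ) (i : Fin s → ι),
        t + ((Real.log (a : ℝ) : ℝ) : ℂ) = ∑ k, g k • f (i k)} ?_ X hX⟩
  intro b hb V hVp hVc hVd
  by_contra hcon
  push Not at hcon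
  let n := 2 * s + 1
  let p : Fin n → Fin 2 → ℕ := fun m i => ((V m).equivFinOfCardEq (hVc m)).symm i
  have hpV : ∀ m i, p m i ∈ V m := fun m i => (((V m).equivFinOfCardEq (hVc m)).symm i).2
  have hpp : ∀ m i, (p m i).Prime := fun m i => hVp m _ (hpV m i)
  have hpinj : ∀ m, Function.Injective (p m) := fun m i j h =>
    ((V m).equivFinOfCardEq (hVc m)).symm.injective (Subtype.ext h)
  let w : Fin n → Fin 2 → ℂ := fun m i => ((Real.log (p m i : ℝ) : ℝ) : ℂ)
  have hyz : ∀ z : Fin n → Fin 2, t + ((Real.log (b : ℝ) : ℝ) : ℂ) + ∑ m, w m (z m) =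
      t + ((Real.log ((b * ∏ m, p m (z m) : ℕ) : ℝ) : ℝ) : ℂ) := by
    intro z
    have h0 : ∀ m ∈ (Finset.univ : Finset (Fin n)), ((p m (z m) : ℕ) : ℝ) ≠ 0 := fun m _ => by
      exact_mod_cast (hpp m (z m)).ne_zero
    have h1 : Real.log ((b * ∏ m, p m (z m) : ℕ) : ℝ) =
        Real.log (b : ℝ) + ∑ m, Real.log (p m (z m) : ℝ) := by
      push_cast
      rw [Real.log_mul (by exact_mod_cast hb) (Finset.prod_ne_zero_iff.2 h0), Real.log_prod h0]
    rw [h1, Complex.ofReal_add, Complex.ofReal_sum, add_assoc]
  have hdis : ∀ m m' : Fin n, m ≠ m' → ∀ i i', p m i ≠ p m' i' := by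
    intro m m' hm i i' h
    exact Finset.disjoint_left.1 (hVd m m' hm) (hpV m i) (h ▸ hpV m' i')
  have hvQ : LinearIndependent ℚ fun m => w m 1 - w m 0 := by
    refine log_diff_indep (fun m => p m 1) (fun m => p m 0)
      (fun m => hpp _ _) (fun m => hpp _ _) ?_ ?_
    · intro m m' h
      by_contra hne
      exact hdis _ _ hne _ _ h
    · intro m m' h
      rcases eq_or_ne m m' with rfl | hne
      · exact absurd (hpinj _ h) (by decide)
      · exact hdis _ _ hne _ _ h
  have hexp : ∀ m, IsAlgebraic ℚ (Complex.exp (w m 1 - w m 0)) := by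
    intro m
    have h1 : ∀ i, IsAlgebraic ℚ (Complex.exp (w m i)) := by
      intro i
      change IsAlgebraic ℚ (Complex.exp ((Real.log (p m i : ℝ) : ℝ) : ℂ))
      rw [← Complex.ofReal_exp, Real.exp_log (by exact_mod_cast (hpp m i).pos)]
      exact_mod_cast isAlgebraic_natCast (R := ℚ) (A := ℂ) (p m i)
    rw [Complex.exp_sub]
    exact (h1 _).mul (h1 _).inv
  have hvK : LinearIndependent (algebraicClosure ℚ ℂ) fun m => w m 1 - w m 0 := by
    rw [Fintype.linearIndependent_iff]
    intro g hg m
    have h1 := Pool.Agent.BKR.baker (fun m => w m 1 - w m 0) hvQ hexp (fun m => (g m : ℂ)) 0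
      (fun m => mem_algebraicClosure_iff.1 (g m).2) isAlgebraic_zero (by
        rw [zero_add, ← hg]
        exact Finset.sum_congr rfl fun m _ => rfl)
    exact Subtype.ext (h1.2 m)
  have h := cube_support f hf s n (t + ((Real.log (b : ℝ) : ℝ) : ℂ) + ∑ m, w m 0)
    (fun m => w m 1 - w m 0) hvK fun A => ?_
  · omega
  · have h1 : t + ((Real.log (b : ℝ) : ℝ) : ℂ) + ∑ m, w m 0 + ∑ m ∈ A, (w m 1 - w m 0) =
        t + ((Real.log (b : ℝ) : ℝ) : ℂ) + ∑ m, w m (if m ∈ A then 1 else 0) := by
      have h2 : ∑ m ∈ A, (w m 1 - w m 0) = ∑ m, if m ∈ A then w m 1 - w m 0 else 0 := by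
        rw [Finset.sum_ite_mem, Finset.univ_inter]
      rw [add_assoc, h2, ← Finset.sum_add_distrib]
      congr 1
      refine Finset.sum_congr rfl fun m _ => ?_
      by_cases hm : m ∈ A
      · rw [if_pos hm, if_pos hm]
        ring
      · rw [if_neg hm, if_neg hm, add_zero]
    rw [h1, hyz]
    exact hcon (fun m => p m (if m ∈ A then 1 else 0)) fun m => hpV m _

end Pool.Agent.DI
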