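import Pool.Agent.DI.DomU
import Pool.Agent.DI.DomD
import Pool.Agent.DI.End
import Pool.Agent.QNH.FreeH

/-! # The structure theorem -/

namespace Pool.Agent.DI

open Pool.Agent.QN Pool.Agent.QS

/-- as `exists_model`, with the values on `K[X]` -/
theorem exists_model2 {K L : Type} [Field K] [CharZero K] [Field L] [IsAlgClosed L]
    [Algebra K L] (x : L) (hx : ¬ IsAlgebraic K x) (Y : Set L) (hYf : Y.Finite)
    (hY : ∀ y ∈ Y, ∃ e, SXL K e x y) :
    ∃ (M : Type) (_ : Field M) (_ : Algebra K M) (_ : Algebra (A K 1) M) (_ : Algebra (Q K 1) M)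
      (_ : IsScalarTower (A K 1) (Q K 1) M) (_ : IsScalarTower K (A K 1) M)
      (_ : IsScalarTower K (Q K 1) M) (_ : FiniteDimensional (Q K 1) M) (_ : IsGalois (Q K 1) M)
      (φ : M →ₐ[K] L), (∀ y ∈ Y, ∃ u, φ u = y) ∧
        (∀ (e : ℕ) (u : M), SXL K e x (φ u) → SX K e u) ∧
        ∀ (e : ℕ) (u : M), SX K e u → SXL K e x (φ u) := by
  classical
  let ev : A K 1 →+* L := (MvPolynomial.aeval (R := K) (fun _ : Fin 1 => x)).toRingHom
  have hevC : ∀ c : K, ev (algebraMap K (A K 1) c) = algebraMap K L c := fun c =>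
    (MvPolynomial.aeval (R := K) (fun _ : Fin 1 => x)).commutes c
  have hev : Function.Injective ev := by
    have h1 : AlgebraicIndependent K (fun _ : Fin 1 => x) :=
      algebraicIndependent_unique_type_iff.2 hx
    exact h1
  let ψ : Q K 1 →+* L := IsFractionRing.lift (K := Q K 1) hev
  have hψ : ∀ f : A K 1, ψ (algebraMap (A K 1) (Q K 1) f) = ev f := fun f =>
    IsFractionRing.lift_algebraMap hev f
  let algQ : Algebra (Q K 1) L := ψ.toAlgebra
  have hQL : ∀ q : Q K 1, algebraMap (Q K 1) L q = ψ q := fun _ => rfl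
  -- the elements of `Y` are algebraic
  have halg : ∀ y ∈ Y, IsIntegral (Q K 1) y := by
    intro y hy
    obtain ⟨e, R, hR, -, h0⟩ := hY y hy
    rw [← isAlgebraic_iff_isIntegral]
    refine ⟨R.map (algebraMap (A K 1) (Q K 1)), ?_, ?_⟩
    · rwa [Ne, Polynomial.map_eq_zero_iff (IsFractionRing.injective (A K 1) (Q K 1))]
    · rw [Polynomial.aeval_def, Polynomial.eval₂_map]
      have h1 : (algebraMap (Q K 1) L).comp (algebraMap (A K 1) (Q K 1)) = ev :=
        RingHom.ext fun f => hψ f
      rw [h1]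
      exact h0
  let p : Polynomial (Q K 1) := ∏ y ∈ hYf.toFinset, minpoly (Q K 1) y
  have hp0 : p ≠ 0 := Finset.prod_ne_zero_iff.2 fun y hy =>
    minpoly.ne_zero (halg y (hYf.mem_toFinset.1 hy))
  let M : IntermediateField (Q K 1) L := IntermediateField.adjoin (Q K 1) (p.rootSet L)
  have hsp : p.IsSplittingField (Q K 1) M :=
    IntermediateField.adjoin_rootSet_isSplittingField (IsAlgClosed.splits _)
  have hfd : FiniteDimensional (Q K 1) M := Polynomial.IsSplittingField.finiteDimensional M p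
  have hnm : Normal (Q K 1) M := Normal.of_isSplittingField p
  have hch : CharZero (Q K 1) := by
    have h1 : Function.Injective (algebraMap K (Q K 1)) := (algebraMap K (Q K 1)).injective
    exact charZero_of_injective_algebraMap h1
  have hgal : IsGalois (Q K 1) M := ⟨⟩
  let aA : Algebra (A K 1) M := ((algebraMap (Q K 1) M).comp (algebraMap (A K 1) (Q K 1))).toAlgebra
  let aK : Algebra K M := ((algebraMap (Q K 1) M).comp (algebraMap K (Q K 1))).toAlgebra
  have t1 : IsScalarTower (A K 1) (Q K 1) M := IsScalarTower.of_algebraMap_eq fun _ => rfl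
  have t3 : IsScalarTower K (Q K 1) M := IsScalarTower.of_algebraMap_eq fun _ => rfl
  have t2 : IsScalarTower K (A K 1) M := IsScalarTower.of_algebraMap_eq fun c => by
    change algebraMap (Q K 1) M (algebraMap K (Q K 1) c) =
      algebraMap (Q K 1) M (algebraMap (A K 1) (Q K 1) (algebraMap K (A K 1) c))
    rw [← IsScalarTower.algebraMap_apply K (A K 1) (Q K 1)]
  have hM : ∀ f : A K 1, M.val (algebraMap (A K 1) M f) = ev f := by
    intro f
    change M.val (algebraMap (Q K 1) M (algebraMap (A K 1) (Q K 1) f)) = _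
    rw [M.val.commutes, hQL, hψ]
  let φ : M →ₐ[K] L :=
    { M.val.toRingHom with
      commutes' := fun c => by
        change M.val (algebraMap K M c) = algebraMap K L c
        rw [IsScalarTower.algebraMap_apply K (A K 1) M, hM, hevC] }
  have hφ : ∀ u : M, φ u = (u : L) := fun _ => rfl
  have hc : (M.val.toRingHom : M →+* L).comp (algebraMap (A K 1) M) = ev := RingHom.ext hM
  refine ⟨M, inferInstance, aK, aA, inferInstance, t1, t2, t3, hfd, hgal, φ, ?_, ?_, ?_⟩
  · intro y hy
    have h1 : y ∈ M := by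
      refine IntermediateField.subset_adjoin _ _ ?_
      rw [Polynomial.mem_rootSet]
      refine ⟨hp0, ?_⟩
      rw [map_prod]
      exact Finset.prod_eq_zero (hYf.mem_toFinset.2 hy) (minpoly.aeval _ _)
    exact ⟨⟨y, h1⟩, rfl⟩
  · rintro e u ⟨R, hR, hdeg, h0⟩
    refine ⟨R, hR, hdeg, ?_⟩
    have hinj : Function.Injective M.val := M.val.toRingHom.injective
    apply hinj
    rw [map_zero, Polynomial.aeval_def]
    have h1 : (M.val.toRingHom : M →+* L).comp (algebraMap (A K 1) M) = ev := RingHom.ext hM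
    have h2 := Polynomial.hom_eval₂ R (algebraMap (A K 1) M) M.val.toRingHom u
    rw [h1] at h2
    exact h2.trans h0
  · rintro e u ⟨R, hR, hdeg, h0⟩
    refine ⟨R, hR, hdeg, ?_⟩
    have h2 := Polynomial.hom_eval₂ R (algebraMap (A K 1) M) M.val.toRingHom u
    rw [hc] at h2
    refine h2.symm.trans ?_
    rw [← Polynomial.aeval_def, h0, map_zero]

/-- the converse of `sxl_of_rx` -/
theorem rx_of_sxl {e : ℕ} {x y : ℂ} (h : SXL (algebraicClosure ℚ ℂ) e x y) : RX e x y := by
  obtain ⟨R, hR0, hRd, hR⟩ := h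
  have hinj : Function.Injective (algebraMap (algebraicClosure ℚ ℂ) ℂ) :=
    FaithfulSMul.algebraMap_injective _ _
  have hsw : Function.Injective (Equiv.swap (0 : Fin 2) 1) := (Equiv.swap (0 : Fin 2) 1).injective
  set P' : MvPolynomial (Fin 2) (algebraicClosure ℚ ℂ) :=
    (MvPolynomial.finSuccEquiv (algebraicClosure ℚ ℂ) 1).symm R with hP'
  have hP'0 : P' ≠ 0 := by
    rw [hP', Ne, EmbeddingLike.map_eq_zero_iff]
    exact hR0
  have hdeg : MvPolynomial.degreeOf 1 P' ≤ e := by
    rw [MvPolynomial.degreeOf_eq_sup]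
    refine Finset.sup_le fun m hm => ?_
    have h1 : (R.coeff (m 0)).coeff (Finsupp.tail m) ≠ 0 := by
      have h2 := MvPolynomial.finSuccEquiv_coeff_coeff (Finsupp.tail m) P' (m 0)
      rw [hP', AlgEquiv.apply_symm_apply, Finsupp.cons_tail] at h2
      rw [h2]
      exact MvPolynomial.mem_support_iff.1 hm
    have h3 := MvPolynomial.le_totalDegree (MvPolynomial.mem_support_iff.2 h1)
    refine le_trans ?_ (h3.trans (hRd _))
    rw [Finsupp.sum_fintype _ _ fun _ => rfl]
    simp [Finsupp.tail_apply]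
  refine ⟨MvPolynomial.map (algebraMap (algebraicClosure ℚ ℂ) ℂ)
    (MvPolynomial.rename (Equiv.swap (0 : Fin 2) 1) P'), ?_, ?_, ?_, ?_⟩
  · intro h0
    have h1 : MvPolynomial.rename (Equiv.swap (0 : Fin 2) 1) P' = 0 :=
      MvPolynomial.map_injective _ hinj (by rw [h0, map_zero])
    exact hP'0 (MvPolynomial.rename_injective _ hsw (by rw [h1, map_zero]))
  · have h5 : MvPolynomial.degreeOf 0 (MvPolynomial.map (algebraMap (algebraicClosure ℚ ℂ) ℂ)
        (MvPolynomial.rename (Equiv.swap (0 : Fin 2) 1) P')) =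
        MvPolynomial.degreeOf 0 (MvPolynomial.rename (Equiv.swap (0 : Fin 2) 1) P') := by
      rw [MvPolynomial.degreeOf_eq_sup, MvPolynomial.degreeOf_eq_sup,
        MvPolynomial.support_map_of_injective _ hinj]
    have h3 := MvPolynomial.degreeOf_rename_of_injective hsw (p := P') (1 : Fin 2)
    rw [Equiv.swap_apply_right] at h3
    rw [h5, h3]
    exact hdeg
  · intro m
    rw [MvPolynomial.coeff_map]
    exact mem_algebraicClosure_iff.1 (Subtype.property _)
  · rw [MvPolynomial.eval_map, ← MvPolynomial.aeval_def, MvPolynomial.aeval_rename]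
    have h2 : (![x, y] ∘ (Equiv.swap (0 : Fin 2) 1)) =
        (Fin.cons y fun _ : Fin 1 => x : Fin 2 → ℂ) := by
      funext i
      fin_cases i
      · rfl
      · rfl
    have h1 := aeval_cons_L (K := algebraicClosure ℚ ℂ) (fun _ : Fin 1 => x) y P'
    rw [h2, h1, hP', AlgEquiv.apply_symm_apply]
    exact hR

/-- the elements algebraic over `K(x)` -/
theorem sxl_iff {K L : Type} [Field K] [Field L] [Algebra K L] {x : L} (y : L) :
    (∃ e, SXL K e x y) ↔
      @IsAlgebraic (A K 1) L _ _ (MvPolynomial.aeval (R := K) (fun _ : Fin 1 => x)).toRingHom.toAlgebra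
        y := by
  let φ : A K 1 →+* L := (MvPolynomial.aeval (R := K) (fun _ : Fin 1 => x)).toRingHom
  let _ : Algebra (A K 1) L := φ.toAlgebra
  constructor
  · rintro ⟨e, R, hR, -, h⟩
    exact ⟨R, hR, h⟩
  · rintro ⟨R, hR, h⟩
    refine ⟨R.support.sup fun j => (R.coeff j).totalDegree, R, hR, fun j => ?_, h⟩
    by_cases hj : R.coeff j = 0
    · rw [hj, MvPolynomial.totalDegree_zero]
      exact Nat.zero_le _
    · exact Finset.le_sup (f := fun j => (R.coeff j).totalDegree)
        (Polynomial.mem_support_iff.2 hj)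

theorem sxl_add {K L : Type} [Field K] [Field L] [Algebra K L] {x : L}
    {y y' : L} (h : ∃ e, SXL K e x y) (h' : ∃ e, SXL K e x y') : ∃ e, SXL K e x (y + y') := by
  let φ : A K 1 →+* L := (MvPolynomial.aeval (R := K) (fun _ : Fin 1 => x)).toRingHom
  let _ : Algebra (A K 1) L := φ.toAlgebra
  rw [sxl_iff] at h h' ⊢
  exact h.add h'

theorem sxl_smul {K L : Type} [Field K] [Field L] [Algebra K L] {x : L} (c : K)
    {y : L} (h : ∃ e, SXL K e x y) : ∃ e, SXL K e x (algebraMap K L c * y) := by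
  let φ : A K 1 →+* L := (MvPolynomial.aeval (R := K) (fun _ : Fin 1 => x)).toRingHom
  let _ : Algebra (A K 1) L := φ.toAlgebra
  rw [sxl_iff] at h ⊢
  have h1 : algebraMap K L c = algebraMap (A K 1) L (MvPolynomial.C c) := by
    change _ = MvPolynomial.aeval (fun _ : Fin 1 => x) (MvPolynomial.C c)
    rw [MvPolynomial.aeval_C]
  rw [h1]
  exact (isAlgebraic_algebraMap _).mul h

theorem struct_thm (F : Subfield ℂ) (hF : ∀ c ∈ F, IsAlgebraic ℚ c) (e : ℕ) (x : ℂ)
    (hx : ¬ IsAlgebraic ℚ x) (V : Submodule F ℂ) [FiniteDimensional F V]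
    (hV : Pool.Agent.QNH.Free0 (algebraicClosure ℚ ℂ) V) :
    ∃ (n : ℕ) (U : Fin n → Submodule F ℂ),
      (∀ i, U i ≤ V ∧ Module.finrank F (U i) ≤ e + 1) ∧
      {y : ℂ | y ∈ V ∧ RX e x y} = ⋃ i, (U i : Set ℂ) := by
  classical
  let K := algebraicClosure ℚ ℂ
  have hKcl : IsAlgClosed K := (algebraicClosure.isAlgClosure ℚ ℂ).isAlgClosed
  have hxK : ¬ IsAlgebraic K x := by
    intro h
    have : Algebra.IsAlgebraic ℚ K := algebraicClosure.isAlgebraic ℚ ℂ
    exact hx (h.restrictScalars ℚ)
  let f : F →+* K := (algebraMap F ℂ).codRestrict K.toSubring fun c =>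
    mem_algebraicClosure_iff.2 (hF c c.2)
  have hf : ∀ c : F, algebraMap K ℂ (f c) = (c : ℂ) := fun c => rfl
  -- the elements of `V` algebraic over `K(x)`
  let V1 : Submodule F ℂ :=
    { carrier := {y | y ∈ V ∧ ∃ e', SXL K e' x y}
      add_mem' := fun {a b} ha hb => ⟨V.add_mem ha.1 hb.1, sxl_add ha.2 hb.2⟩
      zero_mem' := ⟨V.zero_mem, 0, Polynomial.X, Polynomial.X_ne_zero, fun j => by
        rw [Polynomial.coeff_X]
        split_ifs
        · rw [MvPolynomial.totalDegree_one]
        · rw [MvPolynomial.totalDegree_zero], by rw [Polynomial.eval₂_X]⟩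
      smul_mem' := fun c {a} ha => ⟨V.smul_mem c ha.1, by
        have h1 : c • a = algebraMap K ℂ (f c) * a := by
          rw [hf]
          rfl
        rw [h1]
        exact sxl_smul _ ha.2⟩ }
  have hV1V : V1 ≤ V := fun y hy => hy.1
  have hfin : FiniteDimensional F V1 := Submodule.finiteDimensional_of_le hV1V
  let b := Module.finBasis F V1
  obtain ⟨M, iM, iKM, iAM, iQM, iAQ, iKA, iKQ, iF, iG, φ, hφY, hφS, hφS'⟩ :=
    exists_model2 x hxK (Set.range fun i => ((b i : V1) : ℂ)) (Set.finite_range _)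
      (by
        rintro y ⟨i, rfl⟩
        exact (b i).2.2)
  let aF : Algebra F M := ((algebraMap K M).comp f).toAlgebra
  have hFM : ∀ c : F, algebraMap F M c = algebraMap K M (f c) := fun _ => rfl
  let φF : M →ₗ[F] ℂ :=
    { toFun := φ
      map_add' := map_add φ
      map_smul' := fun c u => by
        rw [Algebra.smul_def, map_mul, hFM, AlgHom.commutes]
        rfl }
  have hφF : ∀ u, φF u = φ u := fun _ => rfl
  have hφinj : Function.Injective φF := φ.toRingHom.injective
  let V' : Submodule F M := V1.comap φF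
  have hV'fin : FiniteDimensional F V' := by
    let g : V' →ₗ[F] V1 := φF.restrict fun u hu => hu
    have hg : Function.Injective g := fun u w h => by
      apply Subtype.ext
      apply hφinj
      exact congrArg (fun z : V1 => (z : ℂ)) h
    exact FiniteDimensional.of_injective g hg
  obtain ⟨Γ, iΓ, v, hv⟩ := exists_pls K M
  obtain ⟨n, U, hU, hUe⟩ := union_M hv (F := F) (fun c => ⟨f c, hFM c⟩) e V'
  refine ⟨n, fun i => (U i).map φF, fun i => ⟨?_, ?_⟩, ?_⟩
  · rintro y ⟨u, hu, rfl⟩
    exact ((hU i).1 hu : φF u ∈ V1).1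
  · obtain ⟨hUV, y, hyU, hyS, hyD⟩ := hU i
    have hUfin : FiniteDimensional F (U i) := Submodule.finiteDimensional_of_le hUV
    rw [← (Submodule.equivMapOfInjective φF hφinj (U i)).finrank_eq]
    let w := Module.finBasis F (U i)
    have hwi : LinearIndependent F fun j => ((w j : U i) : M) :=
      w.linearIndependent.map' (U i).subtype (Submodule.ker_subtype _)
    have hwφ : LinearIndependent F fun j => φF ((w j : U i) : M) :=
      hwi.map' φF (LinearMap.ker_eq_bot.2 hφinj)
    have hwV : ∀ j, φF ((w j : U i) : M) ∈ V := fun j => (hUV (w j).2 : φF _ ∈ V1).1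
    refine dim_le (K := K) hv hyS (fun j => ((w j : U i) : M)) (fun j => hyD _ (w j).2) ?_
    rw [Fintype.linearIndependent_iff]
    intro g hg
    refine hV _ _ hwV hwφ g ?_
    have h1 := congrArg φ hg
    rw [map_zero, map_sum] at h1
    rw [← h1]
    refine Finset.sum_congr rfl fun j _ => ?_
    rw [Algebra.smul_def, map_mul, AlgHom.commutes, hφF]
  · ext y
    rw [Set.mem_iUnion]
    constructor
    · rintro ⟨hyV, hy⟩
      have hy1 : y ∈ V1 := ⟨hyV, e, sxl_of_rx hy⟩
      -- the preimage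
      have h1 := congrArg (fun z : V1 => (z : ℂ)) (b.sum_repr ⟨y, hy1⟩)
      choose u hu using fun i => hφY ((b i : V1) : ℂ) ⟨i, rfl⟩
      have h2 : φF (∑ i, b.repr ⟨y, hy1⟩ i • u i) = y := by
        rw [map_sum]
        rw [Submodule.coe_sum] at h1
        refine Eq.trans (Finset.sum_congr rfl fun i _ => ?_) h1
        rw [map_smul, hφF, hu]
        rfl
      have h3 : (∑ i, b.repr ⟨y, hy1⟩ i • u i) ∈ V' := by
        change φF _ ∈ V1
        rw [h2]
        exact hy1
      have h4 : SX K e (∑ i, b.repr ⟨y, hy1⟩ i • u i) := by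
        refine hφS e _ ?_
        rw [← hφF, h2]
        exact sxl_of_rx hy
      obtain ⟨i, hi⟩ := (hUe _ h3).1 h4
      exact ⟨i, _, hi, h2⟩
    · rintro ⟨i, u, hu, rfl⟩
      have h1 : u ∈ V' := (hU i).1 hu
      refine ⟨(h1 : φF u ∈ V1).1, rx_of_sxl ?_⟩
      exact hφS' e u ((hUe u h1).2 ⟨i, hu⟩)

end Pool.Agent.DI
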