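import Pool.Agent.DI.Str

/-! # The structure theorem with a denominator, and the moment curve -/

namespace Pool.Agent.DI

open Module Submodule

theorem struct_div (F : Subfield ℂ) (hF : ∀ c ∈ F, IsAlgebraic ℚ c) (e : ℕ) (x : ℂ)
    (hx : ¬ IsAlgebraic ℚ x) (V : Submodule F ℂ) [FiniteDimensional F V]
    (hV : Pool.Agent.QNH.Free0 (algebraicClosure ℚ ℂ) V) (y₀ : ℂ) (hy : y₀ ≠ 0) :
    ∃ (n : ℕ) (U : Fin n → Submodule F ℂ),
      (∀ i, U i ≤ V ∧ finrank F (U i) ≤ e + 1) ∧
      {y : ℂ | y ∈ V ∧ RX e x (y / y₀)} = ⋃ i, (U i : Set ℂ) := by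
  let f : ℂ →ₗ[F] ℂ := LinearMap.mulLeft F y₀
  have hf : ∀ z, f z = y₀ * z := fun z => rfl
  have hfi : Function.Injective f := fun a b h => mul_left_cancel₀ hy h
  let V' : Submodule F ℂ := V.comap f
  have hV' : ∀ z, z ∈ V' ↔ y₀ * z ∈ V := fun z => Iff.rfl
  have hfin : FiniteDimensional F V' := by
    let g : V' →ₗ[F] V := f.restrict fun u hu => hu
    have hg : Function.Injective g := fun u w h => by
      apply Subtype.ext
      apply hfi
      exact congrArg (fun z : V => (z : ℂ)) h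
    exact FiniteDimensional.of_injective g hg
  have hFr : Pool.Agent.QNH.Free0 (algebraicClosure ℚ ℂ) V' := by
    intro ι _ v hv hi c hc
    refine hV ι (fun i => y₀ * v i) (fun i => hv i) ?_ c ?_
    · exact hi.map' f (LinearMap.ker_eq_bot.2 hfi)
    · have h1 : ∑ i, algebraMap (algebraicClosure ℚ ℂ) ℂ (c i) * (y₀ * v i) =
          y₀ * ∑ i, algebraMap (algebraicClosure ℚ ℂ) ℂ (c i) * v i := by
        rw [Finset.mul_sum]
        exact Finset.sum_congr rfl fun i _ => by ring
      rw [h1, hc, mul_zero]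
  obtain ⟨n, U, hU, hUe⟩ := struct_thm F hF e x hx V' hFr
  refine ⟨n, fun i => (U i).map f, fun i => ⟨?_, ?_⟩, ?_⟩
  · rintro y ⟨u, hu, rfl⟩
    exact (hU i).1 hu
  · rw [← (Submodule.equivMapOfInjective f hfi (U i)).finrank_eq]
    exact (hU i).2
  · ext y
    have h1 : y / y₀ ∈ {z : ℂ | z ∈ V' ∧ RX e x z} ↔ y ∈ {y : ℂ | y ∈ V ∧ RX e x (y / y₀)} := by
      change (y₀ * (y / y₀) ∈ V ∧ _) ↔ _
      rw [mul_div_cancel₀ _ hy]
      exact Iff.rfl
    rw [← h1, hUe, Set.mem_iUnion, Set.mem_iUnion]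
    refine exists_congr fun i => ?_
    constructor
    · intro h
      exact ⟨y / y₀, h, by rw [hf, mul_div_cancel₀ _ hy]⟩
    · rintro ⟨u, hu, rfl⟩
      rw [hf, mul_div_cancel_left₀ _ hy]
      exact hu

/-- translation by a constant -/
theorem sxl_add_const {K L : Type} [Field K] [Field L] [Algebra K L] {e : ℕ} {x y : L} (c : K)
    (h : SXL K e x y) : SXL K e x (y + algebraMap K L c) := by
  obtain ⟨R, hR, hd, h0⟩ := h
  refine ⟨Polynomial.taylor (MvPolynomial.C (-c)) R, ?_, fun j => ?_, ?_⟩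
  · intro h1
    apply hR
    apply Polynomial.taylor_injective (MvPolynomial.C (-c))
    rw [h1, map_zero]
  · rw [Polynomial.taylor_coeff, Polynomial.eval_eq_sum_range]
    refine MvPolynomial.totalDegree_finsetSum_le fun i _ => ?_
    rw [Polynomial.hasseDeriv_coeff, ← map_pow]
    refine (MvPolynomial.totalDegree_mul _ _).trans ?_
    rw [MvPolynomial.totalDegree_C, add_zero]
    refine (MvPolynomial.totalDegree_mul _ _).trans ?_
    have h1 : (((i + j).choose j : ℕ) : MvPolynomial (Fin 1) K) =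
        MvPolynomial.C (((i + j).choose j : ℕ) : K) := by
      rw [map_natCast]
    rw [h1, MvPolynomial.totalDegree_C, zero_add]
    exact hd _
  · rw [Polynomial.taylor_apply, Polynomial.eval₂_comp, Polynomial.eval₂_add, Polynomial.eval₂_X,
      Polynomial.eval₂_C]
    have h1 : (MvPolynomial.aeval (R := K) (fun _ : Fin 1 => x)).toRingHom (MvPolynomial.C (-c)) =
        - algebraMap K L c := by
      change MvPolynomial.aeval (fun _ : Fin 1 => x) (MvPolynomial.C (-c)) = _
      rw [MvPolynomial.aeval_C, map_neg]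
    rw [h1, add_neg_cancel_right]
    exact h0

theorem rx_add_const {e : ℕ} {x y : ℂ} {c : ℂ} (hc : IsAlgebraic ℚ c) (h : RX e x y) :
    RX e x (y + c) :=
  rx_of_sxl (sxl_add_const (K := algebraicClosure ℚ ℂ) ⟨c, mem_algebraicClosure_iff.2 hc⟩
    (sxl_of_rx h))

/-- the space of all combinations with algebraic coefficients -/
theorem free0_all (F : Subfield ℂ) (hF : ∀ c, c ∈ F ↔ IsAlgebraic ℚ c) (V : Submodule F ℂ) :
    Pool.Agent.QNH.Free0 (algebraicClosure ℚ ℂ) V := by
  intro ι _ v _ hi c hc i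
  have h1 := Fintype.linearIndependent_iff.1 hi
    (fun i => ⟨(c i : ℂ), (hF _).2 (mem_algebraicClosure_iff.1 (c i).2)⟩) (by
      rw [← hc]
      exact Finset.sum_congr rfl fun i _ => rfl) i
  exact Subtype.ext (congrArg (fun z : F => (z : ℂ)) h1)

/-- the moment curve -/
theorem curve (e : ℕ) (x : ℂ) (hx : ¬ IsAlgebraic ℚ x) (v : Fin (e + 2) → ℂ)
    (hv : LinearIndependent (algebraicClosure ℚ ℂ) v) :
    {β : ℂ | IsAlgebraic ℚ β ∧
      RX e x ((∑ i : Fin (e + 1), β ^ (i : ℕ) * v i.succ) / v 0)}.Finite := by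
  classical
  let F : Subfield ℂ := (algebraicClosure ℚ ℂ).toSubfield
  have hF : ∀ c, c ∈ F ↔ IsAlgebraic ℚ c := fun c => mem_algebraicClosure_iff
  have hvF : LinearIndependent F v := by
    rw [Fintype.linearIndependent_iff] at hv ⊢
    intro g hg i
    have h1 := hv (fun i => ⟨(g i : ℂ), mem_algebraicClosure_iff.2 ((hF _).1 (g i).2)⟩) (by
      rw [← hg]
      exact Finset.sum_congr rfl fun i _ => rfl) i
    exact Subtype.ext (congrArg (fun z : algebraicClosure ℚ ℂ => (z : ℂ)) h1)
  let V : Submodule F ℂ := span F (Set.range v)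
  have hfin : FiniteDimensional F V := FiniteDimensional.span_of_finite F (Set.finite_range _)
  obtain ⟨n, U, hU, hUe⟩ := struct_div F (fun c hc => (hF c).1 hc) e x hx V (free0_all F hF V)
    (v 0) (hv.ne_zero 0)
  by_contra hcon
  -- the full moment curve
  let z : ℂ → ℂ := fun β => ∑ i : Fin (e + 1), β ^ (i : ℕ) * v i.succ + β ^ (e + 1) * v 0
  have hz : ∀ β, IsAlgebraic ℚ β ∧
      RX e x ((∑ i : Fin (e + 1), β ^ (i : ℕ) * v i.succ) / v 0) → ∃ i, z β ∈ U i := by
    rintro β ⟨hβ, h⟩
    suffices hs : z β ∈ ⋃ i, (U i : Set ℂ) from Set.mem_iUnion.1 hs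
    rw [← hUe]
    refine ⟨?_, ?_⟩
    · refine add_mem (sum_mem fun i _ => ?_) ?_
      · exact smul_mem V ⟨β ^ (i : ℕ), (hF _).2 (hβ.pow _)⟩
          (subset_span (Set.mem_range_self _))
      · exact smul_mem V ⟨β ^ (e + 1), (hF _).2 (hβ.pow _)⟩
          (subset_span (Set.mem_range_self _))
    · have h1 : z β / v 0 = (∑ i : Fin (e + 1), β ^ (i : ℕ) * v i.succ) / v 0 + β ^ (e + 1) := by
        simp only [z]
        rw [add_div, mul_div_cancel_right₀ _ (hv.ne_zero 0)]
      rw [h1]
      exact rx_add_const (hβ.pow _) h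
  have hinf : Set.Infinite {β : ℂ | IsAlgebraic ℚ β ∧
      RX e x ((∑ i : Fin (e + 1), β ^ (i : ℕ) * v i.succ) / v 0)} := hcon
  have := hinf.to_subtype
  choose idx hidx using fun β : {β : ℂ | IsAlgebraic ℚ β ∧
      RX e x ((∑ i : Fin (e + 1), β ^ (i : ℕ) * v i.succ) / v 0)} => hz β β.2
  obtain ⟨k, hk⟩ := Finite.exists_infinite_fiber idx
  have hk' : Infinite (idx ⁻¹' {k}) := hk
  obtain ⟨b, hb⟩ : ∃ b : Fin (e + 2) → idx ⁻¹' {k}, Function.Injective b :=
    ⟨_, (Infinite.natEmbedding _).injective.comp Fin.val_injective⟩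
  let β : Fin (e + 2) → ℂ := fun j => (b j).1.1
  have hβi : Function.Injective β := fun i j h => hb (Subtype.ext (Subtype.ext h))
  have hβa : ∀ j, IsAlgebraic ℚ (β j) := fun j => (b j).1.2.1
  have hβU : ∀ j, z (β j) ∈ U k := fun j => by
    have h1 := hidx (b j).1
    have h2 : idx (b j).1 = k := (b j).2
    rwa [h2] at h1
  have hfinU : FiniteDimensional F (U k) := Submodule.finiteDimensional_of_le (hU k).1
  -- independence
  have hind : LinearIndependent F fun j => (⟨z (β j), hβU j⟩ : U k) := by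
    have h0 : LinearIndependent F fun j => z (β j) := by
      rw [Fintype.linearIndependent_iff]
      intro g hg
      have h1 : ∀ i : Fin (e + 1), ∑ j, (g j : ℂ) * β j ^ (i : ℕ) = 0 ∧
          ∑ j, (g j : ℂ) * β j ^ (e + 1) = 0 := by
        let c : Fin (e + 2) → F := Fin.cons
          ⟨∑ j, (g j : ℂ) * β j ^ (e + 1), sum_mem fun j _ =>
            mul_mem (g j).2 (pow_mem ((hF _).2 (hβa j)) _)⟩
          fun i : Fin (e + 1) => ⟨∑ j, (g j : ℂ) * β j ^ (i : ℕ), sum_mem fun j _ =>
            mul_mem (g j).2 (pow_mem ((hF _).2 (hβa j)) _)⟩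
        have h2 : ∑ i, c i • v i = 0 := by
          rw [Fin.sum_univ_succ, ← hg]
          have h3 : ∀ j, g j • z (β j) = (g j : ℂ) * β j ^ (e + 1) * v 0 +
              ∑ i : Fin (e + 1), (g j : ℂ) * β j ^ (i : ℕ) * v i.succ := by
            intro j
            change (g j : ℂ) * (∑ i : Fin (e + 1), β j ^ (i : ℕ) * v i.succ +
              β j ^ (e + 1) * v 0) = _
            rw [mul_add, Finset.mul_sum, add_comm, mul_assoc]
            congr 1
            exact Finset.sum_congr rfl fun i _ => (mul_assoc _ _ _).symm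
          rw [Finset.sum_congr rfl fun j _ => h3 j, Finset.sum_add_distrib, Finset.sum_comm,
            ← Finset.sum_mul]
          congr 1
          refine Finset.sum_congr rfl fun i _ => ?_
          rw [← Finset.sum_mul]
          rfl
        have h3 := Fintype.linearIndependent_iff.1 hvF c h2
        intro i
        refine ⟨?_, ?_⟩
        · exact congrArg (fun z : F => (z : ℂ)) (h3 i.succ)
        · exact congrArg (fun z : F => (z : ℂ)) (h3 0)
      have h2 : ∀ i : Fin (e + 2), ∑ j, (g j : ℂ) * β j ^ (i : ℕ) = 0 := by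
        intro i
        rcases Nat.lt_or_ge (i : ℕ) (e + 1) with hi | hi
        · exact (h1 ⟨i, hi⟩).1
        · have h3 : (i : ℕ) = e + 1 := by omega
          rw [h3]
          exact (h1 0).2
      have h3 : (fun j => (g j : ℂ)) = 0 := by
        refine Matrix.eq_zero_of_vecMul_eq_zero (M := Matrix.vandermonde β)
          (Matrix.det_vandermonde_ne_zero_iff.2 hβi) ?_
        funext i
        rw [Matrix.vecMul, dotProduct]
        simp only [Matrix.vandermonde_apply]
        exact h2 i
      intro j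
      exact Subtype.ext (congrFun h3 j)
    rw [← LinearMap.linearIndependent_iff (U k).subtype (Submodule.ker_subtype _)]
    exact h0
  have h1 := hind.fintype_card_le_finrank
  rw [Fintype.card_fin] at h1
  have h2 := (hU k).2
  omega

end Pool.Agent.DI
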