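import Pool.Agent.DI.Grid
import Pool.Agent.DI.Cube
import Pool.Agent.DI.Pole
import Pool.Agent.DI.Deg
import Pool.Agent.DI.Model

/-! # The subbox with relations of bounded degree -/

namespace Pool.Agent.DI

open Pool.Agent.QN Pool.Agent.QS

theorem TR_mono {K L : Type} [Field K] [Field L] [Algebra K L] {d d' : ℕ} (h : d ≤ d') {y y' : L}
    (hy : TR K d y y') : TR K d' y y' := by
  obtain ⟨P, h1, h2, h3⟩ := hy
  exact ⟨P, h1, h2.trans h, h3⟩

theorem TR_map {K L L' : Type} [Field K] [Field L] [Algebra K L] [Field L'] [Algebra K L'] {d : ℕ}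
    (φ : L →ₐ[K] L') {y y' : L} (hy : TR K d y y') : TR K d (φ y) (φ y') := by
  obtain ⟨P, h1, h2, h3⟩ := hy
  refine ⟨P, h1, h2, ?_⟩
  have h4 : (![φ y, φ y'] : Fin 2 → L') = fun i => φ ((![y, y'] : Fin 2 → L) i) := by
    funext i
    fin_cases i
    · rfl
    · rfl
  rw [h4, ← MvPolynomial.comp_aeval_apply, h3, map_zero]

/-- the change of the coordinates `I '' A` -/
theorem exists_point {V : Type} [AddCommGroup V] {n t M0 : ℕ} (w : Fin n → Fin t → V)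
    (I : Fin M0 → Fin n) (hI : Function.Injective I) (z0 : Fin n → Fin t) (j : Fin M0 → Fin t)
    (A : Finset (Fin M0)) : ∃ z : Fin n → Fin t, ∑ m, w m (z m) =
      ∑ m, w m (z0 m) + ∑ m ∈ A, (w (I m) (j m) - w (I m) (z0 (I m))) := by
  classical
  let z : Fin n → Fin t := fun k => if h : ∃ m ∈ A, I m = k then j h.choose else z0 k
  have hz : ∀ m ∈ A, z (I m) = j m := by
    intro m hm
    have h : ∃ m' ∈ A, I m' = I m := ⟨m, hm, rfl⟩
    have h1 : z (I m) = j h.choose := dif_pos h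
    rw [h1, hI h.choose_spec.2]
  have hz' : ∀ k, k ∉ A.image I → z k = z0 k := by
    intro k hk
    refine dif_neg fun h => hk ?_
    obtain ⟨m, hm, rfl⟩ := h
    exact Finset.mem_image_of_mem _ hm
  refine ⟨z, ?_⟩
  rw [← sub_eq_iff_eq_add', ← Finset.sum_sub_distrib]
  rw [← Finset.sum_subset (Finset.subset_univ (A.image I)) fun k _ hk => by
    rw [hz' k hk, sub_self]]
  rw [Finset.sum_image fun a _ b _ h => hI h]
  exact Finset.sum_congr rfl fun m hm => by rw [hz m hm]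

theorem subbox (e : ℕ) : ∃ d : ℕ, 0 < d ∧ ∀ M0 : ℕ, ∃ t n : ℕ, 0 < t ∧ 0 < n ∧
    ∀ (K : Type) [Field K] [CharZero K] [IsAlgClosed K] [Algebra K ℂ] (x : ℂ)
      (_ : ¬ IsAlgebraic K x) (c : ℂ) (w : Fin n → Fin t → ℂ),
      (∀ z : Fin n → Fin t, SXL K e x (c + ∑ m, w m (z m)) ∧
        ¬ ∃ κ : K, algebraMap K ℂ κ = c + ∑ m, w m (z m)) →
      (∀ m i j, ∃ e', SXL K e' x (w m i - w m j)) →
      ∃ (I : Fin M0 → Fin n) (z0 : Fin n → Fin t) (j : Fin M0 → Fin t), Function.Injective I ∧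
        (∀ m, j m ≠ z0 (I m)) ∧ ∀ A A' : Finset (Fin M0),
          TR K d (c + ∑ m, w m (z0 m) + ∑ m ∈ A, (w (I m) (j m) - w (I m) (z0 (I m))))
            (c + ∑ m, w m (z0 m) + ∑ m ∈ A', (w (I m) (j m) - w (I m) (z0 (I m)))) := by
  classical
  obtain ⟨B, hB0, hB⟩ := cube e
  obtain ⟨B2, hB20, hB2⟩ := grid B
  refine ⟨2 * (e * B2) + 1, Nat.succ_pos _, fun M0 => ?_⟩
  obtain ⟨t, n, ht, hn, hgr⟩ := hB2 M0
  refine ⟨t, n, ht, hn, ?_⟩
  intro K _ _ _ _ x hx c w hS hw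
  let i0 : Fin t := ⟨0, ht⟩
  -- the model
  let Y : Set ℂ := {c + ∑ m, w m i0} ∪ Set.range fun p : Fin n × Fin t => w p.1 p.2 - w p.1 i0
  have hYf : Y.Finite := (Set.finite_singleton _).union (Set.finite_range _)
  have hY : ∀ y ∈ Y, ∃ e', SXL K e' x y := by
    rintro y (rfl | ⟨p, rfl⟩)
    · exact ⟨e, (hS fun _ => i0).1⟩
    · exact hw _ _ _
  obtain ⟨M, iM, iKM, iAM, iQM, iAQ, iKA, iKQ, iF, iG, φ, hφY, hφS⟩ := exists_model x hx Y hYf hY
  obtain ⟨c', hc'⟩ := hφY (c + ∑ m, w m i0) (Or.inl rfl)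
  choose w' hw' using fun (m : Fin n) (i : Fin t) => hφY (w m i - w m i0) (Or.inr ⟨(m, i), rfl⟩)
  have hφz : ∀ z : Fin n → Fin t, φ (c' + ∑ m, w' m (z m)) = c + ∑ m, w m (z m) := by
    intro z
    rw [map_add, map_sum, hc', Finset.sum_congr rfl fun m _ => hw' m (z m),
      Finset.sum_sub_distrib]
    ring
  have hin : ∀ z : Fin n → Fin t, SX K e (c' + ∑ m, w' m (z m)) ∧
      ¬ ∃ κ : K, algebraMap K M κ = c' + ∑ m, w' m (z m) := by
    intro z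
    refine ⟨hφS e _ (by rw [hφz]; exact (hS z).1), ?_⟩
    rintro ⟨κ, hκ⟩
    refine (hS z).2 ⟨κ, ?_⟩
    rw [← hφz, ← hκ, AlgHom.commutes]
  have : CharZero M := charZero_of_injective_algebraMap (algebraMap K M).injective
  -- the cube hypothesis
  have hcube : ∀ (y : M) (v : Fin 7 → M),
      (∀ A : Finset (Fin 7), ∃ z : Fin n → Fin t, y + ∑ m ∈ A, v m = c' + ∑ m, w' m (z m)) →
      ∃ A A' : Finset (Fin 7), A ≠ A' ∧
        Near (M ≃ₐ[Q K 1] M) B (y + ∑ m ∈ A, v m) (y + ∑ m ∈ A', v m) := by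
    intro y v hyv
    obtain ⟨z1, hz1⟩ := hyv ∅
    obtain ⟨Γ, iΓ, ν, π, hP, hPB, g, hg⟩ := exists_pole (K := K) (y + ∑ m ∈ (∅ : Finset (Fin 7)), v m)
      (by rw [hz1]; exact (hin z1).2)
    refine hB K (Q K 1) M Γ ν π hP (algebraMap K ℂ) y v (fun A => ?_) ⟨∅, g, hg⟩
    obtain ⟨z, hz⟩ := hyv A
    rw [hz]
    exact hPB e _ (hin z).1
  obtain ⟨I, z0, j, hI, hj, hA⟩ := hgr (M ≃ₐ[Q K 1] M) M c' w' hcube
  refine ⟨I, z0, j, hI, hj, fun A A' => ?_⟩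
  -- the elements of the subbox
  have hel : ∀ A : Finset (Fin M0), ∃ z : Fin n → Fin t,
      c' + ∑ m, w' m (z0 m) + ∑ m ∈ A, (w' (I m) (j m) - w' (I m) (z0 (I m))) =
        c' + ∑ m, w' m (z m) := by
    intro A
    obtain ⟨z, hz⟩ := exists_point w' I hI z0 j A
    exact ⟨z, by rw [hz, add_assoc]⟩
  have hφA : ∀ A : Finset (Fin M0),
      φ (c' + ∑ m, w' m (z0 m) + ∑ m ∈ A, (w' (I m) (j m) - w' (I m) (z0 (I m)))) =
        c + ∑ m, w m (z0 m) + ∑ m ∈ A, (w (I m) (j m) - w (I m) (z0 (I m))) := by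
    intro A
    rw [map_add, hφz, map_sum]
    congr 1
    refine Finset.sum_congr rfl fun m _ => ?_
    rw [map_sub, hw', hw']
    ring
  set F : Subgroup (M ≃ₐ[Q K 1] M) :=
    MulAction.stabilizer (M ≃ₐ[Q K 1] M) (c' + ∑ m, w' m (z0 m)) ⊓
      ⨅ m : Fin M0, MulAction.stabilizer (M ≃ₐ[Q K 1] M)
        (w' (I m) (j m) - w' (I m) (z0 (I m))) with hF
  have hFfix : ∀ g ∈ F, ∀ A : Finset (Fin M0),
      g (c' + ∑ m, w' m (z0 m) + ∑ m ∈ A, (w' (I m) (j m) - w' (I m) (z0 (I m)))) =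
        c' + ∑ m, w' m (z0 m) + ∑ m ∈ A, (w' (I m) (j m) - w' (I m) (z0 (I m))) := by
    intro g hg A
    rw [hF, Subgroup.mem_inf, Subgroup.mem_iInf] at hg
    obtain ⟨hg1, hg2⟩ := hg
    rw [MulAction.mem_stabilizer_iff, AlgEquiv.smul_def] at hg1
    rw [map_add, hg1, map_sum]
    congr 1
    refine Finset.sum_congr rfl fun m _ => ?_
    have := hg2 m
    rwa [MulAction.mem_stabilizer_iff, AlgEquiv.smul_def] at this
  obtain ⟨z, hz⟩ := hel A
  obtain ⟨z', hz'⟩ := hel A'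
  have hrel := near_rel (K := K) (e := e) (B := B2)
    (c' + ∑ m, w' m (z0 m) + ∑ m ∈ A, (w' (I m) (j m) - w' (I m) (z0 (I m))))
    (c' + ∑ m, w' m (z0 m) + ∑ m ∈ A', (w' (I m) (j m) - w' (I m) (z0 (I m))))
    (by rw [hz]; exact (hin z).1) (by rw [hz']; exact (hin z').1)
    (by rw [hz]; exact (hin z).2) (by rw [hz']; exact (hin z').2) F
    (fun g hg => ⟨hFfix g hg A, hFfix g hg A'⟩) (hA A) (hA A')
  have hrel' := TR_mono (Nat.le_succ _) (TR_map φ hrel)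
  rwa [hφA A, hφA A'] at hrel'

end Pool.Agent.DI
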