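import Pool.Agent.QDen.Box

/-! # Grids of subsets -/

set_option autoImplicit false

namespace Pool.Agent.DI

/-- a family of `n`-subsets of `Fin N` which contains no full grid is small -/
theorem grid_subsets (n s : ℕ) (hs : 1 ≤ s) : ∃ C c : ℝ, 0 < C ∧ 0 < c ∧ c ≤ 1 ∧
    ∀ N : ℕ, 0 < N → ∀ H : Set (Finset (Fin N)), (∀ T ∈ H, T.card = n) →
      (∀ p : Fin n → Fin s → Fin N, (∀ m, Function.Injective (p m)) →
        (∀ m m', m ≠ m' → ∀ i i', p m i ≠ p m' i') →
        ∃ z : Fin n → Fin s, Finset.univ.image (fun m => p m (z m)) ∉ H) →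
      (H.ncard : ℝ) ≤ C * (N : ℝ) ^ ((n : ℝ) - c) := by
  classical
  obtain ⟨C, c, hC, hc, hc1, h⟩ := Pool.Agent.QDen.box_ord hs n
  refine ⟨C, c, hC, hc, hc1, fun N hN H0 hH0 hgrid => ?_⟩
  have : NeZero N := ⟨hN.ne'⟩
  set H : Finset (Finset (Fin N)) := Finset.univ.filter fun T => T ∈ H0 with hH
  have e0 : H0 = ↑H := by
    ext T
    simp [hH]
  have hH' : ∀ T ∈ H, T.card = n := fun T hT => by
    rw [hH, Finset.mem_filter] at hT
    exact hH0 T hT.2
  rw [e0, Set.ncard_coe_finset]
  by_contra hcon
  push Not at hcon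
  set e : Finset (Fin N) → (Fin n → ℕ) := fun T =>
    if hT : T.card = n then fun i => ((T.orderEmbOfFin hT i : Fin N) : ℕ) else fun _ => 0 with he
  have hev : ∀ T (hT : T ∈ H) (i : Fin n), e T i = ((T.orderEmbOfFin (hH' T hT) i : Fin N) : ℕ) := by
    intro T hT i
    rw [he]
    simp only [hH' T hT, dif_pos]
  have himg : ∀ T ∈ H, Finset.univ.image (e T) = T.image fun a : Fin N => (a : ℕ) := by
    intro T hT
    have h1 := T.image_orderEmbOfFin_univ (hH' T hT)
    ext a
    rw [Finset.mem_image, Finset.mem_image]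
    constructor
    · rintro ⟨i, -, rfl⟩
      exact ⟨_, T.orderEmbOfFin_mem (hH' T hT) i, (hev T hT i).symm⟩
    · rintro ⟨b, hb, rfl⟩
      rw [← h1, Finset.mem_image] at hb
      obtain ⟨i, -, rfl⟩ := hb
      exact ⟨i, Finset.mem_univ _, hev T hT i⟩
  have hval : Function.Injective fun a : Fin N => (a : ℕ) := Fin.val_injective
  have hinj : Set.InjOn e H := by
    intro T hT T' hT' h
    have h1 := himg T hT
    rw [h, himg T' hT'] at h1
    exact (Finset.image_injective hval h1).symm
  have hinje : ∀ T ∈ H, Function.Injective (e T) := by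
    intro T hT i j hij
    rw [hev T hT, hev T hT] at hij
    exact (T.orderEmbOfFin (hH' T hT)).injective (hval hij)
  obtain ⟨V, hV, hVH⟩ := h (Finset.range N) (Finset.nonempty_range_iff.2 hN.ne') (H.image e)
    (fun f hf i => by
      obtain ⟨T, hT, rfl⟩ := Finset.mem_image.1 hf
      rw [Finset.mem_range, hev T hT]
      exact (T.orderEmbOfFin (hH' T hT) i).isLt) (by
    rw [Finset.card_image_of_injOn hinj, Finset.card_range]
    exact hcon)
  have hVne : ∀ i, (V i).Nonempty := fun i => by
    rw [← Finset.card_pos, (hV i).2]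
    exact hs
  choose v0 hv0 using hVne
  let p : Fin n → Fin s → Fin N := fun m i =>
    Fin.ofNat N (((V m).equivFinOfCardEq (hV m).2).symm i : ℕ)
  have hpv : ∀ m i, ((p m i : Fin N) : ℕ) = ((V m).equivFinOfCardEq (hV m).2).symm i := by
    intro m i
    have h1 := (hV m).1 (((V m).equivFinOfCardEq (hV m).2).symm i).2
    rw [Finset.mem_range] at h1
    exact Nat.mod_eq_of_lt h1
  have hpV : ∀ m i, ((p m i : Fin N) : ℕ) ∈ V m := fun m i => by
    rw [hpv]
    exact (((V m).equivFinOfCardEq (hV m).2).symm i).2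
  obtain ⟨z, hz⟩ := hgrid p (fun m i j hij => by
      have h1 := congrArg (fun a : Fin N => (a : ℕ)) hij
      simp only [hpv] at h1
      exact ((V m).equivFinOfCardEq (hV m).2).symm.injective (Subtype.ext h1)) (by
    intro i j hij a b hab
    have hpi := hpV i a
    have hpj := hpV j b
    rw [← hab] at hpj
    set q : ℕ := ((p i a : Fin N) : ℕ) with hq
    have h1 : (fun l => if l = i then q else if l = j then q else v0 l) ∈ Fintype.piFinset V := by
      rw [Fintype.mem_piFinset]
      intro l
      by_cases hli : l = i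
      · simp only [hli, if_true]
        exact hpi
      · by_cases hlj : l = j
        · simp only [hlj, if_neg (Ne.symm hij), if_true]
          exact hpj
        · simp only [hli, hlj, if_false]
          exact hv0 l
    obtain ⟨T, hT, hTe⟩ := Finset.mem_image.1 (hVH h1)
    have h2 : e T i = e T j := by
      rw [hTe]
      simp [Ne.symm hij]
    exact hij (hinje T hT h2))
  apply hz
  have h1 : (fun m => ((p m (z m) : Fin N) : ℕ)) ∈ Fintype.piFinset V :=
    Fintype.mem_piFinset.2 fun m => hpV m _
  obtain ⟨T, hT, hTe⟩ := Finset.mem_image.1 (hVH h1)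
  have h2 : Finset.univ.image (fun m => p m (z m)) = T := by
    apply Finset.image_injective hval
    rw [← himg T hT, hTe, Finset.image_image]
    rfl
  rw [h2]
  have h3 : T ∈ H := hT
  rw [hH, Finset.mem_filter] at h3
  exact h3.2

end Pool.Agent.DI
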