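import Pool.Agent.DI.End
import Pool.Agent.DI.SubsA

/-! # Subset sums of independent logarithms -/

namespace Pool.Agent.DI

open Pool.Agent.QS

theorem subsets (e : ℕ) : ∃ (n : ℕ) (C c : ℝ), 0 < n ∧ 0 < C ∧ 0 < c ∧ c ≤ 1 ∧
    ∀ x : ℂ, ¬ IsAlgebraic ℚ x → ∀ t : ℂ, IsAlgebraic ℚ (Complex.exp t) →
    ∀ (N : ℕ) (l : Fin N → ℂ), 0 < N → (∀ i, IsAlgebraic ℚ (Complex.exp (l i))) →
      LinearIndependent ℚ l →
      ({A : Finset (Fin N) | A.card = n ∧ RX e x (t + ∑ i ∈ A, l i)}.ncard : ℝ) ≤
        C * (N : ℝ) ^ ((n : ℝ) - c) := by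
  classical
  obtain ⟨d, hd, hsub⟩ := subbox e
  obtain ⟨M0, hM0⟩ := no_cube d hd
  obtain ⟨s, n, hs, hn, hbox⟩ := hsub M0
  obtain ⟨C, c0, hC, hc0, hc1, hfew⟩ := grid_subsets n s hs
  refine ⟨n, 1 + C, c0, hn, by positivity, hc0, hc1, fun x hx t ht N l hN hl hli => ?_⟩
  let K := algebraicClosure ℚ ℂ
  have : IsAlgClosed K := (algebraicClosure.isAlgClosure ℚ ℂ).isAlgClosed
  have hxK : ¬ IsAlgebraic K x := by
    intro h
    have : Algebra.IsAlgebraic ℚ K := algebraicClosure.isAlgebraic ℚ ℂ
    exact hx (h.restrictScalars ℚ)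
  have hexp : ∀ A : Finset (Fin N), IsAlgebraic ℚ (Complex.exp (t + ∑ i ∈ A, l i)) := by
    intro A
    rw [Complex.exp_add, Complex.exp_sum]
    refine ht.mul ?_
    induction A using Finset.induction_on with
    | empty => rw [Finset.prod_empty]; exact isAlgebraic_one
    | insert a A ha ih => rw [Finset.prod_insert ha]; exact (hl a).mul ih
  have htra : ∀ y : ℂ, IsAlgebraic ℚ (Complex.exp y) → y ≠ 0 → ¬ IsAlgebraic ℚ y := by
    intro y hy hy0
    have h1 := Pool.Agent.QDen.transcendental_lam hy (le_refl 1) (by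
      rw [Nat.cast_one, Real.log_one, Complex.ofReal_zero, add_zero]
      exact hy0)
    rw [Nat.cast_one, Real.log_one, Complex.ofReal_zero, add_zero] at h1
    exact h1
  -- the subsets with non-zero sum
  have hmain : ({A : Finset (Fin N) | (A.card = n ∧ t + ∑ i ∈ A, l i ≠ 0) ∧
      RX e x (t + ∑ i ∈ A, l i)}.ncard : ℝ) ≤ C * (N : ℝ) ^ ((n : ℝ) - c0) := by
    refine hfew N hN _ (fun A hA => hA.1.1) fun p hpi hpd => ?_
    by_contra hcon
    push Not at hcon
    let w : Fin n → Fin s → ℂ := fun m i => l (p m i)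
    have hpz : ∀ z : Fin n → Fin s, Function.Injective fun m => p m (z m) := by
      intro z m m' h
      by_contra hne
      exact hpd m m' hne _ _ h
    have hyz : ∀ z : Fin n → Fin s, t + ∑ m, w m (z m) =
        t + ∑ i ∈ Finset.univ.image (fun m => p m (z m)), l i := by
      intro z
      rw [Finset.sum_image fun a _ b _ h => hpz z h]
    have htr : ∀ z : Fin n → Fin s, ¬ IsAlgebraic ℚ (t + ∑ m, w m (z m)) := by
      intro z
      rw [hyz]
      exact htra _ (hexp _) (hcon z).1.2
    have hS : ∀ z : Fin n → Fin s, SXL K e x (t + ∑ m, w m (z m)) ∧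
        ¬ ∃ κ : K, algebraMap K ℂ κ = t + ∑ m, w m (z m) := by
      intro z
      refine ⟨?_, ?_⟩
      · rw [hyz]
        exact sxl_of_rx (hcon z).2
      · rintro ⟨κ, hκ⟩
        refine htr z ?_
        rw [← hκ]
        exact mem_algebraicClosure_iff.1 κ.2
    have hw : ∀ m i j, ∃ e', SXL K e' x (w m i - w m j) := by
      intro m i j
      let z : Fin n → Fin s := fun _ => j
      have h1 : w m i - w m j =
          (t + ∑ k, w k (Function.update z m i k)) - (t + ∑ k, w k (z k)) := by
        rw [add_sub_add_left_eq_sub, ← Finset.sum_sub_distrib, Finset.sum_eq_single m]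
        · rw [Function.update_self]
        · intro k _ hk
          rw [Function.update_of_ne hk, sub_self]
        · intro h
          exact absurd (Finset.mem_univ m) h
      rw [h1]
      exact sxl_sub ⟨e, (hS _).1⟩ ⟨e, (hS _).1⟩
    obtain ⟨I, z0, j, hI, hj, hTR⟩ := hbox K x hxK t w hS hw
    refine hM0 (t + ∑ m, w m (z0 m)) (fun m => w (I m) (j m) - w (I m) (z0 (I m))) ?_ ?_ ?_
      (htr z0) fun A => ?_
    · rw [hyz]
      exact hexp _
    · intro m
      rw [Complex.exp_sub]
      exact (hl _).mul (hl _).inv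
    · -- differences of different members of an independent family
      rw [Fintype.linearIndependent_iff]
      intro g hg m0
      have hli' := Fintype.linearIndependent_iff.1 hli
      have h1 := hli' (fun k => ∑ m, g m * ((if p (I m) (j m) = k then 1 else 0) -
        (if p (I m) (z0 (I m)) = k then 1 else 0))) (by
        rw [← hg]
        simp only [Finset.sum_smul]
        rw [Finset.sum_comm]
        refine Finset.sum_congr rfl fun m _ => ?_
        have h2 : ∀ k : Fin N, (g m * ((if p (I m) (j m) = k then (1 : ℚ) else 0) -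
            (if p (I m) (z0 (I m)) = k then (1 : ℚ) else 0))) • l k =
            g m • ((if p (I m) (j m) = k then l k else 0) -
              (if p (I m) (z0 (I m)) = k then l k else 0)) := by
          intro k
          rw [mul_smul]
          congr 1
          rw [sub_smul]
          congr 1
          · split_ifs
            · rw [one_smul]
            · rw [zero_smul]
          · split_ifs
            · rw [one_smul]
            · rw [zero_smul]
        rw [Finset.sum_congr rfl fun k _ => h2 k, ← Finset.smul_sum, Finset.sum_sub_distrib,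
          Finset.sum_ite_eq, Finset.sum_ite_eq, if_pos (Finset.mem_univ _),
          if_pos (Finset.mem_univ _)]) (p (I m0) (j m0))
      rw [Finset.sum_eq_single m0] at h1
      · rw [if_pos rfl, if_neg fun h => hj m0 (hpi (I m0) h.symm), sub_zero, mul_one] at h1
        exact h1
      · intro m _ hm
        rw [if_neg fun h => hpd _ _ (fun h' => hm (hI h')) _ _ h,
          if_neg fun h => hpd _ _ (fun h' => hm (hI h')) _ _ h, sub_zero, mul_zero]
      · intro h
        exact absurd (Finset.mem_univ _) h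
    · have h1 := hTR ∅ A
      rwa [Finset.sum_empty, add_zero] at h1
  -- at most one subset has sum zero
  have hzero : {A : Finset (Fin N) | t + ∑ i ∈ A, l i = 0}.ncard ≤ 1 := by
    rw [Set.ncard_le_one (Set.toFinite _)]
    intro A hA A' hA'
    have h0 : ∑ i ∈ A, l i = ∑ i ∈ A', l i := by
      have h1 : t + ∑ i ∈ A, l i = t + ∑ i ∈ A', l i := by
        rw [show t + ∑ i ∈ A, l i = 0 from hA, show t + ∑ i ∈ A', l i = 0 from hA']
      exact add_left_cancel h1
    have h2 := Fintype.linearIndependent_iff.1 hli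
      (fun i => (if i ∈ A then (1 : ℚ) else 0) - (if i ∈ A' then (1 : ℚ) else 0)) (by
        simp only [sub_smul, ite_smul, one_smul, zero_smul, Finset.sum_sub_distrib]
        rw [← Finset.sum_filter, ← Finset.sum_filter]
        simp only [Finset.filter_mem_eq_inter, Finset.univ_inter]
        rw [h0, sub_self])
    ext i
    have h3 := h2 i
    by_cases h4 : i ∈ A
    · by_cases h5 : i ∈ A'
      · exact ⟨fun _ => h5, fun _ => h4⟩
      · simp [h4, h5] at h3
    · by_cases h5 : i ∈ A'
      · simp [h4, h5] at h3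
      · exact ⟨fun h => absurd h h4, fun h => absurd h h5⟩
  have hsubset : {A : Finset (Fin N) | A.card = n ∧ RX e x (t + ∑ i ∈ A, l i)} ⊆
      {A : Finset (Fin N) | t + ∑ i ∈ A, l i = 0} ∪
        {A : Finset (Fin N) | (A.card = n ∧ t + ∑ i ∈ A, l i ≠ 0) ∧
          RX e x (t + ∑ i ∈ A, l i)} := by
    rintro A ⟨h1, h2⟩
    by_cases h3 : t + ∑ i ∈ A, l i = 0
    · exact Or.inl h3
    · exact Or.inr ⟨⟨h1, h3⟩, h2⟩
  have hcard := (Set.ncard_le_ncard hsubset (Set.toFinite _)).trans (Set.ncard_union_le _ _)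
  have hcard' : ({A : Finset (Fin N) | A.card = n ∧ RX e x (t + ∑ i ∈ A, l i)}.ncard : ℝ) ≤
      ({A : Finset (Fin N) | t + ∑ i ∈ A, l i = 0}.ncard : ℝ) +
        ({A : Finset (Fin N) | (A.card = n ∧ t + ∑ i ∈ A, l i ≠ 0) ∧
          RX e x (t + ∑ i ∈ A, l i)}.ncard : ℝ) := by
    exact_mod_cast hcard
  have hN1 : (1 : ℝ) ≤ (N : ℝ) ^ ((n : ℝ) - c0) := by
    refine Real.one_le_rpow (by exact_mod_cast hN) ?_
    have : (1 : ℝ) ≤ n := by exact_mod_cast hn
    linarith
  have hz1 : ({A : Finset (Fin N) | t + ∑ i ∈ A, l i = 0}.ncard : ℝ) ≤ 1 := by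
    exact_mod_cast hzero
  calc _ ≤ 1 + C * (N : ℝ) ^ ((n : ℝ) - c0) := by linarith
    _ ≤ 1 * (N : ℝ) ^ ((n : ℝ) - c0) + C * (N : ℝ) ^ ((n : ℝ) - c0) := by
        rw [one_mul]
        linarith
    _ = (1 + C) * (N : ℝ) ^ ((n : ℝ) - c0) := by ring

end Pool.Agent.DI
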