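import Pool.Agent.DI.Defs

/-! # The decomposition group and the leading coefficient at a place -/

namespace Pool.Agent.DI

open Pool.Agent.QN Pool.Agent.QS

variable {K Q M Γ : Type} [Field K] [Field Q] [Field M] [Algebra K Q] [Algebra K M] [Algebra Q M]
  [IsScalarTower K Q M] [LinearOrderedCommGroupWithZero Γ] {v : Valuation M Γ} {π : Γ}

/-- the decomposition group -/
private def Dec (Q : Type) [Field Q] [Algebra Q M] (v : Valuation M Γ) : Subgroup (M ≃ₐ[Q] M) where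
  carrier := {g | ∀ u, v (g u) = v u}
  one_mem' := fun u => rfl
  mul_mem' := by
    intro a b ha hb u
    rw [AlgEquiv.mul_apply, ha, hb]
  inv_mem' := by
    intro a ha u
    have h1 := ha (a⁻¹ u)
    rw [← AlgEquiv.mul_apply, mul_inv_cancel, AlgEquiv.one_apply] at h1
    exact h1.symm

private theorem mem_Dec {Q : Type} [Field Q] [Algebra Q M] {v : Valuation M Γ} {g : M ≃ₐ[Q] M} :
    g ∈ Dec Q v ↔ ∀ u, v (g u) = v u := Iff.rfl

/-- the class of `1` for the decomposition group is the group itself -/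
private theorem sameV_Dec [Infinite K] [FiniteDimensional Q M] (h : Plc K Q v π)
    (τ : M ≃ₐ[Q] M) (hτ : SameV (Dec Q v) v 1 τ) : τ ∈ Dec Q v := by
  classical
  by_contra hn
  obtain ⟨q, hq⟩ := h.disc.surj
  have hy : ∀ g : M ≃ₐ[Q] M, v (g (algebraMap Q M q⁻¹)) = π⁻¹ := by
    intro g
    rw [AlgEquiv.commutes, map_inv₀, map_inv₀, hq]
  have hb0 : ∀ g ∈ (⊥ : Subgroup (M ≃ₐ[Q] M)), g (algebraMap Q M q⁻¹) = algebraMap Q M q⁻¹ :=
    fun g _ => g.commutes _
  obtain ⟨b, -, hb2, hb3⟩ := exists_single_pole h.disc h.const ⊥ (algebraMap Q M q⁻¹) hb0 1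
  have hin : ∀ g : M ≃ₐ[Q] M, g ∈ Dec Q v → v (g b) = π⁻¹ := by
    intro g hg
    rw [hb2 g (fun z _ => (hg z).symm), hy]
  have hout : ∀ g : M ≃ₐ[Q] M, g ∉ Dec Q v → v (g b) ≤ 1 := by
    intro g hg
    apply hb3 g
    intro hs
    apply hg
    intro u
    exact (hs u (fun k hk => by rw [Subgroup.mem_bot.1 hk]; rfl)).symm
  have : Fintype (Dec Q v) := Fintype.ofFinite _
  have hz : ∀ k ∈ Dec Q v, k (∏ d : Dec Q v, (d : M ≃ₐ[Q] M) b) =
      ∏ d : Dec Q v, (d : M ≃ₐ[Q] M) b := by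
    intro k hk
    rw [map_prod]
    exact Fintype.prod_equiv (Equiv.mulLeft (⟨k, hk⟩ : Dec Q v)) _ _ fun d => rfl
  have h1 := hτ _ hz
  rw [AlgEquiv.one_apply, map_prod, map_prod, map_prod] at h1
  have h2 : ∏ d : Dec Q v, v ((d : M ≃ₐ[Q] M) b) = π⁻¹ ^ Fintype.card (Dec Q v) := by
    rw [Finset.prod_congr rfl fun d _ => hin _ (SetLike.coe_mem d), Finset.prod_const,
      Finset.card_univ]
  have h3 : ∏ d : Dec Q v, v (τ ((d : M ≃ₐ[Q] M) b)) ≤ 1 := by
    refine Finset.prod_le_one' fun d _ => ?_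
    rw [← AlgEquiv.mul_apply]
    apply hout
    intro hm
    exact hn ((Subgroup.mul_mem_cancel_right _ d.2).1 hm)
  rw [← h1, h2] at h3
  have h4 : 1 < π⁻¹ := (one_lt_inv₀ h.disc.pos).2 h.disc.lt
  exact absurd h3 (not_le.2 (one_lt_pow₀ h4 Fintype.card_ne_zero))

/-- an element fixed by the decomposition group has a value of `Q` -/
theorem Plc.fix [Infinite K] [FiniteDimensional Q M] [IsGalois Q M] (h : Plc K Q v π) (z : M)
    (hz : ∀ g : M ≃ₐ[Q] M, (∀ u, v (g u) = v u) → g z = z) (h1 : 1 < v z) : 1 ≤ v z * π := by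
  have hz' : ∀ g ∈ Dec Q v, g z = z := fun g hg => hz g hg
  have h2 := class_one h.disc h.const (Dec Q v) z hz' 1 h1 {Cs.mk (Dec Q v) 1} (by
    intro τ
    rw [Finset.mem_singleton, Cs.mk_eq_iff, mul_one]
    constructor
    · intro hτ w hw
      rw [AlgEquiv.one_apply, ((Dec Q v).inv_mem_iff.1 hτ) w]
    · intro hs
      exact (Dec Q v).inv_mem (sameV_Dec h τ hs))
  rw [Finset.prod_singleton, cj_mk _ z hz'] at h2
  exact h2

/-- constants -/
private theorem cle (h : Plc K Q v π) (κ : K) : v (algebraMap K M κ) ≤ 1 := by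
  by_cases hκ : κ = 0
  · rw [hκ, map_zero, map_zero]
    exact zero_le_one
  · exact (h.const κ hκ).le

private theorem uniq (h : Plc K Q v π) {z0 z : M} {κ κ' : K}
    (hκ : v (z - algebraMap K M κ * z0) < v z0) (hκ' : v (z - algebraMap K M κ' * z0) < v z0) :
    κ = κ' := by
  by_contra hne
  have h1 : v (algebraMap K M (κ' - κ)) = 1 := h.const _ (sub_ne_zero.2 (Ne.symm hne))
  have h2 : algebraMap K M (κ' - κ) * z0 =
      (z - algebraMap K M κ * z0) - (z - algebraMap K M κ' * z0) := by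
    rw [map_sub]
    ring
  have h3 : v (algebraMap K M (κ' - κ) * z0) = v z0 := by rw [map_mul, h1, one_mul]
  rw [h2] at h3
  have h4 := v.map_sub (z - algebraMap K M κ * z0) (z - algebraMap K M κ' * z0)
  rw [h3] at h4
  exact absurd h4 (not_le.2 (max_lt hκ hκ'))

theorem lam_eq (h : Plc K Q v π) {z0 z : M} (hz0 : z0 ≠ 0) {κ : K}
    (hκ : v (z - algebraMap K M κ * z0) < v z0) : lam K v z0 z = κ := by
  classical
  have hex : ∃ κ : K, v (z - algebraMap K M κ * z0) < v z0 := ⟨κ, hκ⟩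
  unfold lam
  rw [dif_pos hex]
  exact uniq h hex.choose_spec hκ

private theorem exK (h : Plc K Q v π) {z0 z : M} (hz0 : z0 ≠ 0) (hz : v z ≤ v z0) :
    ∃ κ : K, v (z - algebraMap K M κ * z0) < v z0 := by
  have hv0 : v z0 ≠ 0 := (Valuation.ne_zero_iff v).2 hz0
  have h1 : v (z / z0) ≤ 1 := by
    rw [map_div₀]
    exact div_le_one_of_le₀ hz zero_le
  obtain ⟨κ, hκ⟩ := h.res _ h1
  refine ⟨κ, ?_⟩
  have h2 : z - algebraMap K M κ * z0 = (z / z0 - algebraMap K M κ) * z0 := by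
    rw [sub_mul, div_mul_cancel₀ z hz0]
  rw [h2, map_mul]
  exact mul_lt_of_lt_one_left (zero_lt_iff.2 hv0) hκ

theorem lam_spec (h : Plc K Q v π) {z0 z : M} (hz0 : z0 ≠ 0) (hz : v z ≤ v z0) :
    v (z - algebraMap K M (lam K v z0 z) * z0) < v z0 := by
  obtain ⟨κ, hκ⟩ := exK h hz0 hz
  rw [lam_eq h hz0 hκ]
  exact hκ

theorem lam_self (h : Plc K Q v π) {z0 : M} (hz0 : z0 ≠ 0) : lam K v z0 z0 = 1 := by
  apply lam_eq h hz0
  rw [map_one, one_mul, sub_self, map_zero]
  exact zero_lt_iff.2 ((Valuation.ne_zero_iff v).2 hz0)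

theorem lam_add (h : Plc K Q v π) {z0 z z' : M} (hz0 : z0 ≠ 0) (hz : v z ≤ v z0)
    (hz' : v z' ≤ v z0) : lam K v z0 (z + z') = lam K v z0 z + lam K v z0 z' := by
  apply lam_eq h hz0
  have h1 : z + z' - algebraMap K M (lam K v z0 z + lam K v z0 z') * z0 =
      (z - algebraMap K M (lam K v z0 z) * z0) + (z' - algebraMap K M (lam K v z0 z') * z0) := by
    rw [map_add]
    ring
  rw [h1]
  exact (v.map_add _ _).trans_lt (max_lt (lam_spec h hz0 hz) (lam_spec h hz0 hz'))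

theorem lam_sum (h : Plc K Q v π) {z0 : M} (hz0 : z0 ≠ 0) {ι : Type} (s : Finset ι) (f : ι → M)
    (hf : ∀ i ∈ s, v (f i) ≤ v z0) : lam K v z0 (∑ i ∈ s, f i) = ∑ i ∈ s, lam K v z0 (f i) := by
  apply lam_eq h hz0
  have h1 : ∑ i ∈ s, f i - algebraMap K M (∑ i ∈ s, lam K v z0 (f i)) * z0 =
      ∑ i ∈ s, (f i - algebraMap K M (lam K v z0 (f i)) * z0) := by
    rw [Finset.sum_sub_distrib, map_sum, Finset.sum_mul]
  rw [h1]
  exact v.map_sum_lt ((Valuation.ne_zero_iff v).2 hz0) fun i hi => lam_spec h hz0 (hf i hi)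

/-- a value above that of `z0` -/
private theorem lam_big (h : Plc K Q v π) {z0 z : M} (hz : v z0 < v z) : lam K v z0 z = 0 := by
  classical
  unfold lam
  rw [dif_neg]
  rintro ⟨κ, hκ⟩
  have h1 : v (algebraMap K M κ * z0) < v z := by
    rw [map_mul]
    exact (mul_le_of_le_one_left' (cle h κ)).trans_lt hz
  rw [v.map_sub_eq_of_lt_left h1] at hκ
  exact absurd hκ (not_lt.2 hz.le)

private theorem lam_small (h : Plc K Q v π) {z0 z : M} (hz0 : z0 ≠ 0) (hz : v z < v z0) :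
    lam K v z0 z = 0 := by
  apply lam_eq h hz0
  rw [map_zero, zero_mul, sub_zero]
  exact hz

theorem lam_ne_zero (h : Plc K Q v π) {z0 z : M} (hz0 : z0 ≠ 0) :
    lam K v z0 z ≠ 0 → v z = v z0 := by
  intro hl
  rcases lt_trichotomy (v z) (v z0) with hlt | heq | hgt
  · exact absurd (lam_small h hz0 hlt) hl
  · exact heq
  · exact absurd (lam_big h hgt) hl

theorem lam_ne_zero' (h : Plc K Q v π) {z0 z : M} (hz0 : z0 ≠ 0) (hz : v z = v z0) :
    lam K v z0 z ≠ 0 := by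
  intro h0
  have h1 := lam_spec h hz0 hz.le
  rw [h0, map_zero, zero_mul, sub_zero, hz] at h1
  exact lt_irrefl _ h1

/-- the character of the decomposition group (for every `z`) -/
theorem lam_smul (h : Plc K Q v π) {z0 : M} (hz0 : z0 ≠ 0) (g : M ≃ₐ[Q] M)
    (hg : ∀ u, v (g u) = v u) (z : M) : lam K v z0 (g z) = lam K v z0 (g z0) * lam K v z0 z := by
  rcases lt_or_ge (v z0) (v z) with hlt | hle
  · rw [lam_big h hlt, mul_zero, lam_big h (by rw [hg]; exact hlt)]
  · apply lam_eq h hz0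
    have hgK : ∀ κ : K, g (algebraMap K M κ) = algebraMap K M κ := by
      intro κ
      rw [IsScalarTower.algebraMap_apply K Q M κ]
      exact g.commutes _
    have h1 : g z - algebraMap K M (lam K v z0 (g z0) * lam K v z0 z) * z0 =
        g (z - algebraMap K M (lam K v z0 z) * z0) +
        algebraMap K M (lam K v z0 z) * (g z0 - algebraMap K M (lam K v z0 (g z0)) * z0) := by
      rw [map_sub, map_mul, map_mul, hgK]
      ring
    rw [h1]
    refine (v.map_add _ _).trans_lt (max_lt ?_ ?_)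
    · rw [hg]
      exact lam_spec h hz0 hle
    · rw [map_mul]
      exact (mul_le_of_le_one_left' (cle h _)).trans_lt
        (lam_spec h hz0 (le_of_eq (hg z0)))

theorem chi_pow [FiniteDimensional Q M] (h : Plc K Q v π) {z0 : M} (hz0 : z0 ≠ 0)
    (g : M ≃ₐ[Q] M) (hg : ∀ u, v (g u) = v u) : ∃ n : ℕ, 0 < n ∧ lam K v z0 (g z0) ^ n = 1 := by
  refine ⟨orderOf g, orderOf_pos g, ?_⟩
  have key : ∀ n : ℕ, lam K v z0 ((g ^ n) z0) = lam K v z0 (g z0) ^ n := by
    intro n
    induction n with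
    | zero =>
      rw [pow_zero, pow_zero, AlgEquiv.one_apply]
      exact lam_self h hz0
    | succ n ih =>
      rw [pow_succ', AlgEquiv.mul_apply, lam_smul h hz0 g hg, ih, pow_succ']
  rw [← key, pow_orderOf_eq_one, AlgEquiv.one_apply]
  exact lam_self h hz0

end Pool.Agent.DI
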